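import Pool.Agent.U731.ZD.Sharp

set_option autoImplicit false
set_option linter.unusedSectionVars false

/-! The Klein bottle group and its element of norm `√6`. -/

namespace Pool.Agent.U731.ZD

open Finset

section fn

variable {G : Type} [Group G]

theorem sum_le_N2 (Z : MonoidAlgebra ℂ G) (V : Finset G) : ∑ z ∈ V, ‖Z.coeff z‖ ^ 2 ≤ N2 Z := by
  classical
  unfold N2
  rw [← Finset.sum_subset (Finset.inter_subset_left (s₁ := V) (s₂ := Z.coeff.support))]
  · exact Finset.sum_le_sum_of_subset_of_nonneg Finset.inter_subset_right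
      fun _ _ _ => by positivity
  · intro z hz hz2
    have : Z.coeff z = 0 := by
      by_contra h
      exact hz2 (mem_inter.2 ⟨hz, Finsupp.mem_support_iff.2 h⟩)
    rw [this]; simp

theorem N2_le (F : MonoidAlgebra ℂ G) (f : G → ℂ) (T : Finset G)
    (hT : ∀ g ∈ T, F.coeff g = f g) (hT' : ∀ g, g ∉ T → F.coeff g = 0) :
    N2 F ≤ ∑ g ∈ T, ‖f g‖ ^ 2 := by
  classical
  unfold N2
  have h4 : F.coeff.support ⊆ T := by
    intro g hg
    by_contra h
    exact Finsupp.mem_support_iff.1 hg (hT' g h)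
  refine le_trans (Finset.sum_le_sum_of_subset_of_nonneg h4 fun _ _ _ => by positivity) ?_
  refine Finset.sum_le_sum fun g hg => ?_
  rw [hT g hg]

theorem exists_F (f : G → ℂ) (T : Finset G) : ∃ F : MonoidAlgebra ℂ G,
    (∀ g ∈ T, F.coeff g = f g) ∧ ∀ g, g ∉ T → F.coeff g = 0 := by
  classical
  refine ⟨∑ g ∈ T, MonoidAlgebra.single g (f g), ?_, ?_⟩
  · intro g hg
    rw [MonoidAlgebra.coeff_sum, Finsupp.finsetSum_apply]
    simp only [MonoidAlgebra.coeff_single, Finsupp.single_apply]
    rw [Finset.sum_ite_eq', if_pos hg]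
  · intro g hg
    rw [MonoidAlgebra.coeff_sum, Finsupp.finsetSum_apply]
    simp only [MonoidAlgebra.coeff_single, Finsupp.single_apply]
    rw [Finset.sum_ite_eq', if_neg hg]

theorem lp_le (f : lp (fun _ : G => ℂ) 2) (T : Finset G) : ∑ g ∈ T, ‖f g‖ ^ 2 ≤ ‖f‖ ^ 2 := by
  have h := lp.sum_rpow_le_norm_rpow (p := 2) (by norm_num) f T
  simp only [ENNReal.toReal_ofNat, Real.rpow_ofNat] at h
  exact h

theorem klein_coeff (x y : G) (F : MonoidAlgebra ℂ G) (z : G) :
    ((1 + MonoidAlgebra.single x 1 + MonoidAlgebra.single y Complex.I) * F).coeff z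
      = F.coeff z + F.coeff (x⁻¹ * z) + Complex.I * F.coeff (y⁻¹ * z) := by
  rw [add_mul, add_mul, one_mul, MonoidAlgebra.coeff_add, MonoidAlgebra.coeff_add,
    Finsupp.add_apply, Finsupp.add_apply, MonoidAlgebra.coeff_single_mul_apply,
    MonoidAlgebra.coeff_single_mul_apply, one_mul]

theorem klein_fun {x y : G} (hxy : x * x = y * y) (f : lp (fun _ : G => ℂ) 2) (U : Finset G) :
    ∑ z ∈ U, ‖f z + f (x⁻¹ * z) + Complex.I * f (y⁻¹ * z)‖ ^ 2 ≤ 6 * ‖f‖ ^ 2 := by
  classical
  obtain ⟨T, hT⟩ : ∃ T : Finset G,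
    T = U ∪ U.image (fun z => x⁻¹ * z) ∪ U.image (fun z => y⁻¹ * z) := ⟨_, rfl⟩
  obtain ⟨F, hF1, hF2⟩ := exists_F f T
  have h1 : ∀ z ∈ U, f z + f (x⁻¹ * z) + Complex.I * f (y⁻¹ * z)
      = ((1 + MonoidAlgebra.single x 1 + MonoidAlgebra.single y Complex.I) * F).coeff z := by
    intro z hz
    have a1 : z ∈ T := by
      rw [hT, mem_union, mem_union]; exact Or.inl (Or.inl hz)
    have a2 : x⁻¹ * z ∈ T := by
      rw [hT, mem_union, mem_union]; exact Or.inl (Or.inr (mem_image_of_mem _ hz))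
    have a3 : y⁻¹ * z ∈ T := by
      rw [hT, mem_union]; exact Or.inr (mem_image_of_mem _ hz)
    rw [klein_coeff, hF1 _ a1, hF1 _ a2, hF1 _ a3]
  rw [Finset.sum_congr rfl fun z hz => by rw [h1 z hz]]
  refine (sum_le_N2 _ U).trans ((klein_bound hxy F).trans ?_)
  have h2 := (N2_le F f T hF1 hF2).trans (lp_le f T)
  linarith

end fn

/-- the fundamental group of the Klein bottle, the semidirect product of two copies of the group of
integers, in which the second acts on the first by the sign -/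
abbrev KleinGroup : Type :=
  Multiplicative ℤ ⋊[zpowersHom (MulAut (Multiplicative ℤ)) (MulEquiv.inv (Multiplicative ℤ))]
    Multiplicative ℤ

/-- the first generator -/
def ka : KleinGroup := ⟨1, Multiplicative.ofAdd 1⟩

/-- the second generator -/
def kb : KleinGroup := ⟨Multiplicative.ofAdd 1, Multiplicative.ofAdd 1⟩

theorem act_one (z : Multiplicative ℤ) :
    (zpowersHom (MulAut (Multiplicative ℤ)) (MulEquiv.inv (Multiplicative ℤ)))
      (Multiplicative.ofAdd 1) z = z⁻¹ := by
  rw [zpowersHom_apply]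
  simp

theorem ka_sq : ka * ka = kb * kb := by
  ext
  · rw [SemidirectProduct.mul_left, SemidirectProduct.mul_left]
    simp only [ka, kb, act_one]
    simp
  · simp [ka, kb]

theorem ka_ne_kb : ka ≠ kb := by
  intro h
  exact absurd (congrArg SemidirectProduct.left h) (by decide)

theorem ka_ne_one : (1 : KleinGroup) ≠ ka := by
  intro h
  exact absurd (congrArg SemidirectProduct.right h) (by decide)

theorem kb_ne_one : (1 : KleinGroup) ≠ kb := by
  intro h
  exact absurd (congrArg SemidirectProduct.right h) (by decide)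

theorem not_comm : ka * kb ≠ kb * ka := by
  intro h
  have := congrArg SemidirectProduct.left h
  rw [SemidirectProduct.mul_left, SemidirectProduct.mul_left] at this
  simp only [ka, kb, act_one] at this
  revert this
  decide

theorem klein_tf : ∀ g : KleinGroup, ∀ n : ℕ, 0 < n → g ^ n = 1 → g = 1 := by
  have hZ : ∀ z : Multiplicative ℤ, ∀ n : ℕ, 0 < n → z ^ n = 1 → z = 1 := by
    intro z n hn h
    have h1 : n • Multiplicative.toAdd z = 0 := by
      rw [← toAdd_pow, h, toAdd_one]
    rcases smul_eq_zero.1 h1 with h2 | h2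
    · omega
    · exact toAdd_eq_zero.1 h2
  intro g n hn h
  have h1 : g.right = 1 := by
    apply hZ _ n hn
    have h5 : SemidirectProduct.rightHom (g ^ n) = 1 := by rw [h, map_one]
    rw [map_pow] at h5
    exact h5
  have h2 : g = SemidirectProduct.inl g.left := by
    apply SemidirectProduct.ext
    · simp
    · simp [h1]
  obtain ⟨w, hw⟩ : ∃ w, w = g.left := ⟨_, rfl⟩
  rw [← hw] at h2
  subst h2
  rw [← map_pow, ← map_one (SemidirectProduct.inl)] at h
  rw [hZ _ n hn (SemidirectProduct.inl_injective h), map_one]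

theorem not_coset {G : Type} [Group G] {a b : G} (h : a * b ≠ b * a) (p x : G)
    (h0 : ∃ n : ℤ, 1 = x ^ n * p) (h1 : ∃ n : ℤ, a = x ^ n * p) (h2 : ∃ n : ℤ, b = x ^ n * p) :
    False := by
  obtain ⟨i, hi⟩ := h0
  obtain ⟨j, hj⟩ := h1
  obtain ⟨k, hk⟩ := h2
  have hp : p = x ^ (-i) := by
    rw [zpow_neg]
    exact eq_inv_of_mul_eq_one_right hi.symm
  rw [hp, ← zpow_add] at hj hk
  apply h
  rw [hj, hk, ← zpow_add, ← zpow_add, add_comm]

end Pool.Agent.U731.ZD
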