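import Pool.Agent.U731.ZD.Basic

set_option autoImplicit false
set_option linter.unusedSectionVars false

/-! Three-term elements: the test vector on the ball, the rank two case. -/

namespace Pool.Agent.U731.ZD

open Finset ComplexConjugate

variable {G : Type} [Group G]

/-- the ball of radius three -/
def h15 (a b : G) : Fin 15 → G :=
  ![1, a, b, a * a, b * a, a * b, b * b, a⁻¹, b * a⁻¹, a⁻¹ * b, b * a⁻¹ * b, b⁻¹, a * b⁻¹,
    b⁻¹ * a, a * b⁻¹ * a]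

/-- the ball of radius two -/
def y7 (a b : G) : Fin 7 → G := ![1, a, b, a⁻¹, a⁻¹ * b, b⁻¹, b⁻¹ * a]

/-- adjacency -/
def pi21 : Fin 3 → Fin 7 → Fin 15 :=
  ![![0, 1, 2, 7, 9, 11, 13], ![1, 3, 5, 0, 2, 12, 14], ![2, 4, 6, 8, 10, 0, 1]]

theorem pi21_spec (a b : G) (i : Fin 3) (j : Fin 7) :
    (![1, a, b] : Fin 3 → G) i * y7 a b j = h15 a b (pi21 i j) := by
  fin_cases i <;> fin_cases j <;> simp [y7, h15, pi21, mul_assoc]

theorem y7_spec (a b : G) (j : Fin 7) : y7 a b j = h15 a b (pi21 0 j) := by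
  rw [← pi21_spec]; simp

theorem pi21_inj : Function.Injective (pi21 0) := by decide

set_option maxRecDepth 20000 in
theorem sum21 (B : Fin 3 → Fin 7 → ℂ) (i : Fin 15) :
    (∑ k, ∑ j, if pi21 k j = i then B k j else 0)
      = (![B 0 0 + B 1 3 + B 2 5, B 0 1 + B 1 0 + B 2 6, B 0 2 + B 1 4 + B 2 0,
          B 1 1, B 2 1, B 1 2, B 2 2, B 0 3, B 2 3, B 0 4, B 2 4, B 0 5, B 1 5, B 0 6, B 1 6] :
          Fin 15 → ℂ) i := by
  rw [Fin.sum_univ_three]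
  simp only [Fin.sum_univ_seven]
  fin_cases i <;> simp [pi21]

theorem ball {a b : G} {A : Fin 3 → ℂ} {C : ℝ} (h : NB ![1, a, b] A C) (hA : ∀ i, 1 ≤ ‖A i‖)
    (hinj : Function.Injective (h15 a b)) : 6 ≤ C := by
  classical
  have hA0 : ∀ i, (‖A i‖ : ℂ) ≠ 0 := fun i => by
    have := hA i
    have h0 : ‖A i‖ ≠ 0 := by linarith
    exact_mod_cast h0
  have hAi0 : ∀ i, A i ≠ 0 := fun i h0 => hA0 i (by rw [h0]; simp)
  set φ : Fin 3 → ℂ := fun i => A i / ‖A i‖ with hφ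
  have hφn : ∀ i, ‖φ i‖ = 1 := fun i => by
    rw [hφ]; simp only [norm_div, Complex.norm_real, norm_norm]
    exact div_self (norm_ne_zero_iff.2 (hAi0 i))
  have hAφ : ∀ i, A i = ‖A i‖ * φ i := fun i => by rw [hφ]; field_simp [hA0 i]
  have hφc : ∀ i, φ i * conj (φ i) = 1 := fun i => by
    rw [Complex.mul_conj, Complex.normSq_eq_norm_sq, hφn]; simp
  set c : Fin 7 → ℂ := ![2, φ 1 * conj (φ 0), φ 2 * conj (φ 0), φ 0 * conj (φ 1),
    φ 2 * conj (φ 1), φ 0 * conj (φ 2), φ 1 * conj (φ 2)] with hc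
  have hyinj : Function.Injective (y7 a b) := by
    intro i j hij
    rw [y7_spec, y7_spec] at hij
    exact pi21_inj (hinj hij)
  set f : G → ℂ := fun x => ∑ j, if y7 a b j = x then c j else 0 with hf
  have hfy : ∀ j, f (y7 a b j) = c j := by
    intro j
    rw [hf]
    simp only
    rw [Finset.sum_eq_single j]
    · simp
    · intro k _ hk
      rw [if_neg (fun h => hk (hyinj h))]
    · intro h; exact absurd (Finset.mem_univ j) h
  have h1 := h (Finset.univ.map ⟨y7 a b, hyinj⟩) f (fun x hx => by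
    rw [hf]
    refine Finset.sum_eq_zero fun j _ => ?_
    rw [if_neg]
    intro h2
    apply hx
    rw [Finset.mem_map]
    exact ⟨j, Finset.mem_univ _, h2⟩) (Finset.univ.map ⟨h15 a b, hinj⟩)
  rw [Finset.sum_map, Finset.sum_map] at h1
  simp only [Function.Embedding.coeFn_mk, hfy] at h1
  have h2 : ∀ i, cv ![1, a, b] A f (h15 a b i)
      = ∑ k, ∑ j, if pi21 k j = i then A k * c j else 0 := by
    intro i
    simp only [cv]
    refine Finset.sum_congr rfl fun k _ => ?_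
    rw [hf, Finset.mul_sum]
    refine Finset.sum_congr rfl fun j _ => ?_
    have h3 : (y7 a b j = ((![1, a, b] : Fin 3 → G) k)⁻¹ * h15 a b i) ↔ pi21 k j = i := by
      rw [eq_inv_mul_iff_mul_eq, pi21_spec]
      exact hinj.eq_iff
    simp only [h3]
    split_ifs <;> simp
  simp only [h2] at h1
  have hcn : ∀ i j, ‖φ i * conj (φ j)‖ = 1 := fun i j => by
    rw [norm_mul, RCLike.norm_conj, hφn, hφn, one_mul]
  have v0 : A 0 * 2 + A 1 * (φ 0 * conj (φ 1)) + A 2 * (φ 0 * conj (φ 2))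
      = φ 0 * ((2 * ‖A 0‖ + ‖A 1‖ + ‖A 2‖ : ℝ) : ℂ) := by
    rw [hAφ 0, hAφ 1, hAφ 2]
    simp only [norm_mul, Complex.norm_real, norm_norm, hφn, mul_one]
    push_cast
    linear_combination (‖A 1‖ : ℂ) * φ 0 * hφc 1 + (‖A 2‖ : ℂ) * φ 0 * hφc 2
  have v1 : A 0 * (φ 1 * conj (φ 0)) + A 1 * 2 + A 2 * (φ 1 * conj (φ 2))
      = φ 1 * ((‖A 0‖ + 2 * ‖A 1‖ + ‖A 2‖ : ℝ) : ℂ) := by
    rw [hAφ 0, hAφ 1, hAφ 2]
    simp only [norm_mul, Complex.norm_real, norm_norm, hφn, mul_one]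
    push_cast
    linear_combination (‖A 0‖ : ℂ) * φ 1 * hφc 0 + (‖A 2‖ : ℂ) * φ 1 * hφc 2
  have v2 : A 0 * (φ 2 * conj (φ 0)) + A 1 * (φ 2 * conj (φ 1)) + A 2 * 2
      = φ 2 * ((‖A 0‖ + ‖A 1‖ + 2 * ‖A 2‖ : ℝ) : ℂ) := by
    rw [hAφ 0, hAφ 1, hAφ 2]
    simp only [norm_mul, Complex.norm_real, norm_norm, hφn, mul_one]
    push_cast
    linear_combination (‖A 0‖ : ℂ) * φ 2 * hφc 0 + (‖A 1‖ : ℂ) * φ 2 * hφc 1
  have hL : ∑ i, ‖∑ k, ∑ j, if pi21 k j = i then A k * c j else 0‖ ^ 2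
      = (2 * ‖A 0‖ + ‖A 1‖ + ‖A 2‖) ^ 2 + (‖A 0‖ + 2 * ‖A 1‖ + ‖A 2‖) ^ 2
        + (‖A 0‖ + ‖A 1‖ + 2 * ‖A 2‖) ^ 2 + 4 * ‖A 0‖ ^ 2 + 4 * ‖A 1‖ ^ 2 + 4 * ‖A 2‖ ^ 2 := by
    have w0 : ‖A 0 * 2 + A 1 * (φ 0 * conj (φ 1)) + A 2 * (φ 0 * conj (φ 2))‖
        = 2 * ‖A 0‖ + ‖A 1‖ + ‖A 2‖ := by
      rw [v0, norm_mul, hφn, one_mul, Complex.norm_real, Real.norm_of_nonneg (by positivity)]
    have w1 : ‖A 0 * (φ 1 * conj (φ 0)) + A 1 * 2 + A 2 * (φ 1 * conj (φ 2))‖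
        = ‖A 0‖ + 2 * ‖A 1‖ + ‖A 2‖ := by
      rw [v1, norm_mul, hφn, one_mul, Complex.norm_real, Real.norm_of_nonneg (by positivity)]
    have w2 : ‖A 0 * (φ 2 * conj (φ 0)) + A 1 * (φ 2 * conj (φ 1)) + A 2 * 2‖
        = ‖A 0‖ + ‖A 1‖ + 2 * ‖A 2‖ := by
      rw [v2, norm_mul, hφn, one_mul, Complex.norm_real, Real.norm_of_nonneg (by positivity)]
    have e : ∀ i : Fin 15, (∑ k, ∑ j, if pi21 k j = i then A k * c j else 0)
        = (![A 0 * 2 + A 1 * (φ 0 * conj (φ 1)) + A 2 * (φ 0 * conj (φ 2)),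
            A 0 * (φ 1 * conj (φ 0)) + A 1 * 2 + A 2 * (φ 1 * conj (φ 2)),
            A 0 * (φ 2 * conj (φ 0)) + A 1 * (φ 2 * conj (φ 1)) + A 2 * 2,
            A 1 * (φ 1 * conj (φ 0)), A 2 * (φ 1 * conj (φ 0)), A 1 * (φ 2 * conj (φ 0)),
            A 2 * (φ 2 * conj (φ 0)), A 0 * (φ 0 * conj (φ 1)), A 2 * (φ 0 * conj (φ 1)),
            A 0 * (φ 2 * conj (φ 1)), A 2 * (φ 2 * conj (φ 1)), A 0 * (φ 0 * conj (φ 2)),
            A 1 * (φ 0 * conj (φ 2)), A 0 * (φ 1 * conj (φ 2)), A 1 * (φ 1 * conj (φ 2))] :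
            Fin 15 → ℂ) i := by
      intro i
      rw [sum21 (fun k j => A k * c j) i]
      rfl
    rw [Finset.sum_congr rfl fun i _ => by rw [e i]]
    simp only [Fin.sum_univ_succ, Matrix.cons_val_zero, Matrix.cons_val_succ, Fin.sum_univ_zero,
      w0, w1, w2, norm_mul, hcn, mul_one]
    ring
  have hR : ∑ j, ‖c j‖ ^ 2 = 10 := by
    simp only [hc, Fin.sum_univ_succ, Matrix.cons_val_zero, Matrix.cons_val_succ,
      Fin.sum_univ_zero, hcn]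
    norm_num
  rw [hL, hR] at h1
  have a0 := hA 0
  have a1 := hA 1
  have a2 := hA 2
  nlinarith [h1, mul_nonneg (sub_nonneg.2 a0) (sub_nonneg.2 a1),
    mul_nonneg (sub_nonneg.2 a0) (sub_nonneg.2 a2), mul_nonneg (sub_nonneg.2 a1) (sub_nonneg.2 a2),
    mul_self_nonneg (‖A 0‖ - 1), mul_self_nonneg (‖A 1‖ - 1), mul_self_nonneg (‖A 2‖ - 1)]

end Pool.Agent.U731.ZD
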