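import Mathlib

set_option autoImplicit false
set_option linter.unusedSectionVars false

/-! Test vectors for convolution operators. -/

namespace Pool.Agent.U731.ZD

open Finset ComplexConjugate

variable {G : Type} [Group G] {ι κ Λ : Type} [Fintype ι] [Fintype κ] [Fintype Λ]

/-- convolution by `∑ A a * g a` -/
noncomputable def cv (g : ι → G) (A : ι → ℂ) (f : G → ℂ) (x : G) : ℂ :=
  ∑ a, A a * f ((g a)⁻¹ * x)

/-- the square of the norm of the convolution operator is at most `C` -/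
def NB (g : ι → G) (A : ι → ℂ) (C : ℝ) : Prop :=
  ∀ (T : Finset G) (f : G → ℂ), (∀ x, x ∉ T → f x = 0) → ∀ U : Finset G,
    ∑ x ∈ U, ‖cv g A f x‖ ^ 2 ≤ C * ∑ x ∈ T, ‖f x‖ ^ 2

theorem NB.right {g : ι → G} {A : ι → ℂ} {C : ℝ} (h : NB g A C) (p : G) :
    NB (fun a => g a * p) A C := by
  classical
  intro T f hf U
  have h1 := h (T.map (mulLeftEmbedding p)) (fun x => f (p⁻¹ * x)) ?_ U
  · rw [Finset.sum_map] at h1
    simp only [mulLeftEmbedding_apply, inv_mul_cancel_left] at h1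
    refine le_trans (le_of_eq ?_) h1
    refine Finset.sum_congr rfl fun x _ => ?_
    simp only [cv, mul_inv_rev, mul_assoc]
  · intro x hx
    apply hf
    intro h2
    apply hx
    rw [Finset.mem_map]
    exact ⟨_, h2, by simp⟩

theorem NB.left {g : ι → G} {A : ι → ℂ} {C : ℝ} (h : NB g A C) (p : G) :
    NB (fun a => p * g a) A C := by
  classical
  intro T f hf U
  have h1 := h T f hf (U.map (mulLeftEmbedding p⁻¹))
  rw [Finset.sum_map] at h1
  refine le_trans (le_of_eq ?_) h1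
  refine Finset.sum_congr rfl fun x _ => ?_
  simp only [cv, mul_inv_rev, mul_assoc, mulLeftEmbedding_apply]

theorem NB.perm {g : ι → G} {A : ι → ℂ} {C : ℝ} (h : NB g A C) {ι' : Type} [Fintype ι']
    (σ : ι' ≃ ι) : NB (fun a => g (σ a)) (fun a => A (σ a)) C := by
  intro T f hf U
  have h1 := h T f hf U
  refine le_trans (le_of_eq ?_) h1
  refine Finset.sum_congr rfl fun x _ => ?_
  simp only [cv]
  rw [Equiv.sum_comp σ (fun a => A a * f ((g a)⁻¹ * x))]

theorem NB.nonneg [Nonempty ι] {g : ι → G} {A : ι → ℂ} {C : ℝ} (h : NB g A C) : 0 ≤ C := by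
  classical
  have h1 := h {1} (fun x => if x = 1 then 1 else 0) (fun x hx => by
    rw [if_neg]; simpa using hx) ∅
  simpa using h1

/-- the test vector `1` -/
theorem one_pt {g : ι → G} {A : ι → ℂ} {C : ℝ} (h : NB g A C) (hg : Function.Injective g) :
    ∑ a, ‖A a‖ ^ 2 ≤ C := by
  classical
  have h1 := h {1} (fun x => if x = 1 then 1 else 0) (fun x hx => by
    rw [if_neg]; simpa using hx) (Finset.univ.map ⟨g, hg⟩)
  rw [Finset.sum_map] at h1
  simp only [Finset.sum_singleton, if_true, norm_one, one_pow, mul_one,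
    Function.Embedding.coeFn_mk] at h1
  refine le_trans (le_of_eq ?_) h1
  refine Finset.sum_congr rfl fun b _ => ?_
  congr 2
  simp only [cv]
  rw [Finset.sum_eq_single b]
  · simp
  · intro c _ hc
    rw [if_neg, mul_zero]
    rw [inv_mul_eq_one]
    exact fun h => hc (hg h)
  · intro h; exact absurd (Finset.mem_univ b) h

theorem exists_phase (u v : ℂ) : ∃ z : ℂ, ‖z‖ = 1 ∧ ‖u + v * z‖ = ‖u‖ + ‖v‖ := by
  by_cases hv : v = 0
  · exact ⟨1, by simp, by simp [hv]⟩
  by_cases hu : u = 0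
  · exact ⟨1, by simp, by simp [hu]⟩
  have hu' : (‖u‖ : ℂ) ≠ 0 := by exact_mod_cast norm_ne_zero_iff.2 hu
  have hv' : (‖v‖ : ℂ) ≠ 0 := by exact_mod_cast norm_ne_zero_iff.2 hv
  refine ⟨(u / ‖u‖) * (‖v‖ / v), ?_, ?_⟩
  · rw [norm_mul, norm_div, norm_div]
    simp [norm_ne_zero_iff.2 hu, norm_ne_zero_iff.2 hv]
  · have h1 : u + v * ((u / ‖u‖) * (‖v‖ / v)) = (u / ‖u‖) * ((‖u‖ + ‖v‖ : ℝ) : ℂ) := by
      push_cast
      field_simp
    rw [h1, norm_mul, norm_div, Complex.norm_real, Complex.norm_real, norm_norm,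
      div_self (norm_ne_zero_iff.2 hu), one_mul, Real.norm_of_nonneg (by positivity)]

/-- the test vector `1 + z x` -/
theorem two_pt [DecidableEq ι] {g : ι → G} {A : ι → ℂ} {C : ℝ} (h : NB g A C)
    (hg : Function.Injective g) (i j : ι) (hij : i ≠ j)
    (hu : ∀ a b, (g a)⁻¹ * g b = (g i)⁻¹ * g j → a = i ∧ b = j) :
    ∑ a, ‖A a‖ ^ 2 + ‖A i‖ * ‖A j‖ ≤ C := by
  classical
  set x : G := (g i)⁻¹ * g j with hx
  have hx1 : x ≠ 1 := by
    rw [hx, Ne, inv_mul_eq_one]
    exact fun h => hij (hg h)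
  obtain ⟨z, hz, hz'⟩ := exists_phase (A j) (A i)
  set f : G → ℂ := fun y => if y = 1 then 1 else if y = x then z else 0 with hf
  have hf1 : f 1 = 1 := by simp [hf]
  have hfx : f x = z := by simp [hf, hx1]
  have hf0 : ∀ y, y ≠ 1 → y ≠ x → f y = 0 := fun y h1 h2 => by simp [hf, h1, h2]
  have hT : ∀ y, y ∉ ({1, x} : Finset G) → f y = 0 := by
    intro y hy
    simp only [Finset.mem_insert, Finset.mem_singleton, not_or] at hy
    exact hf0 y hy.1 hy.2
  have hd : Disjoint (Finset.univ.map ⟨g, hg⟩)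
      ((Finset.univ.erase i).map ⟨fun a => g a * x, fun a b hab => hg (mul_right_cancel hab)⟩) := by
    rw [Finset.disjoint_left]
    intro y hy hy'
    rw [Finset.mem_map] at hy hy'
    obtain ⟨b, -, hb⟩ := hy
    obtain ⟨a, ha, hb'⟩ := hy'
    have h3 : g a * x = g b := by
      change g b = y at hb
      change g a * x = y at hb'
      rw [hb, hb']
    have h4 : (g a)⁻¹ * g b = x := by rw [← h3]; group
    exact (Finset.mem_erase.1 ha).1 (hu a b h4).1
  have h1 := h {1, x} f hT ((Finset.univ.map ⟨g, hg⟩).disjUnion _ hd)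
  rw [Finset.sum_disjUnion, Finset.sum_map, Finset.sum_map,
    Finset.sum_pair (Ne.symm hx1), hf1, hfx, hz] at h1
  simp only [Function.Embedding.coeFn_mk, norm_one, one_pow] at h1
  have h2 : ∀ b, b ≠ j → cv g A f (g b) = A b := by
    intro b hb
    simp only [cv]
    rw [Finset.sum_eq_single b]
    · rw [inv_mul_cancel, hf1, mul_one]
    · intro c _ hc
      rw [hf0, mul_zero]
      · rw [Ne, inv_mul_eq_one]; exact fun h => hc (hg h)
      · intro h3; exact hb (hu _ _ h3).2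
    · intro h; exact absurd (Finset.mem_univ b) h
  have h3 : cv g A f (g j) = A j + A i * z := by
    simp only [cv]
    have : ∀ a, A a * f ((g a)⁻¹ * g j) = (if a = j then A j else 0) + (if a = i then A i * z else 0) := by
      intro a
      by_cases h4 : a = j
      · subst h4
        rw [inv_mul_cancel, hf1, if_pos rfl, if_neg (Ne.symm hij), mul_one, add_zero]
      · by_cases h5 : a = i
        · subst h5
          rw [← hx, hfx, if_neg h4, if_pos rfl, zero_add]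
        · rw [if_neg h4, if_neg h5, hf0, mul_zero, zero_add]
          · rw [Ne, inv_mul_eq_one]; exact fun h => h4 (hg h)
          · intro h6; exact h5 (hu _ _ h6).1
    rw [Finset.sum_congr rfl fun a _ => this a, Finset.sum_add_distrib]
    simp
  have h4 : ∀ a, a ≠ i → cv g A f (g a * x) = A a * z := by
    intro a ha
    simp only [cv]
    rw [Finset.sum_eq_single a]
    · rw [inv_mul_cancel_left, hfx]
    · intro c _ hc
      rw [hf0, mul_zero]
      · intro h5
        have h6 : (g a)⁻¹ * g c = x := by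
          have : g a * x = g c := by
            have := h5
            rw [inv_mul_eq_one] at this
            exact this.symm
          rw [← this]; group
        exact ha (hu _ _ h6).1
      · intro h5
        apply hc
        apply hg
        have h6 : (g c)⁻¹ * g a = 1 := by
          have : ((g c)⁻¹ * g a) * x = 1 * x := by rw [mul_assoc, h5, one_mul]
          exact mul_right_cancel this
        rw [inv_mul_eq_one] at h6
        exact h6
    · intro h; exact absurd (Finset.mem_univ a) h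
  have h5 : ∑ b, ‖cv g A f (g b)‖ ^ 2 = ∑ b, ‖A b‖ ^ 2 + 2 * (‖A i‖ * ‖A j‖) + ‖A i‖ ^ 2 := by
    rw [← Finset.add_sum_erase _ _ (Finset.mem_univ j), h3, hz',
      Finset.sum_congr rfl fun b hb => by rw [h2 b (Finset.ne_of_mem_erase hb)],
      ← Finset.add_sum_erase _ (fun b => ‖A b‖ ^ 2) (Finset.mem_univ j)]
    ring
  have h6 : ∑ a ∈ Finset.univ.erase i, ‖cv g A f (g a * x)‖ ^ 2 + ‖A i‖ ^ 2 = ∑ b, ‖A b‖ ^ 2 := by
    rw [← Finset.add_sum_erase _ (fun b => ‖A b‖ ^ 2) (Finset.mem_univ i),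
      Finset.sum_congr rfl fun b hb => by rw [h4 b (Finset.ne_of_mem_erase hb), norm_mul, hz, mul_one]]
    ring
  rw [h5] at h1
  change _ + ∑ a ∈ Finset.univ.erase i, ‖cv g A f (g a * x)‖ ^ 2 ≤ _ at h1
  linarith

theorem lim_aux (d D : ℕ) (a b : ℝ)
    (h : ∀ M : ℕ, (M : ℝ) ^ d * a ≤ ((M : ℝ) + 2 * D) ^ d * b) : a ≤ b := by
  have h1 : Filter.Tendsto (fun M : ℕ => (1 + (2 * D : ℝ) / M) ^ d * b) Filter.atTop
      (nhds ((1 + 0) ^ d * b)) := by
    refine Filter.Tendsto.mul_const b (Filter.Tendsto.pow (Filter.Tendsto.const_add 1 ?_) d)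
    exact tendsto_const_div_atTop_nhds_zero_nat (2 * D : ℝ)
  rw [add_zero, one_pow, one_mul] at h1
  refine ge_of_tendsto h1 ?_
  rw [Filter.eventually_atTop]
  refine ⟨1, fun M hM => ?_⟩
  have hM' : (0 : ℝ) < M := by exact_mod_cast hM
  have h2 := h M
  have h3 : ((M : ℝ) + 2 * D) ^ d = (M : ℝ) ^ d * (1 + 2 * D / M) ^ d := by
    rw [← mul_pow]; congr 1; field_simp
  rw [h3, mul_assoc] at h2
  exact le_of_mul_le_mul_left h2 (by positivity)

theorem card_box (d : ℕ) (a b : ℤ) (hab : a ≤ b) :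
    ((Fintype.piFinset fun _ : Fin d => Finset.Ico a b).card : ℝ) = ((b - a : ℤ) : ℝ) ^ d := by
  rw [Fintype.card_piFinset]
  simp only [Int.card_Ico, Finset.prod_const, Finset.card_univ, Fintype.card_fin]
  push_cast
  congr 1
  have : ((b - a).toNat : ℤ) = b - a := Int.toNat_of_nonneg (by omega)
  exact_mod_cast this

/-- **Inductions of characters of free abelian subgroups.** -/
theorem boxM {d : ℕ} (P : (Fin d → ℤ) → G) (χ : (Fin d → ℤ) → ℂ) {g : ι → G} {A : ι → ℂ} {C : ℝ}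
    (h : NB g A C) (hP : ∀ m n, P (m + n) = P m * P n)
    (hχ1 : ∀ n, ‖χ n‖ = 1)
    (y : κ → G) (hy : ∀ k k' n n', y k * P n = y k' * P n' → k = k' ∧ n = n')
    (e : Λ → G) (he : ∀ l l' n n', e l * P n = e l' * P n' → l = l' ∧ n = n')
    (Ψ : G → ℂ) (h1 : ∀ x n, Ψ (x * P n) = Ψ x * χ n)
    (h2 : ∀ x, Ψ x ≠ 0 → ∃ k n, x = y k * P n) :
    ∑ l, ‖∑ a, A a * Ψ ((g a)⁻¹ * e l)‖ ^ 2 ≤ C * ∑ k, ‖Ψ (y k)‖ ^ 2 := by
  classical
  obtain ⟨D, hD⟩ : ∃ D : ℕ, ∀ a l, Ψ ((g a)⁻¹ * e l) ≠ 0 → ∃ k n, (g a)⁻¹ * e l = y k * P n ∧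
      ∀ i, |n i| ≤ D := by
    have key : ∀ p : ι × Λ, ∃ D : ℕ, Ψ ((g p.1)⁻¹ * e p.2) ≠ 0 → ∃ k n,
        (g p.1)⁻¹ * e p.2 = y k * P n ∧ ∀ i, |n i| ≤ D := by
      intro p
      by_cases h0 : Ψ ((g p.1)⁻¹ * e p.2) = 0
      · exact ⟨0, fun h => absurd h0 h⟩
      · obtain ⟨k, n, hn⟩ := h2 _ h0
        refine ⟨∑ i, (n i).natAbs, fun _ => ⟨k, n, hn, fun i => ?_⟩⟩
        rw [Int.abs_eq_natAbs]
        exact_mod_cast Finset.single_le_sum (f := fun i => (n i).natAbs) (fun _ _ => Nat.zero_le _)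
          (Finset.mem_univ i)
    choose D hD using key
    refine ⟨∑ p, D p, fun a l h0 => ?_⟩
    obtain ⟨k, n, hn, hb⟩ := hD (a, l) h0
    refine ⟨k, n, hn, fun i => (hb i).trans ?_⟩
    exact_mod_cast Finset.single_le_sum (f := D) (fun _ _ => Nat.zero_le _)
      (Finset.mem_univ (a, l))
  apply lim_aux d D
  intro M
  set F : Finset (Fin d → ℤ) := Fintype.piFinset fun _ => Finset.Ico (0 : ℤ) (M + 2 * D) with hF
  set F' : Finset (Fin d → ℤ) := Fintype.piFinset fun _ => Finset.Ico (D : ℤ) (M + D) with hF'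
  let Y : κ × (Fin d → ℤ) ↪ G := ⟨fun p => y p.1 * P p.2, fun p q hpq => by
    have := hy _ _ _ _ hpq
    exact Prod.ext this.1 this.2⟩
  let E : Λ × (Fin d → ℤ) ↪ G := ⟨fun p => e p.1 * P p.2, fun p q hpq => by
    have := he _ _ _ _ hpq
    exact Prod.ext this.1 this.2⟩
  set T : Finset G := (Finset.univ ×ˢ F).map Y with hT
  set U : Finset G := (Finset.univ ×ˢ F').map E with hU
  have h3 := h T (fun x => if x ∈ T then Ψ x else 0) (fun x hx => if_neg hx) U
  have h4 : ∑ x ∈ T, ‖(if x ∈ T then Ψ x else 0)‖ ^ 2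
      = ((M : ℝ) + 2 * D) ^ d * ∑ k, ‖Ψ (y k)‖ ^ 2 := by
    rw [Finset.sum_congr rfl fun x hx => by rw [if_pos hx], hT, Finset.sum_map,
      Finset.sum_product]
    have : ∀ k, ∑ n ∈ F, ‖Ψ (Y (k, n))‖ ^ 2 = ((M : ℝ) + 2 * D) ^ d * ‖Ψ (y k)‖ ^ 2 := by
      intro k
      rw [Finset.sum_congr rfl fun n _ => (by
        change ‖Ψ (y k * P n)‖ ^ 2 = ‖Ψ (y k)‖ ^ 2
        rw [h1, norm_mul, hχ1, mul_one] : ‖Ψ (Y (k, n))‖ ^ 2 = ‖Ψ (y k)‖ ^ 2),
        Finset.sum_const, nsmul_eq_mul, card_box d 0 _ (by positivity)]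
      push_cast
      ring
    rw [Finset.sum_congr rfl fun k _ => this k, ← Finset.mul_sum]
  have h5 : ∑ x ∈ U, ‖cv g A (fun x => if x ∈ T then Ψ x else 0) x‖ ^ 2
      = (M : ℝ) ^ d * ∑ l, ‖∑ a, A a * Ψ ((g a)⁻¹ * e l)‖ ^ 2 := by
    rw [hU, Finset.sum_map, Finset.sum_product]
    have : ∀ l, ∑ n ∈ F', ‖cv g A (fun x => if x ∈ T then Ψ x else 0) (E (l, n))‖ ^ 2
        = (M : ℝ) ^ d * ‖∑ a, A a * Ψ ((g a)⁻¹ * e l)‖ ^ 2 := by
      intro l
      have h6 : ∀ n ∈ F', ‖cv g A (fun x => if x ∈ T then Ψ x else 0) (E (l, n))‖ ^ 2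
          = ‖∑ a, A a * Ψ ((g a)⁻¹ * e l)‖ ^ 2 := by
        intro n hn
        change ‖∑ a, A a * (if (g a)⁻¹ * (e l * P n) ∈ T then Ψ ((g a)⁻¹ * (e l * P n)) else 0)‖ ^ 2 = _
        have h7 : ∀ a, A a * (if (g a)⁻¹ * (e l * P n) ∈ T then Ψ ((g a)⁻¹ * (e l * P n)) else 0)
            = (A a * Ψ ((g a)⁻¹ * e l)) * χ n := by
          intro a
          rw [← mul_assoc (g a)⁻¹, h1]
          by_cases h0 : Ψ ((g a)⁻¹ * e l) = 0
          · rw [h0]; simp
          · rw [if_pos, mul_assoc]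
            obtain ⟨k, δ, hk, hδ⟩ := hD a l h0
            rw [hk, hT, Finset.mem_map]
            refine ⟨(k, δ + n), ?_, ?_⟩
            · rw [Finset.mem_product]
              refine ⟨Finset.mem_univ _, ?_⟩
              rw [hF, Fintype.mem_piFinset]
              intro i
              rw [hF', Fintype.mem_piFinset] at hn
              have h8 := Finset.mem_Ico.1 (hn i)
              have h9 := abs_le.1 (hδ i)
              rw [Finset.mem_Ico]
              change 0 ≤ δ i + n i ∧ δ i + n i < _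
              constructor <;> omega
            · change y k * P (δ + n) = _
              rw [hP, mul_assoc]
        rw [Finset.sum_congr rfl fun a _ => h7 a, ← Finset.sum_mul, norm_mul, hχ1, mul_one]
      rw [Finset.sum_congr rfl h6, Finset.sum_const, nsmul_eq_mul,
        card_box d D _ (by omega)]
      push_cast
      ring
    rw [Finset.sum_congr rfl fun l _ => this l, ← Finset.mul_sum]
  rw [h4, h5] at h3
  linarith [h3]

section psi

variable {d : ℕ} (P : (Fin d → ℤ) → G) (χ : (Fin d → ℤ) → ℂ) (y : κ → G) (v : κ → ℂ)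

open Classical in
/-- the equivariant function with values `v k` at `y k` -/
noncomputable def Psi (x : G) : ℂ :=
  if h : ∃ p : κ × (Fin d → ℤ), x = y p.1 * P p.2 then v h.choose.1 * χ h.choose.2 else 0

theorem Psi_apply (hy : ∀ k k' n n', y k * P n = y k' * P n' → k = k' ∧ n = n') (k : κ)
    (n : Fin d → ℤ) : Psi P χ y v (y k * P n) = v k * χ n := by
  have h : ∃ p : κ × (Fin d → ℤ), y k * P n = y p.1 * P p.2 := ⟨(k, n), rfl⟩
  rw [Psi, dif_pos h]
  have h1 := hy _ _ _ _ h.choose_spec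
  rw [← h1.1, ← h1.2]

theorem Psi_zero (x : G) (h : ∀ k n, x ≠ y k * P n) : Psi P χ y v x = 0 := by
  rw [Psi, dif_neg]
  rintro ⟨p, hp⟩
  exact h _ _ hp

theorem boxPsi {g : ι → G} {A : ι → ℂ} {C : ℝ}
    (h : NB g A C) (hP : ∀ m n, P (m + n) = P m * P n) (hP1 : P 0 = 1)
    (hχ : ∀ m n, χ (m + n) = χ m * χ n) (hχ1 : ∀ n, ‖χ n‖ = 1)
    (hy : ∀ k k' n n', y k * P n = y k' * P n' → k = k' ∧ n = n')
    (e : Λ → G) (he : ∀ l l' n n', e l * P n = e l' * P n' → l = l' ∧ n = n') :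
    ∑ l, ‖∑ a, A a * Psi P χ y v ((g a)⁻¹ * e l)‖ ^ 2 ≤ C * ∑ k, ‖v k‖ ^ 2 := by
  have hinv : ∀ n, P (-n) = (P n)⁻¹ := fun n => by
    rw [eq_inv_iff_mul_eq_one, ← hP, neg_add_cancel, hP1]
  have h1 : ∀ x n, Psi P χ y v (x * P n) = Psi P χ y v x * χ n := by
    intro x n
    by_cases hx : ∃ k m, x = y k * P m
    · obtain ⟨k, m, rfl⟩ := hx
      rw [mul_assoc, ← hP, Psi_apply P χ y v hy, Psi_apply P χ y v hy, hχ, mul_assoc]
    · rw [Psi_zero P χ y v x (fun k m h => hx ⟨k, m, h⟩), Psi_zero P χ y v, zero_mul]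
      intro k m h3
      apply hx
      refine ⟨k, m + -n, ?_⟩
      rw [hP, ← mul_assoc, ← h3, hinv, mul_inv_cancel_right]
  have h2 := boxM P χ h hP hχ1 y hy e he (Psi P χ y v) h1 (by
    intro x hx
    by_contra hcon
    exact hx (Psi_zero P χ y v x fun k n h => hcon ⟨k, n, h⟩))
  have hχ0 : χ 0 = 1 := by
    have h3 := hχ 0 0
    rw [add_zero] at h3
    have h4 : χ 0 ≠ 0 := by
      intro h5
      have := hχ1 0
      rw [h5, norm_zero] at this
      exact zero_ne_one this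
    exact (mul_left_cancel₀ h4 (by rw [← h3, mul_one])).symm
  have h3 : ∀ k, Psi P χ y v (y k) = v k := by
    intro k
    have := Psi_apply P χ y v hy k 0
    rwa [hP1, hχ0, mul_one, mul_one] at this
  simpa only [h3] using h2

end psi

end Pool.Agent.U731.ZD
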