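import Pool.Agent.U731.ZD.Hex

set_option autoImplicit false
set_option linter.unusedSectionVars false

/-! Three-term elements of small norm. -/

namespace Pool.Agent.U731.ZD

open Finset ComplexConjugate

variable {G : Type} [Group G]

/-- Commuting elements of a torsion-free group with a relation are powers of one element. -/
theorem common_root (htf : ∀ g : G, ∀ n : ℕ, 0 < n → g ^ n = 1 → g = 1) {a b : G}
    (hab : Commute a b) {i j : ℤ} (hij : ¬ (i = 0 ∧ j = 0)) (h : a ^ i * b ^ j = 1) :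
    ∃ (x : G) (p q : ℤ), a = x ^ p ∧ b = x ^ q := by
  obtain ⟨i', hi'⟩ : (Int.gcd i j : ℤ) ∣ i := Int.gcd_dvd_left ..
  obtain ⟨j', hj'⟩ : (Int.gcd i j : ℤ) ∣ j := Int.gcd_dvd_right ..
  set d := Int.gcd i j with hd
  have hd0 : 0 < d := by
    rw [hd]
    apply Nat.pos_of_ne_zero
    intro h0
    exact hij (Int.gcd_eq_zero_iff.1 h0)
  set u := Int.gcdA i j
  set v := Int.gcdB i j
  have hbez : (d : ℤ) = i * u + j * v := Int.gcd_eq_gcd_ab i j
  have hbez' : i' * u + j' * v = 1 := by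
    have h1 : (d : ℤ) * (i' * u + j' * v) = d * 1 := by
      rw [mul_one]
      conv_rhs => rw [hbez, hi', hj']
      ring
    exact mul_left_cancel₀ (by exact_mod_cast hd0.ne') h1
  have hrel : a ^ i' * b ^ j' = 1 := by
    refine htf _ d hd0 ?_
    rw [← zpow_natCast, ((hab.zpow_left i').zpow_right j').mul_zpow, ← zpow_mul, ← zpow_mul,
      mul_comm i', mul_comm j', ← hi', ← hj', h]
  have hr1 : a ^ i' = b ^ (-j') := by
    rw [zpow_neg]; exact eq_inv_of_mul_eq_one_left hrel
  have hc : ∀ m n : ℤ, Commute (a ^ m) (b ^ n) := fun m n => (hab.zpow_left m).zpow_right n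
  refine ⟨a ^ v * b ^ (-u), j', -i', ?_, ?_⟩
  · rw [(hc _ _).mul_zpow, ← zpow_mul, ← zpow_mul]
    have e : -u * j' = (-j') * u := by ring
    rw [e, zpow_mul b, ← hr1, ← zpow_mul, ← zpow_add]
    have e2 : v * j' + i' * u = 1 := by linarith
    rw [e2, zpow_one]
  · rw [(hc _ _).mul_zpow, ← zpow_mul, ← zpow_mul]
    have e : v * -i' = i' * (-v) := by ring
    rw [e, zpow_mul a, hr1, ← zpow_mul, ← zpow_add]
    have e2 : -j' * -v + -u * -i' = 1 := by linarith
    rw [e2, zpow_one]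

/-- **Three-term elements of norm less than `√6`.** -/
theorem three (htf : ∀ g : G, ∀ n : ℕ, 0 < n → g ^ n = 1 → g = 1) {g : Fin 3 → G}
    {A : Fin 3 → ℂ} {C : ℝ} (h : NB g A C) (hg : Function.Injective g) (hA : ∀ i, 1 ≤ ‖A i‖)
    (hC : C < 6) : ∃ p x : G, ∀ i, ∃ n : ℤ, g i = x ^ n * p := by
  set a := g 1 * (g 0)⁻¹ with ha
  set b := g 2 * (g 0)⁻¹ with hb
  have hg0 : (fun i => g i * (g 0)⁻¹) = (![1, a, b] : Fin 3 → G) := by
    funext i
    fin_cases i
    · simp
    · rfl
    · rfl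
  have h1 : NB ![1, a, b] A C := by
    have := h.right (g 0)⁻¹
    rwa [hg0] at this
  have ha1 : a ≠ 1 := by
    rw [ha, Ne, mul_inv_eq_one]
    intro h2
    exact absurd (hg h2) (by decide)
  have hb1 : b ≠ 1 := by
    rw [hb, Ne, mul_inv_eq_one]
    intro h2
    exact absurd (hg h2) (by decide)
  have hab : a ≠ b := by
    rw [ha, hb]
    intro h2
    exact absurd (hg (mul_right_cancel h2)) (by decide)
  have hfin : (∃ (x : G) (p q : ℤ), a = x ^ p ∧ b = x ^ q) →
      ∃ p x : G, ∀ i, ∃ n : ℤ, g i = x ^ n * p := by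
    rintro ⟨x, p, q, hp, hq⟩
    refine ⟨g 0, x, fun i => ?_⟩
    fin_cases i
    · exact ⟨0, by simp⟩
    · refine ⟨p, ?_⟩
      change g 1 = _
      rw [← hp, ha]
      group
    · refine ⟨q, ?_⟩
      change g 2 = _
      rw [← hq, hb]
      group
  by_cases hc : a * b = b * a
  · apply hfin
    by_contra hcon
    have h9 := rank_two h1 hA hc (fun i j hij => by
      by_contra h0
      exact hcon (common_root htf hc h0 hij))
    linarith
  by_cases k1 : a * a = b * b
  · have := klein htf h1 hA hab k1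
    linarith
  by_cases k2 : a⁻¹ * a⁻¹ = (b * a⁻¹) * (b * a⁻¹)
  · let σ : Fin 3 ≃ Fin 3 := Equiv.swap 0 1
    have e : (fun i => (![1, a, b] : Fin 3 → G) (σ i) * a⁻¹)
        = (![1, a⁻¹, b * a⁻¹] : Fin 3 → G) := by
      funext i
      fin_cases i
      · simp [σ]
      · simp [σ]
      · simp [σ, Equiv.swap_apply_of_ne_of_ne]
    have h2 := (h1.perm σ).right a⁻¹
    rw [e] at h2
    have := klein htf h2 (fun i => hA _) (by
      intro h3
      apply hb1
      have : b * a⁻¹ = 1 * a⁻¹ := by rw [one_mul]; exact h3.symm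
      exact mul_right_cancel this) k2
    linarith
  by_cases k3 : b⁻¹ * b⁻¹ = (a * b⁻¹) * (a * b⁻¹)
  · let σ : Fin 3 ≃ Fin 3 := ⟨![2, 0, 1], ![1, 2, 0], by decide, by decide⟩
    have e : (fun i => (![1, a, b] : Fin 3 → G) (σ i) * b⁻¹)
        = (![1, b⁻¹, a * b⁻¹] : Fin 3 → G) := by
      funext i
      fin_cases i
      · simp [σ]
      · simp [σ]
      · simp [σ]
    have h2 := (h1.perm σ).right b⁻¹
    rw [e] at h2
    have := klein htf h2 (fun i => hA _) (by
      intro h3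
      apply ha1
      have : a * b⁻¹ = 1 * b⁻¹ := by rw [one_mul]; exact h3.symm
      exact mul_right_cancel this) k3
    linarith
  have hd1 : a * b⁻¹ ≠ 1 := by rw [Ne, mul_inv_eq_one]; exact hab
  have hd2 : a⁻¹ * b ≠ 1 := by rw [Ne, inv_mul_eq_one]; exact hab
  have := ball h1 hA (h15_inj htf ha1 hb1 hd1 hd2 hc k1 k2 k3)
  linarith

end Pool.Agent.U731.ZD
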