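import Pool.Agent.U731.ZD.FiveA
import Pool.Agent.U731.ZD.Three

set_option autoImplicit false
set_option linter.unusedSectionVars false

/-! Elements of norm less than `√6`. -/

namespace Pool.Agent.U731.ZD

open Finset

variable {G : Type} [Group G]

variable (htf : ∀ g : G, ∀ n : ℕ, 0 < n → g ^ n = 1 → g = 1)

theorem dist_of_inj {y : Fin 5 → G} (hy : Function.Injective y) :
    Dist (y 0) (y 1) (y 2) (y 3) (y 4) :=
  ⟨fun h => absurd (hy h) (by decide), fun h => absurd (hy h) (by decide),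
    fun h => absurd (hy h) (by decide), fun h => absurd (hy h) (by decide),
    fun h => absurd (hy h) (by decide), fun h => absurd (hy h) (by decide),
    fun h => absurd (hy h) (by decide), fun h => absurd (hy h) (by decide),
    fun h => absurd (hy h) (by decide), fun h => absurd (hy h) (by decide)⟩

theorem D5_perm {g : Fin 5 → G} (D : D5 g) (σ : Fin 5 ≃ Fin 5) : D5 fun i => g (σ i) := by
  intro i j hij
  obtain ⟨a, b, h1, h2, h3, h4, h5, h⟩ := D (σ i) (σ j) (σ.injective.ne hij)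
  refine ⟨σ.symm a, σ.symm b, ?_, ?_, ?_, ?_, ?_, ?_⟩
  · exact fun h' => h1 (by rw [← h', Equiv.apply_symm_apply])
  · exact fun h' => h2 (by rw [← h', Equiv.apply_symm_apply])
  · exact fun h' => h3 (by rw [← h', Equiv.apply_symm_apply])
  · exact fun h' => h4 (by rw [← h', Equiv.apply_symm_apply])
  · exact fun h' => h5 (σ.symm.injective h')
  · simpa using h

include htf in
theorem D5_false {g : Fin 5 → G} (hg : Function.Injective g) (D : D5 g) : False := by
  have key : ∀ σ : Fin 5 ≃ Fin 5, σ 0 = 0 → σ 1 = 1 →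
      (g 0)⁻¹ * g 1 = (g (σ 2))⁻¹ * g (σ 3) → False := by
    intro σ h0 h1 h
    refine tree_false htf (dist_of_inj (y := fun i => g (σ i)) fun i j hij => σ.injective (hg hij))
      (D5_perm D σ) ?_
    rw [h0, h1]
    exact h
  rcases opt01 D with h | h | h | h | h | h
  · exact key (Equiv.refl _) rfl rfl h
  · exact key ⟨![0, 1, 2, 4, 3], ![0, 1, 2, 4, 3], by decide, by decide⟩ rfl rfl h
  · exact key ⟨![0, 1, 3, 2, 4], ![0, 1, 3, 2, 4], by decide, by decide⟩ rfl rfl h
  · exact key ⟨![0, 1, 3, 4, 2], ![0, 1, 4, 2, 3], by decide, by decide⟩ rfl rfl h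
  · exact key ⟨![0, 1, 4, 2, 3], ![0, 1, 3, 4, 2], by decide, by decide⟩ rfl rfl h
  · exact key ⟨![0, 1, 4, 3, 2], ![0, 1, 4, 3, 2], by decide, by decide⟩ rfl rfl h

include htf in
/-- **Five-term elements have norm at least `√6`.** -/
theorem five {g : Fin 5 → G} {A : Fin 5 → ℂ} {C : ℝ} (h : NB g A C)
    (hg : Function.Injective g) (hA : ∀ i, 1 ≤ ‖A i‖) : 6 ≤ C := by
  by_contra hC
  rw [not_le] at hC
  apply D5_false htf hg
  refine H5_disj htf hg ?_
  intro i j hij
  by_contra hcon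
  have h1 := two_pt h hg i j hij (fun a b hab => by
    by_contra hne
    exact hcon ⟨a, b, hne, hab⟩)
  have h2 : ∑ a : Fin 5, (1 : ℝ) ≤ ∑ a, ‖A a‖ ^ 2 :=
    Finset.sum_le_sum fun a _ => by nlinarith [hA a]
  simp at h2
  nlinarith [hA i, hA j]

include htf in
/-- **Elements of norm less than `√6`** have at most three terms, in a coset of a cyclic group. -/
theorem small {k : ℕ} {g : Fin k → G} {A : Fin k → ℂ} {C : ℝ} (h : NB g A C)
    (hg : Function.Injective g) (hA : ∀ i, 1 ≤ ‖A i‖) (hC : C < 6) :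
    k ≤ 3 ∧ ∃ p x : G, ∀ i, ∃ n : ℤ, g i = x ^ n * p := by
  have h6 : k < 6 := by
    by_contra hk
    rw [not_lt] at hk
    have h1 := one_pt h hg
    have h2 : ∑ a : Fin k, (1 : ℝ) ≤ ∑ a, ‖A a‖ ^ 2 :=
      Finset.sum_le_sum fun a _ => by nlinarith [hA a]
    simp at h2
    have : (6 : ℝ) ≤ k := by exact_mod_cast hk
    linarith
  interval_cases k
  · exact ⟨by norm_num, 1, 1, fun i => i.elim0⟩
  · refine ⟨by norm_num, g 0, 1, fun i => ⟨0, ?_⟩⟩
    rw [Subsingleton.elim i 0]
    simp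
  · refine ⟨by norm_num, g 0, g 1 * (g 0)⁻¹, fun i => ?_⟩
    fin_cases i
    · exact ⟨0, by simp⟩
    · exact ⟨1, by simp⟩
  · exact ⟨le_rfl, three htf h hg hA hC⟩
  · exact absurd (four htf h hg hA) (by linarith)
  · exact absurd (five htf h hg hA) (by linarith)

end Pool.Agent.U731.ZD
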