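import Pool.Agent.U731.ZD.FiveC

set_option autoImplicit false
set_option linter.unusedSectionVars false
set_option linter.unusedVariables false
set_option linter.unusedSimpArgs false

/-! Five elements with disjoint partners: relations without solutions in torsion-free groups. -/

namespace Pool.Agent.U731.ZD

variable {G : Type} [Group G]

/-- the elements are distinct -/
structure Dist (x0 x1 x2 x3 x4 : G) : Prop where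
  n01 : x0 ≠ x1
  n02 : x0 ≠ x2
  n03 : x0 ≠ x3
  n04 : x0 ≠ x4
  n12 : x1 ≠ x2
  n13 : x1 ≠ x3
  n14 : x1 ≠ x4
  n23 : x2 ≠ x3
  n24 : x2 ≠ x4
  n34 : x3 ≠ x4

theorem dist_mul {x0 x1 x2 x3 x4 : G} (D : Dist x0 x1 x2 x3 x4) (c : G) :
    Dist (c * x0) (c * x1) (c * x2) (c * x3) (c * x4) :=
  ⟨fun h => D.n01 (mul_left_cancel h), fun h => D.n02 (mul_left_cancel h),
    fun h => D.n03 (mul_left_cancel h), fun h => D.n04 (mul_left_cancel h),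
    fun h => D.n12 (mul_left_cancel h), fun h => D.n13 (mul_left_cancel h),
    fun h => D.n14 (mul_left_cancel h), fun h => D.n23 (mul_left_cancel h),
    fun h => D.n24 (mul_left_cancel h), fun h => D.n34 (mul_left_cancel h)⟩

theorem tr {c p q r s : G} (h : p⁻¹ * q = r⁻¹ * s) :
    (c * p)⁻¹ * (c * q) = (c * r)⁻¹ * (c * s) := by
  simp only [mul_inv_rev, mul_assoc, inv_mul_cancel_left]
  exact h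

/-- disjoint partners -/
def D5 (g : Fin 5 → G) : Prop := ∀ i j : Fin 5, i ≠ j → ∃ a b : Fin 5,
  a ≠ i ∧ a ≠ j ∧ b ≠ i ∧ b ≠ j ∧ a ≠ b ∧ (g i)⁻¹ * g j = (g a)⁻¹ * g b

section leaves

variable (htf : ∀ g : G, ∀ n : ℕ, 0 < n → g ^ n = 1 → g = 1)

include htf

theorem leaf0 {x0 x1 x2 x3 x4 : G} (h0 : x0 = 1) (D : Dist x0 x1 x2 x3 x4)
    (R0 : x0⁻¹ * x3 = x1⁻¹ * x2) (R1 : x0⁻¹ * x4 = x1⁻¹ * x2) : False := by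
  have S0 : x0⁻¹ * x3 * (x1⁻¹ * x2)⁻¹ = 1 := mul_inv_eq_one.2 R0
  have S1 : x0⁻¹ * x4 * (x1⁻¹ * x2)⁻¹ = 1 := mul_inv_eq_one.2 R1
  clear R0 R1
  subst h0
  have V0 : x1 * ((x2 * x3⁻¹))⁻¹ = 1 := by
    calc x1 * ((x2 * x3⁻¹))⁻¹ = (x2 * x3⁻¹) * (1⁻¹ * x3 * (x1⁻¹ * x2)⁻¹) * (x2 * x3⁻¹)⁻¹ := by simp only [pow_succ, pow_zero, mul_assoc, mul_inv_rev, inv_inv, mul_inv_cancel, inv_mul_cancel, mul_inv_cancel_left, inv_mul_cancel_left, one_mul, mul_one, inv_one]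
      _ = 1 := by rw [S0]; simp
  rw [mul_inv_eq_one] at V0
  subst V0
  have P : (x4 * x3⁻¹) ^ 1 = 1 := by
    calc (x4 * x3⁻¹) ^ 1 = 1 * (1⁻¹ * x4 * ((x2 * x3⁻¹)⁻¹ * x2)⁻¹) * 1⁻¹ := by simp only [pow_succ, pow_zero, mul_assoc, mul_inv_rev, inv_inv, mul_inv_cancel, inv_mul_cancel, mul_inv_cancel_left, inv_mul_cancel_left, one_mul, mul_one, inv_one]
      _ = 1 := by rw [S1]; simp
  have Q : (x4 * x3⁻¹) = 1 := htf _ 1 (by norm_num) P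
  exact D.n34 (mul_inv_eq_one.1 Q).symm

theorem leaf1 {x0 x1 x2 x3 x4 : G} (h0 : x0 = 1) (D : Dist x0 x1 x2 x3 x4)
    (R0 : x0⁻¹ * x2 = x1⁻¹ * x3) (R1 : x0⁻¹ * x3 = x1⁻¹ * x4) (R2 : x0⁻¹ * x4 = x1⁻¹ * x2) : False := by
  have S0 : x0⁻¹ * x2 * (x1⁻¹ * x3)⁻¹ = 1 := mul_inv_eq_one.2 R0
  have S1 : x0⁻¹ * x3 * (x1⁻¹ * x4)⁻¹ = 1 := mul_inv_eq_one.2 R1
  have S2 : x0⁻¹ * x4 * (x1⁻¹ * x2)⁻¹ = 1 := mul_inv_eq_one.2 R2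
  clear R0 R1 R2
  subst h0
  have V0 : x1 * ((x3 * x2⁻¹))⁻¹ = 1 := by
    calc x1 * ((x3 * x2⁻¹))⁻¹ = (x3 * x2⁻¹) * (1⁻¹ * x2 * (x1⁻¹ * x3)⁻¹) * (x3 * x2⁻¹)⁻¹ := by simp only [pow_succ, pow_zero, mul_assoc, mul_inv_rev, inv_inv, mul_inv_cancel, inv_mul_cancel, mul_inv_cancel_left, inv_mul_cancel_left, one_mul, mul_one, inv_one]
      _ = 1 := by rw [S0]; simp
  rw [mul_inv_eq_one] at V0
  subst V0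
  have V1 : x2 * ((x3 * x4⁻¹ * x3))⁻¹ = 1 := by
    calc x2 * ((x3 * x4⁻¹ * x3))⁻¹ = 1 * (1⁻¹ * x3 * ((x3 * x2⁻¹)⁻¹ * x4)⁻¹)⁻¹ * 1⁻¹ := by simp only [pow_succ, pow_zero, mul_assoc, mul_inv_rev, inv_inv, mul_inv_cancel, inv_mul_cancel, mul_inv_cancel_left, inv_mul_cancel_left, one_mul, mul_one, inv_one]
      _ = 1 := by rw [S1]; simp
  rw [mul_inv_eq_one] at V1
  subst V1
  have P : (x4 * x3⁻¹) ^ 3 = 1 := by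
    calc (x4 * x3⁻¹) ^ 3 = 1 * (1⁻¹ * x4 * ((x3 * (x3 * x4⁻¹ * x3)⁻¹)⁻¹ * (x3 * x4⁻¹ * x3))⁻¹) * 1⁻¹ := by simp only [pow_succ, pow_zero, mul_assoc, mul_inv_rev, inv_inv, mul_inv_cancel, inv_mul_cancel, mul_inv_cancel_left, inv_mul_cancel_left, one_mul, mul_one, inv_one]
      _ = 1 := by rw [S2]; simp
  have Q : (x4 * x3⁻¹) = 1 := htf _ 3 (by norm_num) P
  exact D.n34 (mul_inv_eq_one.1 Q).symm

theorem leaf2 {x0 x1 x2 x3 x4 : G} (h0 : x0 = 1) (D : Dist x0 x1 x2 x3 x4)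
    (R0 : x0⁻¹ * x2 = x1⁻¹ * x4) (R1 : x0⁻¹ * x3 = x1⁻¹ * x4) : False := by
  have S0 : x0⁻¹ * x2 * (x1⁻¹ * x4)⁻¹ = 1 := mul_inv_eq_one.2 R0
  have S1 : x0⁻¹ * x3 * (x1⁻¹ * x4)⁻¹ = 1 := mul_inv_eq_one.2 R1
  clear R0 R1
  subst h0
  have V0 : x1 * ((x4 * x2⁻¹))⁻¹ = 1 := by
    calc x1 * ((x4 * x2⁻¹))⁻¹ = (x4 * x2⁻¹) * (1⁻¹ * x2 * (x1⁻¹ * x4)⁻¹) * (x4 * x2⁻¹)⁻¹ := by simp only [pow_succ, pow_zero, mul_assoc, mul_inv_rev, inv_inv, mul_inv_cancel, inv_mul_cancel, mul_inv_cancel_left, inv_mul_cancel_left, one_mul, mul_one, inv_one]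
      _ = 1 := by rw [S0]; simp
  rw [mul_inv_eq_one] at V0
  subst V0
  have P : (x3 * x2⁻¹) ^ 1 = 1 := by
    calc (x3 * x2⁻¹) ^ 1 = 1 * (1⁻¹ * x3 * ((x4 * x2⁻¹)⁻¹ * x4)⁻¹) * 1⁻¹ := by simp only [pow_succ, pow_zero, mul_assoc, mul_inv_rev, inv_inv, mul_inv_cancel, inv_mul_cancel, mul_inv_cancel_left, inv_mul_cancel_left, one_mul, mul_one, inv_one]
      _ = 1 := by rw [S1]; simp
  have Q : (x3 * x2⁻¹) = 1 := htf _ 1 (by norm_num) P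
  exact D.n23 (mul_inv_eq_one.1 Q).symm

theorem leaf3 {x0 x1 x2 x3 x4 : G} (h0 : x0 = 1) (D : Dist x0 x1 x2 x3 x4)
    (R0 : x0⁻¹ * x1 = x2⁻¹ * x3) (R1 : x2⁻¹ * x4 = x0⁻¹ * x1) : False := by
  have S0 : x0⁻¹ * x1 * (x2⁻¹ * x3)⁻¹ = 1 := mul_inv_eq_one.2 R0
  have S1 : x2⁻¹ * x4 * (x0⁻¹ * x1)⁻¹ = 1 := mul_inv_eq_one.2 R1
  clear R0 R1
  subst h0
  have V0 : x1 * ((x2⁻¹ * x3))⁻¹ = 1 := by
    calc x1 * ((x2⁻¹ * x3))⁻¹ = 1 * (1⁻¹ * x1 * (x2⁻¹ * x3)⁻¹) * 1⁻¹ := by simp only [pow_succ, pow_zero, mul_assoc, mul_inv_rev, inv_inv, mul_inv_cancel, inv_mul_cancel, mul_inv_cancel_left, inv_mul_cancel_left, one_mul, mul_one, inv_one]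
      _ = 1 := by rw [S0]; simp
  rw [mul_inv_eq_one] at V0
  subst V0
  have P : (x4 * x3⁻¹) ^ 1 = 1 := by
    calc (x4 * x3⁻¹) ^ 1 = (x2) * (x2⁻¹ * x4 * (1⁻¹ * (x2⁻¹ * x3))⁻¹) * (x2)⁻¹ := by simp only [pow_succ, pow_zero, mul_assoc, mul_inv_rev, inv_inv, mul_inv_cancel, inv_mul_cancel, mul_inv_cancel_left, inv_mul_cancel_left, one_mul, mul_one, inv_one]
      _ = 1 := by rw [S1]; simp
  have Q : (x4 * x3⁻¹) = 1 := htf _ 1 (by norm_num) P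
  exact D.n34 (mul_inv_eq_one.1 Q).symm

theorem leaf4 {x0 x1 x2 x3 x4 : G} (h0 : x0 = 1) (D : Dist x0 x1 x2 x3 x4)
    (R0 : x0⁻¹ * x3 = x1⁻¹ * x4) (R1 : x2⁻¹ * x4 = x0⁻¹ * x3) : False := by
  have S0 : x0⁻¹ * x3 * (x1⁻¹ * x4)⁻¹ = 1 := mul_inv_eq_one.2 R0
  have S1 : x2⁻¹ * x4 * (x0⁻¹ * x3)⁻¹ = 1 := mul_inv_eq_one.2 R1
  clear R0 R1
  subst h0
  have V0 : x3 * ((x1⁻¹ * x4))⁻¹ = 1 := by
    calc x3 * ((x1⁻¹ * x4))⁻¹ = 1 * (1⁻¹ * x3 * (x1⁻¹ * x4)⁻¹) * 1⁻¹ := by simp only [pow_succ, pow_zero, mul_assoc, mul_inv_rev, inv_inv, mul_inv_cancel, inv_mul_cancel, mul_inv_cancel_left, inv_mul_cancel_left, one_mul, mul_one, inv_one]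
      _ = 1 := by rw [S0]; simp
  rw [mul_inv_eq_one] at V0
  subst V0
  have P : (x2⁻¹ * x1) ^ 1 = 1 := by
    calc (x2⁻¹ * x1) ^ 1 = 1 * (x2⁻¹ * x4 * (1⁻¹ * (x1⁻¹ * x4))⁻¹) * 1⁻¹ := by simp only [pow_succ, pow_zero, mul_assoc, mul_inv_rev, inv_inv, mul_inv_cancel, inv_mul_cancel, mul_inv_cancel_left, inv_mul_cancel_left, one_mul, mul_one, inv_one]
      _ = 1 := by rw [S1]; simp
  have Q : (x2⁻¹ * x1) = 1 := htf _ 1 (by norm_num) P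
  exact D.n12 (inv_mul_eq_one.1 Q).symm

theorem leaf5 {x0 x1 x2 x3 x4 : G} (h0 : x0 = 1) (D : Dist x0 x1 x2 x3 x4)
    (R0 : x0⁻¹ * x1 = x2⁻¹ * x3) (R1 : x0⁻¹ * x2 = x3⁻¹ * x1) (R2 : x0⁻¹ * x3 = x1⁻¹ * x4) (R3 : x2⁻¹ * x4 = x1⁻¹ * x0) : False := by
  have S0 : x0⁻¹ * x1 * (x2⁻¹ * x3)⁻¹ = 1 := mul_inv_eq_one.2 R0
  have S1 : x0⁻¹ * x2 * (x3⁻¹ * x1)⁻¹ = 1 := mul_inv_eq_one.2 R1
  have S2 : x0⁻¹ * x3 * (x1⁻¹ * x4)⁻¹ = 1 := mul_inv_eq_one.2 R2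
  have S3 : x2⁻¹ * x4 * (x1⁻¹ * x0)⁻¹ = 1 := mul_inv_eq_one.2 R3
  clear R0 R1 R2 R3
  subst h0
  have V0 : x1 * ((x3 * x2))⁻¹ = 1 := by
    calc x1 * ((x3 * x2))⁻¹ = (x3) * (1⁻¹ * x2 * (x3⁻¹ * x1)⁻¹)⁻¹ * (x3)⁻¹ := by simp only [pow_succ, pow_zero, mul_assoc, mul_inv_rev, inv_inv, mul_inv_cancel, inv_mul_cancel, mul_inv_cancel_left, inv_mul_cancel_left, one_mul, mul_one, inv_one]
      _ = 1 := by rw [S1]; simp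
  rw [mul_inv_eq_one] at V0
  subst V0
  have V1 : x3 * ((x4⁻¹))⁻¹ = 1 := by
    calc x3 * ((x4⁻¹))⁻¹ = (x4⁻¹ * x2) * (x2⁻¹ * x4 * ((x3 * x2)⁻¹ * 1)⁻¹) * (x4⁻¹ * x2)⁻¹ := by simp only [pow_succ, pow_zero, mul_assoc, mul_inv_rev, inv_inv, mul_inv_cancel, inv_mul_cancel, mul_inv_cancel_left, inv_mul_cancel_left, one_mul, mul_one, inv_one]
      _ = 1 := by rw [S3]; simp
  rw [mul_inv_eq_one] at V1
  subst V1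
  have V2 : x2 * ((x4 * x4 * x4))⁻¹ = 1 := by
    calc x2 * ((x4 * x4 * x4))⁻¹ = (x4 * x4 * x4) * (1⁻¹ * (x4⁻¹) * (((x4⁻¹) * x2)⁻¹ * x4)⁻¹) * (x4 * x4 * x4)⁻¹ := by simp only [pow_succ, pow_zero, mul_assoc, mul_inv_rev, inv_inv, mul_inv_cancel, inv_mul_cancel, mul_inv_cancel_left, inv_mul_cancel_left, one_mul, mul_one, inv_one]
      _ = 1 := by rw [S2]; simp
  rw [mul_inv_eq_one] at V2
  subst V2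
  have P : (x4) ^ 6 = 1 := by
    calc (x4) ^ 6 = 1 * (1⁻¹ * ((x4⁻¹) * (x4 * x4 * x4)) * ((x4 * x4 * x4)⁻¹ * (x4⁻¹))⁻¹) * 1⁻¹ := by simp only [pow_succ, pow_zero, mul_assoc, mul_inv_rev, inv_inv, mul_inv_cancel, inv_mul_cancel, mul_inv_cancel_left, inv_mul_cancel_left, one_mul, mul_one, inv_one]
      _ = 1 := by rw [S0]; simp
  have Q : (x4) = 1 := htf _ 6 (by norm_num) P
  exact D.n04 Q.symm

theorem leaf6 {x0 x1 x2 x3 x4 : G} (h0 : x0 = 1) (D : Dist x0 x1 x2 x3 x4)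
    (R0 : x0⁻¹ * x2 = x3⁻¹ * x1) (R1 : x2⁻¹ * x4 = x1⁻¹ * x3) : False := by
  have S0 : x0⁻¹ * x2 * (x3⁻¹ * x1)⁻¹ = 1 := mul_inv_eq_one.2 R0
  have S1 : x2⁻¹ * x4 * (x1⁻¹ * x3)⁻¹ = 1 := mul_inv_eq_one.2 R1
  clear R0 R1
  subst h0
  have V0 : x1 * ((x3 * x2))⁻¹ = 1 := by
    calc x1 * ((x3 * x2))⁻¹ = (x3) * (1⁻¹ * x2 * (x3⁻¹ * x1)⁻¹)⁻¹ * (x3)⁻¹ := by simp only [pow_succ, pow_zero, mul_assoc, mul_inv_rev, inv_inv, mul_inv_cancel, inv_mul_cancel, mul_inv_cancel_left, inv_mul_cancel_left, one_mul, mul_one, inv_one]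
      _ = 1 := by rw [S0]; simp
  rw [mul_inv_eq_one] at V0
  subst V0
  have P : (x4) ^ 1 = 1 := by
    calc (x4) ^ 1 = (x2) * (x2⁻¹ * x4 * ((x3 * x2)⁻¹ * x3)⁻¹) * (x2)⁻¹ := by simp only [pow_succ, pow_zero, mul_assoc, mul_inv_rev, inv_inv, mul_inv_cancel, inv_mul_cancel, mul_inv_cancel_left, inv_mul_cancel_left, one_mul, mul_one, inv_one]
      _ = 1 := by rw [S1]; simp
  have Q : (x4) = 1 := htf _ 1 (by norm_num) P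
  exact D.n04 Q.symm

theorem leaf7 {x0 x1 x2 x3 x4 : G} (h0 : x0 = 1) (D : Dist x0 x1 x2 x3 x4)
    (R0 : x0⁻¹ * x3 = x1⁻¹ * x4) (R1 : x0⁻¹ * x4 = x1⁻¹ * x2) (R2 : x2⁻¹ * x4 = x3⁻¹ * x0) : False := by
  have S0 : x0⁻¹ * x3 * (x1⁻¹ * x4)⁻¹ = 1 := mul_inv_eq_one.2 R0
  have S1 : x0⁻¹ * x4 * (x1⁻¹ * x2)⁻¹ = 1 := mul_inv_eq_one.2 R1
  have S2 : x2⁻¹ * x4 * (x3⁻¹ * x0)⁻¹ = 1 := mul_inv_eq_one.2 R2
  clear R0 R1 R2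
  subst h0
  have V0 : x4 * ((x1 * x3))⁻¹ = 1 := by
    calc x4 * ((x1 * x3))⁻¹ = (x1) * (1⁻¹ * x3 * (x1⁻¹ * x4)⁻¹)⁻¹ * (x1)⁻¹ := by simp only [pow_succ, pow_zero, mul_assoc, mul_inv_rev, inv_inv, mul_inv_cancel, inv_mul_cancel, mul_inv_cancel_left, inv_mul_cancel_left, one_mul, mul_one, inv_one]
      _ = 1 := by rw [S0]; simp
  rw [mul_inv_eq_one] at V0
  subst V0
  have V1 : x2 * ((x1 * x1 * x3))⁻¹ = 1 := by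
    calc x2 * ((x1 * x1 * x3))⁻¹ = (x1) * (1⁻¹ * (x1 * x3) * (x1⁻¹ * x2)⁻¹)⁻¹ * (x1)⁻¹ := by simp only [pow_succ, pow_zero, mul_assoc, mul_inv_rev, inv_inv, mul_inv_cancel, inv_mul_cancel, mul_inv_cancel_left, inv_mul_cancel_left, one_mul, mul_one, inv_one]
      _ = 1 := by rw [S1]; simp
  rw [mul_inv_eq_one] at V1
  subst V1
  have P : (x1⁻¹ * x3) ^ 1 = 1 := by
    calc (x1⁻¹ * x3) ^ 1 = (x3) * ((x1 * x1 * x3)⁻¹ * (x1 * x3) * (x3⁻¹ * 1)⁻¹) * (x3)⁻¹ := by simp only [pow_succ, pow_zero, mul_assoc, mul_inv_rev, inv_inv, mul_inv_cancel, inv_mul_cancel, mul_inv_cancel_left, inv_mul_cancel_left, one_mul, mul_one, inv_one]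
      _ = 1 := by rw [S2]; simp
  have Q : (x1⁻¹ * x3) = 1 := htf _ 1 (by norm_num) P
  exact D.n13 (inv_mul_eq_one.1 Q)

theorem leaf8 {x0 x1 x2 x3 x4 : G} (h0 : x0 = 1) (D : Dist x0 x1 x2 x3 x4)
    (R0 : x0⁻¹ * x1 = x2⁻¹ * x3) (R1 : x0⁻¹ * x2 = x3⁻¹ * x1) (R2 : x0⁻¹ * x4 = x1⁻¹ * x2) (R3 : x2⁻¹ * x4 = x3⁻¹ * x1) : False := by
  have S0 : x0⁻¹ * x1 * (x2⁻¹ * x3)⁻¹ = 1 := mul_inv_eq_one.2 R0
  have S1 : x0⁻¹ * x2 * (x3⁻¹ * x1)⁻¹ = 1 := mul_inv_eq_one.2 R1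
  have S2 : x0⁻¹ * x4 * (x1⁻¹ * x2)⁻¹ = 1 := mul_inv_eq_one.2 R2
  have S3 : x2⁻¹ * x4 * (x3⁻¹ * x1)⁻¹ = 1 := mul_inv_eq_one.2 R3
  clear R0 R1 R2 R3
  subst h0
  have V0 : x1 * ((x3 * x2))⁻¹ = 1 := by
    calc x1 * ((x3 * x2))⁻¹ = (x3) * (1⁻¹ * x2 * (x3⁻¹ * x1)⁻¹)⁻¹ * (x3)⁻¹ := by simp only [pow_succ, pow_zero, mul_assoc, mul_inv_rev, inv_inv, mul_inv_cancel, inv_mul_cancel, mul_inv_cancel_left, inv_mul_cancel_left, one_mul, mul_one, inv_one]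
      _ = 1 := by rw [S1]; simp
  rw [mul_inv_eq_one] at V0
  subst V0
  have V1 : x4 * ((x2 * x2))⁻¹ = 1 := by
    calc x4 * ((x2 * x2))⁻¹ = (x2) * (x2⁻¹ * x4 * (x3⁻¹ * (x3 * x2))⁻¹) * (x2)⁻¹ := by simp only [pow_succ, pow_zero, mul_assoc, mul_inv_rev, inv_inv, mul_inv_cancel, inv_mul_cancel, mul_inv_cancel_left, inv_mul_cancel_left, one_mul, mul_one, inv_one]
      _ = 1 := by rw [S3]; simp
  rw [mul_inv_eq_one] at V1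
  subst V1
  have V2 : x3 * ((x2⁻¹ * x2⁻¹))⁻¹ = 1 := by
    calc x3 * ((x2⁻¹ * x2⁻¹))⁻¹ = (x2⁻¹) * (1⁻¹ * (x2 * x2) * ((x3 * x2)⁻¹ * x2)⁻¹) * (x2⁻¹)⁻¹ := by simp only [pow_succ, pow_zero, mul_assoc, mul_inv_rev, inv_inv, mul_inv_cancel, inv_mul_cancel, mul_inv_cancel_left, inv_mul_cancel_left, one_mul, mul_one, inv_one]
      _ = 1 := by rw [S2]; simp
  rw [mul_inv_eq_one] at V2
  subst V2
  have P : (x2) ^ 2 = 1 := by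
    calc (x2) ^ 2 = 1 * (1⁻¹ * ((x2⁻¹ * x2⁻¹) * x2) * (x2⁻¹ * (x2⁻¹ * x2⁻¹))⁻¹) * 1⁻¹ := by simp only [pow_succ, pow_zero, mul_assoc, mul_inv_rev, inv_inv, mul_inv_cancel, inv_mul_cancel, mul_inv_cancel_left, inv_mul_cancel_left, one_mul, mul_one, inv_one]
      _ = 1 := by rw [S0]; simp
  have Q : (x2) = 1 := htf _ 2 (by norm_num) P
  exact D.n02 Q.symm

theorem leaf9 {x0 x1 x2 x3 x4 : G} (h0 : x0 = 1) (D : Dist x0 x1 x2 x3 x4)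
    (R0 : x0⁻¹ * x2 = x3⁻¹ * x4) (R1 : x0⁻¹ * x3 = x1⁻¹ * x4) (R2 : x0⁻¹ * x4 = x1⁻¹ * x2) : False := by
  have S0 : x0⁻¹ * x2 * (x3⁻¹ * x4)⁻¹ = 1 := mul_inv_eq_one.2 R0
  have S1 : x0⁻¹ * x3 * (x1⁻¹ * x4)⁻¹ = 1 := mul_inv_eq_one.2 R1
  have S2 : x0⁻¹ * x4 * (x1⁻¹ * x2)⁻¹ = 1 := mul_inv_eq_one.2 R2
  clear R0 R1 R2
  subst h0
  have V0 : x2 * ((x3⁻¹ * x4))⁻¹ = 1 := by
    calc x2 * ((x3⁻¹ * x4))⁻¹ = 1 * (1⁻¹ * x2 * (x3⁻¹ * x4)⁻¹) * 1⁻¹ := by simp only [pow_succ, pow_zero, mul_assoc, mul_inv_rev, inv_inv, mul_inv_cancel, inv_mul_cancel, mul_inv_cancel_left, inv_mul_cancel_left, one_mul, mul_one, inv_one]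
      _ = 1 := by rw [S0]; simp
  rw [mul_inv_eq_one] at V0
  subst V0
  have V1 : x1 * ((x3⁻¹))⁻¹ = 1 := by
    calc x1 * ((x3⁻¹))⁻¹ = (x3⁻¹) * (1⁻¹ * x4 * (x1⁻¹ * (x3⁻¹ * x4))⁻¹) * (x3⁻¹)⁻¹ := by simp only [pow_succ, pow_zero, mul_assoc, mul_inv_rev, inv_inv, mul_inv_cancel, inv_mul_cancel, mul_inv_cancel_left, inv_mul_cancel_left, one_mul, mul_one, inv_one]
      _ = 1 := by rw [S2]; simp
  rw [mul_inv_eq_one] at V1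
  subst V1
  have P : (x4⁻¹) ^ 1 = 1 := by
    calc (x4⁻¹) ^ 1 = (x3⁻¹) * (1⁻¹ * x3 * ((x3⁻¹)⁻¹ * x4)⁻¹) * (x3⁻¹)⁻¹ := by simp only [pow_succ, pow_zero, mul_assoc, mul_inv_rev, inv_inv, mul_inv_cancel, inv_mul_cancel, mul_inv_cancel_left, inv_mul_cancel_left, one_mul, mul_one, inv_one]
      _ = 1 := by rw [S1]; simp
  have Q : (x4⁻¹) = 1 := htf _ 1 (by norm_num) P
  exact D.n04 (inv_eq_one.1 Q).symm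

theorem leaf10 {x0 x1 x2 x3 x4 : G} (h0 : x0 = 1) (D : Dist x0 x1 x2 x3 x4)
    (R0 : x0⁻¹ * x1 = x2⁻¹ * x3) (R1 : x0⁻¹ * x2 = x4⁻¹ * x1) (R2 : x0⁻¹ * x3 = x1⁻¹ * x4) (R3 : x0⁻¹ * x4 = x1⁻¹ * x2) : False := by
  have S0 : x0⁻¹ * x1 * (x2⁻¹ * x3)⁻¹ = 1 := mul_inv_eq_one.2 R0
  have S1 : x0⁻¹ * x2 * (x4⁻¹ * x1)⁻¹ = 1 := mul_inv_eq_one.2 R1
  have S2 : x0⁻¹ * x3 * (x1⁻¹ * x4)⁻¹ = 1 := mul_inv_eq_one.2 R2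
  have S3 : x0⁻¹ * x4 * (x1⁻¹ * x2)⁻¹ = 1 := mul_inv_eq_one.2 R3
  clear R0 R1 R2 R3
  subst h0
  have V0 : x1 * ((x2⁻¹ * x3))⁻¹ = 1 := by
    calc x1 * ((x2⁻¹ * x3))⁻¹ = 1 * (1⁻¹ * x1 * (x2⁻¹ * x3)⁻¹) * 1⁻¹ := by simp only [pow_succ, pow_zero, mul_assoc, mul_inv_rev, inv_inv, mul_inv_cancel, inv_mul_cancel, mul_inv_cancel_left, inv_mul_cancel_left, one_mul, mul_one, inv_one]
      _ = 1 := by rw [S0]; simp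
  rw [mul_inv_eq_one] at V0
  subst V0
  have V1 : x3 * ((x2 * x4 * x2))⁻¹ = 1 := by
    calc x3 * ((x2 * x4 * x2))⁻¹ = (x2 * x4) * (1⁻¹ * x2 * (x4⁻¹ * (x2⁻¹ * x3))⁻¹)⁻¹ * (x2 * x4)⁻¹ := by simp only [pow_succ, pow_zero, mul_assoc, mul_inv_rev, inv_inv, mul_inv_cancel, inv_mul_cancel, mul_inv_cancel_left, inv_mul_cancel_left, one_mul, mul_one, inv_one]
      _ = 1 := by rw [S1]; simp
  rw [mul_inv_eq_one] at V1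
  subst V1
  have V2 : x4 * ((x2⁻¹ * x2⁻¹ * x2⁻¹))⁻¹ = 1 := by
    calc x4 * ((x2⁻¹ * x2⁻¹ * x2⁻¹))⁻¹ = (x2⁻¹) * (1⁻¹ * (x2 * x4 * x2) * ((x2⁻¹ * (x2 * x4 * x2))⁻¹ * x4)⁻¹) * (x2⁻¹)⁻¹ := by simp only [pow_succ, pow_zero, mul_assoc, mul_inv_rev, inv_inv, mul_inv_cancel, inv_mul_cancel, mul_inv_cancel_left, inv_mul_cancel_left, one_mul, mul_one, inv_one]
      _ = 1 := by rw [S2]; simp
  rw [mul_inv_eq_one] at V2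
  subst V2
  have P : (x2⁻¹) ^ 6 = 1 := by
    calc (x2⁻¹) ^ 6 = 1 * (1⁻¹ * (x2⁻¹ * x2⁻¹ * x2⁻¹) * ((x2⁻¹ * (x2 * (x2⁻¹ * x2⁻¹ * x2⁻¹) * x2))⁻¹ * x2)⁻¹) * 1⁻¹ := by simp only [pow_succ, pow_zero, mul_assoc, mul_inv_rev, inv_inv, mul_inv_cancel, inv_mul_cancel, mul_inv_cancel_left, inv_mul_cancel_left, one_mul, mul_one, inv_one]
      _ = 1 := by rw [S3]; simp
  have Q : (x2⁻¹) = 1 := htf _ 6 (by norm_num) P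
  exact D.n02 (inv_eq_one.1 Q).symm

theorem leaf11 {x0 x1 x2 x3 x4 : G} (h0 : x0 = 1) (D : Dist x0 x1 x2 x3 x4)
    (R0 : x0⁻¹ * x1 = x2⁻¹ * x3) (R1 : x0⁻¹ * x2 = x4⁻¹ * x3) (R2 : x0⁻¹ * x3 = x1⁻¹ * x4) (R3 : x0⁻¹ * x4 = x1⁻¹ * x2) : False := by
  have S0 : x0⁻¹ * x1 * (x2⁻¹ * x3)⁻¹ = 1 := mul_inv_eq_one.2 R0
  have S1 : x0⁻¹ * x2 * (x4⁻¹ * x3)⁻¹ = 1 := mul_inv_eq_one.2 R1
  have S2 : x0⁻¹ * x3 * (x1⁻¹ * x4)⁻¹ = 1 := mul_inv_eq_one.2 R2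
  have S3 : x0⁻¹ * x4 * (x1⁻¹ * x2)⁻¹ = 1 := mul_inv_eq_one.2 R3
  clear R0 R1 R2 R3
  subst h0
  have V0 : x2 * ((x4⁻¹ * x3))⁻¹ = 1 := by
    calc x2 * ((x4⁻¹ * x3))⁻¹ = 1 * (1⁻¹ * x2 * (x4⁻¹ * x3)⁻¹) * 1⁻¹ := by simp only [pow_succ, pow_zero, mul_assoc, mul_inv_rev, inv_inv, mul_inv_cancel, inv_mul_cancel, mul_inv_cancel_left, inv_mul_cancel_left, one_mul, mul_one, inv_one]
      _ = 1 := by rw [S1]; simp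
  rw [mul_inv_eq_one] at V0
  subst V0
  have V1 : x3 * ((x1⁻¹ * x4))⁻¹ = 1 := by
    calc x3 * ((x1⁻¹ * x4))⁻¹ = 1 * (1⁻¹ * x3 * (x1⁻¹ * x4)⁻¹) * 1⁻¹ := by simp only [pow_succ, pow_zero, mul_assoc, mul_inv_rev, inv_inv, mul_inv_cancel, inv_mul_cancel, mul_inv_cancel_left, inv_mul_cancel_left, one_mul, mul_one, inv_one]
      _ = 1 := by rw [S2]; simp
  rw [mul_inv_eq_one] at V1
  subst V1
  have V2 : x4 * ((x1⁻¹ * x1⁻¹))⁻¹ = 1 := by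
    calc x4 * ((x1⁻¹ * x1⁻¹))⁻¹ = (x1⁻¹) * (1⁻¹ * x4 * (x1⁻¹ * (x4⁻¹ * (x1⁻¹ * x4)))⁻¹) * (x1⁻¹)⁻¹ := by simp only [pow_succ, pow_zero, mul_assoc, mul_inv_rev, inv_inv, mul_inv_cancel, inv_mul_cancel, mul_inv_cancel_left, inv_mul_cancel_left, one_mul, mul_one, inv_one]
      _ = 1 := by rw [S3]; simp
  rw [mul_inv_eq_one] at V2
  subst V2
  have P : (x1) ^ 3 = 1 := by
    calc (x1) ^ 3 = 1 * (1⁻¹ * x1 * (((x1⁻¹ * x1⁻¹)⁻¹ * (x1⁻¹ * (x1⁻¹ * x1⁻¹)))⁻¹ * (x1⁻¹ * (x1⁻¹ * x1⁻¹)))⁻¹) * 1⁻¹ := by simp only [pow_succ, pow_zero, mul_assoc, mul_inv_rev, inv_inv, mul_inv_cancel, inv_mul_cancel, mul_inv_cancel_left, inv_mul_cancel_left, one_mul, mul_one, inv_one]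
      _ = 1 := by rw [S0]; simp
  have Q : (x1) = 1 := htf _ 3 (by norm_num) P
  exact D.n01 Q.symm

theorem leaf12 {x0 x1 x2 x3 x4 : G} (h0 : x0 = 1) (D : Dist x0 x1 x2 x3 x4)
    (R0 : x0⁻¹ * x1 = x2⁻¹ * x3) (R1 : x0⁻¹ * x3 = x2⁻¹ * x1) : False := by
  have S0 : x0⁻¹ * x1 * (x2⁻¹ * x3)⁻¹ = 1 := mul_inv_eq_one.2 R0
  have S1 : x0⁻¹ * x3 * (x2⁻¹ * x1)⁻¹ = 1 := mul_inv_eq_one.2 R1
  clear R0 R1
  subst h0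
  have V0 : x1 * ((x2⁻¹ * x3))⁻¹ = 1 := by
    calc x1 * ((x2⁻¹ * x3))⁻¹ = 1 * (1⁻¹ * x1 * (x2⁻¹ * x3)⁻¹) * 1⁻¹ := by simp only [pow_succ, pow_zero, mul_assoc, mul_inv_rev, inv_inv, mul_inv_cancel, inv_mul_cancel, mul_inv_cancel_left, inv_mul_cancel_left, one_mul, mul_one, inv_one]
      _ = 1 := by rw [S0]; simp
  rw [mul_inv_eq_one] at V0
  subst V0
  have P : (x2) ^ 2 = 1 := by
    calc (x2) ^ 2 = 1 * (1⁻¹ * x3 * (x2⁻¹ * (x2⁻¹ * x3))⁻¹) * 1⁻¹ := by simp only [pow_succ, pow_zero, mul_assoc, mul_inv_rev, inv_inv, mul_inv_cancel, inv_mul_cancel, mul_inv_cancel_left, inv_mul_cancel_left, one_mul, mul_one, inv_one]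
      _ = 1 := by rw [S1]; simp
  have Q : (x2) = 1 := htf _ 2 (by norm_num) P
  exact D.n02 Q.symm

theorem leaf13 {x0 x1 x2 x3 x4 : G} (h0 : x0 = 1) (D : Dist x0 x1 x2 x3 x4)
    (R0 : x0⁻¹ * x4 = x1⁻¹ * x2) (R1 : x1⁻¹ * x4 = x0⁻¹ * x2) : False := by
  have S0 : x0⁻¹ * x4 * (x1⁻¹ * x2)⁻¹ = 1 := mul_inv_eq_one.2 R0
  have S1 : x1⁻¹ * x4 * (x0⁻¹ * x2)⁻¹ = 1 := mul_inv_eq_one.2 R1
  clear R0 R1
  subst h0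
  have V0 : x1 * ((x2 * x4⁻¹))⁻¹ = 1 := by
    calc x1 * ((x2 * x4⁻¹))⁻¹ = (x2 * x4⁻¹) * (1⁻¹ * x4 * (x1⁻¹ * x2)⁻¹) * (x2 * x4⁻¹)⁻¹ := by simp only [pow_succ, pow_zero, mul_assoc, mul_inv_rev, inv_inv, mul_inv_cancel, inv_mul_cancel, mul_inv_cancel_left, inv_mul_cancel_left, one_mul, mul_one, inv_one]
      _ = 1 := by rw [S0]; simp
  rw [mul_inv_eq_one] at V0
  subst V0
  have P : (x4 * x2⁻¹) ^ 2 = 1 := by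
    calc (x4 * x2⁻¹) ^ 2 = 1 * ((x2 * x4⁻¹)⁻¹ * x4 * (1⁻¹ * x2)⁻¹) * 1⁻¹ := by simp only [pow_succ, pow_zero, mul_assoc, mul_inv_rev, inv_inv, mul_inv_cancel, inv_mul_cancel, mul_inv_cancel_left, inv_mul_cancel_left, one_mul, mul_one, inv_one]
      _ = 1 := by rw [S1]; simp
  have Q : (x4 * x2⁻¹) = 1 := htf _ 2 (by norm_num) P
  exact D.n24 (mul_inv_eq_one.1 Q).symm

theorem leaf14 {x0 x1 x2 x3 x4 : G} (h0 : x0 = 1) (D : Dist x0 x1 x2 x3 x4)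
    (R0 : x0⁻¹ * x3 = x2⁻¹ * x4) (R1 : x1⁻¹ * x4 = x0⁻¹ * x3) : False := by
  have S0 : x0⁻¹ * x3 * (x2⁻¹ * x4)⁻¹ = 1 := mul_inv_eq_one.2 R0
  have S1 : x1⁻¹ * x4 * (x0⁻¹ * x3)⁻¹ = 1 := mul_inv_eq_one.2 R1
  clear R0 R1
  subst h0
  have V0 : x3 * ((x2⁻¹ * x4))⁻¹ = 1 := by
    calc x3 * ((x2⁻¹ * x4))⁻¹ = 1 * (1⁻¹ * x3 * (x2⁻¹ * x4)⁻¹) * 1⁻¹ := by simp only [pow_succ, pow_zero, mul_assoc, mul_inv_rev, inv_inv, mul_inv_cancel, inv_mul_cancel, mul_inv_cancel_left, inv_mul_cancel_left, one_mul, mul_one, inv_one]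
      _ = 1 := by rw [S0]; simp
  rw [mul_inv_eq_one] at V0
  subst V0
  have P : (x1⁻¹ * x2) ^ 1 = 1 := by
    calc (x1⁻¹ * x2) ^ 1 = 1 * (x1⁻¹ * x4 * (1⁻¹ * (x2⁻¹ * x4))⁻¹) * 1⁻¹ := by simp only [pow_succ, pow_zero, mul_assoc, mul_inv_rev, inv_inv, mul_inv_cancel, inv_mul_cancel, mul_inv_cancel_left, inv_mul_cancel_left, one_mul, mul_one, inv_one]
      _ = 1 := by rw [S1]; simp
  have Q : (x1⁻¹ * x2) = 1 := htf _ 1 (by norm_num) P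
  exact D.n12 (inv_mul_eq_one.1 Q)

theorem leaf15 {x0 x1 x2 x3 x4 : G} (h0 : x0 = 1) (D : Dist x0 x1 x2 x3 x4)
    (R0 : x0⁻¹ * x3 = x2⁻¹ * x4) (R1 : x0⁻¹ * x4 = x1⁻¹ * x2) (R2 : x1⁻¹ * x3 = x0⁻¹ * x2) (R3 : x1⁻¹ * x4 = x2⁻¹ * x0) : False := by
  have S0 : x0⁻¹ * x3 * (x2⁻¹ * x4)⁻¹ = 1 := mul_inv_eq_one.2 R0
  have S1 : x0⁻¹ * x4 * (x1⁻¹ * x2)⁻¹ = 1 := mul_inv_eq_one.2 R1
  have S2 : x1⁻¹ * x3 * (x0⁻¹ * x2)⁻¹ = 1 := mul_inv_eq_one.2 R2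
  have S3 : x1⁻¹ * x4 * (x2⁻¹ * x0)⁻¹ = 1 := mul_inv_eq_one.2 R3
  clear R0 R1 R2 R3
  subst h0
  have V0 : x2 * ((x4 * x3⁻¹))⁻¹ = 1 := by
    calc x2 * ((x4 * x3⁻¹))⁻¹ = (x4 * x3⁻¹) * (1⁻¹ * x3 * (x2⁻¹ * x4)⁻¹) * (x4 * x3⁻¹)⁻¹ := by simp only [pow_succ, pow_zero, mul_assoc, mul_inv_rev, inv_inv, mul_inv_cancel, inv_mul_cancel, mul_inv_cancel_left, inv_mul_cancel_left, one_mul, mul_one, inv_one]
      _ = 1 := by rw [S0]; simp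
  rw [mul_inv_eq_one] at V0
  subst V0
  have V1 : x1 * ((x4 * x3⁻¹ * x4⁻¹))⁻¹ = 1 := by
    calc x1 * ((x4 * x3⁻¹ * x4⁻¹))⁻¹ = (x4 * x3⁻¹ * x4⁻¹) * (1⁻¹ * x4 * (x1⁻¹ * (x4 * x3⁻¹))⁻¹) * (x4 * x3⁻¹ * x4⁻¹)⁻¹ := by simp only [pow_succ, pow_zero, mul_assoc, mul_inv_rev, inv_inv, mul_inv_cancel, inv_mul_cancel, mul_inv_cancel_left, inv_mul_cancel_left, one_mul, mul_one, inv_one]
      _ = 1 := by rw [S1]; simp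
  rw [mul_inv_eq_one] at V1
  subst V1
  have V2 : x4 * ((x3 * x3 * x3))⁻¹ = 1 := by
    calc x4 * ((x3 * x3 * x3))⁻¹ = (x3 * x3 * x4⁻¹) * ((x4 * x3⁻¹ * x4⁻¹)⁻¹ * x3 * (1⁻¹ * (x4 * x3⁻¹))⁻¹)⁻¹ * (x3 * x3 * x4⁻¹)⁻¹ := by simp only [pow_succ, pow_zero, mul_assoc, mul_inv_rev, inv_inv, mul_inv_cancel, inv_mul_cancel, mul_inv_cancel_left, inv_mul_cancel_left, one_mul, mul_one, inv_one]
      _ = 1 := by rw [S2]; simp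
  rw [mul_inv_eq_one] at V2
  subst V2
  have P : (x3) ^ 6 = 1 := by
    calc (x3) ^ 6 = 1 * (((x3 * x3 * x3) * x3⁻¹ * (x3 * x3 * x3)⁻¹)⁻¹ * (x3 * x3 * x3) * (((x3 * x3 * x3) * x3⁻¹)⁻¹ * 1)⁻¹) * 1⁻¹ := by simp only [pow_succ, pow_zero, mul_assoc, mul_inv_rev, inv_inv, mul_inv_cancel, inv_mul_cancel, mul_inv_cancel_left, inv_mul_cancel_left, one_mul, mul_one, inv_one]
      _ = 1 := by rw [S3]; simp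
  have Q : (x3) = 1 := htf _ 6 (by norm_num) P
  exact D.n03 Q.symm

theorem leaf16 {x0 x1 x2 x3 x4 : G} (h0 : x0 = 1) (D : Dist x0 x1 x2 x3 x4)
    (R0 : x0⁻¹ * x4 = x1⁻¹ * x2) (R1 : x1⁻¹ * x3 = x0⁻¹ * x4) : False := by
  have S0 : x0⁻¹ * x4 * (x1⁻¹ * x2)⁻¹ = 1 := mul_inv_eq_one.2 R0
  have S1 : x1⁻¹ * x3 * (x0⁻¹ * x4)⁻¹ = 1 := mul_inv_eq_one.2 R1
  clear R0 R1
  subst h0
  have V0 : x1 * ((x2 * x4⁻¹))⁻¹ = 1 := by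
    calc x1 * ((x2 * x4⁻¹))⁻¹ = (x2 * x4⁻¹) * (1⁻¹ * x4 * (x1⁻¹ * x2)⁻¹) * (x2 * x4⁻¹)⁻¹ := by simp only [pow_succ, pow_zero, mul_assoc, mul_inv_rev, inv_inv, mul_inv_cancel, inv_mul_cancel, mul_inv_cancel_left, inv_mul_cancel_left, one_mul, mul_one, inv_one]
      _ = 1 := by rw [S0]; simp
  rw [mul_inv_eq_one] at V0
  subst V0
  have P : (x2⁻¹ * x3) ^ 1 = 1 := by
    calc (x2⁻¹ * x3) ^ 1 = (x4⁻¹) * ((x2 * x4⁻¹)⁻¹ * x3 * (1⁻¹ * x4)⁻¹) * (x4⁻¹)⁻¹ := by simp only [pow_succ, pow_zero, mul_assoc, mul_inv_rev, inv_inv, mul_inv_cancel, inv_mul_cancel, mul_inv_cancel_left, inv_mul_cancel_left, one_mul, mul_one, inv_one]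
      _ = 1 := by rw [S1]; simp
  have Q : (x2⁻¹ * x3) = 1 := htf _ 1 (by norm_num) P
  exact D.n23 (inv_mul_eq_one.1 Q)

theorem leaf17 {x0 x1 x2 x3 x4 : G} (h0 : x0 = 1) (D : Dist x0 x1 x2 x3 x4)
    (R0 : x1⁻¹ * x3 = x2⁻¹ * x0) (R1 : x1⁻¹ * x4 = x2⁻¹ * x0) : False := by
  have S0 : x1⁻¹ * x3 * (x2⁻¹ * x0)⁻¹ = 1 := mul_inv_eq_one.2 R0
  have S1 : x1⁻¹ * x4 * (x2⁻¹ * x0)⁻¹ = 1 := mul_inv_eq_one.2 R1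
  clear R0 R1
  subst h0
  have V0 : x1 * ((x3 * x2))⁻¹ = 1 := by
    calc x1 * ((x3 * x2))⁻¹ = (x3 * x2) * (x1⁻¹ * x3 * (x2⁻¹ * 1)⁻¹)⁻¹ * (x3 * x2)⁻¹ := by simp only [pow_succ, pow_zero, mul_assoc, mul_inv_rev, inv_inv, mul_inv_cancel, inv_mul_cancel, mul_inv_cancel_left, inv_mul_cancel_left, one_mul, mul_one, inv_one]
      _ = 1 := by rw [S0]; simp
  rw [mul_inv_eq_one] at V0
  subst V0
  have P : (x3⁻¹ * x4) ^ 1 = 1 := by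
    calc (x3⁻¹ * x4) ^ 1 = (x2) * ((x3 * x2)⁻¹ * x4 * (x2⁻¹ * 1)⁻¹) * (x2)⁻¹ := by simp only [pow_succ, pow_zero, mul_assoc, mul_inv_rev, inv_inv, mul_inv_cancel, inv_mul_cancel, mul_inv_cancel_left, inv_mul_cancel_left, one_mul, mul_one, inv_one]
      _ = 1 := by rw [S1]; simp
  have Q : (x3⁻¹ * x4) = 1 := htf _ 1 (by norm_num) P
  exact D.n34 (inv_mul_eq_one.1 Q)

theorem leaf18 {x0 x1 x2 x3 x4 : G} (h0 : x0 = 1) (D : Dist x0 x1 x2 x3 x4)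
    (R0 : x0⁻¹ * x3 = x2⁻¹ * x4) (R1 : x1⁻¹ * x3 = x2⁻¹ * x4) : False := by
  have S0 : x0⁻¹ * x3 * (x2⁻¹ * x4)⁻¹ = 1 := mul_inv_eq_one.2 R0
  have S1 : x1⁻¹ * x3 * (x2⁻¹ * x4)⁻¹ = 1 := mul_inv_eq_one.2 R1
  clear R0 R1
  subst h0
  have V0 : x2 * ((x4 * x3⁻¹))⁻¹ = 1 := by
    calc x2 * ((x4 * x3⁻¹))⁻¹ = (x4 * x3⁻¹) * (1⁻¹ * x3 * (x2⁻¹ * x4)⁻¹) * (x4 * x3⁻¹)⁻¹ := by simp only [pow_succ, pow_zero, mul_assoc, mul_inv_rev, inv_inv, mul_inv_cancel, inv_mul_cancel, mul_inv_cancel_left, inv_mul_cancel_left, one_mul, mul_one, inv_one]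
      _ = 1 := by rw [S0]; simp
  rw [mul_inv_eq_one] at V0
  subst V0
  have P : (x1⁻¹) ^ 1 = 1 := by
    calc (x1⁻¹) ^ 1 = 1 * (x1⁻¹ * x3 * ((x4 * x3⁻¹)⁻¹ * x4)⁻¹) * 1⁻¹ := by simp only [pow_succ, pow_zero, mul_assoc, mul_inv_rev, inv_inv, mul_inv_cancel, inv_mul_cancel, mul_inv_cancel_left, inv_mul_cancel_left, one_mul, mul_one, inv_one]
      _ = 1 := by rw [S1]; simp
  have Q : (x1⁻¹) = 1 := htf _ 1 (by norm_num) P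
  exact D.n01 (inv_eq_one.1 Q).symm

theorem leaf19 {x0 x1 x2 x3 x4 : G} (h0 : x0 = 1) (D : Dist x0 x1 x2 x3 x4)
    (R0 : x0⁻¹ * x1 = x2⁻¹ * x3) (R1 : x0⁻¹ * x3 = x2⁻¹ * x4) (R2 : x0⁻¹ * x4 = x1⁻¹ * x2) (R3 : x1⁻¹ * x3 = x4⁻¹ * x0) : False := by
  have S0 : x0⁻¹ * x1 * (x2⁻¹ * x3)⁻¹ = 1 := mul_inv_eq_one.2 R0
  have S1 : x0⁻¹ * x3 * (x2⁻¹ * x4)⁻¹ = 1 := mul_inv_eq_one.2 R1
  have S2 : x0⁻¹ * x4 * (x1⁻¹ * x2)⁻¹ = 1 := mul_inv_eq_one.2 R2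
  have S3 : x1⁻¹ * x3 * (x4⁻¹ * x0)⁻¹ = 1 := mul_inv_eq_one.2 R3
  clear R0 R1 R2 R3
  subst h0
  have V0 : x1 * ((x2⁻¹ * x3))⁻¹ = 1 := by
    calc x1 * ((x2⁻¹ * x3))⁻¹ = 1 * (1⁻¹ * x1 * (x2⁻¹ * x3)⁻¹) * 1⁻¹ := by simp only [pow_succ, pow_zero, mul_assoc, mul_inv_rev, inv_inv, mul_inv_cancel, inv_mul_cancel, mul_inv_cancel_left, inv_mul_cancel_left, one_mul, mul_one, inv_one]
      _ = 1 := by rw [S0]; simp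
  rw [mul_inv_eq_one] at V0
  subst V0
  have V1 : x2 * ((x4 * x3⁻¹))⁻¹ = 1 := by
    calc x2 * ((x4 * x3⁻¹))⁻¹ = (x4 * x3⁻¹) * (1⁻¹ * x3 * (x2⁻¹ * x4)⁻¹) * (x4 * x3⁻¹)⁻¹ := by simp only [pow_succ, pow_zero, mul_assoc, mul_inv_rev, inv_inv, mul_inv_cancel, inv_mul_cancel, mul_inv_cancel_left, inv_mul_cancel_left, one_mul, mul_one, inv_one]
      _ = 1 := by rw [S1]; simp
  rw [mul_inv_eq_one] at V1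
  subst V1
  have V2 : x3 * ((x4 * x4))⁻¹ = 1 := by
    calc x3 * ((x4 * x4))⁻¹ = (x4 * x4) * (((x4 * x3⁻¹)⁻¹ * x3)⁻¹ * x3 * (x4⁻¹ * 1)⁻¹)⁻¹ * (x4 * x4)⁻¹ := by simp only [pow_succ, pow_zero, mul_assoc, mul_inv_rev, inv_inv, mul_inv_cancel, inv_mul_cancel, mul_inv_cancel_left, inv_mul_cancel_left, one_mul, mul_one, inv_one]
      _ = 1 := by rw [S3]; simp
  rw [mul_inv_eq_one] at V2
  subst V2
  have P : (x4) ^ 5 = 1 := by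
    calc (x4) ^ 5 = 1 * (1⁻¹ * x4 * (((x4 * (x4 * x4)⁻¹)⁻¹ * (x4 * x4))⁻¹ * (x4 * (x4 * x4)⁻¹))⁻¹) * 1⁻¹ := by simp only [pow_succ, pow_zero, mul_assoc, mul_inv_rev, inv_inv, mul_inv_cancel, inv_mul_cancel, mul_inv_cancel_left, inv_mul_cancel_left, one_mul, mul_one, inv_one]
      _ = 1 := by rw [S2]; simp
  have Q : (x4) = 1 := htf _ 5 (by norm_num) P
  exact D.n04 Q.symm

theorem leaf20 {x0 x1 x2 x3 x4 : G} (h0 : x0 = 1) (D : Dist x0 x1 x2 x3 x4)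
    (R0 : x0⁻¹ * x1 = x2⁻¹ * x3) (R1 : x0⁻¹ * x3 = x2⁻¹ * x4) (R2 : x1⁻¹ * x3 = x4⁻¹ * x2) : False := by
  have S0 : x0⁻¹ * x1 * (x2⁻¹ * x3)⁻¹ = 1 := mul_inv_eq_one.2 R0
  have S1 : x0⁻¹ * x3 * (x2⁻¹ * x4)⁻¹ = 1 := mul_inv_eq_one.2 R1
  have S2 : x1⁻¹ * x3 * (x4⁻¹ * x2)⁻¹ = 1 := mul_inv_eq_one.2 R2
  clear R0 R1 R2
  subst h0
  have V0 : x1 * ((x2⁻¹ * x3))⁻¹ = 1 := by
    calc x1 * ((x2⁻¹ * x3))⁻¹ = 1 * (1⁻¹ * x1 * (x2⁻¹ * x3)⁻¹) * 1⁻¹ := by simp only [pow_succ, pow_zero, mul_assoc, mul_inv_rev, inv_inv, mul_inv_cancel, inv_mul_cancel, mul_inv_cancel_left, inv_mul_cancel_left, one_mul, mul_one, inv_one]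
      _ = 1 := by rw [S0]; simp
  rw [mul_inv_eq_one] at V0
  subst V0
  have V1 : x2 * ((x4 * x3⁻¹))⁻¹ = 1 := by
    calc x2 * ((x4 * x3⁻¹))⁻¹ = (x4 * x3⁻¹) * (1⁻¹ * x3 * (x2⁻¹ * x4)⁻¹) * (x4 * x3⁻¹)⁻¹ := by simp only [pow_succ, pow_zero, mul_assoc, mul_inv_rev, inv_inv, mul_inv_cancel, inv_mul_cancel, mul_inv_cancel_left, inv_mul_cancel_left, one_mul, mul_one, inv_one]
      _ = 1 := by rw [S1]; simp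
  rw [mul_inv_eq_one] at V1
  subst V1
  have P : (x4) ^ 1 = 1 := by
    calc (x4) ^ 1 = (x3) * (((x4 * x3⁻¹)⁻¹ * x3)⁻¹ * x3 * (x4⁻¹ * (x4 * x3⁻¹))⁻¹) * (x3)⁻¹ := by simp only [pow_succ, pow_zero, mul_assoc, mul_inv_rev, inv_inv, mul_inv_cancel, inv_mul_cancel, mul_inv_cancel_left, inv_mul_cancel_left, one_mul, mul_one, inv_one]
      _ = 1 := by rw [S2]; simp
  have Q : (x4) = 1 := htf _ 1 (by norm_num) P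
  exact D.n04 Q.symm

theorem leaf21 {x0 x1 x2 x3 x4 : G} (h0 : x0 = 1) (D : Dist x0 x1 x2 x3 x4)
    (R0 : x0⁻¹ * x1 = x2⁻¹ * x3) (R1 : x0⁻¹ * x3 = x2⁻¹ * x4) (R2 : x0⁻¹ * x4 = x1⁻¹ * x2) (R3 : x1⁻¹ * x4 = x2⁻¹ * x3) : False := by
  have S0 : x0⁻¹ * x1 * (x2⁻¹ * x3)⁻¹ = 1 := mul_inv_eq_one.2 R0
  have S1 : x0⁻¹ * x3 * (x2⁻¹ * x4)⁻¹ = 1 := mul_inv_eq_one.2 R1
  have S2 : x0⁻¹ * x4 * (x1⁻¹ * x2)⁻¹ = 1 := mul_inv_eq_one.2 R2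
  have S3 : x1⁻¹ * x4 * (x2⁻¹ * x3)⁻¹ = 1 := mul_inv_eq_one.2 R3
  clear R0 R1 R2 R3
  subst h0
  have V0 : x1 * ((x2⁻¹ * x3))⁻¹ = 1 := by
    calc x1 * ((x2⁻¹ * x3))⁻¹ = 1 * (1⁻¹ * x1 * (x2⁻¹ * x3)⁻¹) * 1⁻¹ := by simp only [pow_succ, pow_zero, mul_assoc, mul_inv_rev, inv_inv, mul_inv_cancel, inv_mul_cancel, mul_inv_cancel_left, inv_mul_cancel_left, one_mul, mul_one, inv_one]
      _ = 1 := by rw [S0]; simp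
  rw [mul_inv_eq_one] at V0
  subst V0
  have V1 : x3 * ((x2⁻¹ * x4))⁻¹ = 1 := by
    calc x3 * ((x2⁻¹ * x4))⁻¹ = 1 * (1⁻¹ * x3 * (x2⁻¹ * x4)⁻¹) * 1⁻¹ := by simp only [pow_succ, pow_zero, mul_assoc, mul_inv_rev, inv_inv, mul_inv_cancel, inv_mul_cancel, mul_inv_cancel_left, inv_mul_cancel_left, one_mul, mul_one, inv_one]
      _ = 1 := by rw [S1]; simp
  rw [mul_inv_eq_one] at V1
  subst V1
  have V2 : x4 * ((x2 * x2 * x2 * x2))⁻¹ = 1 := by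
    calc x4 * ((x2 * x2 * x2 * x2))⁻¹ = (x2 * x2 * x2 * x2) * ((x2⁻¹ * (x2⁻¹ * x4))⁻¹ * x4 * (x2⁻¹ * (x2⁻¹ * x4))⁻¹)⁻¹ * (x2 * x2 * x2 * x2)⁻¹ := by simp only [pow_succ, pow_zero, mul_assoc, mul_inv_rev, inv_inv, mul_inv_cancel, inv_mul_cancel, mul_inv_cancel_left, inv_mul_cancel_left, one_mul, mul_one, inv_one]
      _ = 1 := by rw [S3]; simp
  rw [mul_inv_eq_one] at V2
  subst V2
  have P : (x2) ^ 5 = 1 := by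
    calc (x2) ^ 5 = 1 * (1⁻¹ * (x2 * x2 * x2 * x2) * ((x2⁻¹ * (x2⁻¹ * (x2 * x2 * x2 * x2)))⁻¹ * x2)⁻¹) * 1⁻¹ := by simp only [pow_succ, pow_zero, mul_assoc, mul_inv_rev, inv_inv, mul_inv_cancel, inv_mul_cancel, mul_inv_cancel_left, inv_mul_cancel_left, one_mul, mul_one, inv_one]
      _ = 1 := by rw [S2]; simp
  have Q : (x2) = 1 := htf _ 5 (by norm_num) P
  exact D.n02 Q.symm

theorem leaf22 {x0 x1 x2 x3 x4 : G} (h0 : x0 = 1) (D : Dist x0 x1 x2 x3 x4)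
    (R0 : x0⁻¹ * x1 = x2⁻¹ * x3) (R1 : x0⁻¹ * x3 = x2⁻¹ * x4) (R2 : x0⁻¹ * x4 = x1⁻¹ * x2) (R3 : x1⁻¹ * x4 = x3⁻¹ * x0) : False := by
  have S0 : x0⁻¹ * x1 * (x2⁻¹ * x3)⁻¹ = 1 := mul_inv_eq_one.2 R0
  have S1 : x0⁻¹ * x3 * (x2⁻¹ * x4)⁻¹ = 1 := mul_inv_eq_one.2 R1
  have S2 : x0⁻¹ * x4 * (x1⁻¹ * x2)⁻¹ = 1 := mul_inv_eq_one.2 R2
  have S3 : x1⁻¹ * x4 * (x3⁻¹ * x0)⁻¹ = 1 := mul_inv_eq_one.2 R3
  clear R0 R1 R2 R3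
  subst h0
  have V0 : x1 * ((x2⁻¹ * x3))⁻¹ = 1 := by
    calc x1 * ((x2⁻¹ * x3))⁻¹ = 1 * (1⁻¹ * x1 * (x2⁻¹ * x3)⁻¹) * 1⁻¹ := by simp only [pow_succ, pow_zero, mul_assoc, mul_inv_rev, inv_inv, mul_inv_cancel, inv_mul_cancel, mul_inv_cancel_left, inv_mul_cancel_left, one_mul, mul_one, inv_one]
      _ = 1 := by rw [S0]; simp
  rw [mul_inv_eq_one] at V0
  subst V0
  have V1 : x2 * ((x4⁻¹))⁻¹ = 1 := by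
    calc x2 * ((x4⁻¹))⁻¹ = (x3) * ((x2⁻¹ * x3)⁻¹ * x4 * (x3⁻¹ * 1)⁻¹) * (x3)⁻¹ := by simp only [pow_succ, pow_zero, mul_assoc, mul_inv_rev, inv_inv, mul_inv_cancel, inv_mul_cancel, mul_inv_cancel_left, inv_mul_cancel_left, one_mul, mul_one, inv_one]
      _ = 1 := by rw [S3]; simp
  rw [mul_inv_eq_one] at V1
  subst V1
  have V2 : x3 * ((x4 * x4))⁻¹ = 1 := by
    calc x3 * ((x4 * x4))⁻¹ = 1 * (1⁻¹ * x3 * ((x4⁻¹)⁻¹ * x4)⁻¹) * 1⁻¹ := by simp only [pow_succ, pow_zero, mul_assoc, mul_inv_rev, inv_inv, mul_inv_cancel, inv_mul_cancel, mul_inv_cancel_left, inv_mul_cancel_left, one_mul, mul_one, inv_one]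
      _ = 1 := by rw [S1]; simp
  rw [mul_inv_eq_one] at V2
  subst V2
  have P : (x4) ^ 5 = 1 := by
    calc (x4) ^ 5 = 1 * (1⁻¹ * x4 * (((x4⁻¹)⁻¹ * (x4 * x4))⁻¹ * (x4⁻¹))⁻¹) * 1⁻¹ := by simp only [pow_succ, pow_zero, mul_assoc, mul_inv_rev, inv_inv, mul_inv_cancel, inv_mul_cancel, mul_inv_cancel_left, inv_mul_cancel_left, one_mul, mul_one, inv_one]
      _ = 1 := by rw [S2]; simp
  have Q : (x4) = 1 := htf _ 5 (by norm_num) P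
  exact D.n04 Q.symm

theorem leaf23 {x0 x1 x2 x3 x4 : G} (h0 : x0 = 1) (D : Dist x0 x1 x2 x3 x4)
    (R0 : x0⁻¹ * x1 = x2⁻¹ * x3) (R1 : x1⁻¹ * x4 = x3⁻¹ * x2) : False := by
  have S0 : x0⁻¹ * x1 * (x2⁻¹ * x3)⁻¹ = 1 := mul_inv_eq_one.2 R0
  have S1 : x1⁻¹ * x4 * (x3⁻¹ * x2)⁻¹ = 1 := mul_inv_eq_one.2 R1
  clear R0 R1
  subst h0
  have V0 : x1 * ((x2⁻¹ * x3))⁻¹ = 1 := by
    calc x1 * ((x2⁻¹ * x3))⁻¹ = 1 * (1⁻¹ * x1 * (x2⁻¹ * x3)⁻¹) * 1⁻¹ := by simp only [pow_succ, pow_zero, mul_assoc, mul_inv_rev, inv_inv, mul_inv_cancel, inv_mul_cancel, mul_inv_cancel_left, inv_mul_cancel_left, one_mul, mul_one, inv_one]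
      _ = 1 := by rw [S0]; simp
  rw [mul_inv_eq_one] at V0
  subst V0
  have P : (x4) ^ 1 = 1 := by
    calc (x4) ^ 1 = (x2⁻¹ * x3) * ((x2⁻¹ * x3)⁻¹ * x4 * (x3⁻¹ * x2)⁻¹) * (x2⁻¹ * x3)⁻¹ := by simp only [pow_succ, pow_zero, mul_assoc, mul_inv_rev, inv_inv, mul_inv_cancel, inv_mul_cancel, mul_inv_cancel_left, inv_mul_cancel_left, one_mul, mul_one, inv_one]
      _ = 1 := by rw [S1]; simp
  have Q : (x4) = 1 := htf _ 1 (by norm_num) P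
  exact D.n04 Q.symm

theorem leaf24 {x0 x1 x2 x3 x4 : G} (h0 : x0 = 1) (D : Dist x0 x1 x2 x3 x4)
    (R0 : x0⁻¹ * x1 = x2⁻¹ * x3) (R1 : x0⁻¹ * x3 = x4⁻¹ * x1) (R2 : x0⁻¹ * x4 = x1⁻¹ * x2) (R3 : x3⁻¹ * x4 = x0⁻¹ * x1) : False := by
  have S0 : x0⁻¹ * x1 * (x2⁻¹ * x3)⁻¹ = 1 := mul_inv_eq_one.2 R0
  have S1 : x0⁻¹ * x3 * (x4⁻¹ * x1)⁻¹ = 1 := mul_inv_eq_one.2 R1
  have S2 : x0⁻¹ * x4 * (x1⁻¹ * x2)⁻¹ = 1 := mul_inv_eq_one.2 R2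
  have S3 : x3⁻¹ * x4 * (x0⁻¹ * x1)⁻¹ = 1 := mul_inv_eq_one.2 R3
  clear R0 R1 R2 R3
  subst h0
  have V0 : x1 * ((x2⁻¹ * x3))⁻¹ = 1 := by
    calc x1 * ((x2⁻¹ * x3))⁻¹ = 1 * (1⁻¹ * x1 * (x2⁻¹ * x3)⁻¹) * 1⁻¹ := by simp only [pow_succ, pow_zero, mul_assoc, mul_inv_rev, inv_inv, mul_inv_cancel, inv_mul_cancel, mul_inv_cancel_left, inv_mul_cancel_left, one_mul, mul_one, inv_one]
      _ = 1 := by rw [S0]; simp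
  rw [mul_inv_eq_one] at V0
  subst V0
  have V1 : x2 * ((x4⁻¹))⁻¹ = 1 := by
    calc x2 * ((x4⁻¹))⁻¹ = 1 * (1⁻¹ * x3 * (x4⁻¹ * (x2⁻¹ * x3))⁻¹) * 1⁻¹ := by simp only [pow_succ, pow_zero, mul_assoc, mul_inv_rev, inv_inv, mul_inv_cancel, inv_mul_cancel, mul_inv_cancel_left, inv_mul_cancel_left, one_mul, mul_one, inv_one]
      _ = 1 := by rw [S1]; simp
  rw [mul_inv_eq_one] at V1
  subst V1
  have V2 : x3 * ((x4⁻¹ * x4⁻¹ * x4⁻¹))⁻¹ = 1 := by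
    calc x3 * ((x4⁻¹ * x4⁻¹ * x4⁻¹))⁻¹ = (x4⁻¹ * x4⁻¹ * x4⁻¹) * (1⁻¹ * x4 * (((x4⁻¹)⁻¹ * x3)⁻¹ * (x4⁻¹))⁻¹) * (x4⁻¹ * x4⁻¹ * x4⁻¹)⁻¹ := by simp only [pow_succ, pow_zero, mul_assoc, mul_inv_rev, inv_inv, mul_inv_cancel, inv_mul_cancel, mul_inv_cancel_left, inv_mul_cancel_left, one_mul, mul_one, inv_one]
      _ = 1 := by rw [S2]; simp
  rw [mul_inv_eq_one] at V2
  subst V2
  have P : (x4) ^ 6 = 1 := by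
    calc (x4) ^ 6 = 1 * ((x4⁻¹ * x4⁻¹ * x4⁻¹)⁻¹ * x4 * (1⁻¹ * ((x4⁻¹)⁻¹ * (x4⁻¹ * x4⁻¹ * x4⁻¹)))⁻¹) * 1⁻¹ := by simp only [pow_succ, pow_zero, mul_assoc, mul_inv_rev, inv_inv, mul_inv_cancel, inv_mul_cancel, mul_inv_cancel_left, inv_mul_cancel_left, one_mul, mul_one, inv_one]
      _ = 1 := by rw [S3]; simp
  have Q : (x4) = 1 := htf _ 6 (by norm_num) P
  exact D.n04 Q.symm

theorem leaf25 {x0 x1 x2 x3 x4 : G} (h0 : x0 = 1) (D : Dist x0 x1 x2 x3 x4)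
    (R0 : x0⁻¹ * x1 = x2⁻¹ * x3) (R1 : x0⁻¹ * x3 = x4⁻¹ * x1) (R2 : x0⁻¹ * x4 = x1⁻¹ * x2) (R3 : x3⁻¹ * x4 = x0⁻¹ * x2) : False := by
  have S0 : x0⁻¹ * x1 * (x2⁻¹ * x3)⁻¹ = 1 := mul_inv_eq_one.2 R0
  have S1 : x0⁻¹ * x3 * (x4⁻¹ * x1)⁻¹ = 1 := mul_inv_eq_one.2 R1
  have S2 : x0⁻¹ * x4 * (x1⁻¹ * x2)⁻¹ = 1 := mul_inv_eq_one.2 R2
  have S3 : x3⁻¹ * x4 * (x0⁻¹ * x2)⁻¹ = 1 := mul_inv_eq_one.2 R3
  clear R0 R1 R2 R3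
  subst h0
  have V0 : x1 * ((x2⁻¹ * x3))⁻¹ = 1 := by
    calc x1 * ((x2⁻¹ * x3))⁻¹ = 1 * (1⁻¹ * x1 * (x2⁻¹ * x3)⁻¹) * 1⁻¹ := by simp only [pow_succ, pow_zero, mul_assoc, mul_inv_rev, inv_inv, mul_inv_cancel, inv_mul_cancel, mul_inv_cancel_left, inv_mul_cancel_left, one_mul, mul_one, inv_one]
      _ = 1 := by rw [S0]; simp
  rw [mul_inv_eq_one] at V0
  subst V0
  have V1 : x2 * ((x4⁻¹))⁻¹ = 1 := by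
    calc x2 * ((x4⁻¹))⁻¹ = 1 * (1⁻¹ * x3 * (x4⁻¹ * (x2⁻¹ * x3))⁻¹) * 1⁻¹ := by simp only [pow_succ, pow_zero, mul_assoc, mul_inv_rev, inv_inv, mul_inv_cancel, inv_mul_cancel, mul_inv_cancel_left, inv_mul_cancel_left, one_mul, mul_one, inv_one]
      _ = 1 := by rw [S1]; simp
  rw [mul_inv_eq_one] at V1
  subst V1
  have V2 : x3 * ((x4 * x4))⁻¹ = 1 := by
    calc x3 * ((x4 * x4))⁻¹ = (x4 * x4) * (x3⁻¹ * x4 * (1⁻¹ * (x4⁻¹))⁻¹)⁻¹ * (x4 * x4)⁻¹ := by simp only [pow_succ, pow_zero, mul_assoc, mul_inv_rev, inv_inv, mul_inv_cancel, inv_mul_cancel, mul_inv_cancel_left, inv_mul_cancel_left, one_mul, mul_one, inv_one]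
      _ = 1 := by rw [S3]; simp
  rw [mul_inv_eq_one] at V2
  subst V2
  have P : (x4) ^ 5 = 1 := by
    calc (x4) ^ 5 = 1 * (1⁻¹ * x4 * (((x4⁻¹)⁻¹ * (x4 * x4))⁻¹ * (x4⁻¹))⁻¹) * 1⁻¹ := by simp only [pow_succ, pow_zero, mul_assoc, mul_inv_rev, inv_inv, mul_inv_cancel, inv_mul_cancel, mul_inv_cancel_left, inv_mul_cancel_left, one_mul, mul_one, inv_one]
      _ = 1 := by rw [S2]; simp
  have Q : (x4) = 1 := htf _ 5 (by norm_num) P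
  exact D.n04 Q.symm

theorem leaf26 {x0 x1 x2 x3 x4 : G} (h0 : x0 = 1) (D : Dist x0 x1 x2 x3 x4)
    (R0 : x0⁻¹ * x1 = x2⁻¹ * x3) (R1 : x3⁻¹ * x4 = x1⁻¹ * x0) : False := by
  have S0 : x0⁻¹ * x1 * (x2⁻¹ * x3)⁻¹ = 1 := mul_inv_eq_one.2 R0
  have S1 : x3⁻¹ * x4 * (x1⁻¹ * x0)⁻¹ = 1 := mul_inv_eq_one.2 R1
  clear R0 R1
  subst h0
  have V0 : x1 * ((x2⁻¹ * x3))⁻¹ = 1 := by
    calc x1 * ((x2⁻¹ * x3))⁻¹ = 1 * (1⁻¹ * x1 * (x2⁻¹ * x3)⁻¹) * 1⁻¹ := by simp only [pow_succ, pow_zero, mul_assoc, mul_inv_rev, inv_inv, mul_inv_cancel, inv_mul_cancel, mul_inv_cancel_left, inv_mul_cancel_left, one_mul, mul_one, inv_one]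
      _ = 1 := by rw [S0]; simp
  rw [mul_inv_eq_one] at V0
  subst V0
  have P : (x4 * x2⁻¹) ^ 1 = 1 := by
    calc (x4 * x2⁻¹) ^ 1 = (x3) * (x3⁻¹ * x4 * ((x2⁻¹ * x3)⁻¹ * 1)⁻¹) * (x3)⁻¹ := by simp only [pow_succ, pow_zero, mul_assoc, mul_inv_rev, inv_inv, mul_inv_cancel, inv_mul_cancel, mul_inv_cancel_left, inv_mul_cancel_left, one_mul, mul_one, inv_one]
      _ = 1 := by rw [S1]; simp
  have Q : (x4 * x2⁻¹) = 1 := htf _ 1 (by norm_num) P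
  exact D.n24 (mul_inv_eq_one.1 Q).symm

theorem leaf27 {x0 x1 x2 x3 x4 : G} (h0 : x0 = 1) (D : Dist x0 x1 x2 x3 x4)
    (R0 : x0⁻¹ * x4 = x1⁻¹ * x2) (R1 : x3⁻¹ * x4 = x1⁻¹ * x2) : False := by
  have S0 : x0⁻¹ * x4 * (x1⁻¹ * x2)⁻¹ = 1 := mul_inv_eq_one.2 R0
  have S1 : x3⁻¹ * x4 * (x1⁻¹ * x2)⁻¹ = 1 := mul_inv_eq_one.2 R1
  clear R0 R1
  subst h0
  have V0 : x1 * ((x2 * x4⁻¹))⁻¹ = 1 := by
    calc x1 * ((x2 * x4⁻¹))⁻¹ = (x2 * x4⁻¹) * (1⁻¹ * x4 * (x1⁻¹ * x2)⁻¹) * (x2 * x4⁻¹)⁻¹ := by simp only [pow_succ, pow_zero, mul_assoc, mul_inv_rev, inv_inv, mul_inv_cancel, inv_mul_cancel, mul_inv_cancel_left, inv_mul_cancel_left, one_mul, mul_one, inv_one]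
      _ = 1 := by rw [S0]; simp
  rw [mul_inv_eq_one] at V0
  subst V0
  have P : (x3⁻¹) ^ 1 = 1 := by
    calc (x3⁻¹) ^ 1 = 1 * (x3⁻¹ * x4 * ((x2 * x4⁻¹)⁻¹ * x2)⁻¹) * 1⁻¹ := by simp only [pow_succ, pow_zero, mul_assoc, mul_inv_rev, inv_inv, mul_inv_cancel, inv_mul_cancel, mul_inv_cancel_left, inv_mul_cancel_left, one_mul, mul_one, inv_one]
      _ = 1 := by rw [S1]; simp
  have Q : (x3⁻¹) = 1 := htf _ 1 (by norm_num) P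
  exact D.n03 (inv_eq_one.1 Q).symm

theorem leaf28 {x0 x1 x2 x3 x4 : G} (h0 : x0 = 1) (D : Dist x0 x1 x2 x3 x4)
    (R0 : x0⁻¹ * x1 = x2⁻¹ * x3) (R1 : x0⁻¹ * x3 = x4⁻¹ * x1) (R2 : x3⁻¹ * x4 = x2⁻¹ * x0) : False := by
  have S0 : x0⁻¹ * x1 * (x2⁻¹ * x3)⁻¹ = 1 := mul_inv_eq_one.2 R0
  have S1 : x0⁻¹ * x3 * (x4⁻¹ * x1)⁻¹ = 1 := mul_inv_eq_one.2 R1
  have S2 : x3⁻¹ * x4 * (x2⁻¹ * x0)⁻¹ = 1 := mul_inv_eq_one.2 R2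
  clear R0 R1 R2
  subst h0
  have V0 : x1 * ((x2⁻¹ * x3))⁻¹ = 1 := by
    calc x1 * ((x2⁻¹ * x3))⁻¹ = 1 * (1⁻¹ * x1 * (x2⁻¹ * x3)⁻¹) * 1⁻¹ := by simp only [pow_succ, pow_zero, mul_assoc, mul_inv_rev, inv_inv, mul_inv_cancel, inv_mul_cancel, mul_inv_cancel_left, inv_mul_cancel_left, one_mul, mul_one, inv_one]
      _ = 1 := by rw [S0]; simp
  rw [mul_inv_eq_one] at V0
  subst V0
  have V1 : x2 * ((x4⁻¹))⁻¹ = 1 := by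
    calc x2 * ((x4⁻¹))⁻¹ = 1 * (1⁻¹ * x3 * (x4⁻¹ * (x2⁻¹ * x3))⁻¹) * 1⁻¹ := by simp only [pow_succ, pow_zero, mul_assoc, mul_inv_rev, inv_inv, mul_inv_cancel, inv_mul_cancel, mul_inv_cancel_left, inv_mul_cancel_left, one_mul, mul_one, inv_one]
      _ = 1 := by rw [S1]; simp
  rw [mul_inv_eq_one] at V1
  subst V1
  have P : (x3⁻¹) ^ 1 = 1 := by
    calc (x3⁻¹) ^ 1 = 1 * (x3⁻¹ * x4 * ((x4⁻¹)⁻¹ * 1)⁻¹) * 1⁻¹ := by simp only [pow_succ, pow_zero, mul_assoc, mul_inv_rev, inv_inv, mul_inv_cancel, inv_mul_cancel, mul_inv_cancel_left, inv_mul_cancel_left, one_mul, mul_one, inv_one]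
      _ = 1 := by rw [S2]; simp
  have Q : (x3⁻¹) = 1 := htf _ 1 (by norm_num) P
  exact D.n03 (inv_eq_one.1 Q).symm

theorem leaf29 {x0 x1 x2 x3 x4 : G} (h0 : x0 = 1) (D : Dist x0 x1 x2 x3 x4)
    (R0 : x0⁻¹ * x1 = x2⁻¹ * x3) (R1 : x0⁻¹ * x3 = x4⁻¹ * x1) (R2 : x0⁻¹ * x4 = x1⁻¹ * x2) (R3 : x3⁻¹ * x4 = x2⁻¹ * x1) : False := by
  have S0 : x0⁻¹ * x1 * (x2⁻¹ * x3)⁻¹ = 1 := mul_inv_eq_one.2 R0
  have S1 : x0⁻¹ * x3 * (x4⁻¹ * x1)⁻¹ = 1 := mul_inv_eq_one.2 R1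
  have S2 : x0⁻¹ * x4 * (x1⁻¹ * x2)⁻¹ = 1 := mul_inv_eq_one.2 R2
  have S3 : x3⁻¹ * x4 * (x2⁻¹ * x1)⁻¹ = 1 := mul_inv_eq_one.2 R3
  clear R0 R1 R2 R3
  subst h0
  have V0 : x1 * ((x2⁻¹ * x3))⁻¹ = 1 := by
    calc x1 * ((x2⁻¹ * x3))⁻¹ = 1 * (1⁻¹ * x1 * (x2⁻¹ * x3)⁻¹) * 1⁻¹ := by simp only [pow_succ, pow_zero, mul_assoc, mul_inv_rev, inv_inv, mul_inv_cancel, inv_mul_cancel, mul_inv_cancel_left, inv_mul_cancel_left, one_mul, mul_one, inv_one]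
      _ = 1 := by rw [S0]; simp
  rw [mul_inv_eq_one] at V0
  subst V0
  have V1 : x2 * ((x4⁻¹))⁻¹ = 1 := by
    calc x2 * ((x4⁻¹))⁻¹ = 1 * (1⁻¹ * x3 * (x4⁻¹ * (x2⁻¹ * x3))⁻¹) * 1⁻¹ := by simp only [pow_succ, pow_zero, mul_assoc, mul_inv_rev, inv_inv, mul_inv_cancel, inv_mul_cancel, mul_inv_cancel_left, inv_mul_cancel_left, one_mul, mul_one, inv_one]
      _ = 1 := by rw [S1]; simp
  rw [mul_inv_eq_one] at V1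
  subst V1
  have V2 : x3 * ((x4⁻¹ * x4⁻¹ * x4⁻¹))⁻¹ = 1 := by
    calc x3 * ((x4⁻¹ * x4⁻¹ * x4⁻¹))⁻¹ = (x4⁻¹ * x4⁻¹ * x4⁻¹) * (1⁻¹ * x4 * (((x4⁻¹)⁻¹ * x3)⁻¹ * (x4⁻¹))⁻¹) * (x4⁻¹ * x4⁻¹ * x4⁻¹)⁻¹ := by simp only [pow_succ, pow_zero, mul_assoc, mul_inv_rev, inv_inv, mul_inv_cancel, inv_mul_cancel, mul_inv_cancel_left, inv_mul_cancel_left, one_mul, mul_one, inv_one]
      _ = 1 := by rw [S2]; simp
  rw [mul_inv_eq_one] at V2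
  subst V2
  have P : (x4) ^ 5 = 1 := by
    calc (x4) ^ 5 = 1 * ((x4⁻¹ * x4⁻¹ * x4⁻¹)⁻¹ * x4 * ((x4⁻¹)⁻¹ * ((x4⁻¹)⁻¹ * (x4⁻¹ * x4⁻¹ * x4⁻¹)))⁻¹) * 1⁻¹ := by simp only [pow_succ, pow_zero, mul_assoc, mul_inv_rev, inv_inv, mul_inv_cancel, inv_mul_cancel, mul_inv_cancel_left, inv_mul_cancel_left, one_mul, mul_one, inv_one]
      _ = 1 := by rw [S3]; simp
  have Q : (x4) = 1 := htf _ 5 (by norm_num) P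
  exact D.n04 Q.symm

theorem leaf30 {x0 x1 x2 x3 x4 : G} (h0 : x0 = 1) (D : Dist x0 x1 x2 x3 x4)
    (R0 : x0⁻¹ * x3 = x4⁻¹ * x2) (R1 : x0⁻¹ * x4 = x1⁻¹ * x2) (R2 : x1⁻¹ * x4 = x0⁻¹ * x3) : False := by
  have S0 : x0⁻¹ * x3 * (x4⁻¹ * x2)⁻¹ = 1 := mul_inv_eq_one.2 R0
  have S1 : x0⁻¹ * x4 * (x1⁻¹ * x2)⁻¹ = 1 := mul_inv_eq_one.2 R1
  have S2 : x1⁻¹ * x4 * (x0⁻¹ * x3)⁻¹ = 1 := mul_inv_eq_one.2 R2
  clear R0 R1 R2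
  subst h0
  have V0 : x2 * ((x4 * x3))⁻¹ = 1 := by
    calc x2 * ((x4 * x3))⁻¹ = (x4) * (1⁻¹ * x3 * (x4⁻¹ * x2)⁻¹)⁻¹ * (x4)⁻¹ := by simp only [pow_succ, pow_zero, mul_assoc, mul_inv_rev, inv_inv, mul_inv_cancel, inv_mul_cancel, mul_inv_cancel_left, inv_mul_cancel_left, one_mul, mul_one, inv_one]
      _ = 1 := by rw [S0]; simp
  rw [mul_inv_eq_one] at V0
  subst V0
  have V1 : x4 * ((x1 * x3))⁻¹ = 1 := by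
    calc x4 * ((x1 * x3))⁻¹ = (x1) * (x1⁻¹ * x4 * (1⁻¹ * x3)⁻¹) * (x1)⁻¹ := by simp only [pow_succ, pow_zero, mul_assoc, mul_inv_rev, inv_inv, mul_inv_cancel, inv_mul_cancel, mul_inv_cancel_left, inv_mul_cancel_left, one_mul, mul_one, inv_one]
      _ = 1 := by rw [S2]; simp
  rw [mul_inv_eq_one] at V1
  subst V1
  have P : (x1 * x3⁻¹) ^ 1 = 1 := by
    calc (x1 * x3⁻¹) ^ 1 = 1 * (1⁻¹ * (x1 * x3) * (x1⁻¹ * ((x1 * x3) * x3))⁻¹) * 1⁻¹ := by simp only [pow_succ, pow_zero, mul_assoc, mul_inv_rev, inv_inv, mul_inv_cancel, inv_mul_cancel, mul_inv_cancel_left, inv_mul_cancel_left, one_mul, mul_one, inv_one]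
      _ = 1 := by rw [S1]; simp
  have Q : (x1 * x3⁻¹) = 1 := htf _ 1 (by norm_num) P
  exact D.n13 (mul_inv_eq_one.1 Q)

theorem leaf31 {x0 x1 x2 x3 x4 : G} (h0 : x0 = 1) (D : Dist x0 x1 x2 x3 x4)
    (R0 : x0⁻¹ * x1 = x2⁻¹ * x3) (R1 : x0⁻¹ * x3 = x4⁻¹ * x2) (R2 : x0⁻¹ * x4 = x1⁻¹ * x2) (R3 : x1⁻¹ * x4 = x2⁻¹ * x0) : False := by
  have S0 : x0⁻¹ * x1 * (x2⁻¹ * x3)⁻¹ = 1 := mul_inv_eq_one.2 R0
  have S1 : x0⁻¹ * x3 * (x4⁻¹ * x2)⁻¹ = 1 := mul_inv_eq_one.2 R1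
  have S2 : x0⁻¹ * x4 * (x1⁻¹ * x2)⁻¹ = 1 := mul_inv_eq_one.2 R2
  have S3 : x1⁻¹ * x4 * (x2⁻¹ * x0)⁻¹ = 1 := mul_inv_eq_one.2 R3
  clear R0 R1 R2 R3
  subst h0
  have V0 : x1 * ((x2⁻¹ * x3))⁻¹ = 1 := by
    calc x1 * ((x2⁻¹ * x3))⁻¹ = 1 * (1⁻¹ * x1 * (x2⁻¹ * x3)⁻¹) * 1⁻¹ := by simp only [pow_succ, pow_zero, mul_assoc, mul_inv_rev, inv_inv, mul_inv_cancel, inv_mul_cancel, mul_inv_cancel_left, inv_mul_cancel_left, one_mul, mul_one, inv_one]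
      _ = 1 := by rw [S0]; simp
  rw [mul_inv_eq_one] at V0
  subst V0
  have V1 : x2 * ((x4 * x3))⁻¹ = 1 := by
    calc x2 * ((x4 * x3))⁻¹ = (x4) * (1⁻¹ * x3 * (x4⁻¹ * x2)⁻¹)⁻¹ * (x4)⁻¹ := by simp only [pow_succ, pow_zero, mul_assoc, mul_inv_rev, inv_inv, mul_inv_cancel, inv_mul_cancel, mul_inv_cancel_left, inv_mul_cancel_left, one_mul, mul_one, inv_one]
      _ = 1 := by rw [S1]; simp
  rw [mul_inv_eq_one] at V1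
  subst V1
  have V2 : x3 * ((x4⁻¹ * x4⁻¹ * x4⁻¹))⁻¹ = 1 := by
    calc x3 * ((x4⁻¹ * x4⁻¹ * x4⁻¹))⁻¹ = (x4⁻¹ * x3) * (((x4 * x3)⁻¹ * x3)⁻¹ * x4 * ((x4 * x3)⁻¹ * 1)⁻¹) * (x4⁻¹ * x3)⁻¹ := by simp only [pow_succ, pow_zero, mul_assoc, mul_inv_rev, inv_inv, mul_inv_cancel, inv_mul_cancel, mul_inv_cancel_left, inv_mul_cancel_left, one_mul, mul_one, inv_one]
      _ = 1 := by rw [S3]; simp
  rw [mul_inv_eq_one] at V2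
  subst V2
  have P : (x4) ^ 2 = 1 := by
    calc (x4) ^ 2 = 1 * (1⁻¹ * x4 * (((x4 * (x4⁻¹ * x4⁻¹ * x4⁻¹))⁻¹ * (x4⁻¹ * x4⁻¹ * x4⁻¹))⁻¹ * (x4 * (x4⁻¹ * x4⁻¹ * x4⁻¹)))⁻¹) * 1⁻¹ := by simp only [pow_succ, pow_zero, mul_assoc, mul_inv_rev, inv_inv, mul_inv_cancel, inv_mul_cancel, mul_inv_cancel_left, inv_mul_cancel_left, one_mul, mul_one, inv_one]
      _ = 1 := by rw [S2]; simp
  have Q : (x4) = 1 := htf _ 2 (by norm_num) P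
  exact D.n04 Q.symm

theorem leaf32 {x0 x1 x2 x3 x4 : G} (h0 : x0 = 1) (D : Dist x0 x1 x2 x3 x4)
    (R0 : x0⁻¹ * x1 = x2⁻¹ * x3) (R1 : x0⁻¹ * x3 = x4⁻¹ * x2) (R2 : x0⁻¹ * x4 = x1⁻¹ * x2) (R3 : x1⁻¹ * x4 = x2⁻¹ * x3) : False := by
  have S0 : x0⁻¹ * x1 * (x2⁻¹ * x3)⁻¹ = 1 := mul_inv_eq_one.2 R0
  have S1 : x0⁻¹ * x3 * (x4⁻¹ * x2)⁻¹ = 1 := mul_inv_eq_one.2 R1
  have S2 : x0⁻¹ * x4 * (x1⁻¹ * x2)⁻¹ = 1 := mul_inv_eq_one.2 R2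
  have S3 : x1⁻¹ * x4 * (x2⁻¹ * x3)⁻¹ = 1 := mul_inv_eq_one.2 R3
  clear R0 R1 R2 R3
  subst h0
  have V0 : x2 * ((x3 * x1⁻¹))⁻¹ = 1 := by
    calc x2 * ((x3 * x1⁻¹))⁻¹ = (x3 * x1⁻¹) * (1⁻¹ * x1 * (x2⁻¹ * x3)⁻¹) * (x3 * x1⁻¹)⁻¹ := by simp only [pow_succ, pow_zero, mul_assoc, mul_inv_rev, inv_inv, mul_inv_cancel, inv_mul_cancel, mul_inv_cancel_left, inv_mul_cancel_left, one_mul, mul_one, inv_one]
      _ = 1 := by rw [S0]; simp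
  rw [mul_inv_eq_one] at V0
  subst V0
  have V1 : x4 * ((x1 * x1))⁻¹ = 1 := by
    calc x4 * ((x1 * x1))⁻¹ = (x1) * (x1⁻¹ * x4 * ((x3 * x1⁻¹)⁻¹ * x3)⁻¹) * (x1)⁻¹ := by simp only [pow_succ, pow_zero, mul_assoc, mul_inv_rev, inv_inv, mul_inv_cancel, inv_mul_cancel, mul_inv_cancel_left, inv_mul_cancel_left, one_mul, mul_one, inv_one]
      _ = 1 := by rw [S3]; simp
  rw [mul_inv_eq_one] at V1
  subst V1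
  have V2 : x3 * ((x1 * x1 * x1 * x1))⁻¹ = 1 := by
    calc x3 * ((x1 * x1 * x1 * x1))⁻¹ = (x1) * (1⁻¹ * (x1 * x1) * (x1⁻¹ * (x3 * x1⁻¹))⁻¹)⁻¹ * (x1)⁻¹ := by simp only [pow_succ, pow_zero, mul_assoc, mul_inv_rev, inv_inv, mul_inv_cancel, inv_mul_cancel, mul_inv_cancel_left, inv_mul_cancel_left, one_mul, mul_one, inv_one]
      _ = 1 := by rw [S2]; simp
  rw [mul_inv_eq_one] at V2
  subst V2
  have P : (x1) ^ 3 = 1 := by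
    calc (x1) ^ 3 = 1 * (1⁻¹ * (x1 * x1 * x1 * x1) * ((x1 * x1)⁻¹ * ((x1 * x1 * x1 * x1) * x1⁻¹))⁻¹) * 1⁻¹ := by simp only [pow_succ, pow_zero, mul_assoc, mul_inv_rev, inv_inv, mul_inv_cancel, inv_mul_cancel, mul_inv_cancel_left, inv_mul_cancel_left, one_mul, mul_one, inv_one]
      _ = 1 := by rw [S1]; simp
  have Q : (x1) = 1 := htf _ 3 (by norm_num) P
  exact D.n01 Q.symm

theorem leaf33 {x0 x1 x2 x3 x4 : G} (h0 : x0 = 1) (D : Dist x0 x1 x2 x3 x4)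
    (R0 : x0⁻¹ * x3 = x4⁻¹ * x2) (R1 : x1⁻¹ * x4 = x3⁻¹ * x0) : False := by
  have S0 : x0⁻¹ * x3 * (x4⁻¹ * x2)⁻¹ = 1 := mul_inv_eq_one.2 R0
  have S1 : x1⁻¹ * x4 * (x3⁻¹ * x0)⁻¹ = 1 := mul_inv_eq_one.2 R1
  clear R0 R1
  subst h0
  have V0 : x3 * ((x4⁻¹ * x2))⁻¹ = 1 := by
    calc x3 * ((x4⁻¹ * x2))⁻¹ = 1 * (1⁻¹ * x3 * (x4⁻¹ * x2)⁻¹) * 1⁻¹ := by simp only [pow_succ, pow_zero, mul_assoc, mul_inv_rev, inv_inv, mul_inv_cancel, inv_mul_cancel, mul_inv_cancel_left, inv_mul_cancel_left, one_mul, mul_one, inv_one]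
      _ = 1 := by rw [S0]; simp
  rw [mul_inv_eq_one] at V0
  subst V0
  have P : (x1⁻¹ * x2) ^ 1 = 1 := by
    calc (x1⁻¹ * x2) ^ 1 = 1 * (x1⁻¹ * x4 * ((x4⁻¹ * x2)⁻¹ * 1)⁻¹) * 1⁻¹ := by simp only [pow_succ, pow_zero, mul_assoc, mul_inv_rev, inv_inv, mul_inv_cancel, inv_mul_cancel, mul_inv_cancel_left, inv_mul_cancel_left, one_mul, mul_one, inv_one]
      _ = 1 := by rw [S1]; simp
  have Q : (x1⁻¹ * x2) = 1 := htf _ 1 (by norm_num) P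
  exact D.n12 (inv_mul_eq_one.1 Q)

theorem leaf34 {x0 x1 x2 x3 x4 : G} (h0 : x0 = 1) (D : Dist x0 x1 x2 x3 x4)
    (R0 : x0⁻¹ * x1 = x2⁻¹ * x3) (R1 : x0⁻¹ * x4 = x1⁻¹ * x3) (R2 : x2⁻¹ * x4 = x0⁻¹ * x3) : False := by
  have S0 : x0⁻¹ * x1 * (x2⁻¹ * x3)⁻¹ = 1 := mul_inv_eq_one.2 R0
  have S1 : x0⁻¹ * x4 * (x1⁻¹ * x3)⁻¹ = 1 := mul_inv_eq_one.2 R1
  have S2 : x2⁻¹ * x4 * (x0⁻¹ * x3)⁻¹ = 1 := mul_inv_eq_one.2 R2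
  clear R0 R1 R2
  subst h0
  have V0 : x1 * ((x2⁻¹ * x3))⁻¹ = 1 := by
    calc x1 * ((x2⁻¹ * x3))⁻¹ = 1 * (1⁻¹ * x1 * (x2⁻¹ * x3)⁻¹) * 1⁻¹ := by simp only [pow_succ, pow_zero, mul_assoc, mul_inv_rev, inv_inv, mul_inv_cancel, inv_mul_cancel, mul_inv_cancel_left, inv_mul_cancel_left, one_mul, mul_one, inv_one]
      _ = 1 := by rw [S0]; simp
  rw [mul_inv_eq_one] at V0
  subst V0
  have V1 : x2 * ((x4 * x3⁻¹))⁻¹ = 1 := by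
    calc x2 * ((x4 * x3⁻¹))⁻¹ = (x4 * x3⁻¹) * (x2⁻¹ * x4 * (1⁻¹ * x3)⁻¹)⁻¹ * (x4 * x3⁻¹)⁻¹ := by simp only [pow_succ, pow_zero, mul_assoc, mul_inv_rev, inv_inv, mul_inv_cancel, inv_mul_cancel, mul_inv_cancel_left, inv_mul_cancel_left, one_mul, mul_one, inv_one]
      _ = 1 := by rw [S2]; simp
  rw [mul_inv_eq_one] at V1
  subst V1
  have P : (x3) ^ 1 = 1 := by
    calc (x3) ^ 1 = 1 * (1⁻¹ * x4 * (((x4 * x3⁻¹)⁻¹ * x3)⁻¹ * x3)⁻¹) * 1⁻¹ := by simp only [pow_succ, pow_zero, mul_assoc, mul_inv_rev, inv_inv, mul_inv_cancel, inv_mul_cancel, mul_inv_cancel_left, inv_mul_cancel_left, one_mul, mul_one, inv_one]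
      _ = 1 := by rw [S1]; simp
  have Q : (x3) = 1 := htf _ 1 (by norm_num) P
  exact D.n03 Q.symm

theorem leaf35 {x0 x1 x2 x3 x4 : G} (h0 : x0 = 1) (D : Dist x0 x1 x2 x3 x4)
    (R0 : x0⁻¹ * x2 = x1⁻¹ * x3) (R1 : x0⁻¹ * x4 = x1⁻¹ * x3) : False := by
  have S0 : x0⁻¹ * x2 * (x1⁻¹ * x3)⁻¹ = 1 := mul_inv_eq_one.2 R0
  have S1 : x0⁻¹ * x4 * (x1⁻¹ * x3)⁻¹ = 1 := mul_inv_eq_one.2 R1
  clear R0 R1
  subst h0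
  have V0 : x1 * ((x3 * x2⁻¹))⁻¹ = 1 := by
    calc x1 * ((x3 * x2⁻¹))⁻¹ = (x3 * x2⁻¹) * (1⁻¹ * x2 * (x1⁻¹ * x3)⁻¹) * (x3 * x2⁻¹)⁻¹ := by simp only [pow_succ, pow_zero, mul_assoc, mul_inv_rev, inv_inv, mul_inv_cancel, inv_mul_cancel, mul_inv_cancel_left, inv_mul_cancel_left, one_mul, mul_one, inv_one]
      _ = 1 := by rw [S0]; simp
  rw [mul_inv_eq_one] at V0
  subst V0
  have P : (x4 * x2⁻¹) ^ 1 = 1 := by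
    calc (x4 * x2⁻¹) ^ 1 = 1 * (1⁻¹ * x4 * ((x3 * x2⁻¹)⁻¹ * x3)⁻¹) * 1⁻¹ := by simp only [pow_succ, pow_zero, mul_assoc, mul_inv_rev, inv_inv, mul_inv_cancel, inv_mul_cancel, mul_inv_cancel_left, inv_mul_cancel_left, one_mul, mul_one, inv_one]
      _ = 1 := by rw [S1]; simp
  have Q : (x4 * x2⁻¹) = 1 := htf _ 1 (by norm_num) P
  exact D.n24 (mul_inv_eq_one.1 Q).symm

theorem leaf36 {x0 x1 x2 x3 x4 : G} (h0 : x0 = 1) (D : Dist x0 x1 x2 x3 x4)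
    (R0 : x0⁻¹ * x2 = x1⁻¹ * x4) (R1 : x0⁻¹ * x4 = x1⁻¹ * x3) (R2 : x1⁻¹ * x2 = x0⁻¹ * x3) : False := by
  have S0 : x0⁻¹ * x2 * (x1⁻¹ * x4)⁻¹ = 1 := mul_inv_eq_one.2 R0
  have S1 : x0⁻¹ * x4 * (x1⁻¹ * x3)⁻¹ = 1 := mul_inv_eq_one.2 R1
  have S2 : x1⁻¹ * x2 * (x0⁻¹ * x3)⁻¹ = 1 := mul_inv_eq_one.2 R2
  clear R0 R1 R2
  subst h0
  have V0 : x1 * ((x4 * x2⁻¹))⁻¹ = 1 := by
    calc x1 * ((x4 * x2⁻¹))⁻¹ = (x4 * x2⁻¹) * (1⁻¹ * x2 * (x1⁻¹ * x4)⁻¹) * (x4 * x2⁻¹)⁻¹ := by simp only [pow_succ, pow_zero, mul_assoc, mul_inv_rev, inv_inv, mul_inv_cancel, inv_mul_cancel, mul_inv_cancel_left, inv_mul_cancel_left, one_mul, mul_one, inv_one]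
      _ = 1 := by rw [S0]; simp
  rw [mul_inv_eq_one] at V0
  subst V0
  have V1 : x2 * ((x4 * x3⁻¹ * x4))⁻¹ = 1 := by
    calc x2 * ((x4 * x3⁻¹ * x4))⁻¹ = 1 * (1⁻¹ * x4 * ((x4 * x2⁻¹)⁻¹ * x3)⁻¹)⁻¹ * 1⁻¹ := by simp only [pow_succ, pow_zero, mul_assoc, mul_inv_rev, inv_inv, mul_inv_cancel, inv_mul_cancel, mul_inv_cancel_left, inv_mul_cancel_left, one_mul, mul_one, inv_one]
      _ = 1 := by rw [S1]; simp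
  rw [mul_inv_eq_one] at V1
  subst V1
  have P : (x4 * x3⁻¹) ^ 3 = 1 := by
    calc (x4 * x3⁻¹) ^ 3 = 1 * ((x4 * (x4 * x3⁻¹ * x4)⁻¹)⁻¹ * (x4 * x3⁻¹ * x4) * (1⁻¹ * x3)⁻¹) * 1⁻¹ := by simp only [pow_succ, pow_zero, mul_assoc, mul_inv_rev, inv_inv, mul_inv_cancel, inv_mul_cancel, mul_inv_cancel_left, inv_mul_cancel_left, one_mul, mul_one, inv_one]
      _ = 1 := by rw [S2]; simp
  have Q : (x4 * x3⁻¹) = 1 := htf _ 3 (by norm_num) P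
  exact D.n34 (mul_inv_eq_one.1 Q).symm

theorem leaf37 {x0 x1 x2 x3 x4 : G} (h0 : x0 = 1) (D : Dist x0 x1 x2 x3 x4)
    (R0 : x0⁻¹ * x2 = x3⁻¹ * x1) (R1 : x0⁻¹ * x4 = x1⁻¹ * x3) (R2 : x2⁻¹ * x4 = x1⁻¹ * x0) : False := by
  have S0 : x0⁻¹ * x2 * (x3⁻¹ * x1)⁻¹ = 1 := mul_inv_eq_one.2 R0
  have S1 : x0⁻¹ * x4 * (x1⁻¹ * x3)⁻¹ = 1 := mul_inv_eq_one.2 R1
  have S2 : x2⁻¹ * x4 * (x1⁻¹ * x0)⁻¹ = 1 := mul_inv_eq_one.2 R2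
  clear R0 R1 R2
  subst h0
  have V0 : x1 * ((x3 * x2))⁻¹ = 1 := by
    calc x1 * ((x3 * x2))⁻¹ = (x3) * (1⁻¹ * x2 * (x3⁻¹ * x1)⁻¹)⁻¹ * (x3)⁻¹ := by simp only [pow_succ, pow_zero, mul_assoc, mul_inv_rev, inv_inv, mul_inv_cancel, inv_mul_cancel, mul_inv_cancel_left, inv_mul_cancel_left, one_mul, mul_one, inv_one]
      _ = 1 := by rw [S0]; simp
  rw [mul_inv_eq_one] at V0
  subst V0
  have V1 : x4 * ((x2⁻¹))⁻¹ = 1 := by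
    calc x4 * ((x2⁻¹))⁻¹ = 1 * (1⁻¹ * x4 * ((x3 * x2)⁻¹ * x3)⁻¹) * 1⁻¹ := by simp only [pow_succ, pow_zero, mul_assoc, mul_inv_rev, inv_inv, mul_inv_cancel, inv_mul_cancel, mul_inv_cancel_left, inv_mul_cancel_left, one_mul, mul_one, inv_one]
      _ = 1 := by rw [S1]; simp
  rw [mul_inv_eq_one] at V1
  subst V1
  have P : (x2⁻¹ * x3) ^ 1 = 1 := by
    calc (x2⁻¹ * x3) ^ 1 = (x2) * (x2⁻¹ * (x2⁻¹) * ((x3 * x2)⁻¹ * 1)⁻¹) * (x2)⁻¹ := by simp only [pow_succ, pow_zero, mul_assoc, mul_inv_rev, inv_inv, mul_inv_cancel, inv_mul_cancel, mul_inv_cancel_left, inv_mul_cancel_left, one_mul, mul_one, inv_one]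
      _ = 1 := by rw [S2]; simp
  have Q : (x2⁻¹ * x3) = 1 := htf _ 1 (by norm_num) P
  exact D.n23 (inv_mul_eq_one.1 Q)

theorem leaf38 {x0 x1 x2 x3 x4 : G} (h0 : x0 = 1) (D : Dist x0 x1 x2 x3 x4)
    (R0 : x0⁻¹ * x1 = x2⁻¹ * x3) (R1 : x0⁻¹ * x2 = x3⁻¹ * x4) (R2 : x0⁻¹ * x4 = x1⁻¹ * x3) (R3 : x1⁻¹ * x2 = x0⁻¹ * x3) : False := by
  have S0 : x0⁻¹ * x1 * (x2⁻¹ * x3)⁻¹ = 1 := mul_inv_eq_one.2 R0
  have S1 : x0⁻¹ * x2 * (x3⁻¹ * x4)⁻¹ = 1 := mul_inv_eq_one.2 R1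
  have S2 : x0⁻¹ * x4 * (x1⁻¹ * x3)⁻¹ = 1 := mul_inv_eq_one.2 R2
  have S3 : x1⁻¹ * x2 * (x0⁻¹ * x3)⁻¹ = 1 := mul_inv_eq_one.2 R3
  clear R0 R1 R2 R3
  subst h0
  have V0 : x2 * ((x3⁻¹ * x4))⁻¹ = 1 := by
    calc x2 * ((x3⁻¹ * x4))⁻¹ = 1 * (1⁻¹ * x2 * (x3⁻¹ * x4)⁻¹) * 1⁻¹ := by simp only [pow_succ, pow_zero, mul_assoc, mul_inv_rev, inv_inv, mul_inv_cancel, inv_mul_cancel, mul_inv_cancel_left, inv_mul_cancel_left, one_mul, mul_one, inv_one]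
      _ = 1 := by rw [S1]; simp
  rw [mul_inv_eq_one] at V0
  subst V0
  have V1 : x3 * ((x1 * x4))⁻¹ = 1 := by
    calc x3 * ((x1 * x4))⁻¹ = (x1) * (1⁻¹ * x4 * (x1⁻¹ * x3)⁻¹)⁻¹ * (x1)⁻¹ := by simp only [pow_succ, pow_zero, mul_assoc, mul_inv_rev, inv_inv, mul_inv_cancel, inv_mul_cancel, mul_inv_cancel_left, inv_mul_cancel_left, one_mul, mul_one, inv_one]
      _ = 1 := by rw [S2]; simp
  rw [mul_inv_eq_one] at V1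
  subst V1
  have V2 : x4 * ((x1⁻¹ * x1⁻¹ * x1⁻¹))⁻¹ = 1 := by
    calc x4 * ((x1⁻¹ * x1⁻¹ * x1⁻¹))⁻¹ = (x1⁻¹ * x1⁻¹) * (x1⁻¹ * ((x1 * x4)⁻¹ * x4) * (1⁻¹ * (x1 * x4))⁻¹)⁻¹ * (x1⁻¹ * x1⁻¹)⁻¹ := by simp only [pow_succ, pow_zero, mul_assoc, mul_inv_rev, inv_inv, mul_inv_cancel, inv_mul_cancel, mul_inv_cancel_left, inv_mul_cancel_left, one_mul, mul_one, inv_one]
      _ = 1 := by rw [S3]; simp
  rw [mul_inv_eq_one] at V2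
  subst V2
  have P : (x1) ^ 2 = 1 := by
    calc (x1) ^ 2 = 1 * (1⁻¹ * x1 * (((x1 * (x1⁻¹ * x1⁻¹ * x1⁻¹))⁻¹ * (x1⁻¹ * x1⁻¹ * x1⁻¹))⁻¹ * (x1 * (x1⁻¹ * x1⁻¹ * x1⁻¹)))⁻¹) * 1⁻¹ := by simp only [pow_succ, pow_zero, mul_assoc, mul_inv_rev, inv_inv, mul_inv_cancel, inv_mul_cancel, mul_inv_cancel_left, inv_mul_cancel_left, one_mul, mul_one, inv_one]
      _ = 1 := by rw [S0]; simp
  have Q : (x1) = 1 := htf _ 2 (by norm_num) P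
  exact D.n01 Q.symm

theorem leaf39 {x0 x1 x2 x3 x4 : G} (h0 : x0 = 1) (D : Dist x0 x1 x2 x3 x4)
    (R0 : x0⁻¹ * x2 = x4⁻¹ * x1) (R1 : x2⁻¹ * x4 = x1⁻¹ * x0) : False := by
  have S0 : x0⁻¹ * x2 * (x4⁻¹ * x1)⁻¹ = 1 := mul_inv_eq_one.2 R0
  have S1 : x2⁻¹ * x4 * (x1⁻¹ * x0)⁻¹ = 1 := mul_inv_eq_one.2 R1
  clear R0 R1
  subst h0
  have V0 : x1 * ((x4 * x2))⁻¹ = 1 := by
    calc x1 * ((x4 * x2))⁻¹ = (x4) * (1⁻¹ * x2 * (x4⁻¹ * x1)⁻¹)⁻¹ * (x4)⁻¹ := by simp only [pow_succ, pow_zero, mul_assoc, mul_inv_rev, inv_inv, mul_inv_cancel, inv_mul_cancel, mul_inv_cancel_left, inv_mul_cancel_left, one_mul, mul_one, inv_one]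
      _ = 1 := by rw [S0]; simp
  rw [mul_inv_eq_one] at V0
  subst V0
  have P : (x4) ^ 2 = 1 := by
    calc (x4) ^ 2 = (x2) * (x2⁻¹ * x4 * ((x4 * x2)⁻¹ * 1)⁻¹) * (x2)⁻¹ := by simp only [pow_succ, pow_zero, mul_assoc, mul_inv_rev, inv_inv, mul_inv_cancel, inv_mul_cancel, mul_inv_cancel_left, inv_mul_cancel_left, one_mul, mul_one, inv_one]
      _ = 1 := by rw [S1]; simp
  have Q : (x4) = 1 := htf _ 2 (by norm_num) P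
  exact D.n04 Q.symm

theorem leaf40 {x0 x1 x2 x3 x4 : G} (h0 : x0 = 1) (D : Dist x0 x1 x2 x3 x4)
    (R0 : x0⁻¹ * x1 = x2⁻¹ * x3) (R1 : x0⁻¹ * x2 = x4⁻¹ * x3) (R2 : x2⁻¹ * x4 = x1⁻¹ * x0) : False := by
  have S0 : x0⁻¹ * x1 * (x2⁻¹ * x3)⁻¹ = 1 := mul_inv_eq_one.2 R0
  have S1 : x0⁻¹ * x2 * (x4⁻¹ * x3)⁻¹ = 1 := mul_inv_eq_one.2 R1
  have S2 : x2⁻¹ * x4 * (x1⁻¹ * x0)⁻¹ = 1 := mul_inv_eq_one.2 R2
  clear R0 R1 R2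
  subst h0
  have V0 : x2 * ((x3 * x1⁻¹))⁻¹ = 1 := by
    calc x2 * ((x3 * x1⁻¹))⁻¹ = (x3 * x1⁻¹) * (1⁻¹ * x1 * (x2⁻¹ * x3)⁻¹) * (x3 * x1⁻¹)⁻¹ := by simp only [pow_succ, pow_zero, mul_assoc, mul_inv_rev, inv_inv, mul_inv_cancel, inv_mul_cancel, mul_inv_cancel_left, inv_mul_cancel_left, one_mul, mul_one, inv_one]
      _ = 1 := by rw [S0]; simp
  rw [mul_inv_eq_one] at V0
  subst V0
  have V1 : x3 * ((x4 * x1 * x1))⁻¹ = 1 := by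
    calc x3 * ((x4 * x1 * x1))⁻¹ = (x4 * x1) * ((x3 * x1⁻¹)⁻¹ * x4 * (x1⁻¹ * 1)⁻¹)⁻¹ * (x4 * x1)⁻¹ := by simp only [pow_succ, pow_zero, mul_assoc, mul_inv_rev, inv_inv, mul_inv_cancel, inv_mul_cancel, mul_inv_cancel_left, inv_mul_cancel_left, one_mul, mul_one, inv_one]
      _ = 1 := by rw [S2]; simp
  rw [mul_inv_eq_one] at V1
  subst V1
  have P : (x4 * x1⁻¹) ^ 1 = 1 := by
    calc (x4 * x1⁻¹) ^ 1 = 1 * (1⁻¹ * ((x4 * x1 * x1) * x1⁻¹) * (x4⁻¹ * (x4 * x1 * x1))⁻¹) * 1⁻¹ := by simp only [pow_succ, pow_zero, mul_assoc, mul_inv_rev, inv_inv, mul_inv_cancel, inv_mul_cancel, mul_inv_cancel_left, inv_mul_cancel_left, one_mul, mul_one, inv_one]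
      _ = 1 := by rw [S1]; simp
  have Q : (x4 * x1⁻¹) = 1 := htf _ 1 (by norm_num) P
  exact D.n14 (mul_inv_eq_one.1 Q).symm

theorem leaf41 {x0 x1 x2 x3 x4 : G} (h0 : x0 = 1) (D : Dist x0 x1 x2 x3 x4)
    (R0 : x0⁻¹ * x4 = x1⁻¹ * x3) (R1 : x2⁻¹ * x4 = x1⁻¹ * x3) : False := by
  have S0 : x0⁻¹ * x4 * (x1⁻¹ * x3)⁻¹ = 1 := mul_inv_eq_one.2 R0
  have S1 : x2⁻¹ * x4 * (x1⁻¹ * x3)⁻¹ = 1 := mul_inv_eq_one.2 R1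
  clear R0 R1
  subst h0
  have V0 : x1 * ((x3 * x4⁻¹))⁻¹ = 1 := by
    calc x1 * ((x3 * x4⁻¹))⁻¹ = (x3 * x4⁻¹) * (1⁻¹ * x4 * (x1⁻¹ * x3)⁻¹) * (x3 * x4⁻¹)⁻¹ := by simp only [pow_succ, pow_zero, mul_assoc, mul_inv_rev, inv_inv, mul_inv_cancel, inv_mul_cancel, mul_inv_cancel_left, inv_mul_cancel_left, one_mul, mul_one, inv_one]
      _ = 1 := by rw [S0]; simp
  rw [mul_inv_eq_one] at V0
  subst V0
  have P : (x2⁻¹) ^ 1 = 1 := by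
    calc (x2⁻¹) ^ 1 = 1 * (x2⁻¹ * x4 * ((x3 * x4⁻¹)⁻¹ * x3)⁻¹) * 1⁻¹ := by simp only [pow_succ, pow_zero, mul_assoc, mul_inv_rev, inv_inv, mul_inv_cancel, inv_mul_cancel, mul_inv_cancel_left, inv_mul_cancel_left, one_mul, mul_one, inv_one]
      _ = 1 := by rw [S1]; simp
  have Q : (x2⁻¹) = 1 := htf _ 1 (by norm_num) P
  exact D.n02 (inv_eq_one.1 Q).symm

theorem leaf42 {x0 x1 x2 x3 x4 : G} (h0 : x0 = 1) (D : Dist x0 x1 x2 x3 x4)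
    (R0 : x1⁻¹ * x2 = x0⁻¹ * x3) (R1 : x2⁻¹ * x4 = x3⁻¹ * x0) : False := by
  have S0 : x1⁻¹ * x2 * (x0⁻¹ * x3)⁻¹ = 1 := mul_inv_eq_one.2 R0
  have S1 : x2⁻¹ * x4 * (x3⁻¹ * x0)⁻¹ = 1 := mul_inv_eq_one.2 R1
  clear R0 R1
  subst h0
  have V0 : x2 * ((x1 * x3))⁻¹ = 1 := by
    calc x2 * ((x1 * x3))⁻¹ = (x1) * (x1⁻¹ * x2 * (1⁻¹ * x3)⁻¹) * (x1)⁻¹ := by simp only [pow_succ, pow_zero, mul_assoc, mul_inv_rev, inv_inv, mul_inv_cancel, inv_mul_cancel, mul_inv_cancel_left, inv_mul_cancel_left, one_mul, mul_one, inv_one]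
      _ = 1 := by rw [S0]; simp
  rw [mul_inv_eq_one] at V0
  subst V0
  have P : (x1⁻¹ * x4) ^ 1 = 1 := by
    calc (x1⁻¹ * x4) ^ 1 = (x3) * ((x1 * x3)⁻¹ * x4 * (x3⁻¹ * 1)⁻¹) * (x3)⁻¹ := by simp only [pow_succ, pow_zero, mul_assoc, mul_inv_rev, inv_inv, mul_inv_cancel, inv_mul_cancel, mul_inv_cancel_left, inv_mul_cancel_left, one_mul, mul_one, inv_one]
      _ = 1 := by rw [S1]; simp
  have Q : (x1⁻¹ * x4) = 1 := htf _ 1 (by norm_num) P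
  exact D.n14 (inv_mul_eq_one.1 Q)

theorem leaf43 {x0 x1 x2 x3 x4 : G} (h0 : x0 = 1) (D : Dist x0 x1 x2 x3 x4)
    (R0 : x0⁻¹ * x1 = x2⁻¹ * x3) (R1 : x0⁻¹ * x4 = x1⁻¹ * x3) (R2 : x1⁻¹ * x2 = x0⁻¹ * x3) (R3 : x2⁻¹ * x4 = x3⁻¹ * x1) : False := by
  have S0 : x0⁻¹ * x1 * (x2⁻¹ * x3)⁻¹ = 1 := mul_inv_eq_one.2 R0
  have S1 : x0⁻¹ * x4 * (x1⁻¹ * x3)⁻¹ = 1 := mul_inv_eq_one.2 R1
  have S2 : x1⁻¹ * x2 * (x0⁻¹ * x3)⁻¹ = 1 := mul_inv_eq_one.2 R2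
  have S3 : x2⁻¹ * x4 * (x3⁻¹ * x1)⁻¹ = 1 := mul_inv_eq_one.2 R3
  clear R0 R1 R2 R3
  subst h0
  have V0 : x3 * ((x1 * x4))⁻¹ = 1 := by
    calc x3 * ((x1 * x4))⁻¹ = (x1) * (1⁻¹ * x4 * (x1⁻¹ * x3)⁻¹)⁻¹ * (x1)⁻¹ := by simp only [pow_succ, pow_zero, mul_assoc, mul_inv_rev, inv_inv, mul_inv_cancel, inv_mul_cancel, mul_inv_cancel_left, inv_mul_cancel_left, one_mul, mul_one, inv_one]
      _ = 1 := by rw [S1]; simp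
  rw [mul_inv_eq_one] at V0
  subst V0
  have V1 : x2 * ((x4 * x4))⁻¹ = 1 := by
    calc x2 * ((x4 * x4))⁻¹ = (x4 * x4) * (x2⁻¹ * x4 * ((x1 * x4)⁻¹ * x1)⁻¹)⁻¹ * (x4 * x4)⁻¹ := by simp only [pow_succ, pow_zero, mul_assoc, mul_inv_rev, inv_inv, mul_inv_cancel, inv_mul_cancel, mul_inv_cancel_left, inv_mul_cancel_left, one_mul, mul_one, inv_one]
      _ = 1 := by rw [S3]; simp
  rw [mul_inv_eq_one] at V1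
  subst V1
  have V2 : x4 * ((x1 * x1))⁻¹ = 1 := by
    calc x4 * ((x1 * x1))⁻¹ = (x1) * (x1⁻¹ * (x4 * x4) * (1⁻¹ * (x1 * x4))⁻¹) * (x1)⁻¹ := by simp only [pow_succ, pow_zero, mul_assoc, mul_inv_rev, inv_inv, mul_inv_cancel, inv_mul_cancel, mul_inv_cancel_left, inv_mul_cancel_left, one_mul, mul_one, inv_one]
      _ = 1 := by rw [S2]; simp
  rw [mul_inv_eq_one] at V2
  subst V2
  have P : (x1) ^ 2 = 1 := by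
    calc (x1) ^ 2 = 1 * (1⁻¹ * x1 * (((x1 * x1) * (x1 * x1))⁻¹ * (x1 * (x1 * x1)))⁻¹) * 1⁻¹ := by simp only [pow_succ, pow_zero, mul_assoc, mul_inv_rev, inv_inv, mul_inv_cancel, inv_mul_cancel, mul_inv_cancel_left, inv_mul_cancel_left, one_mul, mul_one, inv_one]
      _ = 1 := by rw [S0]; simp
  have Q : (x1) = 1 := htf _ 2 (by norm_num) P
  exact D.n01 Q.symm

theorem leaf44 {x0 x1 x2 x3 x4 : G} (h0 : x0 = 1) (D : Dist x0 x1 x2 x3 x4)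
    (R0 : x0⁻¹ * x4 = x1⁻¹ * x3) (R1 : x1⁻¹ * x2 = x0⁻¹ * x4) : False := by
  have S0 : x0⁻¹ * x4 * (x1⁻¹ * x3)⁻¹ = 1 := mul_inv_eq_one.2 R0
  have S1 : x1⁻¹ * x2 * (x0⁻¹ * x4)⁻¹ = 1 := mul_inv_eq_one.2 R1
  clear R0 R1
  subst h0
  have V0 : x1 * ((x3 * x4⁻¹))⁻¹ = 1 := by
    calc x1 * ((x3 * x4⁻¹))⁻¹ = (x3 * x4⁻¹) * (1⁻¹ * x4 * (x1⁻¹ * x3)⁻¹) * (x3 * x4⁻¹)⁻¹ := by simp only [pow_succ, pow_zero, mul_assoc, mul_inv_rev, inv_inv, mul_inv_cancel, inv_mul_cancel, mul_inv_cancel_left, inv_mul_cancel_left, one_mul, mul_one, inv_one]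
      _ = 1 := by rw [S0]; simp
  rw [mul_inv_eq_one] at V0
  subst V0
  have P : (x3⁻¹ * x2) ^ 1 = 1 := by
    calc (x3⁻¹ * x2) ^ 1 = (x4⁻¹) * ((x3 * x4⁻¹)⁻¹ * x2 * (1⁻¹ * x4)⁻¹) * (x4⁻¹)⁻¹ := by simp only [pow_succ, pow_zero, mul_assoc, mul_inv_rev, inv_inv, mul_inv_cancel, inv_mul_cancel, mul_inv_cancel_left, inv_mul_cancel_left, one_mul, mul_one, inv_one]
      _ = 1 := by rw [S1]; simp
  have Q : (x3⁻¹ * x2) = 1 := htf _ 1 (by norm_num) P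
  exact D.n23 (inv_mul_eq_one.1 Q).symm

theorem leaf45 {x0 x1 x2 x3 x4 : G} (h0 : x0 = 1) (D : Dist x0 x1 x2 x3 x4)
    (R0 : x0⁻¹ * x1 = x2⁻¹ * x3) (R1 : x1⁻¹ * x2 = x3⁻¹ * x0) : False := by
  have S0 : x0⁻¹ * x1 * (x2⁻¹ * x3)⁻¹ = 1 := mul_inv_eq_one.2 R0
  have S1 : x1⁻¹ * x2 * (x3⁻¹ * x0)⁻¹ = 1 := mul_inv_eq_one.2 R1
  clear R0 R1
  subst h0
  have V0 : x1 * ((x2⁻¹ * x3))⁻¹ = 1 := by
    calc x1 * ((x2⁻¹ * x3))⁻¹ = 1 * (1⁻¹ * x1 * (x2⁻¹ * x3)⁻¹) * 1⁻¹ := by simp only [pow_succ, pow_zero, mul_assoc, mul_inv_rev, inv_inv, mul_inv_cancel, inv_mul_cancel, mul_inv_cancel_left, inv_mul_cancel_left, one_mul, mul_one, inv_one]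
      _ = 1 := by rw [S0]; simp
  rw [mul_inv_eq_one] at V0
  subst V0
  have P : (x2) ^ 2 = 1 := by
    calc (x2) ^ 2 = (x3) * ((x2⁻¹ * x3)⁻¹ * x2 * (x3⁻¹ * 1)⁻¹) * (x3)⁻¹ := by simp only [pow_succ, pow_zero, mul_assoc, mul_inv_rev, inv_inv, mul_inv_cancel, inv_mul_cancel, mul_inv_cancel_left, inv_mul_cancel_left, one_mul, mul_one, inv_one]
      _ = 1 := by rw [S1]; simp
  have Q : (x2) = 1 := htf _ 2 (by norm_num) P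
  exact D.n02 Q.symm

theorem leaf46 {x0 x1 x2 x3 x4 : G} (h0 : x0 = 1) (D : Dist x0 x1 x2 x3 x4)
    (R0 : x0⁻¹ * x3 = x1⁻¹ * x2) (R1 : x0⁻¹ * x4 = x1⁻¹ * x3) (R2 : x1⁻¹ * x2 = x3⁻¹ * x4) : False := by
  have S0 : x0⁻¹ * x3 * (x1⁻¹ * x2)⁻¹ = 1 := mul_inv_eq_one.2 R0
  have S1 : x0⁻¹ * x4 * (x1⁻¹ * x3)⁻¹ = 1 := mul_inv_eq_one.2 R1
  have S2 : x1⁻¹ * x2 * (x3⁻¹ * x4)⁻¹ = 1 := mul_inv_eq_one.2 R2
  clear R0 R1 R2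
  subst h0
  have V0 : x1 * ((x2 * x3⁻¹))⁻¹ = 1 := by
    calc x1 * ((x2 * x3⁻¹))⁻¹ = (x2 * x3⁻¹) * (1⁻¹ * x3 * (x1⁻¹ * x2)⁻¹) * (x2 * x3⁻¹)⁻¹ := by simp only [pow_succ, pow_zero, mul_assoc, mul_inv_rev, inv_inv, mul_inv_cancel, inv_mul_cancel, mul_inv_cancel_left, inv_mul_cancel_left, one_mul, mul_one, inv_one]
      _ = 1 := by rw [S0]; simp
  rw [mul_inv_eq_one] at V0
  subst V0
  have V1 : x4 * ((x3 * x3))⁻¹ = 1 := by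
    calc x4 * ((x3 * x3))⁻¹ = (x3) * ((x2 * x3⁻¹)⁻¹ * x2 * (x3⁻¹ * x4)⁻¹)⁻¹ * (x3)⁻¹ := by simp only [pow_succ, pow_zero, mul_assoc, mul_inv_rev, inv_inv, mul_inv_cancel, inv_mul_cancel, mul_inv_cancel_left, inv_mul_cancel_left, one_mul, mul_one, inv_one]
      _ = 1 := by rw [S2]; simp
  rw [mul_inv_eq_one] at V1
  subst V1
  have P : (x2) ^ 1 = 1 := by
    calc (x2) ^ 1 = (x3⁻¹) * (1⁻¹ * (x3 * x3) * ((x2 * x3⁻¹)⁻¹ * x3)⁻¹) * (x3⁻¹)⁻¹ := by simp only [pow_succ, pow_zero, mul_assoc, mul_inv_rev, inv_inv, mul_inv_cancel, inv_mul_cancel, mul_inv_cancel_left, inv_mul_cancel_left, one_mul, mul_one, inv_one]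
      _ = 1 := by rw [S1]; simp
  have Q : (x2) = 1 := htf _ 1 (by norm_num) P
  exact D.n02 Q.symm

theorem leaf47 {x0 x1 x2 x3 x4 : G} (h0 : x0 = 1) (D : Dist x0 x1 x2 x3 x4)
    (R0 : x0⁻¹ * x3 = x1⁻¹ * x4) (R1 : x0⁻¹ * x4 = x1⁻¹ * x3) : False := by
  have S0 : x0⁻¹ * x3 * (x1⁻¹ * x4)⁻¹ = 1 := mul_inv_eq_one.2 R0
  have S1 : x0⁻¹ * x4 * (x1⁻¹ * x3)⁻¹ = 1 := mul_inv_eq_one.2 R1
  clear R0 R1
  subst h0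
  have V0 : x1 * ((x4 * x3⁻¹))⁻¹ = 1 := by
    calc x1 * ((x4 * x3⁻¹))⁻¹ = (x4 * x3⁻¹) * (1⁻¹ * x3 * (x1⁻¹ * x4)⁻¹) * (x4 * x3⁻¹)⁻¹ := by simp only [pow_succ, pow_zero, mul_assoc, mul_inv_rev, inv_inv, mul_inv_cancel, inv_mul_cancel, mul_inv_cancel_left, inv_mul_cancel_left, one_mul, mul_one, inv_one]
      _ = 1 := by rw [S0]; simp
  rw [mul_inv_eq_one] at V0
  subst V0
  have P : (x4 * x3⁻¹) ^ 2 = 1 := by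
    calc (x4 * x3⁻¹) ^ 2 = 1 * (1⁻¹ * x4 * ((x4 * x3⁻¹)⁻¹ * x3)⁻¹) * 1⁻¹ := by simp only [pow_succ, pow_zero, mul_assoc, mul_inv_rev, inv_inv, mul_inv_cancel, inv_mul_cancel, mul_inv_cancel_left, inv_mul_cancel_left, one_mul, mul_one, inv_one]
      _ = 1 := by rw [S1]; simp
  have Q : (x4 * x3⁻¹) = 1 := htf _ 2 (by norm_num) P
  exact D.n34 (mul_inv_eq_one.1 Q).symm

theorem leaf48 {x0 x1 x2 x3 x4 : G} (h0 : x0 = 1) (D : Dist x0 x1 x2 x3 x4)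
    (R0 : x0⁻¹ * x1 = x2⁻¹ * x3) (R1 : x0⁻¹ * x3 = x2⁻¹ * x4) (R2 : x0⁻¹ * x4 = x1⁻¹ * x3) : False := by
  have S0 : x0⁻¹ * x1 * (x2⁻¹ * x3)⁻¹ = 1 := mul_inv_eq_one.2 R0
  have S1 : x0⁻¹ * x3 * (x2⁻¹ * x4)⁻¹ = 1 := mul_inv_eq_one.2 R1
  have S2 : x0⁻¹ * x4 * (x1⁻¹ * x3)⁻¹ = 1 := mul_inv_eq_one.2 R2
  clear R0 R1 R2
  subst h0
  have V0 : x1 * ((x2⁻¹ * x3))⁻¹ = 1 := by
    calc x1 * ((x2⁻¹ * x3))⁻¹ = 1 * (1⁻¹ * x1 * (x2⁻¹ * x3)⁻¹) * 1⁻¹ := by simp only [pow_succ, pow_zero, mul_assoc, mul_inv_rev, inv_inv, mul_inv_cancel, inv_mul_cancel, mul_inv_cancel_left, inv_mul_cancel_left, one_mul, mul_one, inv_one]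
      _ = 1 := by rw [S0]; simp
  rw [mul_inv_eq_one] at V0
  subst V0
  have V1 : x2 * ((x4 * x3⁻¹))⁻¹ = 1 := by
    calc x2 * ((x4 * x3⁻¹))⁻¹ = (x4 * x3⁻¹) * (1⁻¹ * x3 * (x2⁻¹ * x4)⁻¹) * (x4 * x3⁻¹)⁻¹ := by simp only [pow_succ, pow_zero, mul_assoc, mul_inv_rev, inv_inv, mul_inv_cancel, inv_mul_cancel, mul_inv_cancel_left, inv_mul_cancel_left, one_mul, mul_one, inv_one]
      _ = 1 := by rw [S1]; simp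
  rw [mul_inv_eq_one] at V1
  subst V1
  have P : (x3) ^ 1 = 1 := by
    calc (x3) ^ 1 = 1 * (1⁻¹ * x4 * (((x4 * x3⁻¹)⁻¹ * x3)⁻¹ * x3)⁻¹) * 1⁻¹ := by simp only [pow_succ, pow_zero, mul_assoc, mul_inv_rev, inv_inv, mul_inv_cancel, inv_mul_cancel, mul_inv_cancel_left, inv_mul_cancel_left, one_mul, mul_one, inv_one]
      _ = 1 := by rw [S2]; simp
  have Q : (x3) = 1 := htf _ 1 (by norm_num) P
  exact D.n03 Q.symm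

theorem leaf49 {x0 x1 x2 x3 x4 : G} (h0 : x0 = 1) (D : Dist x0 x1 x2 x3 x4)
    (R0 : x0⁻¹ * x1 = x2⁻¹ * x3) (R1 : x0⁻¹ * x3 = x4⁻¹ * x1) (R2 : x1⁻¹ * x2 = x3⁻¹ * x4) : False := by
  have S0 : x0⁻¹ * x1 * (x2⁻¹ * x3)⁻¹ = 1 := mul_inv_eq_one.2 R0
  have S1 : x0⁻¹ * x3 * (x4⁻¹ * x1)⁻¹ = 1 := mul_inv_eq_one.2 R1
  have S2 : x1⁻¹ * x2 * (x3⁻¹ * x4)⁻¹ = 1 := mul_inv_eq_one.2 R2
  clear R0 R1 R2
  subst h0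
  have V0 : x1 * ((x2⁻¹ * x3))⁻¹ = 1 := by
    calc x1 * ((x2⁻¹ * x3))⁻¹ = 1 * (1⁻¹ * x1 * (x2⁻¹ * x3)⁻¹) * 1⁻¹ := by simp only [pow_succ, pow_zero, mul_assoc, mul_inv_rev, inv_inv, mul_inv_cancel, inv_mul_cancel, mul_inv_cancel_left, inv_mul_cancel_left, one_mul, mul_one, inv_one]
      _ = 1 := by rw [S0]; simp
  rw [mul_inv_eq_one] at V0
  subst V0
  have V1 : x2 * ((x4⁻¹))⁻¹ = 1 := by
    calc x2 * ((x4⁻¹))⁻¹ = 1 * (1⁻¹ * x3 * (x4⁻¹ * (x2⁻¹ * x3))⁻¹) * 1⁻¹ := by simp only [pow_succ, pow_zero, mul_assoc, mul_inv_rev, inv_inv, mul_inv_cancel, inv_mul_cancel, mul_inv_cancel_left, inv_mul_cancel_left, one_mul, mul_one, inv_one]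
      _ = 1 := by rw [S1]; simp
  rw [mul_inv_eq_one] at V1
  subst V1
  have P : (x4⁻¹) ^ 3 = 1 := by
    calc (x4⁻¹) ^ 3 = (x3) * (((x4⁻¹)⁻¹ * x3)⁻¹ * (x4⁻¹) * (x3⁻¹ * x4)⁻¹) * (x3)⁻¹ := by simp only [pow_succ, pow_zero, mul_assoc, mul_inv_rev, inv_inv, mul_inv_cancel, inv_mul_cancel, mul_inv_cancel_left, inv_mul_cancel_left, one_mul, mul_one, inv_one]
      _ = 1 := by rw [S2]; simp
  have Q : (x4⁻¹) = 1 := htf _ 3 (by norm_num) P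
  exact D.n04 (inv_eq_one.1 Q).symm

theorem leaf50 {x0 x1 x2 x3 x4 : G} (h0 : x0 = 1) (D : Dist x0 x1 x2 x3 x4)
    (R0 : x0⁻¹ * x1 = x2⁻¹ * x3) (R1 : x0⁻¹ * x3 = x4⁻¹ * x2) (R2 : x0⁻¹ * x4 = x1⁻¹ * x3) (R3 : x1⁻¹ * x2 = x3⁻¹ * x4) : False := by
  have S0 : x0⁻¹ * x1 * (x2⁻¹ * x3)⁻¹ = 1 := mul_inv_eq_one.2 R0
  have S1 : x0⁻¹ * x3 * (x4⁻¹ * x2)⁻¹ = 1 := mul_inv_eq_one.2 R1
  have S2 : x0⁻¹ * x4 * (x1⁻¹ * x3)⁻¹ = 1 := mul_inv_eq_one.2 R2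
  have S3 : x1⁻¹ * x2 * (x3⁻¹ * x4)⁻¹ = 1 := mul_inv_eq_one.2 R3
  clear R0 R1 R2 R3
  subst h0
  have V0 : x1 * ((x2⁻¹ * x3))⁻¹ = 1 := by
    calc x1 * ((x2⁻¹ * x3))⁻¹ = 1 * (1⁻¹ * x1 * (x2⁻¹ * x3)⁻¹) * 1⁻¹ := by simp only [pow_succ, pow_zero, mul_assoc, mul_inv_rev, inv_inv, mul_inv_cancel, inv_mul_cancel, mul_inv_cancel_left, inv_mul_cancel_left, one_mul, mul_one, inv_one]
      _ = 1 := by rw [S0]; simp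
  rw [mul_inv_eq_one] at V0
  subst V0
  have V1 : x2 * ((x4 * x3))⁻¹ = 1 := by
    calc x2 * ((x4 * x3))⁻¹ = (x4) * (1⁻¹ * x3 * (x4⁻¹ * x2)⁻¹)⁻¹ * (x4)⁻¹ := by simp only [pow_succ, pow_zero, mul_assoc, mul_inv_rev, inv_inv, mul_inv_cancel, inv_mul_cancel, mul_inv_cancel_left, inv_mul_cancel_left, one_mul, mul_one, inv_one]
      _ = 1 := by rw [S1]; simp
  rw [mul_inv_eq_one] at V1
  subst V1
  have V2 : x4 * ((x3⁻¹ * x3⁻¹))⁻¹ = 1 := by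
    calc x4 * ((x3⁻¹ * x3⁻¹))⁻¹ = (x3⁻¹ * x4⁻¹ * x3) * (((x4 * x3)⁻¹ * x3)⁻¹ * (x4 * x3) * (x3⁻¹ * x4)⁻¹) * (x3⁻¹ * x4⁻¹ * x3)⁻¹ := by simp only [pow_succ, pow_zero, mul_assoc, mul_inv_rev, inv_inv, mul_inv_cancel, inv_mul_cancel, mul_inv_cancel_left, inv_mul_cancel_left, one_mul, mul_one, inv_one]
      _ = 1 := by rw [S3]; simp
  rw [mul_inv_eq_one] at V2
  subst V2
  have P : (x3⁻¹) ^ 1 = 1 := by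
    calc (x3⁻¹) ^ 1 = 1 * (1⁻¹ * (x3⁻¹ * x3⁻¹) * ((((x3⁻¹ * x3⁻¹) * x3)⁻¹ * x3)⁻¹ * x3)⁻¹) * 1⁻¹ := by simp only [pow_succ, pow_zero, mul_assoc, mul_inv_rev, inv_inv, mul_inv_cancel, inv_mul_cancel, mul_inv_cancel_left, inv_mul_cancel_left, one_mul, mul_one, inv_one]
      _ = 1 := by rw [S2]; simp
  have Q : (x3⁻¹) = 1 := htf _ 1 (by norm_num) P
  exact D.n03 (inv_eq_one.1 Q).symm

theorem leaf51 {x0 x1 x2 x3 x4 : G} (h0 : x0 = 1) (D : Dist x0 x1 x2 x3 x4)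
    (R0 : x0⁻¹ * x1 = x2⁻¹ * x3) (R1 : x0⁻¹ * x4 = x1⁻¹ * x3) (R2 : x1⁻¹ * x2 = x4⁻¹ * x0) : False := by
  have S0 : x0⁻¹ * x1 * (x2⁻¹ * x3)⁻¹ = 1 := mul_inv_eq_one.2 R0
  have S1 : x0⁻¹ * x4 * (x1⁻¹ * x3)⁻¹ = 1 := mul_inv_eq_one.2 R1
  have S2 : x1⁻¹ * x2 * (x4⁻¹ * x0)⁻¹ = 1 := mul_inv_eq_one.2 R2
  clear R0 R1 R2
  subst h0
  have V0 : x1 * ((x2⁻¹ * x3))⁻¹ = 1 := by
    calc x1 * ((x2⁻¹ * x3))⁻¹ = 1 * (1⁻¹ * x1 * (x2⁻¹ * x3)⁻¹) * 1⁻¹ := by simp only [pow_succ, pow_zero, mul_assoc, mul_inv_rev, inv_inv, mul_inv_cancel, inv_mul_cancel, mul_inv_cancel_left, inv_mul_cancel_left, one_mul, mul_one, inv_one]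
      _ = 1 := by rw [S0]; simp
  rw [mul_inv_eq_one] at V0
  subst V0
  have V1 : x3 * ((x2 * x2 * x4))⁻¹ = 1 := by
    calc x3 * ((x2 * x2 * x4))⁻¹ = (x2 * x2 * x4) * ((x2⁻¹ * x3)⁻¹ * x2 * (x4⁻¹ * 1)⁻¹)⁻¹ * (x2 * x2 * x4)⁻¹ := by simp only [pow_succ, pow_zero, mul_assoc, mul_inv_rev, inv_inv, mul_inv_cancel, inv_mul_cancel, mul_inv_cancel_left, inv_mul_cancel_left, one_mul, mul_one, inv_one]
      _ = 1 := by rw [S2]; simp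
  rw [mul_inv_eq_one] at V1
  subst V1
  have P : (x2⁻¹ * x4) ^ 1 = 1 := by
    calc (x2⁻¹ * x4) ^ 1 = 1 * (1⁻¹ * x4 * ((x2⁻¹ * (x2 * x2 * x4))⁻¹ * (x2 * x2 * x4))⁻¹) * 1⁻¹ := by simp only [pow_succ, pow_zero, mul_assoc, mul_inv_rev, inv_inv, mul_inv_cancel, inv_mul_cancel, mul_inv_cancel_left, inv_mul_cancel_left, one_mul, mul_one, inv_one]
      _ = 1 := by rw [S1]; simp
  have Q : (x2⁻¹ * x4) = 1 := htf _ 1 (by norm_num) P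
  exact D.n24 (inv_mul_eq_one.1 Q)

theorem leaf52 {x0 x1 x2 x3 x4 : G} (h0 : x0 = 1) (D : Dist x0 x1 x2 x3 x4)
    (R0 : x0⁻¹ * x1 = x2⁻¹ * x3) (R1 : x0⁻¹ * x4 = x1⁻¹ * x3) (R2 : x1⁻¹ * x2 = x4⁻¹ * x3) (R3 : x2⁻¹ * x4 = x1⁻¹ * x0) : False := by
  have S0 : x0⁻¹ * x1 * (x2⁻¹ * x3)⁻¹ = 1 := mul_inv_eq_one.2 R0
  have S1 : x0⁻¹ * x4 * (x1⁻¹ * x3)⁻¹ = 1 := mul_inv_eq_one.2 R1
  have S2 : x1⁻¹ * x2 * (x4⁻¹ * x3)⁻¹ = 1 := mul_inv_eq_one.2 R2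
  have S3 : x2⁻¹ * x4 * (x1⁻¹ * x0)⁻¹ = 1 := mul_inv_eq_one.2 R3
  clear R0 R1 R2 R3
  subst h0
  have V0 : x2 * ((x3 * x1⁻¹))⁻¹ = 1 := by
    calc x2 * ((x3 * x1⁻¹))⁻¹ = (x3 * x1⁻¹) * (1⁻¹ * x1 * (x2⁻¹ * x3)⁻¹) * (x3 * x1⁻¹)⁻¹ := by simp only [pow_succ, pow_zero, mul_assoc, mul_inv_rev, inv_inv, mul_inv_cancel, inv_mul_cancel, mul_inv_cancel_left, inv_mul_cancel_left, one_mul, mul_one, inv_one]
      _ = 1 := by rw [S0]; simp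
  rw [mul_inv_eq_one] at V0
  subst V0
  have V1 : x3 * ((x4 * x1 * x1))⁻¹ = 1 := by
    calc x3 * ((x4 * x1 * x1))⁻¹ = (x4 * x1) * ((x3 * x1⁻¹)⁻¹ * x4 * (x1⁻¹ * 1)⁻¹)⁻¹ * (x4 * x1)⁻¹ := by simp only [pow_succ, pow_zero, mul_assoc, mul_inv_rev, inv_inv, mul_inv_cancel, inv_mul_cancel, mul_inv_cancel_left, inv_mul_cancel_left, one_mul, mul_one, inv_one]
      _ = 1 := by rw [S3]; simp
  rw [mul_inv_eq_one] at V1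
  subst V1
  have V2 : x4 * ((x1 * x1))⁻¹ = 1 := by
    calc x4 * ((x1 * x1))⁻¹ = (x1) * (x1⁻¹ * ((x4 * x1 * x1) * x1⁻¹) * (x4⁻¹ * (x4 * x1 * x1))⁻¹) * (x1)⁻¹ := by simp only [pow_succ, pow_zero, mul_assoc, mul_inv_rev, inv_inv, mul_inv_cancel, inv_mul_cancel, mul_inv_cancel_left, inv_mul_cancel_left, one_mul, mul_one, inv_one]
      _ = 1 := by rw [S2]; simp
  rw [mul_inv_eq_one] at V2
  subst V2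
  have P : (x1⁻¹) ^ 1 = 1 := by
    calc (x1⁻¹) ^ 1 = 1 * (1⁻¹ * (x1 * x1) * (x1⁻¹ * ((x1 * x1) * x1 * x1))⁻¹) * 1⁻¹ := by simp only [pow_succ, pow_zero, mul_assoc, mul_inv_rev, inv_inv, mul_inv_cancel, inv_mul_cancel, mul_inv_cancel_left, inv_mul_cancel_left, one_mul, mul_one, inv_one]
      _ = 1 := by rw [S1]; simp
  have Q : (x1⁻¹) = 1 := htf _ 1 (by norm_num) P
  exact D.n01 (inv_eq_one.1 Q).symm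

theorem leaf53 {x0 x1 x2 x3 x4 : G} (h0 : x0 = 1) (D : Dist x0 x1 x2 x3 x4)
    (R0 : x0⁻¹ * x1 = x2⁻¹ * x3) (R1 : x0⁻¹ * x4 = x1⁻¹ * x3) (R2 : x1⁻¹ * x2 = x4⁻¹ * x3) (R3 : x2⁻¹ * x4 = x3⁻¹ * x0) : False := by
  have S0 : x0⁻¹ * x1 * (x2⁻¹ * x3)⁻¹ = 1 := mul_inv_eq_one.2 R0
  have S1 : x0⁻¹ * x4 * (x1⁻¹ * x3)⁻¹ = 1 := mul_inv_eq_one.2 R1
  have S2 : x1⁻¹ * x2 * (x4⁻¹ * x3)⁻¹ = 1 := mul_inv_eq_one.2 R2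
  have S3 : x2⁻¹ * x4 * (x3⁻¹ * x0)⁻¹ = 1 := mul_inv_eq_one.2 R3
  clear R0 R1 R2 R3
  subst h0
  have V0 : x1 * ((x3 * x4⁻¹))⁻¹ = 1 := by
    calc x1 * ((x3 * x4⁻¹))⁻¹ = (x3 * x4⁻¹) * (1⁻¹ * x4 * (x1⁻¹ * x3)⁻¹) * (x3 * x4⁻¹)⁻¹ := by simp only [pow_succ, pow_zero, mul_assoc, mul_inv_rev, inv_inv, mul_inv_cancel, inv_mul_cancel, mul_inv_cancel_left, inv_mul_cancel_left, one_mul, mul_one, inv_one]
      _ = 1 := by rw [S1]; simp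
  rw [mul_inv_eq_one] at V0
  subst V0
  have V1 : x2 * ((x4 * x3))⁻¹ = 1 := by
    calc x2 * ((x4 * x3))⁻¹ = (x4 * x3) * (x2⁻¹ * x4 * (x3⁻¹ * 1)⁻¹)⁻¹ * (x4 * x3)⁻¹ := by simp only [pow_succ, pow_zero, mul_assoc, mul_inv_rev, inv_inv, mul_inv_cancel, inv_mul_cancel, mul_inv_cancel_left, inv_mul_cancel_left, one_mul, mul_one, inv_one]
      _ = 1 := by rw [S3]; simp
  rw [mul_inv_eq_one] at V1
  subst V1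
  have V2 : x3 * ((x4 * x4 * x4))⁻¹ = 1 := by
    calc x3 * ((x4 * x4 * x4))⁻¹ = (x4 * x4) * ((x3 * x4⁻¹)⁻¹ * (x4 * x3) * (x4⁻¹ * x3)⁻¹)⁻¹ * (x4 * x4)⁻¹ := by simp only [pow_succ, pow_zero, mul_assoc, mul_inv_rev, inv_inv, mul_inv_cancel, inv_mul_cancel, mul_inv_cancel_left, inv_mul_cancel_left, one_mul, mul_one, inv_one]
      _ = 1 := by rw [S2]; simp
  rw [mul_inv_eq_one] at V2
  subst V2
  have P : (x4) ^ 3 = 1 := by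
    calc (x4) ^ 3 = 1 * (1⁻¹ * ((x4 * x4 * x4) * x4⁻¹) * ((x4 * (x4 * x4 * x4))⁻¹ * (x4 * x4 * x4))⁻¹) * 1⁻¹ := by simp only [pow_succ, pow_zero, mul_assoc, mul_inv_rev, inv_inv, mul_inv_cancel, inv_mul_cancel, mul_inv_cancel_left, inv_mul_cancel_left, one_mul, mul_one, inv_one]
      _ = 1 := by rw [S0]; simp
  have Q : (x4) = 1 := htf _ 3 (by norm_num) P
  exact D.n04 Q.symm

theorem leaf54 {x0 x1 x2 x3 x4 : G} (h0 : x0 = 1) (D : Dist x0 x1 x2 x3 x4)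
    (R0 : x1⁻¹ * x2 = x4⁻¹ * x3) (R1 : x2⁻¹ * x4 = x3⁻¹ * x1) : False := by
  have S0 : x1⁻¹ * x2 * (x4⁻¹ * x3)⁻¹ = 1 := mul_inv_eq_one.2 R0
  have S1 : x2⁻¹ * x4 * (x3⁻¹ * x1)⁻¹ = 1 := mul_inv_eq_one.2 R1
  clear R0 R1
  subst h0
  have V0 : x1 * ((x2 * x3⁻¹ * x4))⁻¹ = 1 := by
    calc x1 * ((x2 * x3⁻¹ * x4))⁻¹ = (x2 * x3⁻¹ * x4) * (x1⁻¹ * x2 * (x4⁻¹ * x3)⁻¹)⁻¹ * (x2 * x3⁻¹ * x4)⁻¹ := by simp only [pow_succ, pow_zero, mul_assoc, mul_inv_rev, inv_inv, mul_inv_cancel, inv_mul_cancel, mul_inv_cancel_left, inv_mul_cancel_left, one_mul, mul_one, inv_one]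
      _ = 1 := by rw [S0]; simp
  rw [mul_inv_eq_one] at V0
  subst V0
  have P : (x2⁻¹ * x3) ^ 2 = 1 := by
    calc (x2⁻¹ * x3) ^ 2 = 1 * (x2⁻¹ * x4 * (x3⁻¹ * (x2 * x3⁻¹ * x4))⁻¹) * 1⁻¹ := by simp only [pow_succ, pow_zero, mul_assoc, mul_inv_rev, inv_inv, mul_inv_cancel, inv_mul_cancel, mul_inv_cancel_left, inv_mul_cancel_left, one_mul, mul_one, inv_one]
      _ = 1 := by rw [S1]; simp
  have Q : (x2⁻¹ * x3) = 1 := htf _ 2 (by norm_num) P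
  exact D.n23 (inv_mul_eq_one.1 Q)

theorem leaf55 {x0 x1 x2 x3 x4 : G} (h0 : x0 = 1) (D : Dist x0 x1 x2 x3 x4)
    (R0 : x0⁻¹ * x3 = x1⁻¹ * x2) (R1 : x0⁻¹ * x4 = x2⁻¹ * x1) (R2 : x3⁻¹ * x4 = x0⁻¹ * x1) : False := by
  have S0 : x0⁻¹ * x3 * (x1⁻¹ * x2)⁻¹ = 1 := mul_inv_eq_one.2 R0
  have S1 : x0⁻¹ * x4 * (x2⁻¹ * x1)⁻¹ = 1 := mul_inv_eq_one.2 R1
  have S2 : x3⁻¹ * x4 * (x0⁻¹ * x1)⁻¹ = 1 := mul_inv_eq_one.2 R2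
  clear R0 R1 R2
  subst h0
  have V0 : x1 * ((x2 * x3⁻¹))⁻¹ = 1 := by
    calc x1 * ((x2 * x3⁻¹))⁻¹ = (x2 * x3⁻¹) * (1⁻¹ * x3 * (x1⁻¹ * x2)⁻¹) * (x2 * x3⁻¹)⁻¹ := by simp only [pow_succ, pow_zero, mul_assoc, mul_inv_rev, inv_inv, mul_inv_cancel, inv_mul_cancel, mul_inv_cancel_left, inv_mul_cancel_left, one_mul, mul_one, inv_one]
      _ = 1 := by rw [S0]; simp
  rw [mul_inv_eq_one] at V0
  subst V0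
  have V1 : x3 * ((x4⁻¹))⁻¹ = 1 := by
    calc x3 * ((x4⁻¹))⁻¹ = (x4⁻¹) * (1⁻¹ * x4 * (x2⁻¹ * (x2 * x3⁻¹))⁻¹) * (x4⁻¹)⁻¹ := by simp only [pow_succ, pow_zero, mul_assoc, mul_inv_rev, inv_inv, mul_inv_cancel, inv_mul_cancel, mul_inv_cancel_left, inv_mul_cancel_left, one_mul, mul_one, inv_one]
      _ = 1 := by rw [S1]; simp
  rw [mul_inv_eq_one] at V1
  subst V1
  have P : (x4 * x2⁻¹) ^ 1 = 1 := by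
    calc (x4 * x2⁻¹) ^ 1 = 1 * ((x4⁻¹)⁻¹ * x4 * (1⁻¹ * (x2 * (x4⁻¹)⁻¹))⁻¹) * 1⁻¹ := by simp only [pow_succ, pow_zero, mul_assoc, mul_inv_rev, inv_inv, mul_inv_cancel, inv_mul_cancel, mul_inv_cancel_left, inv_mul_cancel_left, one_mul, mul_one, inv_one]
      _ = 1 := by rw [S2]; simp
  have Q : (x4 * x2⁻¹) = 1 := htf _ 1 (by norm_num) P
  exact D.n24 (mul_inv_eq_one.1 Q).symm

theorem leaf56 {x0 x1 x2 x3 x4 : G} (h0 : x0 = 1) (D : Dist x0 x1 x2 x3 x4)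
    (R0 : x0⁻¹ * x1 = x2⁻¹ * x3) (R1 : x0⁻¹ * x3 = x1⁻¹ * x2) (R2 : x0⁻¹ * x4 = x2⁻¹ * x1) (R3 : x3⁻¹ * x4 = x0⁻¹ * x2) : False := by
  have S0 : x0⁻¹ * x1 * (x2⁻¹ * x3)⁻¹ = 1 := mul_inv_eq_one.2 R0
  have S1 : x0⁻¹ * x3 * (x1⁻¹ * x2)⁻¹ = 1 := mul_inv_eq_one.2 R1
  have S2 : x0⁻¹ * x4 * (x2⁻¹ * x1)⁻¹ = 1 := mul_inv_eq_one.2 R2
  have S3 : x3⁻¹ * x4 * (x0⁻¹ * x2)⁻¹ = 1 := mul_inv_eq_one.2 R3
  clear R0 R1 R2 R3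
  subst h0
  have V0 : x1 * ((x2 * x3⁻¹))⁻¹ = 1 := by
    calc x1 * ((x2 * x3⁻¹))⁻¹ = (x2 * x3⁻¹) * (1⁻¹ * x3 * (x1⁻¹ * x2)⁻¹) * (x2 * x3⁻¹)⁻¹ := by simp only [pow_succ, pow_zero, mul_assoc, mul_inv_rev, inv_inv, mul_inv_cancel, inv_mul_cancel, mul_inv_cancel_left, inv_mul_cancel_left, one_mul, mul_one, inv_one]
      _ = 1 := by rw [S1]; simp
  rw [mul_inv_eq_one] at V0
  subst V0
  have V1 : x3 * ((x4⁻¹))⁻¹ = 1 := by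
    calc x3 * ((x4⁻¹))⁻¹ = (x4⁻¹) * (1⁻¹ * x4 * (x2⁻¹ * (x2 * x3⁻¹))⁻¹) * (x4⁻¹)⁻¹ := by simp only [pow_succ, pow_zero, mul_assoc, mul_inv_rev, inv_inv, mul_inv_cancel, inv_mul_cancel, mul_inv_cancel_left, inv_mul_cancel_left, one_mul, mul_one, inv_one]
      _ = 1 := by rw [S2]; simp
  rw [mul_inv_eq_one] at V1
  subst V1
  have V2 : x2 * ((x4 * x4))⁻¹ = 1 := by
    calc x2 * ((x4 * x4))⁻¹ = 1 * ((x4⁻¹)⁻¹ * x4 * (1⁻¹ * x2)⁻¹)⁻¹ * 1⁻¹ := by simp only [pow_succ, pow_zero, mul_assoc, mul_inv_rev, inv_inv, mul_inv_cancel, inv_mul_cancel, mul_inv_cancel_left, inv_mul_cancel_left, one_mul, mul_one, inv_one]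
      _ = 1 := by rw [S3]; simp
  rw [mul_inv_eq_one] at V2
  subst V2
  have P : (x4) ^ 6 = 1 := by
    calc (x4) ^ 6 = 1 * (1⁻¹ * ((x4 * x4) * (x4⁻¹)⁻¹) * ((x4 * x4)⁻¹ * (x4⁻¹))⁻¹) * 1⁻¹ := by simp only [pow_succ, pow_zero, mul_assoc, mul_inv_rev, inv_inv, mul_inv_cancel, inv_mul_cancel, mul_inv_cancel_left, inv_mul_cancel_left, one_mul, mul_one, inv_one]
      _ = 1 := by rw [S0]; simp
  have Q : (x4) = 1 := htf _ 6 (by norm_num) P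
  exact D.n04 Q.symm

theorem leaf57 {x0 x1 x2 x3 x4 : G} (h0 : x0 = 1) (D : Dist x0 x1 x2 x3 x4)
    (R0 : x0⁻¹ * x3 = x1⁻¹ * x2) (R1 : x0⁻¹ * x4 = x2⁻¹ * x1) (R2 : x3⁻¹ * x4 = x1⁻¹ * x2) : False := by
  have S0 : x0⁻¹ * x3 * (x1⁻¹ * x2)⁻¹ = 1 := mul_inv_eq_one.2 R0
  have S1 : x0⁻¹ * x4 * (x2⁻¹ * x1)⁻¹ = 1 := mul_inv_eq_one.2 R1
  have S2 : x3⁻¹ * x4 * (x1⁻¹ * x2)⁻¹ = 1 := mul_inv_eq_one.2 R2
  clear R0 R1 R2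
  subst h0
  have V0 : x1 * ((x2 * x3⁻¹))⁻¹ = 1 := by
    calc x1 * ((x2 * x3⁻¹))⁻¹ = (x2 * x3⁻¹) * (1⁻¹ * x3 * (x1⁻¹ * x2)⁻¹) * (x2 * x3⁻¹)⁻¹ := by simp only [pow_succ, pow_zero, mul_assoc, mul_inv_rev, inv_inv, mul_inv_cancel, inv_mul_cancel, mul_inv_cancel_left, inv_mul_cancel_left, one_mul, mul_one, inv_one]
      _ = 1 := by rw [S0]; simp
  rw [mul_inv_eq_one] at V0
  subst V0
  have V1 : x3 * ((x4⁻¹))⁻¹ = 1 := by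
    calc x3 * ((x4⁻¹))⁻¹ = (x4⁻¹) * (1⁻¹ * x4 * (x2⁻¹ * (x2 * x3⁻¹))⁻¹) * (x4⁻¹)⁻¹ := by simp only [pow_succ, pow_zero, mul_assoc, mul_inv_rev, inv_inv, mul_inv_cancel, inv_mul_cancel, mul_inv_cancel_left, inv_mul_cancel_left, one_mul, mul_one, inv_one]
      _ = 1 := by rw [S1]; simp
  rw [mul_inv_eq_one] at V1
  subst V1
  have P : (x4) ^ 3 = 1 := by
    calc (x4) ^ 3 = 1 * ((x4⁻¹)⁻¹ * x4 * ((x2 * (x4⁻¹)⁻¹)⁻¹ * x2)⁻¹) * 1⁻¹ := by simp only [pow_succ, pow_zero, mul_assoc, mul_inv_rev, inv_inv, mul_inv_cancel, inv_mul_cancel, mul_inv_cancel_left, inv_mul_cancel_left, one_mul, mul_one, inv_one]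
      _ = 1 := by rw [S2]; simp
  have Q : (x4) = 1 := htf _ 3 (by norm_num) P
  exact D.n04 Q.symm

theorem leaf58 {x0 x1 x2 x3 x4 : G} (h0 : x0 = 1) (D : Dist x0 x1 x2 x3 x4)
    (R0 : x0⁻¹ * x3 = x1⁻¹ * x2) (R1 : x0⁻¹ * x4 = x2⁻¹ * x1) (R2 : x3⁻¹ * x4 = x2⁻¹ * x0) : False := by
  have S0 : x0⁻¹ * x3 * (x1⁻¹ * x2)⁻¹ = 1 := mul_inv_eq_one.2 R0
  have S1 : x0⁻¹ * x4 * (x2⁻¹ * x1)⁻¹ = 1 := mul_inv_eq_one.2 R1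
  have S2 : x3⁻¹ * x4 * (x2⁻¹ * x0)⁻¹ = 1 := mul_inv_eq_one.2 R2
  clear R0 R1 R2
  subst h0
  have V0 : x2 * ((x1 * x3))⁻¹ = 1 := by
    calc x2 * ((x1 * x3))⁻¹ = (x1) * (1⁻¹ * x3 * (x1⁻¹ * x2)⁻¹)⁻¹ * (x1)⁻¹ := by simp only [pow_succ, pow_zero, mul_assoc, mul_inv_rev, inv_inv, mul_inv_cancel, inv_mul_cancel, mul_inv_cancel_left, inv_mul_cancel_left, one_mul, mul_one, inv_one]
      _ = 1 := by rw [S0]; simp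
  rw [mul_inv_eq_one] at V0
  subst V0
  have V1 : x4 * ((x3⁻¹))⁻¹ = 1 := by
    calc x4 * ((x3⁻¹))⁻¹ = 1 * (1⁻¹ * x4 * ((x1 * x3)⁻¹ * x1)⁻¹) * 1⁻¹ := by simp only [pow_succ, pow_zero, mul_assoc, mul_inv_rev, inv_inv, mul_inv_cancel, inv_mul_cancel, mul_inv_cancel_left, inv_mul_cancel_left, one_mul, mul_one, inv_one]
      _ = 1 := by rw [S1]; simp
  rw [mul_inv_eq_one] at V1
  subst V1
  have P : (x3⁻¹ * x1) ^ 1 = 1 := by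
    calc (x3⁻¹ * x1) ^ 1 = (x3) * (x3⁻¹ * (x3⁻¹) * ((x1 * x3)⁻¹ * 1)⁻¹) * (x3)⁻¹ := by simp only [pow_succ, pow_zero, mul_assoc, mul_inv_rev, inv_inv, mul_inv_cancel, inv_mul_cancel, mul_inv_cancel_left, inv_mul_cancel_left, one_mul, mul_one, inv_one]
      _ = 1 := by rw [S2]; simp
  have Q : (x3⁻¹ * x1) = 1 := htf _ 1 (by norm_num) P
  exact D.n13 (inv_mul_eq_one.1 Q).symm

theorem leaf59 {x0 x1 x2 x3 x4 : G} (h0 : x0 = 1) (D : Dist x0 x1 x2 x3 x4)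
    (R0 : x0⁻¹ * x3 = x1⁻¹ * x2) (R1 : x3⁻¹ * x4 = x2⁻¹ * x1) : False := by
  have S0 : x0⁻¹ * x3 * (x1⁻¹ * x2)⁻¹ = 1 := mul_inv_eq_one.2 R0
  have S1 : x3⁻¹ * x4 * (x2⁻¹ * x1)⁻¹ = 1 := mul_inv_eq_one.2 R1
  clear R0 R1
  subst h0
  have V0 : x1 * ((x2 * x3⁻¹))⁻¹ = 1 := by
    calc x1 * ((x2 * x3⁻¹))⁻¹ = (x2 * x3⁻¹) * (1⁻¹ * x3 * (x1⁻¹ * x2)⁻¹) * (x2 * x3⁻¹)⁻¹ := by simp only [pow_succ, pow_zero, mul_assoc, mul_inv_rev, inv_inv, mul_inv_cancel, inv_mul_cancel, mul_inv_cancel_left, inv_mul_cancel_left, one_mul, mul_one, inv_one]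
      _ = 1 := by rw [S0]; simp
  rw [mul_inv_eq_one] at V0
  subst V0
  have P : (x4) ^ 1 = 1 := by
    calc (x4) ^ 1 = (x3) * (x3⁻¹ * x4 * (x2⁻¹ * (x2 * x3⁻¹))⁻¹) * (x3)⁻¹ := by simp only [pow_succ, pow_zero, mul_assoc, mul_inv_rev, inv_inv, mul_inv_cancel, inv_mul_cancel, mul_inv_cancel_left, inv_mul_cancel_left, one_mul, mul_one, inv_one]
      _ = 1 := by rw [S1]; simp
  have Q : (x4) = 1 := htf _ 1 (by norm_num) P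
  exact D.n04 Q.symm

theorem leaf60 {x0 x1 x2 x3 x4 : G} (h0 : x0 = 1) (D : Dist x0 x1 x2 x3 x4)
    (R0 : x0⁻¹ * x1 = x2⁻¹ * x3) (R1 : x0⁻¹ * x3 = x1⁻¹ * x4) (R2 : x0⁻¹ * x4 = x2⁻¹ * x1) (R3 : x2⁻¹ * x4 = x1⁻¹ * x0) : False := by
  have S0 : x0⁻¹ * x1 * (x2⁻¹ * x3)⁻¹ = 1 := mul_inv_eq_one.2 R0
  have S1 : x0⁻¹ * x3 * (x1⁻¹ * x4)⁻¹ = 1 := mul_inv_eq_one.2 R1
  have S2 : x0⁻¹ * x4 * (x2⁻¹ * x1)⁻¹ = 1 := mul_inv_eq_one.2 R2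
  have S3 : x2⁻¹ * x4 * (x1⁻¹ * x0)⁻¹ = 1 := mul_inv_eq_one.2 R3
  clear R0 R1 R2 R3
  subst h0
  have V0 : x1 * ((x2⁻¹ * x3))⁻¹ = 1 := by
    calc x1 * ((x2⁻¹ * x3))⁻¹ = 1 * (1⁻¹ * x1 * (x2⁻¹ * x3)⁻¹) * 1⁻¹ := by simp only [pow_succ, pow_zero, mul_assoc, mul_inv_rev, inv_inv, mul_inv_cancel, inv_mul_cancel, mul_inv_cancel_left, inv_mul_cancel_left, one_mul, mul_one, inv_one]
      _ = 1 := by rw [S0]; simp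
  rw [mul_inv_eq_one] at V0
  subst V0
  have V1 : x2 * ((x3 * x3 * x4⁻¹))⁻¹ = 1 := by
    calc x2 * ((x3 * x3 * x4⁻¹))⁻¹ = (x3) * (1⁻¹ * x3 * ((x2⁻¹ * x3)⁻¹ * x4)⁻¹)⁻¹ * (x3)⁻¹ := by simp only [pow_succ, pow_zero, mul_assoc, mul_inv_rev, inv_inv, mul_inv_cancel, inv_mul_cancel, mul_inv_cancel_left, inv_mul_cancel_left, one_mul, mul_one, inv_one]
      _ = 1 := by rw [S1]; simp
  rw [mul_inv_eq_one] at V1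
  subst V1
  have V2 : x4 * ((x3 * x3 * x3))⁻¹ = 1 := by
    calc x4 * ((x3 * x3 * x3))⁻¹ = (x3 * x3 * x4⁻¹) * (1⁻¹ * x4 * ((x3 * x3 * x4⁻¹)⁻¹ * ((x3 * x3 * x4⁻¹)⁻¹ * x3))⁻¹)⁻¹ * (x3 * x3 * x4⁻¹)⁻¹ := by simp only [pow_succ, pow_zero, mul_assoc, mul_inv_rev, inv_inv, mul_inv_cancel, inv_mul_cancel, mul_inv_cancel_left, inv_mul_cancel_left, one_mul, mul_one, inv_one]
      _ = 1 := by rw [S2]; simp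
  rw [mul_inv_eq_one] at V2
  subst V2
  have P : (x3) ^ 6 = 1 := by
    calc (x3) ^ 6 = 1 * ((x3 * x3 * (x3 * x3 * x3)⁻¹)⁻¹ * (x3 * x3 * x3) * (((x3 * x3 * (x3 * x3 * x3)⁻¹)⁻¹ * x3)⁻¹ * 1)⁻¹) * 1⁻¹ := by simp only [pow_succ, pow_zero, mul_assoc, mul_inv_rev, inv_inv, mul_inv_cancel, inv_mul_cancel, mul_inv_cancel_left, inv_mul_cancel_left, one_mul, mul_one, inv_one]
      _ = 1 := by rw [S3]; simp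
  have Q : (x3) = 1 := htf _ 6 (by norm_num) P
  exact D.n03 Q.symm

theorem leaf61 {x0 x1 x2 x3 x4 : G} (h0 : x0 = 1) (D : Dist x0 x1 x2 x3 x4)
    (R0 : x0⁻¹ * x1 = x2⁻¹ * x3) (R1 : x0⁻¹ * x3 = x1⁻¹ * x4) (R2 : x0⁻¹ * x4 = x2⁻¹ * x1) (R3 : x2⁻¹ * x4 = x1⁻¹ * x3) : False := by
  have S0 : x0⁻¹ * x1 * (x2⁻¹ * x3)⁻¹ = 1 := mul_inv_eq_one.2 R0
  have S1 : x0⁻¹ * x3 * (x1⁻¹ * x4)⁻¹ = 1 := mul_inv_eq_one.2 R1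
  have S2 : x0⁻¹ * x4 * (x2⁻¹ * x1)⁻¹ = 1 := mul_inv_eq_one.2 R2
  have S3 : x2⁻¹ * x4 * (x1⁻¹ * x3)⁻¹ = 1 := mul_inv_eq_one.2 R3
  clear R0 R1 R2 R3
  subst h0
  have V0 : x1 * ((x2⁻¹ * x3))⁻¹ = 1 := by
    calc x1 * ((x2⁻¹ * x3))⁻¹ = 1 * (1⁻¹ * x1 * (x2⁻¹ * x3)⁻¹) * 1⁻¹ := by simp only [pow_succ, pow_zero, mul_assoc, mul_inv_rev, inv_inv, mul_inv_cancel, inv_mul_cancel, mul_inv_cancel_left, inv_mul_cancel_left, one_mul, mul_one, inv_one]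
      _ = 1 := by rw [S0]; simp
  rw [mul_inv_eq_one] at V0
  subst V0
  have V1 : x2 * ((x3 * x3 * x4⁻¹))⁻¹ = 1 := by
    calc x2 * ((x3 * x3 * x4⁻¹))⁻¹ = (x3) * (1⁻¹ * x3 * ((x2⁻¹ * x3)⁻¹ * x4)⁻¹)⁻¹ * (x3)⁻¹ := by simp only [pow_succ, pow_zero, mul_assoc, mul_inv_rev, inv_inv, mul_inv_cancel, inv_mul_cancel, mul_inv_cancel_left, inv_mul_cancel_left, one_mul, mul_one, inv_one]
      _ = 1 := by rw [S1]; simp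
  rw [mul_inv_eq_one] at V1
  subst V1
  have V2 : x4 * ((x3 * x3 * x3))⁻¹ = 1 := by
    calc x4 * ((x3 * x3 * x3))⁻¹ = (x3 * x3 * x4⁻¹) * (1⁻¹ * x4 * ((x3 * x3 * x4⁻¹)⁻¹ * ((x3 * x3 * x4⁻¹)⁻¹ * x3))⁻¹)⁻¹ * (x3 * x3 * x4⁻¹)⁻¹ := by simp only [pow_succ, pow_zero, mul_assoc, mul_inv_rev, inv_inv, mul_inv_cancel, inv_mul_cancel, mul_inv_cancel_left, inv_mul_cancel_left, one_mul, mul_one, inv_one]
      _ = 1 := by rw [S2]; simp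
  rw [mul_inv_eq_one] at V2
  subst V2
  have P : (x3) ^ 5 = 1 := by
    calc (x3) ^ 5 = 1 * ((x3 * x3 * (x3 * x3 * x3)⁻¹)⁻¹ * (x3 * x3 * x3) * (((x3 * x3 * (x3 * x3 * x3)⁻¹)⁻¹ * x3)⁻¹ * x3)⁻¹) * 1⁻¹ := by simp only [pow_succ, pow_zero, mul_assoc, mul_inv_rev, inv_inv, mul_inv_cancel, inv_mul_cancel, mul_inv_cancel_left, inv_mul_cancel_left, one_mul, mul_one, inv_one]
      _ = 1 := by rw [S3]; simp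
  have Q : (x3) = 1 := htf _ 5 (by norm_num) P
  exact D.n03 Q.symm

theorem leaf62 {x0 x1 x2 x3 x4 : G} (h0 : x0 = 1) (D : Dist x0 x1 x2 x3 x4)
    (R0 : x0⁻¹ * x1 = x2⁻¹ * x3) (R1 : x0⁻¹ * x3 = x1⁻¹ * x4) (R2 : x0⁻¹ * x4 = x2⁻¹ * x1) (R3 : x2⁻¹ * x4 = x3⁻¹ * x0) : False := by
  have S0 : x0⁻¹ * x1 * (x2⁻¹ * x3)⁻¹ = 1 := mul_inv_eq_one.2 R0
  have S1 : x0⁻¹ * x3 * (x1⁻¹ * x4)⁻¹ = 1 := mul_inv_eq_one.2 R1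
  have S2 : x0⁻¹ * x4 * (x2⁻¹ * x1)⁻¹ = 1 := mul_inv_eq_one.2 R2
  have S3 : x2⁻¹ * x4 * (x3⁻¹ * x0)⁻¹ = 1 := mul_inv_eq_one.2 R3
  clear R0 R1 R2 R3
  subst h0
  have V0 : x1 * ((x2⁻¹ * x3))⁻¹ = 1 := by
    calc x1 * ((x2⁻¹ * x3))⁻¹ = 1 * (1⁻¹ * x1 * (x2⁻¹ * x3)⁻¹) * 1⁻¹ := by simp only [pow_succ, pow_zero, mul_assoc, mul_inv_rev, inv_inv, mul_inv_cancel, inv_mul_cancel, mul_inv_cancel_left, inv_mul_cancel_left, one_mul, mul_one, inv_one]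
      _ = 1 := by rw [S0]; simp
  rw [mul_inv_eq_one] at V0
  subst V0
  have V1 : x2 * ((x3 * x3 * x4⁻¹))⁻¹ = 1 := by
    calc x2 * ((x3 * x3 * x4⁻¹))⁻¹ = (x3) * (1⁻¹ * x3 * ((x2⁻¹ * x3)⁻¹ * x4)⁻¹)⁻¹ * (x3)⁻¹ := by simp only [pow_succ, pow_zero, mul_assoc, mul_inv_rev, inv_inv, mul_inv_cancel, inv_mul_cancel, mul_inv_cancel_left, inv_mul_cancel_left, one_mul, mul_one, inv_one]
      _ = 1 := by rw [S1]; simp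
  rw [mul_inv_eq_one] at V1
  subst V1
  have V2 : x4 * ((x3 * x3 * x3))⁻¹ = 1 := by
    calc x4 * ((x3 * x3 * x3))⁻¹ = (x3 * x3 * x4⁻¹) * (1⁻¹ * x4 * ((x3 * x3 * x4⁻¹)⁻¹ * ((x3 * x3 * x4⁻¹)⁻¹ * x3))⁻¹)⁻¹ * (x3 * x3 * x4⁻¹)⁻¹ := by simp only [pow_succ, pow_zero, mul_assoc, mul_inv_rev, inv_inv, mul_inv_cancel, inv_mul_cancel, mul_inv_cancel_left, inv_mul_cancel_left, one_mul, mul_one, inv_one]
      _ = 1 := by rw [S2]; simp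
  rw [mul_inv_eq_one] at V2
  subst V2
  have P : (x3) ^ 5 = 1 := by
    calc (x3) ^ 5 = 1 * ((x3 * x3 * (x3 * x3 * x3)⁻¹)⁻¹ * (x3 * x3 * x3) * (x3⁻¹ * 1)⁻¹) * 1⁻¹ := by simp only [pow_succ, pow_zero, mul_assoc, mul_inv_rev, inv_inv, mul_inv_cancel, inv_mul_cancel, mul_inv_cancel_left, inv_mul_cancel_left, one_mul, mul_one, inv_one]
      _ = 1 := by rw [S3]; simp
  have Q : (x3) = 1 := htf _ 5 (by norm_num) P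
  exact D.n03 Q.symm

theorem leaf63 {x0 x1 x2 x3 x4 : G} (h0 : x0 = 1) (D : Dist x0 x1 x2 x3 x4)
    (R0 : x0⁻¹ * x1 = x2⁻¹ * x3) (R1 : x0⁻¹ * x4 = x2⁻¹ * x1) (R2 : x2⁻¹ * x4 = x3⁻¹ * x1) : False := by
  have S0 : x0⁻¹ * x1 * (x2⁻¹ * x3)⁻¹ = 1 := mul_inv_eq_one.2 R0
  have S1 : x0⁻¹ * x4 * (x2⁻¹ * x1)⁻¹ = 1 := mul_inv_eq_one.2 R1
  have S2 : x2⁻¹ * x4 * (x3⁻¹ * x1)⁻¹ = 1 := mul_inv_eq_one.2 R2
  clear R0 R1 R2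
  subst h0
  have V0 : x1 * ((x2⁻¹ * x3))⁻¹ = 1 := by
    calc x1 * ((x2⁻¹ * x3))⁻¹ = 1 * (1⁻¹ * x1 * (x2⁻¹ * x3)⁻¹) * 1⁻¹ := by simp only [pow_succ, pow_zero, mul_assoc, mul_inv_rev, inv_inv, mul_inv_cancel, inv_mul_cancel, mul_inv_cancel_left, inv_mul_cancel_left, one_mul, mul_one, inv_one]
      _ = 1 := by rw [S0]; simp
  rw [mul_inv_eq_one] at V0
  subst V0
  have V1 : x3 * ((x2 * x2 * x4))⁻¹ = 1 := by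
    calc x3 * ((x2 * x2 * x4))⁻¹ = (x2 * x2) * (1⁻¹ * x4 * (x2⁻¹ * (x2⁻¹ * x3))⁻¹)⁻¹ * (x2 * x2)⁻¹ := by simp only [pow_succ, pow_zero, mul_assoc, mul_inv_rev, inv_inv, mul_inv_cancel, inv_mul_cancel, mul_inv_cancel_left, inv_mul_cancel_left, one_mul, mul_one, inv_one]
      _ = 1 := by rw [S1]; simp
  rw [mul_inv_eq_one] at V1
  subst V1
  have P : (x4) ^ 1 = 1 := by
    calc (x4) ^ 1 = 1 * (x2⁻¹ * x4 * ((x2 * x2 * x4)⁻¹ * (x2⁻¹ * (x2 * x2 * x4)))⁻¹) * 1⁻¹ := by simp only [pow_succ, pow_zero, mul_assoc, mul_inv_rev, inv_inv, mul_inv_cancel, inv_mul_cancel, mul_inv_cancel_left, inv_mul_cancel_left, one_mul, mul_one, inv_one]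
      _ = 1 := by rw [S2]; simp
  have Q : (x4) = 1 := htf _ 1 (by norm_num) P
  exact D.n04 Q.symm

theorem leaf64 {x0 x1 x2 x3 x4 : G} (h0 : x0 = 1) (D : Dist x0 x1 x2 x3 x4)
    (R0 : x0⁻¹ * x1 = x2⁻¹ * x3) (R1 : x0⁻¹ * x3 = x2⁻¹ * x4) (R2 : x0⁻¹ * x4 = x2⁻¹ * x1) : False := by
  have S0 : x0⁻¹ * x1 * (x2⁻¹ * x3)⁻¹ = 1 := mul_inv_eq_one.2 R0
  have S1 : x0⁻¹ * x3 * (x2⁻¹ * x4)⁻¹ = 1 := mul_inv_eq_one.2 R1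
  have S2 : x0⁻¹ * x4 * (x2⁻¹ * x1)⁻¹ = 1 := mul_inv_eq_one.2 R2
  clear R0 R1 R2
  subst h0
  have V0 : x1 * ((x2⁻¹ * x3))⁻¹ = 1 := by
    calc x1 * ((x2⁻¹ * x3))⁻¹ = 1 * (1⁻¹ * x1 * (x2⁻¹ * x3)⁻¹) * 1⁻¹ := by simp only [pow_succ, pow_zero, mul_assoc, mul_inv_rev, inv_inv, mul_inv_cancel, inv_mul_cancel, mul_inv_cancel_left, inv_mul_cancel_left, one_mul, mul_one, inv_one]
      _ = 1 := by rw [S0]; simp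
  rw [mul_inv_eq_one] at V0
  subst V0
  have V1 : x2 * ((x4 * x3⁻¹))⁻¹ = 1 := by
    calc x2 * ((x4 * x3⁻¹))⁻¹ = (x4 * x3⁻¹) * (1⁻¹ * x3 * (x2⁻¹ * x4)⁻¹) * (x4 * x3⁻¹)⁻¹ := by simp only [pow_succ, pow_zero, mul_assoc, mul_inv_rev, inv_inv, mul_inv_cancel, inv_mul_cancel, mul_inv_cancel_left, inv_mul_cancel_left, one_mul, mul_one, inv_one]
      _ = 1 := by rw [S1]; simp
  rw [mul_inv_eq_one] at V1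
  subst V1
  have P : (x4 * x3⁻¹) ^ 3 = 1 := by
    calc (x4 * x3⁻¹) ^ 3 = 1 * (1⁻¹ * x4 * ((x4 * x3⁻¹)⁻¹ * ((x4 * x3⁻¹)⁻¹ * x3))⁻¹) * 1⁻¹ := by simp only [pow_succ, pow_zero, mul_assoc, mul_inv_rev, inv_inv, mul_inv_cancel, inv_mul_cancel, mul_inv_cancel_left, inv_mul_cancel_left, one_mul, mul_one, inv_one]
      _ = 1 := by rw [S2]; simp
  have Q : (x4 * x3⁻¹) = 1 := htf _ 3 (by norm_num) P
  exact D.n34 (mul_inv_eq_one.1 Q).symm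

theorem leaf65 {x0 x1 x2 x3 x4 : G} (h0 : x0 = 1) (D : Dist x0 x1 x2 x3 x4)
    (R0 : x0⁻¹ * x1 = x2⁻¹ * x3) (R1 : x0⁻¹ * x3 = x4⁻¹ * x1) (R2 : x0⁻¹ * x4 = x2⁻¹ * x1) : False := by
  have S0 : x0⁻¹ * x1 * (x2⁻¹ * x3)⁻¹ = 1 := mul_inv_eq_one.2 R0
  have S1 : x0⁻¹ * x3 * (x4⁻¹ * x1)⁻¹ = 1 := mul_inv_eq_one.2 R1
  have S2 : x0⁻¹ * x4 * (x2⁻¹ * x1)⁻¹ = 1 := mul_inv_eq_one.2 R2
  clear R0 R1 R2
  subst h0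
  have V0 : x1 * ((x2⁻¹ * x3))⁻¹ = 1 := by
    calc x1 * ((x2⁻¹ * x3))⁻¹ = 1 * (1⁻¹ * x1 * (x2⁻¹ * x3)⁻¹) * 1⁻¹ := by simp only [pow_succ, pow_zero, mul_assoc, mul_inv_rev, inv_inv, mul_inv_cancel, inv_mul_cancel, mul_inv_cancel_left, inv_mul_cancel_left, one_mul, mul_one, inv_one]
      _ = 1 := by rw [S0]; simp
  rw [mul_inv_eq_one] at V0
  subst V0
  have V1 : x4 * ((x2⁻¹))⁻¹ = 1 := by
    calc x4 * ((x2⁻¹))⁻¹ = (x2⁻¹) * (1⁻¹ * x3 * (x4⁻¹ * (x2⁻¹ * x3))⁻¹) * (x2⁻¹)⁻¹ := by simp only [pow_succ, pow_zero, mul_assoc, mul_inv_rev, inv_inv, mul_inv_cancel, inv_mul_cancel, mul_inv_cancel_left, inv_mul_cancel_left, one_mul, mul_one, inv_one]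
      _ = 1 := by rw [S1]; simp
  rw [mul_inv_eq_one] at V1
  subst V1
  have P : (x3⁻¹ * x2) ^ 1 = 1 := by
    calc (x3⁻¹ * x2) ^ 1 = (x2) * (1⁻¹ * (x2⁻¹) * (x2⁻¹ * (x2⁻¹ * x3))⁻¹) * (x2)⁻¹ := by simp only [pow_succ, pow_zero, mul_assoc, mul_inv_rev, inv_inv, mul_inv_cancel, inv_mul_cancel, mul_inv_cancel_left, inv_mul_cancel_left, one_mul, mul_one, inv_one]
      _ = 1 := by rw [S2]; simp
  have Q : (x3⁻¹ * x2) = 1 := htf _ 1 (by norm_num) P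
  exact D.n23 (inv_mul_eq_one.1 Q).symm

theorem leaf66 {x0 x1 x2 x3 x4 : G} (h0 : x0 = 1) (D : Dist x0 x1 x2 x3 x4)
    (R0 : x0⁻¹ * x3 = x4⁻¹ * x2) (R1 : x1⁻¹ * x2 = x0⁻¹ * x3) : False := by
  have S0 : x0⁻¹ * x3 * (x4⁻¹ * x2)⁻¹ = 1 := mul_inv_eq_one.2 R0
  have S1 : x1⁻¹ * x2 * (x0⁻¹ * x3)⁻¹ = 1 := mul_inv_eq_one.2 R1
  clear R0 R1
  subst h0
  have V0 : x2 * ((x4 * x3))⁻¹ = 1 := by
    calc x2 * ((x4 * x3))⁻¹ = (x4) * (1⁻¹ * x3 * (x4⁻¹ * x2)⁻¹)⁻¹ * (x4)⁻¹ := by simp only [pow_succ, pow_zero, mul_assoc, mul_inv_rev, inv_inv, mul_inv_cancel, inv_mul_cancel, mul_inv_cancel_left, inv_mul_cancel_left, one_mul, mul_one, inv_one]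
      _ = 1 := by rw [S0]; simp
  rw [mul_inv_eq_one] at V0
  subst V0
  have P : (x1⁻¹ * x4) ^ 1 = 1 := by
    calc (x1⁻¹ * x4) ^ 1 = 1 * (x1⁻¹ * (x4 * x3) * (1⁻¹ * x3)⁻¹) * 1⁻¹ := by simp only [pow_succ, pow_zero, mul_assoc, mul_inv_rev, inv_inv, mul_inv_cancel, inv_mul_cancel, mul_inv_cancel_left, inv_mul_cancel_left, one_mul, mul_one, inv_one]
      _ = 1 := by rw [S1]; simp
  have Q : (x1⁻¹ * x4) = 1 := htf _ 1 (by norm_num) P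
  exact D.n14 (inv_mul_eq_one.1 Q)

theorem leaf67 {x0 x1 x2 x3 x4 : G} (h0 : x0 = 1) (D : Dist x0 x1 x2 x3 x4)
    (R0 : x0⁻¹ * x4 = x2⁻¹ * x1) (R1 : x1⁻¹ * x2 = x0⁻¹ * x4) : False := by
  have S0 : x0⁻¹ * x4 * (x2⁻¹ * x1)⁻¹ = 1 := mul_inv_eq_one.2 R0
  have S1 : x1⁻¹ * x2 * (x0⁻¹ * x4)⁻¹ = 1 := mul_inv_eq_one.2 R1
  clear R0 R1
  subst h0
  have V0 : x1 * ((x2 * x4))⁻¹ = 1 := by
    calc x1 * ((x2 * x4))⁻¹ = (x2) * (1⁻¹ * x4 * (x2⁻¹ * x1)⁻¹)⁻¹ * (x2)⁻¹ := by simp only [pow_succ, pow_zero, mul_assoc, mul_inv_rev, inv_inv, mul_inv_cancel, inv_mul_cancel, mul_inv_cancel_left, inv_mul_cancel_left, one_mul, mul_one, inv_one]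
      _ = 1 := by rw [S0]; simp
  rw [mul_inv_eq_one] at V0
  subst V0
  have P : (x4⁻¹) ^ 2 = 1 := by
    calc (x4⁻¹) ^ 2 = 1 * ((x2 * x4)⁻¹ * x2 * (1⁻¹ * x4)⁻¹) * 1⁻¹ := by simp only [pow_succ, pow_zero, mul_assoc, mul_inv_rev, inv_inv, mul_inv_cancel, inv_mul_cancel, mul_inv_cancel_left, inv_mul_cancel_left, one_mul, mul_one, inv_one]
      _ = 1 := by rw [S1]; simp
  have Q : (x4⁻¹) = 1 := htf _ 2 (by norm_num) P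
  exact D.n04 (inv_eq_one.1 Q).symm

theorem leaf68 {x0 x1 x2 x3 x4 : G} (h0 : x0 = 1) (D : Dist x0 x1 x2 x3 x4)
    (R0 : x0⁻¹ * x1 = x2⁻¹ * x3) (R1 : x0⁻¹ * x3 = x4⁻¹ * x2) (R2 : x0⁻¹ * x4 = x2⁻¹ * x1) (R3 : x1⁻¹ * x2 = x3⁻¹ * x4) : False := by
  have S0 : x0⁻¹ * x1 * (x2⁻¹ * x3)⁻¹ = 1 := mul_inv_eq_one.2 R0
  have S1 : x0⁻¹ * x3 * (x4⁻¹ * x2)⁻¹ = 1 := mul_inv_eq_one.2 R1
  have S2 : x0⁻¹ * x4 * (x2⁻¹ * x1)⁻¹ = 1 := mul_inv_eq_one.2 R2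
  have S3 : x1⁻¹ * x2 * (x3⁻¹ * x4)⁻¹ = 1 := mul_inv_eq_one.2 R3
  clear R0 R1 R2 R3
  subst h0
  have V0 : x1 * ((x2⁻¹ * x3))⁻¹ = 1 := by
    calc x1 * ((x2⁻¹ * x3))⁻¹ = 1 * (1⁻¹ * x1 * (x2⁻¹ * x3)⁻¹) * 1⁻¹ := by simp only [pow_succ, pow_zero, mul_assoc, mul_inv_rev, inv_inv, mul_inv_cancel, inv_mul_cancel, mul_inv_cancel_left, inv_mul_cancel_left, one_mul, mul_one, inv_one]
      _ = 1 := by rw [S0]; simp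
  rw [mul_inv_eq_one] at V0
  subst V0
  have V1 : x2 * ((x4 * x3))⁻¹ = 1 := by
    calc x2 * ((x4 * x3))⁻¹ = (x4) * (1⁻¹ * x3 * (x4⁻¹ * x2)⁻¹)⁻¹ * (x4)⁻¹ := by simp only [pow_succ, pow_zero, mul_assoc, mul_inv_rev, inv_inv, mul_inv_cancel, inv_mul_cancel, mul_inv_cancel_left, inv_mul_cancel_left, one_mul, mul_one, inv_one]
      _ = 1 := by rw [S1]; simp
  rw [mul_inv_eq_one] at V1
  subst V1
  have V2 : x4 * ((x3⁻¹ * x3⁻¹))⁻¹ = 1 := by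
    calc x4 * ((x3⁻¹ * x3⁻¹))⁻¹ = (x3⁻¹ * x4⁻¹ * x3) * (((x4 * x3)⁻¹ * x3)⁻¹ * (x4 * x3) * (x3⁻¹ * x4)⁻¹) * (x3⁻¹ * x4⁻¹ * x3)⁻¹ := by simp only [pow_succ, pow_zero, mul_assoc, mul_inv_rev, inv_inv, mul_inv_cancel, inv_mul_cancel, mul_inv_cancel_left, inv_mul_cancel_left, one_mul, mul_one, inv_one]
      _ = 1 := by rw [S3]; simp
  rw [mul_inv_eq_one] at V2
  subst V2
  have P : (x3⁻¹) ^ 5 = 1 := by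
    calc (x3⁻¹) ^ 5 = 1 * (1⁻¹ * (x3⁻¹ * x3⁻¹) * (((x3⁻¹ * x3⁻¹) * x3)⁻¹ * (((x3⁻¹ * x3⁻¹) * x3)⁻¹ * x3))⁻¹) * 1⁻¹ := by simp only [pow_succ, pow_zero, mul_assoc, mul_inv_rev, inv_inv, mul_inv_cancel, inv_mul_cancel, mul_inv_cancel_left, inv_mul_cancel_left, one_mul, mul_one, inv_one]
      _ = 1 := by rw [S2]; simp
  have Q : (x3⁻¹) = 1 := htf _ 5 (by norm_num) P
  exact D.n03 (inv_eq_one.1 Q).symm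

theorem leaf69 {x0 x1 x2 x3 x4 : G} (h0 : x0 = 1) (D : Dist x0 x1 x2 x3 x4)
    (R0 : x0⁻¹ * x1 = x2⁻¹ * x3) (R1 : x0⁻¹ * x3 = x4⁻¹ * x2) (R2 : x0⁻¹ * x4 = x2⁻¹ * x1) (R3 : x3⁻¹ * x4 = x0⁻¹ * x1) : False := by
  have S0 : x0⁻¹ * x1 * (x2⁻¹ * x3)⁻¹ = 1 := mul_inv_eq_one.2 R0
  have S1 : x0⁻¹ * x3 * (x4⁻¹ * x2)⁻¹ = 1 := mul_inv_eq_one.2 R1
  have S2 : x0⁻¹ * x4 * (x2⁻¹ * x1)⁻¹ = 1 := mul_inv_eq_one.2 R2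
  have S3 : x3⁻¹ * x4 * (x0⁻¹ * x1)⁻¹ = 1 := mul_inv_eq_one.2 R3
  clear R0 R1 R2 R3
  subst h0
  have V0 : x1 * ((x2⁻¹ * x3))⁻¹ = 1 := by
    calc x1 * ((x2⁻¹ * x3))⁻¹ = 1 * (1⁻¹ * x1 * (x2⁻¹ * x3)⁻¹) * 1⁻¹ := by simp only [pow_succ, pow_zero, mul_assoc, mul_inv_rev, inv_inv, mul_inv_cancel, inv_mul_cancel, mul_inv_cancel_left, inv_mul_cancel_left, one_mul, mul_one, inv_one]
      _ = 1 := by rw [S0]; simp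
  rw [mul_inv_eq_one] at V0
  subst V0
  have V1 : x2 * ((x4 * x3))⁻¹ = 1 := by
    calc x2 * ((x4 * x3))⁻¹ = (x4) * (1⁻¹ * x3 * (x4⁻¹ * x2)⁻¹)⁻¹ * (x4)⁻¹ := by simp only [pow_succ, pow_zero, mul_assoc, mul_inv_rev, inv_inv, mul_inv_cancel, inv_mul_cancel, mul_inv_cancel_left, inv_mul_cancel_left, one_mul, mul_one, inv_one]
      _ = 1 := by rw [S1]; simp
  rw [mul_inv_eq_one] at V1
  subst V1
  have V2 : x3 * ((x4 * x4))⁻¹ = 1 := by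
    calc x3 * ((x4 * x4))⁻¹ = (x4 * x3) * (x3⁻¹ * x4 * (1⁻¹ * ((x4 * x3)⁻¹ * x3))⁻¹)⁻¹ * (x4 * x3)⁻¹ := by simp only [pow_succ, pow_zero, mul_assoc, mul_inv_rev, inv_inv, mul_inv_cancel, inv_mul_cancel, mul_inv_cancel_left, inv_mul_cancel_left, one_mul, mul_one, inv_one]
      _ = 1 := by rw [S3]; simp
  rw [mul_inv_eq_one] at V2
  subst V2
  have P : (x4) ^ 5 = 1 := by
    calc (x4) ^ 5 = 1 * (1⁻¹ * x4 * ((x4 * (x4 * x4))⁻¹ * ((x4 * (x4 * x4))⁻¹ * (x4 * x4)))⁻¹) * 1⁻¹ := by simp only [pow_succ, pow_zero, mul_assoc, mul_inv_rev, inv_inv, mul_inv_cancel, inv_mul_cancel, mul_inv_cancel_left, inv_mul_cancel_left, one_mul, mul_one, inv_one]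
      _ = 1 := by rw [S2]; simp
  have Q : (x4) = 1 := htf _ 5 (by norm_num) P
  exact D.n04 Q.symm

theorem leaf70 {x0 x1 x2 x3 x4 : G} (h0 : x0 = 1) (D : Dist x0 x1 x2 x3 x4)
    (R0 : x0⁻¹ * x3 = x4⁻¹ * x2) (R1 : x0⁻¹ * x4 = x2⁻¹ * x1) (R2 : x1⁻¹ * x3 = x0⁻¹ * x2) (R3 : x3⁻¹ * x4 = x0⁻¹ * x2) : False := by
  have S0 : x0⁻¹ * x3 * (x4⁻¹ * x2)⁻¹ = 1 := mul_inv_eq_one.2 R0
  have S1 : x0⁻¹ * x4 * (x2⁻¹ * x1)⁻¹ = 1 := mul_inv_eq_one.2 R1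
  have S2 : x1⁻¹ * x3 * (x0⁻¹ * x2)⁻¹ = 1 := mul_inv_eq_one.2 R2
  have S3 : x3⁻¹ * x4 * (x0⁻¹ * x2)⁻¹ = 1 := mul_inv_eq_one.2 R3
  clear R0 R1 R2 R3
  subst h0
  have V0 : x2 * ((x4 * x3))⁻¹ = 1 := by
    calc x2 * ((x4 * x3))⁻¹ = (x4) * (1⁻¹ * x3 * (x4⁻¹ * x2)⁻¹)⁻¹ * (x4)⁻¹ := by simp only [pow_succ, pow_zero, mul_assoc, mul_inv_rev, inv_inv, mul_inv_cancel, inv_mul_cancel, mul_inv_cancel_left, inv_mul_cancel_left, one_mul, mul_one, inv_one]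
      _ = 1 := by rw [S0]; simp
  rw [mul_inv_eq_one] at V0
  subst V0
  have V1 : x1 * ((x4⁻¹))⁻¹ = 1 := by
    calc x1 * ((x4⁻¹))⁻¹ = (x4⁻¹) * (x1⁻¹ * x3 * (1⁻¹ * (x4 * x3))⁻¹)⁻¹ * (x4⁻¹)⁻¹ := by simp only [pow_succ, pow_zero, mul_assoc, mul_inv_rev, inv_inv, mul_inv_cancel, inv_mul_cancel, mul_inv_cancel_left, inv_mul_cancel_left, one_mul, mul_one, inv_one]
      _ = 1 := by rw [S2]; simp
  rw [mul_inv_eq_one] at V1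
  subst V1
  have V2 : x3 * ((x4⁻¹ * x4⁻¹ * x4⁻¹))⁻¹ = 1 := by
    calc x3 * ((x4⁻¹ * x4⁻¹ * x4⁻¹))⁻¹ = (x4⁻¹ * x4⁻¹ * x4⁻¹) * (1⁻¹ * x4 * ((x4 * x3)⁻¹ * (x4⁻¹))⁻¹) * (x4⁻¹ * x4⁻¹ * x4⁻¹)⁻¹ := by simp only [pow_succ, pow_zero, mul_assoc, mul_inv_rev, inv_inv, mul_inv_cancel, inv_mul_cancel, mul_inv_cancel_left, inv_mul_cancel_left, one_mul, mul_one, inv_one]
      _ = 1 := by rw [S1]; simp
  rw [mul_inv_eq_one] at V2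
  subst V2
  have P : (x4) ^ 6 = 1 := by
    calc (x4) ^ 6 = 1 * ((x4⁻¹ * x4⁻¹ * x4⁻¹)⁻¹ * x4 * (1⁻¹ * (x4 * (x4⁻¹ * x4⁻¹ * x4⁻¹)))⁻¹) * 1⁻¹ := by simp only [pow_succ, pow_zero, mul_assoc, mul_inv_rev, inv_inv, mul_inv_cancel, inv_mul_cancel, mul_inv_cancel_left, inv_mul_cancel_left, one_mul, mul_one, inv_one]
      _ = 1 := by rw [S3]; simp
  have Q : (x4) = 1 := htf _ 6 (by norm_num) P
  exact D.n04 Q.symm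

theorem leaf71 {x0 x1 x2 x3 x4 : G} (h0 : x0 = 1) (D : Dist x0 x1 x2 x3 x4)
    (R0 : x0⁻¹ * x1 = x2⁻¹ * x3) (R1 : x0⁻¹ * x4 = x2⁻¹ * x1) (R2 : x1⁻¹ * x3 = x0⁻¹ * x4) : False := by
  have S0 : x0⁻¹ * x1 * (x2⁻¹ * x3)⁻¹ = 1 := mul_inv_eq_one.2 R0
  have S1 : x0⁻¹ * x4 * (x2⁻¹ * x1)⁻¹ = 1 := mul_inv_eq_one.2 R1
  have S2 : x1⁻¹ * x3 * (x0⁻¹ * x4)⁻¹ = 1 := mul_inv_eq_one.2 R2
  clear R0 R1 R2
  subst h0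
  have V0 : x1 * ((x2⁻¹ * x3))⁻¹ = 1 := by
    calc x1 * ((x2⁻¹ * x3))⁻¹ = 1 * (1⁻¹ * x1 * (x2⁻¹ * x3)⁻¹) * 1⁻¹ := by simp only [pow_succ, pow_zero, mul_assoc, mul_inv_rev, inv_inv, mul_inv_cancel, inv_mul_cancel, mul_inv_cancel_left, inv_mul_cancel_left, one_mul, mul_one, inv_one]
      _ = 1 := by rw [S0]; simp
  rw [mul_inv_eq_one] at V0
  subst V0
  have V1 : x3 * ((x2 * x2 * x4))⁻¹ = 1 := by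
    calc x3 * ((x2 * x2 * x4))⁻¹ = (x2 * x2) * (1⁻¹ * x4 * (x2⁻¹ * (x2⁻¹ * x3))⁻¹)⁻¹ * (x2 * x2)⁻¹ := by simp only [pow_succ, pow_zero, mul_assoc, mul_inv_rev, inv_inv, mul_inv_cancel, inv_mul_cancel, mul_inv_cancel_left, inv_mul_cancel_left, one_mul, mul_one, inv_one]
      _ = 1 := by rw [S1]; simp
  rw [mul_inv_eq_one] at V1
  subst V1
  have P : (x4⁻¹ * x2) ^ 1 = 1 := by
    calc (x4⁻¹ * x2) ^ 1 = 1 * ((x2⁻¹ * (x2 * x2 * x4))⁻¹ * (x2 * x2 * x4) * (1⁻¹ * x4)⁻¹) * 1⁻¹ := by simp only [pow_succ, pow_zero, mul_assoc, mul_inv_rev, inv_inv, mul_inv_cancel, inv_mul_cancel, mul_inv_cancel_left, inv_mul_cancel_left, one_mul, mul_one, inv_one]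
      _ = 1 := by rw [S2]; simp
  have Q : (x4⁻¹ * x2) = 1 := htf _ 1 (by norm_num) P
  exact D.n24 (inv_mul_eq_one.1 Q).symm

theorem leaf72 {x0 x1 x2 x3 x4 : G} (h0 : x0 = 1) (D : Dist x0 x1 x2 x3 x4)
    (R0 : x1⁻¹ * x3 = x2⁻¹ * x0) (R1 : x3⁻¹ * x4 = x0⁻¹ * x2) : False := by
  have S0 : x1⁻¹ * x3 * (x2⁻¹ * x0)⁻¹ = 1 := mul_inv_eq_one.2 R0
  have S1 : x3⁻¹ * x4 * (x0⁻¹ * x2)⁻¹ = 1 := mul_inv_eq_one.2 R1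
  clear R0 R1
  subst h0
  have V0 : x2 * ((x3⁻¹ * x1))⁻¹ = 1 := by
    calc x2 * ((x3⁻¹ * x1))⁻¹ = (x3⁻¹ * x1) * (x1⁻¹ * x3 * (x2⁻¹ * 1)⁻¹) * (x3⁻¹ * x1)⁻¹ := by simp only [pow_succ, pow_zero, mul_assoc, mul_inv_rev, inv_inv, mul_inv_cancel, inv_mul_cancel, mul_inv_cancel_left, inv_mul_cancel_left, one_mul, mul_one, inv_one]
      _ = 1 := by rw [S0]; simp
  rw [mul_inv_eq_one] at V0
  subst V0
  have P : (x4 * x1⁻¹) ^ 1 = 1 := by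
    calc (x4 * x1⁻¹) ^ 1 = (x3) * (x3⁻¹ * x4 * (1⁻¹ * (x3⁻¹ * x1))⁻¹) * (x3)⁻¹ := by simp only [pow_succ, pow_zero, mul_assoc, mul_inv_rev, inv_inv, mul_inv_cancel, inv_mul_cancel, mul_inv_cancel_left, inv_mul_cancel_left, one_mul, mul_one, inv_one]
      _ = 1 := by rw [S1]; simp
  have Q : (x4 * x1⁻¹) = 1 := htf _ 1 (by norm_num) P
  exact D.n14 (mul_inv_eq_one.1 Q).symm

theorem leaf73 {x0 x1 x2 x3 x4 : G} (h0 : x0 = 1) (D : Dist x0 x1 x2 x3 x4)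
    (R0 : x0⁻¹ * x1 = x2⁻¹ * x3) (R1 : x0⁻¹ * x3 = x4⁻¹ * x2) (R2 : x0⁻¹ * x4 = x2⁻¹ * x1) (R3 : x1⁻¹ * x3 = x2⁻¹ * x4) : False := by
  have S0 : x0⁻¹ * x1 * (x2⁻¹ * x3)⁻¹ = 1 := mul_inv_eq_one.2 R0
  have S1 : x0⁻¹ * x3 * (x4⁻¹ * x2)⁻¹ = 1 := mul_inv_eq_one.2 R1
  have S2 : x0⁻¹ * x4 * (x2⁻¹ * x1)⁻¹ = 1 := mul_inv_eq_one.2 R2
  have S3 : x1⁻¹ * x3 * (x2⁻¹ * x4)⁻¹ = 1 := mul_inv_eq_one.2 R3
  clear R0 R1 R2 R3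
  subst h0
  have V0 : x1 * ((x2⁻¹ * x3))⁻¹ = 1 := by
    calc x1 * ((x2⁻¹ * x3))⁻¹ = 1 * (1⁻¹ * x1 * (x2⁻¹ * x3)⁻¹) * 1⁻¹ := by simp only [pow_succ, pow_zero, mul_assoc, mul_inv_rev, inv_inv, mul_inv_cancel, inv_mul_cancel, mul_inv_cancel_left, inv_mul_cancel_left, one_mul, mul_one, inv_one]
      _ = 1 := by rw [S0]; simp
  rw [mul_inv_eq_one] at V0
  subst V0
  have V1 : x2 * ((x4 * x3))⁻¹ = 1 := by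
    calc x2 * ((x4 * x3))⁻¹ = (x4) * (1⁻¹ * x3 * (x4⁻¹ * x2)⁻¹)⁻¹ * (x4)⁻¹ := by simp only [pow_succ, pow_zero, mul_assoc, mul_inv_rev, inv_inv, mul_inv_cancel, inv_mul_cancel, mul_inv_cancel_left, inv_mul_cancel_left, one_mul, mul_one, inv_one]
      _ = 1 := by rw [S1]; simp
  rw [mul_inv_eq_one] at V1
  subst V1
  have V2 : x4 * ((x3⁻¹ * x3⁻¹))⁻¹ = 1 := by
    calc x4 * ((x3⁻¹ * x3⁻¹))⁻¹ = (x3) * (((x4 * x3)⁻¹ * x3)⁻¹ * x3 * ((x4 * x3)⁻¹ * x4)⁻¹) * (x3)⁻¹ := by simp only [pow_succ, pow_zero, mul_assoc, mul_inv_rev, inv_inv, mul_inv_cancel, inv_mul_cancel, mul_inv_cancel_left, inv_mul_cancel_left, one_mul, mul_one, inv_one]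
      _ = 1 := by rw [S3]; simp
  rw [mul_inv_eq_one] at V2
  subst V2
  have P : (x3⁻¹) ^ 5 = 1 := by
    calc (x3⁻¹) ^ 5 = 1 * (1⁻¹ * (x3⁻¹ * x3⁻¹) * (((x3⁻¹ * x3⁻¹) * x3)⁻¹ * (((x3⁻¹ * x3⁻¹) * x3)⁻¹ * x3))⁻¹) * 1⁻¹ := by simp only [pow_succ, pow_zero, mul_assoc, mul_inv_rev, inv_inv, mul_inv_cancel, inv_mul_cancel, mul_inv_cancel_left, inv_mul_cancel_left, one_mul, mul_one, inv_one]
      _ = 1 := by rw [S2]; simp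
  have Q : (x3⁻¹) = 1 := htf _ 5 (by norm_num) P
  exact D.n03 (inv_eq_one.1 Q).symm

theorem leaf74 {x0 x1 x2 x3 x4 : G} (h0 : x0 = 1) (D : Dist x0 x1 x2 x3 x4)
    (R0 : x0⁻¹ * x4 = x2⁻¹ * x1) (R1 : x1⁻¹ * x3 = x4⁻¹ * x0) : False := by
  have S0 : x0⁻¹ * x4 * (x2⁻¹ * x1)⁻¹ = 1 := mul_inv_eq_one.2 R0
  have S1 : x1⁻¹ * x3 * (x4⁻¹ * x0)⁻¹ = 1 := mul_inv_eq_one.2 R1
  clear R0 R1
  subst h0
  have V0 : x1 * ((x2 * x4))⁻¹ = 1 := by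
    calc x1 * ((x2 * x4))⁻¹ = (x2) * (1⁻¹ * x4 * (x2⁻¹ * x1)⁻¹)⁻¹ * (x2)⁻¹ := by simp only [pow_succ, pow_zero, mul_assoc, mul_inv_rev, inv_inv, mul_inv_cancel, inv_mul_cancel, mul_inv_cancel_left, inv_mul_cancel_left, one_mul, mul_one, inv_one]
      _ = 1 := by rw [S0]; simp
  rw [mul_inv_eq_one] at V0
  subst V0
  have P : (x2⁻¹ * x3) ^ 1 = 1 := by
    calc (x2⁻¹ * x3) ^ 1 = (x4) * ((x2 * x4)⁻¹ * x3 * (x4⁻¹ * 1)⁻¹) * (x4)⁻¹ := by simp only [pow_succ, pow_zero, mul_assoc, mul_inv_rev, inv_inv, mul_inv_cancel, inv_mul_cancel, mul_inv_cancel_left, inv_mul_cancel_left, one_mul, mul_one, inv_one]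
      _ = 1 := by rw [S1]; simp
  have Q : (x2⁻¹ * x3) = 1 := htf _ 1 (by norm_num) P
  exact D.n23 (inv_mul_eq_one.1 Q)

theorem leaf75 {x0 x1 x2 x3 x4 : G} (h0 : x0 = 1) (D : Dist x0 x1 x2 x3 x4)
    (R0 : x0⁻¹ * x3 = x4⁻¹ * x2) (R1 : x1⁻¹ * x3 = x4⁻¹ * x2) : False := by
  have S0 : x0⁻¹ * x3 * (x4⁻¹ * x2)⁻¹ = 1 := mul_inv_eq_one.2 R0
  have S1 : x1⁻¹ * x3 * (x4⁻¹ * x2)⁻¹ = 1 := mul_inv_eq_one.2 R1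
  clear R0 R1
  subst h0
  have V0 : x2 * ((x4 * x3))⁻¹ = 1 := by
    calc x2 * ((x4 * x3))⁻¹ = (x4) * (1⁻¹ * x3 * (x4⁻¹ * x2)⁻¹)⁻¹ * (x4)⁻¹ := by simp only [pow_succ, pow_zero, mul_assoc, mul_inv_rev, inv_inv, mul_inv_cancel, inv_mul_cancel, mul_inv_cancel_left, inv_mul_cancel_left, one_mul, mul_one, inv_one]
      _ = 1 := by rw [S0]; simp
  rw [mul_inv_eq_one] at V0
  subst V0
  have P : (x1⁻¹) ^ 1 = 1 := by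
    calc (x1⁻¹) ^ 1 = 1 * (x1⁻¹ * x3 * (x4⁻¹ * (x4 * x3))⁻¹) * 1⁻¹ := by simp only [pow_succ, pow_zero, mul_assoc, mul_inv_rev, inv_inv, mul_inv_cancel, inv_mul_cancel, mul_inv_cancel_left, inv_mul_cancel_left, one_mul, mul_one, inv_one]
      _ = 1 := by rw [S1]; simp
  have Q : (x1⁻¹) = 1 := htf _ 1 (by norm_num) P
  exact D.n01 (inv_eq_one.1 Q).symm

theorem leaf76 {x0 x1 x2 x3 x4 : G} (h0 : x0 = 1) (D : Dist x0 x1 x2 x3 x4)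
    (R0 : x0⁻¹ * x1 = x2⁻¹ * x3) (R1 : x0⁻¹ * x3 = x4⁻¹ * x2) (R2 : x0⁻¹ * x4 = x2⁻¹ * x1) (R3 : x3⁻¹ * x4 = x1⁻¹ * x2) : False := by
  have S0 : x0⁻¹ * x1 * (x2⁻¹ * x3)⁻¹ = 1 := mul_inv_eq_one.2 R0
  have S1 : x0⁻¹ * x3 * (x4⁻¹ * x2)⁻¹ = 1 := mul_inv_eq_one.2 R1
  have S2 : x0⁻¹ * x4 * (x2⁻¹ * x1)⁻¹ = 1 := mul_inv_eq_one.2 R2
  have S3 : x3⁻¹ * x4 * (x1⁻¹ * x2)⁻¹ = 1 := mul_inv_eq_one.2 R3
  clear R0 R1 R2 R3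
  subst h0
  have V0 : x1 * ((x2⁻¹ * x3))⁻¹ = 1 := by
    calc x1 * ((x2⁻¹ * x3))⁻¹ = 1 * (1⁻¹ * x1 * (x2⁻¹ * x3)⁻¹) * 1⁻¹ := by simp only [pow_succ, pow_zero, mul_assoc, mul_inv_rev, inv_inv, mul_inv_cancel, inv_mul_cancel, mul_inv_cancel_left, inv_mul_cancel_left, one_mul, mul_one, inv_one]
      _ = 1 := by rw [S0]; simp
  rw [mul_inv_eq_one] at V0
  subst V0
  have V1 : x2 * ((x4 * x3))⁻¹ = 1 := by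
    calc x2 * ((x4 * x3))⁻¹ = (x4) * (1⁻¹ * x3 * (x4⁻¹ * x2)⁻¹)⁻¹ * (x4)⁻¹ := by simp only [pow_succ, pow_zero, mul_assoc, mul_inv_rev, inv_inv, mul_inv_cancel, inv_mul_cancel, mul_inv_cancel_left, inv_mul_cancel_left, one_mul, mul_one, inv_one]
      _ = 1 := by rw [S1]; simp
  rw [mul_inv_eq_one] at V1
  subst V1
  have V2 : x4 * ((x3⁻¹ * x3⁻¹))⁻¹ = 1 := by
    calc x4 * ((x3⁻¹ * x3⁻¹))⁻¹ = (x3⁻¹ * x4⁻¹ * x3) * (x3⁻¹ * x4 * (((x4 * x3)⁻¹ * x3)⁻¹ * (x4 * x3))⁻¹)⁻¹ * (x3⁻¹ * x4⁻¹ * x3)⁻¹ := by simp only [pow_succ, pow_zero, mul_assoc, mul_inv_rev, inv_inv, mul_inv_cancel, inv_mul_cancel, mul_inv_cancel_left, inv_mul_cancel_left, one_mul, mul_one, inv_one]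
      _ = 1 := by rw [S3]; simp
  rw [mul_inv_eq_one] at V2
  subst V2
  have P : (x3⁻¹) ^ 5 = 1 := by
    calc (x3⁻¹) ^ 5 = 1 * (1⁻¹ * (x3⁻¹ * x3⁻¹) * (((x3⁻¹ * x3⁻¹) * x3)⁻¹ * (((x3⁻¹ * x3⁻¹) * x3)⁻¹ * x3))⁻¹) * 1⁻¹ := by simp only [pow_succ, pow_zero, mul_assoc, mul_inv_rev, inv_inv, mul_inv_cancel, inv_mul_cancel, mul_inv_cancel_left, inv_mul_cancel_left, one_mul, mul_one, inv_one]
      _ = 1 := by rw [S2]; simp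
  have Q : (x3⁻¹) = 1 := htf _ 5 (by norm_num) P
  exact D.n03 (inv_eq_one.1 Q).symm

theorem leaf77 {x0 x1 x2 x3 x4 : G} (h0 : x0 = 1) (D : Dist x0 x1 x2 x3 x4)
    (R0 : x0⁻¹ * x3 = x4⁻¹ * x2) (R1 : x3⁻¹ * x4 = x2⁻¹ * x0) : False := by
  have S0 : x0⁻¹ * x3 * (x4⁻¹ * x2)⁻¹ = 1 := mul_inv_eq_one.2 R0
  have S1 : x3⁻¹ * x4 * (x2⁻¹ * x0)⁻¹ = 1 := mul_inv_eq_one.2 R1
  clear R0 R1
  subst h0
  have V0 : x2 * ((x4 * x3))⁻¹ = 1 := by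
    calc x2 * ((x4 * x3))⁻¹ = (x4) * (1⁻¹ * x3 * (x4⁻¹ * x2)⁻¹)⁻¹ * (x4)⁻¹ := by simp only [pow_succ, pow_zero, mul_assoc, mul_inv_rev, inv_inv, mul_inv_cancel, inv_mul_cancel, mul_inv_cancel_left, inv_mul_cancel_left, one_mul, mul_one, inv_one]
      _ = 1 := by rw [S0]; simp
  rw [mul_inv_eq_one] at V0
  subst V0
  have P : (x4) ^ 2 = 1 := by
    calc (x4) ^ 2 = (x3) * (x3⁻¹ * x4 * ((x4 * x3)⁻¹ * 1)⁻¹) * (x3)⁻¹ := by simp only [pow_succ, pow_zero, mul_assoc, mul_inv_rev, inv_inv, mul_inv_cancel, inv_mul_cancel, mul_inv_cancel_left, inv_mul_cancel_left, one_mul, mul_one, inv_one]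
      _ = 1 := by rw [S1]; simp
  have Q : (x4) = 1 := htf _ 2 (by norm_num) P
  exact D.n04 Q.symm

theorem leaf78 {x0 x1 x2 x3 x4 : G} (h0 : x0 = 1) (D : Dist x0 x1 x2 x3 x4)
    (R0 : x0⁻¹ * x4 = x2⁻¹ * x1) (R1 : x3⁻¹ * x4 = x2⁻¹ * x1) : False := by
  have S0 : x0⁻¹ * x4 * (x2⁻¹ * x1)⁻¹ = 1 := mul_inv_eq_one.2 R0
  have S1 : x3⁻¹ * x4 * (x2⁻¹ * x1)⁻¹ = 1 := mul_inv_eq_one.2 R1
  clear R0 R1
  subst h0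
  have V0 : x1 * ((x2 * x4))⁻¹ = 1 := by
    calc x1 * ((x2 * x4))⁻¹ = (x2) * (1⁻¹ * x4 * (x2⁻¹ * x1)⁻¹)⁻¹ * (x2)⁻¹ := by simp only [pow_succ, pow_zero, mul_assoc, mul_inv_rev, inv_inv, mul_inv_cancel, inv_mul_cancel, mul_inv_cancel_left, inv_mul_cancel_left, one_mul, mul_one, inv_one]
      _ = 1 := by rw [S0]; simp
  rw [mul_inv_eq_one] at V0
  subst V0
  have P : (x3⁻¹) ^ 1 = 1 := by
    calc (x3⁻¹) ^ 1 = 1 * (x3⁻¹ * x4 * (x2⁻¹ * (x2 * x4))⁻¹) * 1⁻¹ := by simp only [pow_succ, pow_zero, mul_assoc, mul_inv_rev, inv_inv, mul_inv_cancel, inv_mul_cancel, mul_inv_cancel_left, inv_mul_cancel_left, one_mul, mul_one, inv_one]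
      _ = 1 := by rw [S1]; simp
  have Q : (x3⁻¹) = 1 := htf _ 1 (by norm_num) P
  exact D.n03 (inv_eq_one.1 Q).symm

theorem leaf79 {x0 x1 x2 x3 x4 : G} (h0 : x0 = 1) (D : Dist x0 x1 x2 x3 x4)
    (R0 : x0⁻¹ * x4 = x2⁻¹ * x1) (R1 : x1⁻¹ * x2 = x4⁻¹ * x3) : False := by
  have S0 : x0⁻¹ * x4 * (x2⁻¹ * x1)⁻¹ = 1 := mul_inv_eq_one.2 R0
  have S1 : x1⁻¹ * x2 * (x4⁻¹ * x3)⁻¹ = 1 := mul_inv_eq_one.2 R1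
  clear R0 R1
  subst h0
  have V0 : x1 * ((x2 * x4))⁻¹ = 1 := by
    calc x1 * ((x2 * x4))⁻¹ = (x2) * (1⁻¹ * x4 * (x2⁻¹ * x1)⁻¹)⁻¹ * (x2)⁻¹ := by simp only [pow_succ, pow_zero, mul_assoc, mul_inv_rev, inv_inv, mul_inv_cancel, inv_mul_cancel, mul_inv_cancel_left, inv_mul_cancel_left, one_mul, mul_one, inv_one]
      _ = 1 := by rw [S0]; simp
  rw [mul_inv_eq_one] at V0
  subst V0
  have P : (x3⁻¹) ^ 1 = 1 := by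
    calc (x3⁻¹) ^ 1 = (x4) * ((x2 * x4)⁻¹ * x2 * (x4⁻¹ * x3)⁻¹) * (x4)⁻¹ := by simp only [pow_succ, pow_zero, mul_assoc, mul_inv_rev, inv_inv, mul_inv_cancel, inv_mul_cancel, mul_inv_cancel_left, inv_mul_cancel_left, one_mul, mul_one, inv_one]
      _ = 1 := by rw [S1]; simp
  have Q : (x3⁻¹) = 1 := htf _ 1 (by norm_num) P
  exact D.n03 (inv_eq_one.1 Q).symm

theorem leaf80 {x0 x1 x2 x3 x4 : G} (h0 : x0 = 1) (D : Dist x0 x1 x2 x3 x4)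
    (R0 : x0⁻¹ * x1 = x2⁻¹ * x3) (R1 : x0⁻¹ * x4 = x2⁻¹ * x3) : False := by
  have S0 : x0⁻¹ * x1 * (x2⁻¹ * x3)⁻¹ = 1 := mul_inv_eq_one.2 R0
  have S1 : x0⁻¹ * x4 * (x2⁻¹ * x3)⁻¹ = 1 := mul_inv_eq_one.2 R1
  clear R0 R1
  subst h0
  have V0 : x2 * ((x3 * x1⁻¹))⁻¹ = 1 := by
    calc x2 * ((x3 * x1⁻¹))⁻¹ = (x3 * x1⁻¹) * (1⁻¹ * x1 * (x2⁻¹ * x3)⁻¹) * (x3 * x1⁻¹)⁻¹ := by simp only [pow_succ, pow_zero, mul_assoc, mul_inv_rev, inv_inv, mul_inv_cancel, inv_mul_cancel, mul_inv_cancel_left, inv_mul_cancel_left, one_mul, mul_one, inv_one]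
      _ = 1 := by rw [S0]; simp
  rw [mul_inv_eq_one] at V0
  subst V0
  have P : (x4 * x1⁻¹) ^ 1 = 1 := by
    calc (x4 * x1⁻¹) ^ 1 = 1 * (1⁻¹ * x4 * ((x3 * x1⁻¹)⁻¹ * x3)⁻¹) * 1⁻¹ := by simp only [pow_succ, pow_zero, mul_assoc, mul_inv_rev, inv_inv, mul_inv_cancel, inv_mul_cancel, mul_inv_cancel_left, inv_mul_cancel_left, one_mul, mul_one, inv_one]
      _ = 1 := by rw [S1]; simp
  have Q : (x4 * x1⁻¹) = 1 := htf _ 1 (by norm_num) P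
  exact D.n14 (mul_inv_eq_one.1 Q).symm

theorem leaf81 {x0 x1 x2 x3 x4 : G} (h0 : x0 = 1) (D : Dist x0 x1 x2 x3 x4)
    (R0 : x0⁻¹ * x4 = x3⁻¹ * x1) (R1 : x3⁻¹ * x4 = x0⁻¹ * x1) : False := by
  have S0 : x0⁻¹ * x4 * (x3⁻¹ * x1)⁻¹ = 1 := mul_inv_eq_one.2 R0
  have S1 : x3⁻¹ * x4 * (x0⁻¹ * x1)⁻¹ = 1 := mul_inv_eq_one.2 R1
  clear R0 R1
  subst h0
  have V0 : x1 * ((x3 * x4))⁻¹ = 1 := by
    calc x1 * ((x3 * x4))⁻¹ = (x3) * (1⁻¹ * x4 * (x3⁻¹ * x1)⁻¹)⁻¹ * (x3)⁻¹ := by simp only [pow_succ, pow_zero, mul_assoc, mul_inv_rev, inv_inv, mul_inv_cancel, inv_mul_cancel, mul_inv_cancel_left, inv_mul_cancel_left, one_mul, mul_one, inv_one]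
      _ = 1 := by rw [S0]; simp
  rw [mul_inv_eq_one] at V0
  subst V0
  have P : (x3⁻¹) ^ 2 = 1 := by
    calc (x3⁻¹) ^ 2 = 1 * (x3⁻¹ * x4 * (1⁻¹ * (x3 * x4))⁻¹) * 1⁻¹ := by simp only [pow_succ, pow_zero, mul_assoc, mul_inv_rev, inv_inv, mul_inv_cancel, inv_mul_cancel, mul_inv_cancel_left, inv_mul_cancel_left, one_mul, mul_one, inv_one]
      _ = 1 := by rw [S1]; simp
  have Q : (x3⁻¹) = 1 := htf _ 2 (by norm_num) P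
  exact D.n03 (inv_eq_one.1 Q).symm

theorem leaf82 {x0 x1 x2 x3 x4 : G} (h0 : x0 = 1) (D : Dist x0 x1 x2 x3 x4)
    (R0 : x1⁻¹ * x4 = x0⁻¹ * x2) (R1 : x3⁻¹ * x4 = x0⁻¹ * x2) : False := by
  have S0 : x1⁻¹ * x4 * (x0⁻¹ * x2)⁻¹ = 1 := mul_inv_eq_one.2 R0
  have S1 : x3⁻¹ * x4 * (x0⁻¹ * x2)⁻¹ = 1 := mul_inv_eq_one.2 R1
  clear R0 R1
  subst h0
  have V0 : x2 * ((x1⁻¹ * x4))⁻¹ = 1 := by
    calc x2 * ((x1⁻¹ * x4))⁻¹ = 1 * (x1⁻¹ * x4 * (1⁻¹ * x2)⁻¹)⁻¹ * 1⁻¹ := by simp only [pow_succ, pow_zero, mul_assoc, mul_inv_rev, inv_inv, mul_inv_cancel, inv_mul_cancel, mul_inv_cancel_left, inv_mul_cancel_left, one_mul, mul_one, inv_one]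
      _ = 1 := by rw [S0]; simp
  rw [mul_inv_eq_one] at V0
  subst V0
  have P : (x3⁻¹ * x1) ^ 1 = 1 := by
    calc (x3⁻¹ * x1) ^ 1 = 1 * (x3⁻¹ * x4 * (1⁻¹ * (x1⁻¹ * x4))⁻¹) * 1⁻¹ := by simp only [pow_succ, pow_zero, mul_assoc, mul_inv_rev, inv_inv, mul_inv_cancel, inv_mul_cancel, mul_inv_cancel_left, inv_mul_cancel_left, one_mul, mul_one, inv_one]
      _ = 1 := by rw [S1]; simp
  have Q : (x3⁻¹ * x1) = 1 := htf _ 1 (by norm_num) P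
  exact D.n13 (inv_mul_eq_one.1 Q).symm

theorem leaf83 {x0 x1 x2 x3 x4 : G} (h0 : x0 = 1) (D : Dist x0 x1 x2 x3 x4)
    (R0 : x1⁻¹ * x2 = x0⁻¹ * x3) (R1 : x1⁻¹ * x4 = x0⁻¹ * x3) : False := by
  have S0 : x1⁻¹ * x2 * (x0⁻¹ * x3)⁻¹ = 1 := mul_inv_eq_one.2 R0
  have S1 : x1⁻¹ * x4 * (x0⁻¹ * x3)⁻¹ = 1 := mul_inv_eq_one.2 R1
  clear R0 R1
  subst h0
  have V0 : x1 * ((x2 * x3⁻¹))⁻¹ = 1 := by
    calc x1 * ((x2 * x3⁻¹))⁻¹ = (x2 * x3⁻¹) * (x1⁻¹ * x2 * (1⁻¹ * x3)⁻¹)⁻¹ * (x2 * x3⁻¹)⁻¹ := by simp only [pow_succ, pow_zero, mul_assoc, mul_inv_rev, inv_inv, mul_inv_cancel, inv_mul_cancel, mul_inv_cancel_left, inv_mul_cancel_left, one_mul, mul_one, inv_one]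
      _ = 1 := by rw [S0]; simp
  rw [mul_inv_eq_one] at V0
  subst V0
  have P : (x2⁻¹ * x4) ^ 1 = 1 := by
    calc (x2⁻¹ * x4) ^ 1 = (x3⁻¹) * ((x2 * x3⁻¹)⁻¹ * x4 * (1⁻¹ * x3)⁻¹) * (x3⁻¹)⁻¹ := by simp only [pow_succ, pow_zero, mul_assoc, mul_inv_rev, inv_inv, mul_inv_cancel, inv_mul_cancel, mul_inv_cancel_left, inv_mul_cancel_left, one_mul, mul_one, inv_one]
      _ = 1 := by rw [S1]; simp
  have Q : (x2⁻¹ * x4) = 1 := htf _ 1 (by norm_num) P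
  exact D.n24 (inv_mul_eq_one.1 Q)

theorem leaf84 {x0 x1 x2 x3 x4 : G} (h0 : x0 = 1) (D : Dist x0 x1 x2 x3 x4)
    (R0 : x0⁻¹ * x4 = x3⁻¹ * x1) (R1 : x1⁻¹ * x4 = x2⁻¹ * x0) (R2 : x3⁻¹ * x4 = x0⁻¹ * x2) : False := by
  have S0 : x0⁻¹ * x4 * (x3⁻¹ * x1)⁻¹ = 1 := mul_inv_eq_one.2 R0
  have S1 : x1⁻¹ * x4 * (x2⁻¹ * x0)⁻¹ = 1 := mul_inv_eq_one.2 R1
  have S2 : x3⁻¹ * x4 * (x0⁻¹ * x2)⁻¹ = 1 := mul_inv_eq_one.2 R2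
  clear R0 R1 R2
  subst h0
  have V0 : x1 * ((x3 * x4))⁻¹ = 1 := by
    calc x1 * ((x3 * x4))⁻¹ = (x3) * (1⁻¹ * x4 * (x3⁻¹ * x1)⁻¹)⁻¹ * (x3)⁻¹ := by simp only [pow_succ, pow_zero, mul_assoc, mul_inv_rev, inv_inv, mul_inv_cancel, inv_mul_cancel, mul_inv_cancel_left, inv_mul_cancel_left, one_mul, mul_one, inv_one]
      _ = 1 := by rw [S0]; simp
  rw [mul_inv_eq_one] at V0
  subst V0
  have V1 : x4 * ((x3 * x2))⁻¹ = 1 := by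
    calc x4 * ((x3 * x2))⁻¹ = (x3) * (x3⁻¹ * x4 * (1⁻¹ * x2)⁻¹) * (x3)⁻¹ := by simp only [pow_succ, pow_zero, mul_assoc, mul_inv_rev, inv_inv, mul_inv_cancel, inv_mul_cancel, mul_inv_cancel_left, inv_mul_cancel_left, one_mul, mul_one, inv_one]
      _ = 1 := by rw [S2]; simp
  rw [mul_inv_eq_one] at V1
  subst V1
  have P : (x3⁻¹ * x2) ^ 1 = 1 := by
    calc (x3⁻¹ * x2) ^ 1 = (x2) * ((x3 * (x3 * x2))⁻¹ * (x3 * x2) * (x2⁻¹ * 1)⁻¹) * (x2)⁻¹ := by simp only [pow_succ, pow_zero, mul_assoc, mul_inv_rev, inv_inv, mul_inv_cancel, inv_mul_cancel, mul_inv_cancel_left, inv_mul_cancel_left, one_mul, mul_one, inv_one]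
      _ = 1 := by rw [S1]; simp
  have Q : (x3⁻¹ * x2) = 1 := htf _ 1 (by norm_num) P
  exact D.n23 (inv_mul_eq_one.1 Q).symm

theorem leaf85 {x0 x1 x2 x3 x4 : G} (h0 : x0 = 1) (D : Dist x0 x1 x2 x3 x4)
    (R0 : x0⁻¹ * x1 = x2⁻¹ * x3) (R1 : x0⁻¹ * x4 = x3⁻¹ * x1) (R2 : x1⁻¹ * x2 = x0⁻¹ * x3) (R3 : x1⁻¹ * x4 = x2⁻¹ * x3) : False := by
  have S0 : x0⁻¹ * x1 * (x2⁻¹ * x3)⁻¹ = 1 := mul_inv_eq_one.2 R0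
  have S1 : x0⁻¹ * x4 * (x3⁻¹ * x1)⁻¹ = 1 := mul_inv_eq_one.2 R1
  have S2 : x1⁻¹ * x2 * (x0⁻¹ * x3)⁻¹ = 1 := mul_inv_eq_one.2 R2
  have S3 : x1⁻¹ * x4 * (x2⁻¹ * x3)⁻¹ = 1 := mul_inv_eq_one.2 R3
  clear R0 R1 R2 R3
  subst h0
  have V0 : x1 * ((x2⁻¹ * x3))⁻¹ = 1 := by
    calc x1 * ((x2⁻¹ * x3))⁻¹ = 1 * (1⁻¹ * x1 * (x2⁻¹ * x3)⁻¹) * 1⁻¹ := by simp only [pow_succ, pow_zero, mul_assoc, mul_inv_rev, inv_inv, mul_inv_cancel, inv_mul_cancel, mul_inv_cancel_left, inv_mul_cancel_left, one_mul, mul_one, inv_one]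
      _ = 1 := by rw [S0]; simp
  rw [mul_inv_eq_one] at V0
  subst V0
  have V1 : x2 * ((x3 * x4⁻¹ * x3⁻¹))⁻¹ = 1 := by
    calc x2 * ((x3 * x4⁻¹ * x3⁻¹))⁻¹ = (x3 * x4⁻¹) * (1⁻¹ * x4 * (x3⁻¹ * (x2⁻¹ * x3))⁻¹) * (x3 * x4⁻¹)⁻¹ := by simp only [pow_succ, pow_zero, mul_assoc, mul_inv_rev, inv_inv, mul_inv_cancel, inv_mul_cancel, mul_inv_cancel_left, inv_mul_cancel_left, one_mul, mul_one, inv_one]
      _ = 1 := by rw [S1]; simp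
  rw [mul_inv_eq_one] at V1
  subst V1
  have V2 : x4 * ((x3⁻¹ * x3⁻¹))⁻¹ = 1 := by
    calc x4 * ((x3⁻¹ * x3⁻¹))⁻¹ = (x3⁻¹ * x3⁻¹) * (((x3 * x4⁻¹ * x3⁻¹)⁻¹ * x3)⁻¹ * x4 * ((x3 * x4⁻¹ * x3⁻¹)⁻¹ * x3)⁻¹)⁻¹ * (x3⁻¹ * x3⁻¹)⁻¹ := by simp only [pow_succ, pow_zero, mul_assoc, mul_inv_rev, inv_inv, mul_inv_cancel, inv_mul_cancel, mul_inv_cancel_left, inv_mul_cancel_left, one_mul, mul_one, inv_one]
      _ = 1 := by rw [S3]; simp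
  rw [mul_inv_eq_one] at V2
  subst V2
  have P : (x3) ^ 2 = 1 := by
    calc (x3) ^ 2 = 1 * (((x3 * (x3⁻¹ * x3⁻¹)⁻¹ * x3⁻¹)⁻¹ * x3)⁻¹ * (x3 * (x3⁻¹ * x3⁻¹)⁻¹ * x3⁻¹) * (1⁻¹ * x3)⁻¹) * 1⁻¹ := by simp only [pow_succ, pow_zero, mul_assoc, mul_inv_rev, inv_inv, mul_inv_cancel, inv_mul_cancel, mul_inv_cancel_left, inv_mul_cancel_left, one_mul, mul_one, inv_one]
      _ = 1 := by rw [S2]; simp
  have Q : (x3) = 1 := htf _ 2 (by norm_num) P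
  exact D.n03 Q.symm

theorem leaf86 {x0 x1 x2 x3 x4 : G} (h0 : x0 = 1) (D : Dist x0 x1 x2 x3 x4)
    (R0 : x0⁻¹ * x1 = x2⁻¹ * x3) (R1 : x1⁻¹ * x2 = x0⁻¹ * x3) (R2 : x1⁻¹ * x4 = x3⁻¹ * x0) (R3 : x3⁻¹ * x4 = x0⁻¹ * x2) : False := by
  have S0 : x0⁻¹ * x1 * (x2⁻¹ * x3)⁻¹ = 1 := mul_inv_eq_one.2 R0
  have S1 : x1⁻¹ * x2 * (x0⁻¹ * x3)⁻¹ = 1 := mul_inv_eq_one.2 R1
  have S2 : x1⁻¹ * x4 * (x3⁻¹ * x0)⁻¹ = 1 := mul_inv_eq_one.2 R2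
  have S3 : x3⁻¹ * x4 * (x0⁻¹ * x2)⁻¹ = 1 := mul_inv_eq_one.2 R3
  clear R0 R1 R2 R3
  subst h0
  have V0 : x1 * ((x2⁻¹ * x3))⁻¹ = 1 := by
    calc x1 * ((x2⁻¹ * x3))⁻¹ = 1 * (1⁻¹ * x1 * (x2⁻¹ * x3)⁻¹) * 1⁻¹ := by simp only [pow_succ, pow_zero, mul_assoc, mul_inv_rev, inv_inv, mul_inv_cancel, inv_mul_cancel, mul_inv_cancel_left, inv_mul_cancel_left, one_mul, mul_one, inv_one]
      _ = 1 := by rw [S0]; simp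
  rw [mul_inv_eq_one] at V0
  subst V0
  have V1 : x2 * ((x4⁻¹))⁻¹ = 1 := by
    calc x2 * ((x4⁻¹))⁻¹ = (x3) * ((x2⁻¹ * x3)⁻¹ * x4 * (x3⁻¹ * 1)⁻¹) * (x3)⁻¹ := by simp only [pow_succ, pow_zero, mul_assoc, mul_inv_rev, inv_inv, mul_inv_cancel, inv_mul_cancel, mul_inv_cancel_left, inv_mul_cancel_left, one_mul, mul_one, inv_one]
      _ = 1 := by rw [S2]; simp
  rw [mul_inv_eq_one] at V1
  subst V1
  have V2 : x3 * ((x4 * x4))⁻¹ = 1 := by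
    calc x3 * ((x4 * x4))⁻¹ = (x4 * x4) * (x3⁻¹ * x4 * (1⁻¹ * (x4⁻¹))⁻¹)⁻¹ * (x4 * x4)⁻¹ := by simp only [pow_succ, pow_zero, mul_assoc, mul_inv_rev, inv_inv, mul_inv_cancel, inv_mul_cancel, mul_inv_cancel_left, inv_mul_cancel_left, one_mul, mul_one, inv_one]
      _ = 1 := by rw [S3]; simp
  rw [mul_inv_eq_one] at V2
  subst V2
  have P : (x4⁻¹) ^ 6 = 1 := by
    calc (x4⁻¹) ^ 6 = 1 * (((x4⁻¹)⁻¹ * (x4 * x4))⁻¹ * (x4⁻¹) * (1⁻¹ * (x4 * x4))⁻¹) * 1⁻¹ := by simp only [pow_succ, pow_zero, mul_assoc, mul_inv_rev, inv_inv, mul_inv_cancel, inv_mul_cancel, mul_inv_cancel_left, inv_mul_cancel_left, one_mul, mul_one, inv_one]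
      _ = 1 := by rw [S1]; simp
  have Q : (x4⁻¹) = 1 := htf _ 6 (by norm_num) P
  exact D.n04 (inv_eq_one.1 Q).symm

theorem leaf87 {x0 x1 x2 x3 x4 : G} (h0 : x0 = 1) (D : Dist x0 x1 x2 x3 x4)
    (R0 : x0⁻¹ * x1 = x2⁻¹ * x3) (R1 : x0⁻¹ * x4 = x3⁻¹ * x1) (R2 : x1⁻¹ * x2 = x0⁻¹ * x3) (R3 : x3⁻¹ * x4 = x1⁻¹ * x2) : False := by
  have S0 : x0⁻¹ * x1 * (x2⁻¹ * x3)⁻¹ = 1 := mul_inv_eq_one.2 R0
  have S1 : x0⁻¹ * x4 * (x3⁻¹ * x1)⁻¹ = 1 := mul_inv_eq_one.2 R1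
  have S2 : x1⁻¹ * x2 * (x0⁻¹ * x3)⁻¹ = 1 := mul_inv_eq_one.2 R2
  have S3 : x3⁻¹ * x4 * (x1⁻¹ * x2)⁻¹ = 1 := mul_inv_eq_one.2 R3
  clear R0 R1 R2 R3
  subst h0
  have V0 : x1 * ((x3 * x4))⁻¹ = 1 := by
    calc x1 * ((x3 * x4))⁻¹ = (x3) * (1⁻¹ * x4 * (x3⁻¹ * x1)⁻¹)⁻¹ * (x3)⁻¹ := by simp only [pow_succ, pow_zero, mul_assoc, mul_inv_rev, inv_inv, mul_inv_cancel, inv_mul_cancel, mul_inv_cancel_left, inv_mul_cancel_left, one_mul, mul_one, inv_one]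
      _ = 1 := by rw [S1]; simp
  rw [mul_inv_eq_one] at V0
  subst V0
  have V1 : x2 * ((x3 * x4 * x3))⁻¹ = 1 := by
    calc x2 * ((x3 * x4 * x3))⁻¹ = (x3 * x4) * ((x3 * x4)⁻¹ * x2 * (1⁻¹ * x3)⁻¹) * (x3 * x4)⁻¹ := by simp only [pow_succ, pow_zero, mul_assoc, mul_inv_rev, inv_inv, mul_inv_cancel, inv_mul_cancel, mul_inv_cancel_left, inv_mul_cancel_left, one_mul, mul_one, inv_one]
      _ = 1 := by rw [S2]; simp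
  rw [mul_inv_eq_one] at V1
  subst V1
  have V2 : x4 * ((x3 * x3))⁻¹ = 1 := by
    calc x4 * ((x3 * x3))⁻¹ = (x3) * (x3⁻¹ * x4 * ((x3 * x4)⁻¹ * (x3 * x4 * x3))⁻¹) * (x3)⁻¹ := by simp only [pow_succ, pow_zero, mul_assoc, mul_inv_rev, inv_inv, mul_inv_cancel, inv_mul_cancel, mul_inv_cancel_left, inv_mul_cancel_left, one_mul, mul_one, inv_one]
      _ = 1 := by rw [S3]; simp
  rw [mul_inv_eq_one] at V2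
  subst V2
  have P : (x3) ^ 6 = 1 := by
    calc (x3) ^ 6 = 1 * (1⁻¹ * (x3 * (x3 * x3)) * ((x3 * (x3 * x3) * x3)⁻¹ * x3)⁻¹) * 1⁻¹ := by simp only [pow_succ, pow_zero, mul_assoc, mul_inv_rev, inv_inv, mul_inv_cancel, inv_mul_cancel, mul_inv_cancel_left, inv_mul_cancel_left, one_mul, mul_one, inv_one]
      _ = 1 := by rw [S0]; simp
  have Q : (x3) = 1 := htf _ 6 (by norm_num) P
  exact D.n03 Q.symm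

theorem leaf88 {x0 x1 x2 x3 x4 : G} (h0 : x0 = 1) (D : Dist x0 x1 x2 x3 x4)
    (R0 : x0⁻¹ * x1 = x2⁻¹ * x3) (R1 : x0⁻¹ * x4 = x3⁻¹ * x1) (R2 : x1⁻¹ * x2 = x0⁻¹ * x3) (R3 : x3⁻¹ * x4 = x2⁻¹ * x0) : False := by
  have S0 : x0⁻¹ * x1 * (x2⁻¹ * x3)⁻¹ = 1 := mul_inv_eq_one.2 R0
  have S1 : x0⁻¹ * x4 * (x3⁻¹ * x1)⁻¹ = 1 := mul_inv_eq_one.2 R1
  have S2 : x1⁻¹ * x2 * (x0⁻¹ * x3)⁻¹ = 1 := mul_inv_eq_one.2 R2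
  have S3 : x3⁻¹ * x4 * (x2⁻¹ * x0)⁻¹ = 1 := mul_inv_eq_one.2 R3
  clear R0 R1 R2 R3
  subst h0
  have V0 : x1 * ((x3 * x4))⁻¹ = 1 := by
    calc x1 * ((x3 * x4))⁻¹ = (x3) * (1⁻¹ * x4 * (x3⁻¹ * x1)⁻¹)⁻¹ * (x3)⁻¹ := by simp only [pow_succ, pow_zero, mul_assoc, mul_inv_rev, inv_inv, mul_inv_cancel, inv_mul_cancel, mul_inv_cancel_left, inv_mul_cancel_left, one_mul, mul_one, inv_one]
      _ = 1 := by rw [S1]; simp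
  rw [mul_inv_eq_one] at V0
  subst V0
  have V1 : x2 * ((x4⁻¹ * x3))⁻¹ = 1 := by
    calc x2 * ((x4⁻¹ * x3))⁻¹ = (x4⁻¹ * x3) * (x3⁻¹ * x4 * (x2⁻¹ * 1)⁻¹) * (x4⁻¹ * x3)⁻¹ := by simp only [pow_succ, pow_zero, mul_assoc, mul_inv_rev, inv_inv, mul_inv_cancel, inv_mul_cancel, mul_inv_cancel_left, inv_mul_cancel_left, one_mul, mul_one, inv_one]
      _ = 1 := by rw [S3]; simp
  rw [mul_inv_eq_one] at V1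
  subst V1
  have V2 : x3 * ((x4⁻¹ * x4⁻¹))⁻¹ = 1 := by
    calc x3 * ((x4⁻¹ * x4⁻¹))⁻¹ = (x4⁻¹) * ((x3 * x4)⁻¹ * (x4⁻¹ * x3) * (1⁻¹ * x3)⁻¹)⁻¹ * (x4⁻¹)⁻¹ := by simp only [pow_succ, pow_zero, mul_assoc, mul_inv_rev, inv_inv, mul_inv_cancel, inv_mul_cancel, mul_inv_cancel_left, inv_mul_cancel_left, one_mul, mul_one, inv_one]
      _ = 1 := by rw [S2]; simp
  rw [mul_inv_eq_one] at V2
  subst V2
  have P : (x4⁻¹) ^ 2 = 1 := by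
    calc (x4⁻¹) ^ 2 = 1 * (1⁻¹ * ((x4⁻¹ * x4⁻¹) * x4) * ((x4⁻¹ * (x4⁻¹ * x4⁻¹))⁻¹ * (x4⁻¹ * x4⁻¹))⁻¹) * 1⁻¹ := by simp only [pow_succ, pow_zero, mul_assoc, mul_inv_rev, inv_inv, mul_inv_cancel, inv_mul_cancel, mul_inv_cancel_left, inv_mul_cancel_left, one_mul, mul_one, inv_one]
      _ = 1 := by rw [S0]; simp
  have Q : (x4⁻¹) = 1 := htf _ 2 (by norm_num) P
  exact D.n04 (inv_eq_one.1 Q).symm

theorem leaf89 {x0 x1 x2 x3 x4 : G} (h0 : x0 = 1) (D : Dist x0 x1 x2 x3 x4)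
    (R0 : x1⁻¹ * x2 = x0⁻¹ * x3) (R1 : x3⁻¹ * x4 = x2⁻¹ * x1) : False := by
  have S0 : x1⁻¹ * x2 * (x0⁻¹ * x3)⁻¹ = 1 := mul_inv_eq_one.2 R0
  have S1 : x3⁻¹ * x4 * (x2⁻¹ * x1)⁻¹ = 1 := mul_inv_eq_one.2 R1
  clear R0 R1
  subst h0
  have V0 : x1 * ((x2 * x3⁻¹))⁻¹ = 1 := by
    calc x1 * ((x2 * x3⁻¹))⁻¹ = (x2 * x3⁻¹) * (x1⁻¹ * x2 * (1⁻¹ * x3)⁻¹)⁻¹ * (x2 * x3⁻¹)⁻¹ := by simp only [pow_succ, pow_zero, mul_assoc, mul_inv_rev, inv_inv, mul_inv_cancel, inv_mul_cancel, mul_inv_cancel_left, inv_mul_cancel_left, one_mul, mul_one, inv_one]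
      _ = 1 := by rw [S0]; simp
  rw [mul_inv_eq_one] at V0
  subst V0
  have P : (x4) ^ 1 = 1 := by
    calc (x4) ^ 1 = (x3) * (x3⁻¹ * x4 * (x2⁻¹ * (x2 * x3⁻¹))⁻¹) * (x3)⁻¹ := by simp only [pow_succ, pow_zero, mul_assoc, mul_inv_rev, inv_inv, mul_inv_cancel, inv_mul_cancel, mul_inv_cancel_left, inv_mul_cancel_left, one_mul, mul_one, inv_one]
      _ = 1 := by rw [S1]; simp
  have Q : (x4) = 1 := htf _ 1 (by norm_num) P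
  exact D.n04 Q.symm

theorem leaf90 {x0 x1 x2 x3 x4 : G} (h0 : x0 = 1) (D : Dist x0 x1 x2 x3 x4)
    (R0 : x0⁻¹ * x1 = x2⁻¹ * x3) (R1 : x0⁻¹ * x4 = x3⁻¹ * x1) (R2 : x1⁻¹ * x2 = x0⁻¹ * x4) (R3 : x3⁻¹ * x4 = x0⁻¹ * x2) : False := by
  have S0 : x0⁻¹ * x1 * (x2⁻¹ * x3)⁻¹ = 1 := mul_inv_eq_one.2 R0
  have S1 : x0⁻¹ * x4 * (x3⁻¹ * x1)⁻¹ = 1 := mul_inv_eq_one.2 R1
  have S2 : x1⁻¹ * x2 * (x0⁻¹ * x4)⁻¹ = 1 := mul_inv_eq_one.2 R2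
  have S3 : x3⁻¹ * x4 * (x0⁻¹ * x2)⁻¹ = 1 := mul_inv_eq_one.2 R3
  clear R0 R1 R2 R3
  subst h0
  have V0 : x1 * ((x2⁻¹ * x3))⁻¹ = 1 := by
    calc x1 * ((x2⁻¹ * x3))⁻¹ = 1 * (1⁻¹ * x1 * (x2⁻¹ * x3)⁻¹) * 1⁻¹ := by simp only [pow_succ, pow_zero, mul_assoc, mul_inv_rev, inv_inv, mul_inv_cancel, inv_mul_cancel, mul_inv_cancel_left, inv_mul_cancel_left, one_mul, mul_one, inv_one]
      _ = 1 := by rw [S0]; simp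
  rw [mul_inv_eq_one] at V0
  subst V0
  have V1 : x2 * ((x3⁻¹ * x4))⁻¹ = 1 := by
    calc x2 * ((x3⁻¹ * x4))⁻¹ = 1 * (x3⁻¹ * x4 * (1⁻¹ * x2)⁻¹)⁻¹ * 1⁻¹ := by simp only [pow_succ, pow_zero, mul_assoc, mul_inv_rev, inv_inv, mul_inv_cancel, inv_mul_cancel, mul_inv_cancel_left, inv_mul_cancel_left, one_mul, mul_one, inv_one]
      _ = 1 := by rw [S3]; simp
  rw [mul_inv_eq_one] at V1
  subst V1
  have V2 : x4 * ((x3 * x3 * x3))⁻¹ = 1 := by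
    calc x4 * ((x3 * x3 * x3))⁻¹ = (x3 * x3) * (((x3⁻¹ * x4)⁻¹ * x3)⁻¹ * (x3⁻¹ * x4) * (1⁻¹ * x4)⁻¹) * (x3 * x3)⁻¹ := by simp only [pow_succ, pow_zero, mul_assoc, mul_inv_rev, inv_inv, mul_inv_cancel, inv_mul_cancel, mul_inv_cancel_left, inv_mul_cancel_left, one_mul, mul_one, inv_one]
      _ = 1 := by rw [S2]; simp
  rw [mul_inv_eq_one] at V2
  subst V2
  have P : (x3) ^ 5 = 1 := by
    calc (x3) ^ 5 = 1 * (1⁻¹ * (x3 * x3 * x3) * (x3⁻¹ * ((x3⁻¹ * (x3 * x3 * x3))⁻¹ * x3))⁻¹) * 1⁻¹ := by simp only [pow_succ, pow_zero, mul_assoc, mul_inv_rev, inv_inv, mul_inv_cancel, inv_mul_cancel, mul_inv_cancel_left, inv_mul_cancel_left, one_mul, mul_one, inv_one]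
      _ = 1 := by rw [S1]; simp
  have Q : (x3) = 1 := htf _ 5 (by norm_num) P
  exact D.n03 Q.symm

theorem leaf91 {x0 x1 x2 x3 x4 : G} (h0 : x0 = 1) (D : Dist x0 x1 x2 x3 x4)
    (R0 : x1⁻¹ * x2 = x0⁻¹ * x4) (R1 : x3⁻¹ * x4 = x1⁻¹ * x2) : False := by
  have S0 : x1⁻¹ * x2 * (x0⁻¹ * x4)⁻¹ = 1 := mul_inv_eq_one.2 R0
  have S1 : x3⁻¹ * x4 * (x1⁻¹ * x2)⁻¹ = 1 := mul_inv_eq_one.2 R1
  clear R0 R1
  subst h0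
  have V0 : x1 * ((x2 * x4⁻¹))⁻¹ = 1 := by
    calc x1 * ((x2 * x4⁻¹))⁻¹ = (x2 * x4⁻¹) * (x1⁻¹ * x2 * (1⁻¹ * x4)⁻¹)⁻¹ * (x2 * x4⁻¹)⁻¹ := by simp only [pow_succ, pow_zero, mul_assoc, mul_inv_rev, inv_inv, mul_inv_cancel, inv_mul_cancel, mul_inv_cancel_left, inv_mul_cancel_left, one_mul, mul_one, inv_one]
      _ = 1 := by rw [S0]; simp
  rw [mul_inv_eq_one] at V0
  subst V0
  have P : (x3⁻¹) ^ 1 = 1 := by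
    calc (x3⁻¹) ^ 1 = 1 * (x3⁻¹ * x4 * ((x2 * x4⁻¹)⁻¹ * x2)⁻¹) * 1⁻¹ := by simp only [pow_succ, pow_zero, mul_assoc, mul_inv_rev, inv_inv, mul_inv_cancel, inv_mul_cancel, mul_inv_cancel_left, inv_mul_cancel_left, one_mul, mul_one, inv_one]
      _ = 1 := by rw [S1]; simp
  have Q : (x3⁻¹) = 1 := htf _ 1 (by norm_num) P
  exact D.n03 (inv_eq_one.1 Q).symm

theorem leaf92 {x0 x1 x2 x3 x4 : G} (h0 : x0 = 1) (D : Dist x0 x1 x2 x3 x4)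
    (R0 : x0⁻¹ * x1 = x2⁻¹ * x3) (R1 : x0⁻¹ * x4 = x3⁻¹ * x1) (R2 : x1⁻¹ * x2 = x0⁻¹ * x4) (R3 : x3⁻¹ * x4 = x2⁻¹ * x0) : False := by
  have S0 : x0⁻¹ * x1 * (x2⁻¹ * x3)⁻¹ = 1 := mul_inv_eq_one.2 R0
  have S1 : x0⁻¹ * x4 * (x3⁻¹ * x1)⁻¹ = 1 := mul_inv_eq_one.2 R1
  have S2 : x1⁻¹ * x2 * (x0⁻¹ * x4)⁻¹ = 1 := mul_inv_eq_one.2 R2
  have S3 : x3⁻¹ * x4 * (x2⁻¹ * x0)⁻¹ = 1 := mul_inv_eq_one.2 R3
  clear R0 R1 R2 R3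
  subst h0
  have V0 : x1 * ((x2⁻¹ * x3))⁻¹ = 1 := by
    calc x1 * ((x2⁻¹ * x3))⁻¹ = 1 * (1⁻¹ * x1 * (x2⁻¹ * x3)⁻¹) * 1⁻¹ := by simp only [pow_succ, pow_zero, mul_assoc, mul_inv_rev, inv_inv, mul_inv_cancel, inv_mul_cancel, mul_inv_cancel_left, inv_mul_cancel_left, one_mul, mul_one, inv_one]
      _ = 1 := by rw [S0]; simp
  rw [mul_inv_eq_one] at V0
  subst V0
  have V1 : x2 * ((x3 * x4⁻¹ * x3⁻¹))⁻¹ = 1 := by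
    calc x2 * ((x3 * x4⁻¹ * x3⁻¹))⁻¹ = (x3 * x4⁻¹) * (1⁻¹ * x4 * (x3⁻¹ * (x2⁻¹ * x3))⁻¹) * (x3 * x4⁻¹)⁻¹ := by simp only [pow_succ, pow_zero, mul_assoc, mul_inv_rev, inv_inv, mul_inv_cancel, inv_mul_cancel, mul_inv_cancel_left, inv_mul_cancel_left, one_mul, mul_one, inv_one]
      _ = 1 := by rw [S1]; simp
  rw [mul_inv_eq_one] at V1
  subst V1
  have V2 : x3 * ((x4⁻¹ * x4⁻¹ * x4⁻¹))⁻¹ = 1 := by
    calc x3 * ((x4⁻¹ * x4⁻¹ * x4⁻¹))⁻¹ = (x4⁻¹) * (((x3 * x4⁻¹ * x3⁻¹)⁻¹ * x3)⁻¹ * (x3 * x4⁻¹ * x3⁻¹) * (1⁻¹ * x4)⁻¹)⁻¹ * (x4⁻¹)⁻¹ := by simp only [pow_succ, pow_zero, mul_assoc, mul_inv_rev, inv_inv, mul_inv_cancel, inv_mul_cancel, mul_inv_cancel_left, inv_mul_cancel_left, one_mul, mul_one, inv_one]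
      _ = 1 := by rw [S2]; simp
  rw [mul_inv_eq_one] at V2
  subst V2
  have P : (x4) ^ 3 = 1 := by
    calc (x4) ^ 3 = 1 * ((x4⁻¹ * x4⁻¹ * x4⁻¹)⁻¹ * x4 * (((x4⁻¹ * x4⁻¹ * x4⁻¹) * x4⁻¹ * (x4⁻¹ * x4⁻¹ * x4⁻¹)⁻¹)⁻¹ * 1)⁻¹) * 1⁻¹ := by simp only [pow_succ, pow_zero, mul_assoc, mul_inv_rev, inv_inv, mul_inv_cancel, inv_mul_cancel, mul_inv_cancel_left, inv_mul_cancel_left, one_mul, mul_one, inv_one]
      _ = 1 := by rw [S3]; simp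
  have Q : (x4) = 1 := htf _ 3 (by norm_num) P
  exact D.n04 Q.symm

theorem leaf93 {x0 x1 x2 x3 x4 : G} (h0 : x0 = 1) (D : Dist x0 x1 x2 x3 x4)
    (R0 : x0⁻¹ * x1 = x2⁻¹ * x3) (R1 : x0⁻¹ * x4 = x3⁻¹ * x1) (R2 : x1⁻¹ * x2 = x0⁻¹ * x4) (R3 : x3⁻¹ * x4 = x2⁻¹ * x1) : False := by
  have S0 : x0⁻¹ * x1 * (x2⁻¹ * x3)⁻¹ = 1 := mul_inv_eq_one.2 R0
  have S1 : x0⁻¹ * x4 * (x3⁻¹ * x1)⁻¹ = 1 := mul_inv_eq_one.2 R1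
  have S2 : x1⁻¹ * x2 * (x0⁻¹ * x4)⁻¹ = 1 := mul_inv_eq_one.2 R2
  have S3 : x3⁻¹ * x4 * (x2⁻¹ * x1)⁻¹ = 1 := mul_inv_eq_one.2 R3
  clear R0 R1 R2 R3
  subst h0
  have V0 : x1 * ((x2⁻¹ * x3))⁻¹ = 1 := by
    calc x1 * ((x2⁻¹ * x3))⁻¹ = 1 * (1⁻¹ * x1 * (x2⁻¹ * x3)⁻¹) * 1⁻¹ := by simp only [pow_succ, pow_zero, mul_assoc, mul_inv_rev, inv_inv, mul_inv_cancel, inv_mul_cancel, mul_inv_cancel_left, inv_mul_cancel_left, one_mul, mul_one, inv_one]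
      _ = 1 := by rw [S0]; simp
  rw [mul_inv_eq_one] at V0
  subst V0
  have V1 : x2 * ((x3 * x4⁻¹ * x3⁻¹))⁻¹ = 1 := by
    calc x2 * ((x3 * x4⁻¹ * x3⁻¹))⁻¹ = (x3 * x4⁻¹) * (1⁻¹ * x4 * (x3⁻¹ * (x2⁻¹ * x3))⁻¹) * (x3 * x4⁻¹)⁻¹ := by simp only [pow_succ, pow_zero, mul_assoc, mul_inv_rev, inv_inv, mul_inv_cancel, inv_mul_cancel, mul_inv_cancel_left, inv_mul_cancel_left, one_mul, mul_one, inv_one]
      _ = 1 := by rw [S1]; simp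
  rw [mul_inv_eq_one] at V1
  subst V1
  have V2 : x4 * ((x3⁻¹ * x3⁻¹))⁻¹ = 1 := by
    calc x4 * ((x3⁻¹ * x3⁻¹))⁻¹ = (x3⁻¹) * (x3⁻¹ * x4 * ((x3 * x4⁻¹ * x3⁻¹)⁻¹ * ((x3 * x4⁻¹ * x3⁻¹)⁻¹ * x3))⁻¹)⁻¹ * (x3⁻¹)⁻¹ := by simp only [pow_succ, pow_zero, mul_assoc, mul_inv_rev, inv_inv, mul_inv_cancel, inv_mul_cancel, mul_inv_cancel_left, inv_mul_cancel_left, one_mul, mul_one, inv_one]
      _ = 1 := by rw [S3]; simp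
  rw [mul_inv_eq_one] at V2
  subst V2
  have P : (x3) ^ 5 = 1 := by
    calc (x3) ^ 5 = 1 * (((x3 * (x3⁻¹ * x3⁻¹)⁻¹ * x3⁻¹)⁻¹ * x3)⁻¹ * (x3 * (x3⁻¹ * x3⁻¹)⁻¹ * x3⁻¹) * (1⁻¹ * (x3⁻¹ * x3⁻¹))⁻¹) * 1⁻¹ := by simp only [pow_succ, pow_zero, mul_assoc, mul_inv_rev, inv_inv, mul_inv_cancel, inv_mul_cancel, mul_inv_cancel_left, inv_mul_cancel_left, one_mul, mul_one, inv_one]
      _ = 1 := by rw [S2]; simp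
  have Q : (x3) = 1 := htf _ 5 (by norm_num) P
  exact D.n03 Q.symm

theorem leaf94 {x0 x1 x2 x3 x4 : G} (h0 : x0 = 1) (D : Dist x0 x1 x2 x3 x4)
    (R0 : x0⁻¹ * x2 = x1⁻¹ * x3) (R1 : x0⁻¹ * x3 = x1⁻¹ * x2) : False := by
  have S0 : x0⁻¹ * x2 * (x1⁻¹ * x3)⁻¹ = 1 := mul_inv_eq_one.2 R0
  have S1 : x0⁻¹ * x3 * (x1⁻¹ * x2)⁻¹ = 1 := mul_inv_eq_one.2 R1
  clear R0 R1
  subst h0
  have V0 : x1 * ((x3 * x2⁻¹))⁻¹ = 1 := by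
    calc x1 * ((x3 * x2⁻¹))⁻¹ = (x3 * x2⁻¹) * (1⁻¹ * x2 * (x1⁻¹ * x3)⁻¹) * (x3 * x2⁻¹)⁻¹ := by simp only [pow_succ, pow_zero, mul_assoc, mul_inv_rev, inv_inv, mul_inv_cancel, inv_mul_cancel, mul_inv_cancel_left, inv_mul_cancel_left, one_mul, mul_one, inv_one]
      _ = 1 := by rw [S0]; simp
  rw [mul_inv_eq_one] at V0
  subst V0
  have P : (x3 * x2⁻¹) ^ 2 = 1 := by
    calc (x3 * x2⁻¹) ^ 2 = 1 * (1⁻¹ * x3 * ((x3 * x2⁻¹)⁻¹ * x2)⁻¹) * 1⁻¹ := by simp only [pow_succ, pow_zero, mul_assoc, mul_inv_rev, inv_inv, mul_inv_cancel, inv_mul_cancel, mul_inv_cancel_left, inv_mul_cancel_left, one_mul, mul_one, inv_one]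
      _ = 1 := by rw [S1]; simp
  have Q : (x3 * x2⁻¹) = 1 := htf _ 2 (by norm_num) P
  exact D.n23 (mul_inv_eq_one.1 Q).symm

theorem leaf95 {x0 x1 x2 x3 x4 : G} (h0 : x0 = 1) (D : Dist x0 x1 x2 x3 x4)
    (R0 : x0⁻¹ * x2 = x1⁻¹ * x3) (R1 : x0⁻¹ * x3 = x1⁻¹ * x4) (R2 : x0⁻¹ * x4 = x3⁻¹ * x1) (R3 : x1⁻¹ * x2 = x3⁻¹ * x4) : False := by
  have S0 : x0⁻¹ * x2 * (x1⁻¹ * x3)⁻¹ = 1 := mul_inv_eq_one.2 R0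
  have S1 : x0⁻¹ * x3 * (x1⁻¹ * x4)⁻¹ = 1 := mul_inv_eq_one.2 R1
  have S2 : x0⁻¹ * x4 * (x3⁻¹ * x1)⁻¹ = 1 := mul_inv_eq_one.2 R2
  have S3 : x1⁻¹ * x2 * (x3⁻¹ * x4)⁻¹ = 1 := mul_inv_eq_one.2 R3
  clear R0 R1 R2 R3
  subst h0
  have V0 : x2 * ((x1⁻¹ * x3))⁻¹ = 1 := by
    calc x2 * ((x1⁻¹ * x3))⁻¹ = 1 * (1⁻¹ * x2 * (x1⁻¹ * x3)⁻¹) * 1⁻¹ := by simp only [pow_succ, pow_zero, mul_assoc, mul_inv_rev, inv_inv, mul_inv_cancel, inv_mul_cancel, mul_inv_cancel_left, inv_mul_cancel_left, one_mul, mul_one, inv_one]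
      _ = 1 := by rw [S0]; simp
  rw [mul_inv_eq_one] at V0
  subst V0
  have V1 : x3 * ((x1⁻¹ * x4))⁻¹ = 1 := by
    calc x3 * ((x1⁻¹ * x4))⁻¹ = 1 * (1⁻¹ * x3 * (x1⁻¹ * x4)⁻¹) * 1⁻¹ := by simp only [pow_succ, pow_zero, mul_assoc, mul_inv_rev, inv_inv, mul_inv_cancel, inv_mul_cancel, mul_inv_cancel_left, inv_mul_cancel_left, one_mul, mul_one, inv_one]
      _ = 1 := by rw [S1]; simp
  rw [mul_inv_eq_one] at V1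
  subst V1
  have V2 : x4 * ((x1 * x1 * x1 * x1))⁻¹ = 1 := by
    calc x4 * ((x1 * x1 * x1 * x1))⁻¹ = (x1 * x1 * x1 * x1) * (x1⁻¹ * (x1⁻¹ * (x1⁻¹ * x4)) * ((x1⁻¹ * x4)⁻¹ * x4)⁻¹) * (x1 * x1 * x1 * x1)⁻¹ := by simp only [pow_succ, pow_zero, mul_assoc, mul_inv_rev, inv_inv, mul_inv_cancel, inv_mul_cancel, mul_inv_cancel_left, inv_mul_cancel_left, one_mul, mul_one, inv_one]
      _ = 1 := by rw [S3]; simp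
  rw [mul_inv_eq_one] at V2
  subst V2
  have P : (x1) ^ 6 = 1 := by
    calc (x1) ^ 6 = 1 * (1⁻¹ * (x1 * x1 * x1 * x1) * ((x1⁻¹ * (x1 * x1 * x1 * x1))⁻¹ * x1)⁻¹) * 1⁻¹ := by simp only [pow_succ, pow_zero, mul_assoc, mul_inv_rev, inv_inv, mul_inv_cancel, inv_mul_cancel, mul_inv_cancel_left, inv_mul_cancel_left, one_mul, mul_one, inv_one]
      _ = 1 := by rw [S2]; simp
  have Q : (x1) = 1 := htf _ 6 (by norm_num) P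
  exact D.n01 Q.symm

theorem leaf96 {x0 x1 x2 x3 x4 : G} (h0 : x0 = 1) (D : Dist x0 x1 x2 x3 x4)
    (R0 : x0⁻¹ * x1 = x2⁻¹ * x3) (R1 : x0⁻¹ * x3 = x2⁻¹ * x4) (R2 : x1⁻¹ * x2 = x3⁻¹ * x4) : False := by
  have S0 : x0⁻¹ * x1 * (x2⁻¹ * x3)⁻¹ = 1 := mul_inv_eq_one.2 R0
  have S1 : x0⁻¹ * x3 * (x2⁻¹ * x4)⁻¹ = 1 := mul_inv_eq_one.2 R1
  have S2 : x1⁻¹ * x2 * (x3⁻¹ * x4)⁻¹ = 1 := mul_inv_eq_one.2 R2
  clear R0 R1 R2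
  subst h0
  have V0 : x1 * ((x2⁻¹ * x3))⁻¹ = 1 := by
    calc x1 * ((x2⁻¹ * x3))⁻¹ = 1 * (1⁻¹ * x1 * (x2⁻¹ * x3)⁻¹) * 1⁻¹ := by simp only [pow_succ, pow_zero, mul_assoc, mul_inv_rev, inv_inv, mul_inv_cancel, inv_mul_cancel, mul_inv_cancel_left, inv_mul_cancel_left, one_mul, mul_one, inv_one]
      _ = 1 := by rw [S0]; simp
  rw [mul_inv_eq_one] at V0
  subst V0
  have V1 : x4 * ((x2 * x3))⁻¹ = 1 := by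
    calc x4 * ((x2 * x3))⁻¹ = (x2) * (1⁻¹ * x3 * (x2⁻¹ * x4)⁻¹)⁻¹ * (x2)⁻¹ := by simp only [pow_succ, pow_zero, mul_assoc, mul_inv_rev, inv_inv, mul_inv_cancel, inv_mul_cancel, mul_inv_cancel_left, inv_mul_cancel_left, one_mul, mul_one, inv_one]
      _ = 1 := by rw [S1]; simp
  rw [mul_inv_eq_one] at V1
  subst V1
  have P : (x2 * x3⁻¹) ^ 1 = 1 := by
    calc (x2 * x3⁻¹) ^ 1 = (x2⁻¹ * x3) * ((x2⁻¹ * x3)⁻¹ * x2 * (x3⁻¹ * (x2 * x3))⁻¹) * (x2⁻¹ * x3)⁻¹ := by simp only [pow_succ, pow_zero, mul_assoc, mul_inv_rev, inv_inv, mul_inv_cancel, inv_mul_cancel, mul_inv_cancel_left, inv_mul_cancel_left, one_mul, mul_one, inv_one]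
      _ = 1 := by rw [S2]; simp
  have Q : (x2 * x3⁻¹) = 1 := htf _ 1 (by norm_num) P
  exact D.n23 (mul_inv_eq_one.1 Q)

theorem leaf97 {x0 x1 x2 x3 x4 : G} (h0 : x0 = 1) (D : Dist x0 x1 x2 x3 x4)
    (R0 : x0⁻¹ * x2 = x1⁻¹ * x3) (R1 : x0⁻¹ * x3 = x4⁻¹ * x2) (R2 : x0⁻¹ * x4 = x3⁻¹ * x1) : False := by
  have S0 : x0⁻¹ * x2 * (x1⁻¹ * x3)⁻¹ = 1 := mul_inv_eq_one.2 R0
  have S1 : x0⁻¹ * x3 * (x4⁻¹ * x2)⁻¹ = 1 := mul_inv_eq_one.2 R1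
  have S2 : x0⁻¹ * x4 * (x3⁻¹ * x1)⁻¹ = 1 := mul_inv_eq_one.2 R2
  clear R0 R1 R2
  subst h0
  have V0 : x3 * ((x1 * x2))⁻¹ = 1 := by
    calc x3 * ((x1 * x2))⁻¹ = (x1) * (1⁻¹ * x2 * (x1⁻¹ * x3)⁻¹)⁻¹ * (x1)⁻¹ := by simp only [pow_succ, pow_zero, mul_assoc, mul_inv_rev, inv_inv, mul_inv_cancel, inv_mul_cancel, mul_inv_cancel_left, inv_mul_cancel_left, one_mul, mul_one, inv_one]
      _ = 1 := by rw [S0]; simp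
  rw [mul_inv_eq_one] at V0
  subst V0
  have V1 : x4 * ((x1⁻¹))⁻¹ = 1 := by
    calc x4 * ((x1⁻¹))⁻¹ = (x1⁻¹) * (1⁻¹ * (x1 * x2) * (x4⁻¹ * x2)⁻¹) * (x1⁻¹)⁻¹ := by simp only [pow_succ, pow_zero, mul_assoc, mul_inv_rev, inv_inv, mul_inv_cancel, inv_mul_cancel, mul_inv_cancel_left, inv_mul_cancel_left, one_mul, mul_one, inv_one]
      _ = 1 := by rw [S1]; simp
  rw [mul_inv_eq_one] at V1
  subst V1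
  have P : (x1⁻¹ * x2) ^ 1 = 1 := by
    calc (x1⁻¹ * x2) ^ 1 = 1 * (1⁻¹ * (x1⁻¹) * ((x1 * x2)⁻¹ * x1)⁻¹) * 1⁻¹ := by simp only [pow_succ, pow_zero, mul_assoc, mul_inv_rev, inv_inv, mul_inv_cancel, inv_mul_cancel, mul_inv_cancel_left, inv_mul_cancel_left, one_mul, mul_one, inv_one]
      _ = 1 := by rw [S2]; simp
  have Q : (x1⁻¹ * x2) = 1 := htf _ 1 (by norm_num) P
  exact D.n12 (inv_mul_eq_one.1 Q)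

theorem leaf98 {x0 x1 x2 x3 x4 : G} (h0 : x0 = 1) (D : Dist x0 x1 x2 x3 x4)
    (R0 : x0⁻¹ * x1 = x2⁻¹ * x3) (R1 : x0⁻¹ * x2 = x1⁻¹ * x4) (R2 : x1⁻¹ * x2 = x3⁻¹ * x4) : False := by
  have S0 : x0⁻¹ * x1 * (x2⁻¹ * x3)⁻¹ = 1 := mul_inv_eq_one.2 R0
  have S1 : x0⁻¹ * x2 * (x1⁻¹ * x4)⁻¹ = 1 := mul_inv_eq_one.2 R1
  have S2 : x1⁻¹ * x2 * (x3⁻¹ * x4)⁻¹ = 1 := mul_inv_eq_one.2 R2
  clear R0 R1 R2
  subst h0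
  have V0 : x3 * ((x2 * x1))⁻¹ = 1 := by
    calc x3 * ((x2 * x1))⁻¹ = (x2) * (1⁻¹ * x1 * (x2⁻¹ * x3)⁻¹)⁻¹ * (x2)⁻¹ := by simp only [pow_succ, pow_zero, mul_assoc, mul_inv_rev, inv_inv, mul_inv_cancel, inv_mul_cancel, mul_inv_cancel_left, inv_mul_cancel_left, one_mul, mul_one, inv_one]
      _ = 1 := by rw [S0]; simp
  rw [mul_inv_eq_one] at V0
  subst V0
  have V1 : x4 * ((x1 * x2))⁻¹ = 1 := by
    calc x4 * ((x1 * x2))⁻¹ = (x1) * (1⁻¹ * x2 * (x1⁻¹ * x4)⁻¹)⁻¹ * (x1)⁻¹ := by simp only [pow_succ, pow_zero, mul_assoc, mul_inv_rev, inv_inv, mul_inv_cancel, inv_mul_cancel, mul_inv_cancel_left, inv_mul_cancel_left, one_mul, mul_one, inv_one]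
      _ = 1 := by rw [S1]; simp
  rw [mul_inv_eq_one] at V1
  subst V1
  have P : (x1⁻¹ * x2) ^ 1 = 1 := by
    calc (x1⁻¹ * x2) ^ 1 = (x1) * (x1⁻¹ * x2 * ((x2 * x1)⁻¹ * (x1 * x2))⁻¹) * (x1)⁻¹ := by simp only [pow_succ, pow_zero, mul_assoc, mul_inv_rev, inv_inv, mul_inv_cancel, inv_mul_cancel, mul_inv_cancel_left, inv_mul_cancel_left, one_mul, mul_one, inv_one]
      _ = 1 := by rw [S2]; simp
  have Q : (x1⁻¹ * x2) = 1 := htf _ 1 (by norm_num) P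
  exact D.n12 (inv_mul_eq_one.1 Q)

theorem leaf99 {x0 x1 x2 x3 x4 : G} (h0 : x0 = 1) (D : Dist x0 x1 x2 x3 x4)
    (R0 : x0⁻¹ * x2 = x3⁻¹ * x1) (R1 : x0⁻¹ * x4 = x3⁻¹ * x1) : False := by
  have S0 : x0⁻¹ * x2 * (x3⁻¹ * x1)⁻¹ = 1 := mul_inv_eq_one.2 R0
  have S1 : x0⁻¹ * x4 * (x3⁻¹ * x1)⁻¹ = 1 := mul_inv_eq_one.2 R1
  clear R0 R1
  subst h0
  have V0 : x1 * ((x3 * x2))⁻¹ = 1 := by
    calc x1 * ((x3 * x2))⁻¹ = (x3) * (1⁻¹ * x2 * (x3⁻¹ * x1)⁻¹)⁻¹ * (x3)⁻¹ := by simp only [pow_succ, pow_zero, mul_assoc, mul_inv_rev, inv_inv, mul_inv_cancel, inv_mul_cancel, mul_inv_cancel_left, inv_mul_cancel_left, one_mul, mul_one, inv_one]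
      _ = 1 := by rw [S0]; simp
  rw [mul_inv_eq_one] at V0
  subst V0
  have P : (x4 * x2⁻¹) ^ 1 = 1 := by
    calc (x4 * x2⁻¹) ^ 1 = 1 * (1⁻¹ * x4 * (x3⁻¹ * (x3 * x2))⁻¹) * 1⁻¹ := by simp only [pow_succ, pow_zero, mul_assoc, mul_inv_rev, inv_inv, mul_inv_cancel, inv_mul_cancel, mul_inv_cancel_left, inv_mul_cancel_left, one_mul, mul_one, inv_one]
      _ = 1 := by rw [S1]; simp
  have Q : (x4 * x2⁻¹) = 1 := htf _ 1 (by norm_num) P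
  exact D.n24 (mul_inv_eq_one.1 Q).symm

theorem leaf100 {x0 x1 x2 x3 x4 : G} (h0 : x0 = 1) (D : Dist x0 x1 x2 x3 x4)
    (R0 : x0⁻¹ * x2 = x3⁻¹ * x4) (R1 : x1⁻¹ * x2 = x3⁻¹ * x4) : False := by
  have S0 : x0⁻¹ * x2 * (x3⁻¹ * x4)⁻¹ = 1 := mul_inv_eq_one.2 R0
  have S1 : x1⁻¹ * x2 * (x3⁻¹ * x4)⁻¹ = 1 := mul_inv_eq_one.2 R1
  clear R0 R1
  subst h0
  have V0 : x2 * ((x3⁻¹ * x4))⁻¹ = 1 := by
    calc x2 * ((x3⁻¹ * x4))⁻¹ = 1 * (1⁻¹ * x2 * (x3⁻¹ * x4)⁻¹) * 1⁻¹ := by simp only [pow_succ, pow_zero, mul_assoc, mul_inv_rev, inv_inv, mul_inv_cancel, inv_mul_cancel, mul_inv_cancel_left, inv_mul_cancel_left, one_mul, mul_one, inv_one]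
      _ = 1 := by rw [S0]; simp
  rw [mul_inv_eq_one] at V0
  subst V0
  have P : (x1⁻¹) ^ 1 = 1 := by
    calc (x1⁻¹) ^ 1 = 1 * (x1⁻¹ * (x3⁻¹ * x4) * (x3⁻¹ * x4)⁻¹) * 1⁻¹ := by simp only [pow_succ, pow_zero, mul_assoc, mul_inv_rev, inv_inv, mul_inv_cancel, inv_mul_cancel, mul_inv_cancel_left, inv_mul_cancel_left, one_mul, mul_one, inv_one]
      _ = 1 := by rw [S1]; simp
  have Q : (x1⁻¹) = 1 := htf _ 1 (by norm_num) P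
  exact D.n01 (inv_eq_one.1 Q).symm

theorem leaf101 {x0 x1 x2 x3 x4 : G} (h0 : x0 = 1) (D : Dist x0 x1 x2 x3 x4)
    (R0 : x0⁻¹ * x1 = x2⁻¹ * x3) (R1 : x0⁻¹ * x2 = x4⁻¹ * x1) (R2 : x0⁻¹ * x4 = x3⁻¹ * x1) (R3 : x1⁻¹ * x2 = x3⁻¹ * x4) : False := by
  have S0 : x0⁻¹ * x1 * (x2⁻¹ * x3)⁻¹ = 1 := mul_inv_eq_one.2 R0
  have S1 : x0⁻¹ * x2 * (x4⁻¹ * x1)⁻¹ = 1 := mul_inv_eq_one.2 R1
  have S2 : x0⁻¹ * x4 * (x3⁻¹ * x1)⁻¹ = 1 := mul_inv_eq_one.2 R2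
  have S3 : x1⁻¹ * x2 * (x3⁻¹ * x4)⁻¹ = 1 := mul_inv_eq_one.2 R3
  clear R0 R1 R2 R3
  subst h0
  have V0 : x1 * ((x2⁻¹ * x3))⁻¹ = 1 := by
    calc x1 * ((x2⁻¹ * x3))⁻¹ = 1 * (1⁻¹ * x1 * (x2⁻¹ * x3)⁻¹) * 1⁻¹ := by simp only [pow_succ, pow_zero, mul_assoc, mul_inv_rev, inv_inv, mul_inv_cancel, inv_mul_cancel, mul_inv_cancel_left, inv_mul_cancel_left, one_mul, mul_one, inv_one]
      _ = 1 := by rw [S0]; simp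
  rw [mul_inv_eq_one] at V0
  subst V0
  have V1 : x4 * ((x2 * x2))⁻¹ = 1 := by
    calc x4 * ((x2 * x2))⁻¹ = (x3) * ((x2⁻¹ * x3)⁻¹ * x2 * (x3⁻¹ * x4)⁻¹)⁻¹ * (x3)⁻¹ := by simp only [pow_succ, pow_zero, mul_assoc, mul_inv_rev, inv_inv, mul_inv_cancel, inv_mul_cancel, mul_inv_cancel_left, inv_mul_cancel_left, one_mul, mul_one, inv_one]
      _ = 1 := by rw [S3]; simp
  rw [mul_inv_eq_one] at V1
  subst V1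
  have V2 : x3 * ((x2 * x2 * x2 * x2))⁻¹ = 1 := by
    calc x3 * ((x2 * x2 * x2 * x2))⁻¹ = (x2 * x2 * x2) * (1⁻¹ * x2 * ((x2 * x2)⁻¹ * (x2⁻¹ * x3))⁻¹)⁻¹ * (x2 * x2 * x2)⁻¹ := by simp only [pow_succ, pow_zero, mul_assoc, mul_inv_rev, inv_inv, mul_inv_cancel, inv_mul_cancel, mul_inv_cancel_left, inv_mul_cancel_left, one_mul, mul_one, inv_one]
      _ = 1 := by rw [S1]; simp
  rw [mul_inv_eq_one] at V2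
  subst V2
  have P : (x2) ^ 3 = 1 := by
    calc (x2) ^ 3 = 1 * (1⁻¹ * (x2 * x2) * ((x2 * x2 * x2 * x2)⁻¹ * (x2⁻¹ * (x2 * x2 * x2 * x2)))⁻¹) * 1⁻¹ := by simp only [pow_succ, pow_zero, mul_assoc, mul_inv_rev, inv_inv, mul_inv_cancel, inv_mul_cancel, mul_inv_cancel_left, inv_mul_cancel_left, one_mul, mul_one, inv_one]
      _ = 1 := by rw [S2]; simp
  have Q : (x2) = 1 := htf _ 3 (by norm_num) P
  exact D.n02 Q.symm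

theorem leaf102 {x0 x1 x2 x3 x4 : G} (h0 : x1 = 1) (D : Dist x0 x1 x2 x3 x4)
    (R0 : x0⁻¹ * x1 = x2⁻¹ * x3) (R1 : x0⁻¹ * x2 = x4⁻¹ * x3) (R2 : x1⁻¹ * x2 = x3⁻¹ * x4) : False := by
  have S0 : x0⁻¹ * x1 * (x2⁻¹ * x3)⁻¹ = 1 := mul_inv_eq_one.2 R0
  have S1 : x0⁻¹ * x2 * (x4⁻¹ * x3)⁻¹ = 1 := mul_inv_eq_one.2 R1
  have S2 : x1⁻¹ * x2 * (x3⁻¹ * x4)⁻¹ = 1 := mul_inv_eq_one.2 R2
  clear R0 R1 R2
  subst h0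
  have V0 : x0 * ((x3⁻¹ * x2))⁻¹ = 1 := by
    calc x0 * ((x3⁻¹ * x2))⁻¹ = (x3⁻¹ * x2) * (x0⁻¹ * 1 * (x2⁻¹ * x3)⁻¹)⁻¹ * (x3⁻¹ * x2)⁻¹ := by simp only [pow_succ, pow_zero, mul_assoc, mul_inv_rev, inv_inv, mul_inv_cancel, inv_mul_cancel, mul_inv_cancel_left, inv_mul_cancel_left, one_mul, mul_one, inv_one]
      _ = 1 := by rw [S0]; simp
  rw [mul_inv_eq_one] at V0
  subst V0
  have V1 : x2 * ((x3⁻¹ * x4))⁻¹ = 1 := by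
    calc x2 * ((x3⁻¹ * x4))⁻¹ = 1 * (1⁻¹ * x2 * (x3⁻¹ * x4)⁻¹) * 1⁻¹ := by simp only [pow_succ, pow_zero, mul_assoc, mul_inv_rev, inv_inv, mul_inv_cancel, inv_mul_cancel, mul_inv_cancel_left, inv_mul_cancel_left, one_mul, mul_one, inv_one]
      _ = 1 := by rw [S2]; simp
  rw [mul_inv_eq_one] at V1
  subst V1
  have P : (x4) ^ 1 = 1 := by
    calc (x4) ^ 1 = (x3⁻¹ * x4) * ((x3⁻¹ * (x3⁻¹ * x4))⁻¹ * (x3⁻¹ * x4) * (x4⁻¹ * x3)⁻¹) * (x3⁻¹ * x4)⁻¹ := by simp only [pow_succ, pow_zero, mul_assoc, mul_inv_rev, inv_inv, mul_inv_cancel, inv_mul_cancel, mul_inv_cancel_left, inv_mul_cancel_left, one_mul, mul_one, inv_one]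
      _ = 1 := by rw [S1]; simp
  have Q : (x4) = 1 := htf _ 1 (by norm_num) P
  exact D.n14 Q.symm

theorem leaf103 {x0 x1 x2 x3 x4 : G} (h0 : x0 = 1) (D : Dist x0 x1 x2 x3 x4)
    (R0 : x0⁻¹ * x4 = x3⁻¹ * x1) (R1 : x1⁻¹ * x2 = x4⁻¹ * x0) : False := by
  have S0 : x0⁻¹ * x4 * (x3⁻¹ * x1)⁻¹ = 1 := mul_inv_eq_one.2 R0
  have S1 : x1⁻¹ * x2 * (x4⁻¹ * x0)⁻¹ = 1 := mul_inv_eq_one.2 R1
  clear R0 R1
  subst h0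
  have V0 : x1 * ((x3 * x4))⁻¹ = 1 := by
    calc x1 * ((x3 * x4))⁻¹ = (x3) * (1⁻¹ * x4 * (x3⁻¹ * x1)⁻¹)⁻¹ * (x3)⁻¹ := by simp only [pow_succ, pow_zero, mul_assoc, mul_inv_rev, inv_inv, mul_inv_cancel, inv_mul_cancel, mul_inv_cancel_left, inv_mul_cancel_left, one_mul, mul_one, inv_one]
      _ = 1 := by rw [S0]; simp
  rw [mul_inv_eq_one] at V0
  subst V0
  have P : (x3⁻¹ * x2) ^ 1 = 1 := by
    calc (x3⁻¹ * x2) ^ 1 = (x4) * ((x3 * x4)⁻¹ * x2 * (x4⁻¹ * 1)⁻¹) * (x4)⁻¹ := by simp only [pow_succ, pow_zero, mul_assoc, mul_inv_rev, inv_inv, mul_inv_cancel, inv_mul_cancel, mul_inv_cancel_left, inv_mul_cancel_left, one_mul, mul_one, inv_one]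
      _ = 1 := by rw [S1]; simp
  have Q : (x3⁻¹ * x2) = 1 := htf _ 1 (by norm_num) P
  exact D.n23 (inv_mul_eq_one.1 Q).symm

theorem leaf104 {x0 x1 x2 x3 x4 : G} (h0 : x0 = 1) (D : Dist x0 x1 x2 x3 x4)
    (R0 : x0⁻¹ * x1 = x2⁻¹ * x3) (R1 : x0⁻¹ * x4 = x3⁻¹ * x1) (R2 : x1⁻¹ * x2 = x4⁻¹ * x3) (R3 : x2⁻¹ * x4 = x0⁻¹ * x3) : False := by
  have S0 : x0⁻¹ * x1 * (x2⁻¹ * x3)⁻¹ = 1 := mul_inv_eq_one.2 R0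
  have S1 : x0⁻¹ * x4 * (x3⁻¹ * x1)⁻¹ = 1 := mul_inv_eq_one.2 R1
  have S2 : x1⁻¹ * x2 * (x4⁻¹ * x3)⁻¹ = 1 := mul_inv_eq_one.2 R2
  have S3 : x2⁻¹ * x4 * (x0⁻¹ * x3)⁻¹ = 1 := mul_inv_eq_one.2 R3
  clear R0 R1 R2 R3
  subst h0
  have V0 : x1 * ((x2⁻¹ * x3))⁻¹ = 1 := by
    calc x1 * ((x2⁻¹ * x3))⁻¹ = 1 * (1⁻¹ * x1 * (x2⁻¹ * x3)⁻¹) * 1⁻¹ := by simp only [pow_succ, pow_zero, mul_assoc, mul_inv_rev, inv_inv, mul_inv_cancel, inv_mul_cancel, mul_inv_cancel_left, inv_mul_cancel_left, one_mul, mul_one, inv_one]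
      _ = 1 := by rw [S0]; simp
  rw [mul_inv_eq_one] at V0
  subst V0
  have V1 : x2 * ((x4 * x3⁻¹))⁻¹ = 1 := by
    calc x2 * ((x4 * x3⁻¹))⁻¹ = (x4 * x3⁻¹) * (x2⁻¹ * x4 * (1⁻¹ * x3)⁻¹)⁻¹ * (x4 * x3⁻¹)⁻¹ := by simp only [pow_succ, pow_zero, mul_assoc, mul_inv_rev, inv_inv, mul_inv_cancel, inv_mul_cancel, mul_inv_cancel_left, inv_mul_cancel_left, one_mul, mul_one, inv_one]
      _ = 1 := by rw [S3]; simp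
  rw [mul_inv_eq_one] at V1
  subst V1
  have V2 : x3 * ((x4 * x4))⁻¹ = 1 := by
    calc x3 * ((x4 * x4))⁻¹ = (x4) * (1⁻¹ * x4 * (x3⁻¹ * ((x4 * x3⁻¹)⁻¹ * x3))⁻¹)⁻¹ * (x4)⁻¹ := by simp only [pow_succ, pow_zero, mul_assoc, mul_inv_rev, inv_inv, mul_inv_cancel, inv_mul_cancel, mul_inv_cancel_left, inv_mul_cancel_left, one_mul, mul_one, inv_one]
      _ = 1 := by rw [S1]; simp
  rw [mul_inv_eq_one] at V2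
  subst V2
  have P : (x4⁻¹) ^ 5 = 1 := by
    calc (x4⁻¹) ^ 5 = 1 * (((x4 * (x4 * x4)⁻¹)⁻¹ * (x4 * x4))⁻¹ * (x4 * (x4 * x4)⁻¹) * (x4⁻¹ * (x4 * x4))⁻¹) * 1⁻¹ := by simp only [pow_succ, pow_zero, mul_assoc, mul_inv_rev, inv_inv, mul_inv_cancel, inv_mul_cancel, mul_inv_cancel_left, inv_mul_cancel_left, one_mul, mul_one, inv_one]
      _ = 1 := by rw [S2]; simp
  have Q : (x4⁻¹) = 1 := htf _ 5 (by norm_num) P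
  exact D.n04 (inv_eq_one.1 Q).symm

theorem leaf105 {x0 x1 x2 x3 x4 : G} (h0 : x0 = 1) (D : Dist x0 x1 x2 x3 x4)
    (R0 : x0⁻¹ * x1 = x2⁻¹ * x3) (R1 : x0⁻¹ * x4 = x3⁻¹ * x1) (R2 : x1⁻¹ * x2 = x4⁻¹ * x3) (R3 : x2⁻¹ * x4 = x1⁻¹ * x0) : False := by
  have S0 : x0⁻¹ * x1 * (x2⁻¹ * x3)⁻¹ = 1 := mul_inv_eq_one.2 R0
  have S1 : x0⁻¹ * x4 * (x3⁻¹ * x1)⁻¹ = 1 := mul_inv_eq_one.2 R1
  have S2 : x1⁻¹ * x2 * (x4⁻¹ * x3)⁻¹ = 1 := mul_inv_eq_one.2 R2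
  have S3 : x2⁻¹ * x4 * (x1⁻¹ * x0)⁻¹ = 1 := mul_inv_eq_one.2 R3
  clear R0 R1 R2 R3
  subst h0
  have V0 : x1 * ((x2⁻¹ * x3))⁻¹ = 1 := by
    calc x1 * ((x2⁻¹ * x3))⁻¹ = 1 * (1⁻¹ * x1 * (x2⁻¹ * x3)⁻¹) * 1⁻¹ := by simp only [pow_succ, pow_zero, mul_assoc, mul_inv_rev, inv_inv, mul_inv_cancel, inv_mul_cancel, mul_inv_cancel_left, inv_mul_cancel_left, one_mul, mul_one, inv_one]
      _ = 1 := by rw [S0]; simp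
  rw [mul_inv_eq_one] at V0
  subst V0
  have V1 : x2 * ((x3 * x4⁻¹ * x3⁻¹))⁻¹ = 1 := by
    calc x2 * ((x3 * x4⁻¹ * x3⁻¹))⁻¹ = (x3 * x4⁻¹) * (1⁻¹ * x4 * (x3⁻¹ * (x2⁻¹ * x3))⁻¹) * (x3 * x4⁻¹)⁻¹ := by simp only [pow_succ, pow_zero, mul_assoc, mul_inv_rev, inv_inv, mul_inv_cancel, inv_mul_cancel, mul_inv_cancel_left, inv_mul_cancel_left, one_mul, mul_one, inv_one]
      _ = 1 := by rw [S1]; simp
  rw [mul_inv_eq_one] at V1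
  subst V1
  have V2 : x4 * ((x3⁻¹ * x3⁻¹))⁻¹ = 1 := by
    calc x4 * ((x3⁻¹ * x3⁻¹))⁻¹ = (x3⁻¹ * x3⁻¹ * x4) * (((x3 * x4⁻¹ * x3⁻¹)⁻¹ * x3)⁻¹ * (x3 * x4⁻¹ * x3⁻¹) * (x4⁻¹ * x3)⁻¹)⁻¹ * (x3⁻¹ * x3⁻¹ * x4)⁻¹ := by simp only [pow_succ, pow_zero, mul_assoc, mul_inv_rev, inv_inv, mul_inv_cancel, inv_mul_cancel, mul_inv_cancel_left, inv_mul_cancel_left, one_mul, mul_one, inv_one]
      _ = 1 := by rw [S2]; simp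
  rw [mul_inv_eq_one] at V2
  subst V2
  have P : (x3⁻¹) ^ 5 = 1 := by
    calc (x3⁻¹) ^ 5 = 1 * ((x3 * (x3⁻¹ * x3⁻¹)⁻¹ * x3⁻¹)⁻¹ * (x3⁻¹ * x3⁻¹) * (((x3 * (x3⁻¹ * x3⁻¹)⁻¹ * x3⁻¹)⁻¹ * x3)⁻¹ * 1)⁻¹) * 1⁻¹ := by simp only [pow_succ, pow_zero, mul_assoc, mul_inv_rev, inv_inv, mul_inv_cancel, inv_mul_cancel, mul_inv_cancel_left, inv_mul_cancel_left, one_mul, mul_one, inv_one]
      _ = 1 := by rw [S3]; simp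
  have Q : (x3⁻¹) = 1 := htf _ 5 (by norm_num) P
  exact D.n03 (inv_eq_one.1 Q).symm

theorem leaf106 {x0 x1 x2 x3 x4 : G} (h0 : x0 = 1) (D : Dist x0 x1 x2 x3 x4)
    (R0 : x0⁻¹ * x1 = x2⁻¹ * x3) (R1 : x0⁻¹ * x4 = x3⁻¹ * x1) (R2 : x1⁻¹ * x2 = x4⁻¹ * x3) (R3 : x2⁻¹ * x4 = x1⁻¹ * x3) : False := by
  have S0 : x0⁻¹ * x1 * (x2⁻¹ * x3)⁻¹ = 1 := mul_inv_eq_one.2 R0
  have S1 : x0⁻¹ * x4 * (x3⁻¹ * x1)⁻¹ = 1 := mul_inv_eq_one.2 R1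
  have S2 : x1⁻¹ * x2 * (x4⁻¹ * x3)⁻¹ = 1 := mul_inv_eq_one.2 R2
  have S3 : x2⁻¹ * x4 * (x1⁻¹ * x3)⁻¹ = 1 := mul_inv_eq_one.2 R3
  clear R0 R1 R2 R3
  subst h0
  have V0 : x1 * ((x2⁻¹ * x3))⁻¹ = 1 := by
    calc x1 * ((x2⁻¹ * x3))⁻¹ = 1 * (1⁻¹ * x1 * (x2⁻¹ * x3)⁻¹) * 1⁻¹ := by simp only [pow_succ, pow_zero, mul_assoc, mul_inv_rev, inv_inv, mul_inv_cancel, inv_mul_cancel, mul_inv_cancel_left, inv_mul_cancel_left, one_mul, mul_one, inv_one]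
      _ = 1 := by rw [S0]; simp
  rw [mul_inv_eq_one] at V0
  subst V0
  have V1 : x2 * ((x3 * x4⁻¹ * x3⁻¹))⁻¹ = 1 := by
    calc x2 * ((x3 * x4⁻¹ * x3⁻¹))⁻¹ = (x3 * x4⁻¹) * (1⁻¹ * x4 * (x3⁻¹ * (x2⁻¹ * x3))⁻¹) * (x3 * x4⁻¹)⁻¹ := by simp only [pow_succ, pow_zero, mul_assoc, mul_inv_rev, inv_inv, mul_inv_cancel, inv_mul_cancel, mul_inv_cancel_left, inv_mul_cancel_left, one_mul, mul_one, inv_one]
      _ = 1 := by rw [S1]; simp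
  rw [mul_inv_eq_one] at V1
  subst V1
  have V2 : x4 * ((x3⁻¹ * x3⁻¹))⁻¹ = 1 := by
    calc x4 * ((x3⁻¹ * x3⁻¹))⁻¹ = (x3⁻¹ * x3⁻¹ * x4) * (((x3 * x4⁻¹ * x3⁻¹)⁻¹ * x3)⁻¹ * (x3 * x4⁻¹ * x3⁻¹) * (x4⁻¹ * x3)⁻¹)⁻¹ * (x3⁻¹ * x3⁻¹ * x4)⁻¹ := by simp only [pow_succ, pow_zero, mul_assoc, mul_inv_rev, inv_inv, mul_inv_cancel, inv_mul_cancel, mul_inv_cancel_left, inv_mul_cancel_left, one_mul, mul_one, inv_one]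
      _ = 1 := by rw [S2]; simp
  rw [mul_inv_eq_one] at V2
  subst V2
  have P : (x3⁻¹) ^ 6 = 1 := by
    calc (x3⁻¹) ^ 6 = 1 * ((x3 * (x3⁻¹ * x3⁻¹)⁻¹ * x3⁻¹)⁻¹ * (x3⁻¹ * x3⁻¹) * (((x3 * (x3⁻¹ * x3⁻¹)⁻¹ * x3⁻¹)⁻¹ * x3)⁻¹ * x3)⁻¹) * 1⁻¹ := by simp only [pow_succ, pow_zero, mul_assoc, mul_inv_rev, inv_inv, mul_inv_cancel, inv_mul_cancel, mul_inv_cancel_left, inv_mul_cancel_left, one_mul, mul_one, inv_one]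
      _ = 1 := by rw [S3]; simp
  have Q : (x3⁻¹) = 1 := htf _ 6 (by norm_num) P
  exact D.n03 (inv_eq_one.1 Q).symm

theorem leaf107 {x0 x1 x2 x3 x4 : G} (h0 : x0 = 1) (D : Dist x0 x1 x2 x3 x4)
    (R0 : x0⁻¹ * x4 = x3⁻¹ * x1) (R1 : x1⁻¹ * x2 = x4⁻¹ * x3) (R2 : x2⁻¹ * x4 = x3⁻¹ * x0) : False := by
  have S0 : x0⁻¹ * x4 * (x3⁻¹ * x1)⁻¹ = 1 := mul_inv_eq_one.2 R0
  have S1 : x1⁻¹ * x2 * (x4⁻¹ * x3)⁻¹ = 1 := mul_inv_eq_one.2 R1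
  have S2 : x2⁻¹ * x4 * (x3⁻¹ * x0)⁻¹ = 1 := mul_inv_eq_one.2 R2
  clear R0 R1 R2
  subst h0
  have V0 : x1 * ((x3 * x4))⁻¹ = 1 := by
    calc x1 * ((x3 * x4))⁻¹ = (x3) * (1⁻¹ * x4 * (x3⁻¹ * x1)⁻¹)⁻¹ * (x3)⁻¹ := by simp only [pow_succ, pow_zero, mul_assoc, mul_inv_rev, inv_inv, mul_inv_cancel, inv_mul_cancel, mul_inv_cancel_left, inv_mul_cancel_left, one_mul, mul_one, inv_one]
      _ = 1 := by rw [S0]; simp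
  rw [mul_inv_eq_one] at V0
  subst V0
  have V1 : x2 * ((x3 * x3))⁻¹ = 1 := by
    calc x2 * ((x3 * x3))⁻¹ = (x3 * x4) * ((x3 * x4)⁻¹ * x2 * (x4⁻¹ * x3)⁻¹) * (x3 * x4)⁻¹ := by simp only [pow_succ, pow_zero, mul_assoc, mul_inv_rev, inv_inv, mul_inv_cancel, inv_mul_cancel, mul_inv_cancel_left, inv_mul_cancel_left, one_mul, mul_one, inv_one]
      _ = 1 := by rw [S1]; simp
  rw [mul_inv_eq_one] at V1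
  subst V1
  have P : (x3⁻¹ * x4) ^ 1 = 1 := by
    calc (x3⁻¹ * x4) ^ 1 = (x3) * ((x3 * x3)⁻¹ * x4 * (x3⁻¹ * 1)⁻¹) * (x3)⁻¹ := by simp only [pow_succ, pow_zero, mul_assoc, mul_inv_rev, inv_inv, mul_inv_cancel, inv_mul_cancel, mul_inv_cancel_left, inv_mul_cancel_left, one_mul, mul_one, inv_one]
      _ = 1 := by rw [S2]; simp
  have Q : (x3⁻¹ * x4) = 1 := htf _ 1 (by norm_num) P
  exact D.n34 (inv_mul_eq_one.1 Q)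

theorem leaf108 {x0 x1 x2 x3 x4 : G} (h0 : x0 = 1) (D : Dist x0 x1 x2 x3 x4)
    (R0 : x0⁻¹ * x4 = x3⁻¹ * x1) (R1 : x2⁻¹ * x4 = x3⁻¹ * x1) : False := by
  have S0 : x0⁻¹ * x4 * (x3⁻¹ * x1)⁻¹ = 1 := mul_inv_eq_one.2 R0
  have S1 : x2⁻¹ * x4 * (x3⁻¹ * x1)⁻¹ = 1 := mul_inv_eq_one.2 R1
  clear R0 R1
  subst h0
  have V0 : x1 * ((x3 * x4))⁻¹ = 1 := by
    calc x1 * ((x3 * x4))⁻¹ = (x3) * (1⁻¹ * x4 * (x3⁻¹ * x1)⁻¹)⁻¹ * (x3)⁻¹ := by simp only [pow_succ, pow_zero, mul_assoc, mul_inv_rev, inv_inv, mul_inv_cancel, inv_mul_cancel, mul_inv_cancel_left, inv_mul_cancel_left, one_mul, mul_one, inv_one]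
      _ = 1 := by rw [S0]; simp
  rw [mul_inv_eq_one] at V0
  subst V0
  have P : (x2⁻¹) ^ 1 = 1 := by
    calc (x2⁻¹) ^ 1 = 1 * (x2⁻¹ * x4 * (x3⁻¹ * (x3 * x4))⁻¹) * 1⁻¹ := by simp only [pow_succ, pow_zero, mul_assoc, mul_inv_rev, inv_inv, mul_inv_cancel, inv_mul_cancel, mul_inv_cancel_left, inv_mul_cancel_left, one_mul, mul_one, inv_one]
      _ = 1 := by rw [S1]; simp
  have Q : (x2⁻¹) = 1 := htf _ 1 (by norm_num) P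
  exact D.n02 (inv_eq_one.1 Q).symm

theorem leaf109 {x0 x1 x2 x3 x4 : G} (h0 : x0 = 1) (D : Dist x0 x1 x2 x3 x4)
    (R0 : x0⁻¹ * x1 = x2⁻¹ * x3) (R1 : x0⁻¹ * x4 = x3⁻¹ * x2) (R2 : x1⁻¹ * x4 = x0⁻¹ * x2) : False := by
  have S0 : x0⁻¹ * x1 * (x2⁻¹ * x3)⁻¹ = 1 := mul_inv_eq_one.2 R0
  have S1 : x0⁻¹ * x4 * (x3⁻¹ * x2)⁻¹ = 1 := mul_inv_eq_one.2 R1
  have S2 : x1⁻¹ * x4 * (x0⁻¹ * x2)⁻¹ = 1 := mul_inv_eq_one.2 R2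
  clear R0 R1 R2
  subst h0
  have V0 : x1 * ((x2⁻¹ * x3))⁻¹ = 1 := by
    calc x1 * ((x2⁻¹ * x3))⁻¹ = 1 * (1⁻¹ * x1 * (x2⁻¹ * x3)⁻¹) * 1⁻¹ := by simp only [pow_succ, pow_zero, mul_assoc, mul_inv_rev, inv_inv, mul_inv_cancel, inv_mul_cancel, mul_inv_cancel_left, inv_mul_cancel_left, one_mul, mul_one, inv_one]
      _ = 1 := by rw [S0]; simp
  rw [mul_inv_eq_one] at V0
  subst V0
  have V1 : x2 * ((x3 * x4))⁻¹ = 1 := by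
    calc x2 * ((x3 * x4))⁻¹ = (x3) * (1⁻¹ * x4 * (x3⁻¹ * x2)⁻¹)⁻¹ * (x3)⁻¹ := by simp only [pow_succ, pow_zero, mul_assoc, mul_inv_rev, inv_inv, mul_inv_cancel, inv_mul_cancel, mul_inv_cancel_left, inv_mul_cancel_left, one_mul, mul_one, inv_one]
      _ = 1 := by rw [S1]; simp
  rw [mul_inv_eq_one] at V1
  subst V1
  have P : (x4 * x3⁻¹) ^ 1 = 1 := by
    calc (x4 * x3⁻¹) ^ 1 = 1 * (((x3 * x4)⁻¹ * x3)⁻¹ * x4 * (1⁻¹ * (x3 * x4))⁻¹) * 1⁻¹ := by simp only [pow_succ, pow_zero, mul_assoc, mul_inv_rev, inv_inv, mul_inv_cancel, inv_mul_cancel, mul_inv_cancel_left, inv_mul_cancel_left, one_mul, mul_one, inv_one]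
      _ = 1 := by rw [S2]; simp
  have Q : (x4 * x3⁻¹) = 1 := htf _ 1 (by norm_num) P
  exact D.n34 (mul_inv_eq_one.1 Q).symm

theorem leaf110 {x0 x1 x2 x3 x4 : G} (h0 : x0 = 1) (D : Dist x0 x1 x2 x3 x4)
    (R0 : x0⁻¹ * x4 = x3⁻¹ * x2) (R1 : x1⁻¹ * x2 = x0⁻¹ * x4) : False := by
  have S0 : x0⁻¹ * x4 * (x3⁻¹ * x2)⁻¹ = 1 := mul_inv_eq_one.2 R0
  have S1 : x1⁻¹ * x2 * (x0⁻¹ * x4)⁻¹ = 1 := mul_inv_eq_one.2 R1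
  clear R0 R1
  subst h0
  have V0 : x2 * ((x3 * x4))⁻¹ = 1 := by
    calc x2 * ((x3 * x4))⁻¹ = (x3) * (1⁻¹ * x4 * (x3⁻¹ * x2)⁻¹)⁻¹ * (x3)⁻¹ := by simp only [pow_succ, pow_zero, mul_assoc, mul_inv_rev, inv_inv, mul_inv_cancel, inv_mul_cancel, mul_inv_cancel_left, inv_mul_cancel_left, one_mul, mul_one, inv_one]
      _ = 1 := by rw [S0]; simp
  rw [mul_inv_eq_one] at V0
  subst V0
  have P : (x1⁻¹ * x3) ^ 1 = 1 := by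
    calc (x1⁻¹ * x3) ^ 1 = 1 * (x1⁻¹ * (x3 * x4) * (1⁻¹ * x4)⁻¹) * 1⁻¹ := by simp only [pow_succ, pow_zero, mul_assoc, mul_inv_rev, inv_inv, mul_inv_cancel, inv_mul_cancel, mul_inv_cancel_left, inv_mul_cancel_left, one_mul, mul_one, inv_one]
      _ = 1 := by rw [S1]; simp
  have Q : (x1⁻¹ * x3) = 1 := htf _ 1 (by norm_num) P
  exact D.n13 (inv_mul_eq_one.1 Q)

theorem leaf111 {x0 x1 x2 x3 x4 : G} (h0 : x0 = 1) (D : Dist x0 x1 x2 x3 x4)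
    (R0 : x0⁻¹ * x1 = x2⁻¹ * x3) (R1 : x0⁻¹ * x4 = x3⁻¹ * x2) (R2 : x1⁻¹ * x2 = x3⁻¹ * x4) (R3 : x1⁻¹ * x4 = x0⁻¹ * x3) : False := by
  have S0 : x0⁻¹ * x1 * (x2⁻¹ * x3)⁻¹ = 1 := mul_inv_eq_one.2 R0
  have S1 : x0⁻¹ * x4 * (x3⁻¹ * x2)⁻¹ = 1 := mul_inv_eq_one.2 R1
  have S2 : x1⁻¹ * x2 * (x3⁻¹ * x4)⁻¹ = 1 := mul_inv_eq_one.2 R2
  have S3 : x1⁻¹ * x4 * (x0⁻¹ * x3)⁻¹ = 1 := mul_inv_eq_one.2 R3
  clear R0 R1 R2 R3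
  subst h0
  have V0 : x1 * ((x2⁻¹ * x3))⁻¹ = 1 := by
    calc x1 * ((x2⁻¹ * x3))⁻¹ = 1 * (1⁻¹ * x1 * (x2⁻¹ * x3)⁻¹) * 1⁻¹ := by simp only [pow_succ, pow_zero, mul_assoc, mul_inv_rev, inv_inv, mul_inv_cancel, inv_mul_cancel, mul_inv_cancel_left, inv_mul_cancel_left, one_mul, mul_one, inv_one]
      _ = 1 := by rw [S0]; simp
  rw [mul_inv_eq_one] at V0
  subst V0
  have V1 : x2 * ((x3 * x4))⁻¹ = 1 := by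
    calc x2 * ((x3 * x4))⁻¹ = (x3) * (1⁻¹ * x4 * (x3⁻¹ * x2)⁻¹)⁻¹ * (x3)⁻¹ := by simp only [pow_succ, pow_zero, mul_assoc, mul_inv_rev, inv_inv, mul_inv_cancel, inv_mul_cancel, mul_inv_cancel_left, inv_mul_cancel_left, one_mul, mul_one, inv_one]
      _ = 1 := by rw [S1]; simp
  rw [mul_inv_eq_one] at V1
  subst V1
  have V2 : x4 * ((x3⁻¹ * x3⁻¹))⁻¹ = 1 := by
    calc x4 * ((x3⁻¹ * x3⁻¹))⁻¹ = 1 * (((x3 * x4)⁻¹ * x3)⁻¹ * (x3 * x4) * (x3⁻¹ * x4)⁻¹) * 1⁻¹ := by simp only [pow_succ, pow_zero, mul_assoc, mul_inv_rev, inv_inv, mul_inv_cancel, inv_mul_cancel, mul_inv_cancel_left, inv_mul_cancel_left, one_mul, mul_one, inv_one]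
      _ = 1 := by rw [S2]; simp
  rw [mul_inv_eq_one] at V2
  subst V2
  have P : (x3⁻¹) ^ 5 = 1 := by
    calc (x3⁻¹) ^ 5 = 1 * (((x3 * (x3⁻¹ * x3⁻¹))⁻¹ * x3)⁻¹ * (x3⁻¹ * x3⁻¹) * (1⁻¹ * x3)⁻¹) * 1⁻¹ := by simp only [pow_succ, pow_zero, mul_assoc, mul_inv_rev, inv_inv, mul_inv_cancel, inv_mul_cancel, mul_inv_cancel_left, inv_mul_cancel_left, one_mul, mul_one, inv_one]
      _ = 1 := by rw [S3]; simp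
  have Q : (x3⁻¹) = 1 := htf _ 5 (by norm_num) P
  exact D.n03 (inv_eq_one.1 Q).symm

theorem leaf112 {x0 x1 x2 x3 x4 : G} (h0 : x0 = 1) (D : Dist x0 x1 x2 x3 x4)
    (R0 : x0⁻¹ * x1 = x2⁻¹ * x3) (R1 : x0⁻¹ * x4 = x3⁻¹ * x2) (R2 : x1⁻¹ * x2 = x4⁻¹ * x0) (R3 : x1⁻¹ * x4 = x0⁻¹ * x3) : False := by
  have S0 : x0⁻¹ * x1 * (x2⁻¹ * x3)⁻¹ = 1 := mul_inv_eq_one.2 R0
  have S1 : x0⁻¹ * x4 * (x3⁻¹ * x2)⁻¹ = 1 := mul_inv_eq_one.2 R1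
  have S2 : x1⁻¹ * x2 * (x4⁻¹ * x0)⁻¹ = 1 := mul_inv_eq_one.2 R2
  have S3 : x1⁻¹ * x4 * (x0⁻¹ * x3)⁻¹ = 1 := mul_inv_eq_one.2 R3
  clear R0 R1 R2 R3
  subst h0
  have V0 : x1 * ((x2⁻¹ * x3))⁻¹ = 1 := by
    calc x1 * ((x2⁻¹ * x3))⁻¹ = 1 * (1⁻¹ * x1 * (x2⁻¹ * x3)⁻¹) * 1⁻¹ := by simp only [pow_succ, pow_zero, mul_assoc, mul_inv_rev, inv_inv, mul_inv_cancel, inv_mul_cancel, mul_inv_cancel_left, inv_mul_cancel_left, one_mul, mul_one, inv_one]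
      _ = 1 := by rw [S0]; simp
  rw [mul_inv_eq_one] at V0
  subst V0
  have V1 : x2 * ((x3 * x4))⁻¹ = 1 := by
    calc x2 * ((x3 * x4))⁻¹ = (x3) * (1⁻¹ * x4 * (x3⁻¹ * x2)⁻¹)⁻¹ * (x3)⁻¹ := by simp only [pow_succ, pow_zero, mul_assoc, mul_inv_rev, inv_inv, mul_inv_cancel, inv_mul_cancel, mul_inv_cancel_left, inv_mul_cancel_left, one_mul, mul_one, inv_one]
      _ = 1 := by rw [S1]; simp
  rw [mul_inv_eq_one] at V1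
  subst V1
  have V2 : x3 * ((x4 * x4))⁻¹ = 1 := by
    calc x3 * ((x4 * x4))⁻¹ = 1 * (((x3 * x4)⁻¹ * x3)⁻¹ * x4 * (1⁻¹ * x3)⁻¹)⁻¹ * 1⁻¹ := by simp only [pow_succ, pow_zero, mul_assoc, mul_inv_rev, inv_inv, mul_inv_cancel, inv_mul_cancel, mul_inv_cancel_left, inv_mul_cancel_left, one_mul, mul_one, inv_one]
      _ = 1 := by rw [S3]; simp
  rw [mul_inv_eq_one] at V2
  subst V2
  have P : (x4) ^ 5 = 1 := by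
    calc (x4) ^ 5 = 1 * ((((x4 * x4) * x4)⁻¹ * (x4 * x4))⁻¹ * ((x4 * x4) * x4) * (x4⁻¹ * 1)⁻¹) * 1⁻¹ := by simp only [pow_succ, pow_zero, mul_assoc, mul_inv_rev, inv_inv, mul_inv_cancel, inv_mul_cancel, mul_inv_cancel_left, inv_mul_cancel_left, one_mul, mul_one, inv_one]
      _ = 1 := by rw [S2]; simp
  have Q : (x4) = 1 := htf _ 5 (by norm_num) P
  exact D.n04 Q.symm

theorem leaf113 {x0 x1 x2 x3 x4 : G} (h0 : x0 = 1) (D : Dist x0 x1 x2 x3 x4)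
    (R0 : x0⁻¹ * x1 = x2⁻¹ * x3) (R1 : x0⁻¹ * x4 = x3⁻¹ * x2) (R2 : x1⁻¹ * x2 = x4⁻¹ * x3) (R3 : x1⁻¹ * x4 = x0⁻¹ * x3) : False := by
  have S0 : x0⁻¹ * x1 * (x2⁻¹ * x3)⁻¹ = 1 := mul_inv_eq_one.2 R0
  have S1 : x0⁻¹ * x4 * (x3⁻¹ * x2)⁻¹ = 1 := mul_inv_eq_one.2 R1
  have S2 : x1⁻¹ * x2 * (x4⁻¹ * x3)⁻¹ = 1 := mul_inv_eq_one.2 R2
  have S3 : x1⁻¹ * x4 * (x0⁻¹ * x3)⁻¹ = 1 := mul_inv_eq_one.2 R3
  clear R0 R1 R2 R3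
  subst h0
  have V0 : x1 * ((x2⁻¹ * x3))⁻¹ = 1 := by
    calc x1 * ((x2⁻¹ * x3))⁻¹ = 1 * (1⁻¹ * x1 * (x2⁻¹ * x3)⁻¹) * 1⁻¹ := by simp only [pow_succ, pow_zero, mul_assoc, mul_inv_rev, inv_inv, mul_inv_cancel, inv_mul_cancel, mul_inv_cancel_left, inv_mul_cancel_left, one_mul, mul_one, inv_one]
      _ = 1 := by rw [S0]; simp
  rw [mul_inv_eq_one] at V0
  subst V0
  have V1 : x2 * ((x3 * x4))⁻¹ = 1 := by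
    calc x2 * ((x3 * x4))⁻¹ = (x3) * (1⁻¹ * x4 * (x3⁻¹ * x2)⁻¹)⁻¹ * (x3)⁻¹ := by simp only [pow_succ, pow_zero, mul_assoc, mul_inv_rev, inv_inv, mul_inv_cancel, inv_mul_cancel, mul_inv_cancel_left, inv_mul_cancel_left, one_mul, mul_one, inv_one]
      _ = 1 := by rw [S1]; simp
  rw [mul_inv_eq_one] at V1
  subst V1
  have V2 : x3 * ((x4 * x4))⁻¹ = 1 := by
    calc x3 * ((x4 * x4))⁻¹ = 1 * (((x3 * x4)⁻¹ * x3)⁻¹ * x4 * (1⁻¹ * x3)⁻¹)⁻¹ * 1⁻¹ := by simp only [pow_succ, pow_zero, mul_assoc, mul_inv_rev, inv_inv, mul_inv_cancel, inv_mul_cancel, mul_inv_cancel_left, inv_mul_cancel_left, one_mul, mul_one, inv_one]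
      _ = 1 := by rw [S3]; simp
  rw [mul_inv_eq_one] at V2
  subst V2
  have P : (x4) ^ 3 = 1 := by
    calc (x4) ^ 3 = 1 * ((((x4 * x4) * x4)⁻¹ * (x4 * x4))⁻¹ * ((x4 * x4) * x4) * (x4⁻¹ * (x4 * x4))⁻¹) * 1⁻¹ := by simp only [pow_succ, pow_zero, mul_assoc, mul_inv_rev, inv_inv, mul_inv_cancel, inv_mul_cancel, mul_inv_cancel_left, inv_mul_cancel_left, one_mul, mul_one, inv_one]
      _ = 1 := by rw [S2]; simp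
  have Q : (x4) = 1 := htf _ 3 (by norm_num) P
  exact D.n04 Q.symm

theorem leaf114 {x0 x1 x2 x3 x4 : G} (h0 : x0 = 1) (D : Dist x0 x1 x2 x3 x4)
    (R0 : x0⁻¹ * x1 = x2⁻¹ * x3) (R1 : x0⁻¹ * x4 = x3⁻¹ * x2) (R2 : x1⁻¹ * x4 = x2⁻¹ * x0) (R3 : x3⁻¹ * x4 = x0⁻¹ * x1) : False := by
  have S0 : x0⁻¹ * x1 * (x2⁻¹ * x3)⁻¹ = 1 := mul_inv_eq_one.2 R0
  have S1 : x0⁻¹ * x4 * (x3⁻¹ * x2)⁻¹ = 1 := mul_inv_eq_one.2 R1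
  have S2 : x1⁻¹ * x4 * (x2⁻¹ * x0)⁻¹ = 1 := mul_inv_eq_one.2 R2
  have S3 : x3⁻¹ * x4 * (x0⁻¹ * x1)⁻¹ = 1 := mul_inv_eq_one.2 R3
  clear R0 R1 R2 R3
  subst h0
  have V0 : x1 * ((x2⁻¹ * x3))⁻¹ = 1 := by
    calc x1 * ((x2⁻¹ * x3))⁻¹ = 1 * (1⁻¹ * x1 * (x2⁻¹ * x3)⁻¹) * 1⁻¹ := by simp only [pow_succ, pow_zero, mul_assoc, mul_inv_rev, inv_inv, mul_inv_cancel, inv_mul_cancel, mul_inv_cancel_left, inv_mul_cancel_left, one_mul, mul_one, inv_one]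
      _ = 1 := by rw [S0]; simp
  rw [mul_inv_eq_one] at V0
  subst V0
  have V1 : x2 * ((x3 * x4))⁻¹ = 1 := by
    calc x2 * ((x3 * x4))⁻¹ = (x3) * (1⁻¹ * x4 * (x3⁻¹ * x2)⁻¹)⁻¹ * (x3)⁻¹ := by simp only [pow_succ, pow_zero, mul_assoc, mul_inv_rev, inv_inv, mul_inv_cancel, inv_mul_cancel, mul_inv_cancel_left, inv_mul_cancel_left, one_mul, mul_one, inv_one]
      _ = 1 := by rw [S1]; simp
  rw [mul_inv_eq_one] at V1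
  subst V1
  have V2 : x3 * ((x4 * x4))⁻¹ = 1 := by
    calc x3 * ((x4 * x4))⁻¹ = (x4 * x4) * (x3⁻¹ * x4 * (1⁻¹ * ((x3 * x4)⁻¹ * x3))⁻¹)⁻¹ * (x4 * x4)⁻¹ := by simp only [pow_succ, pow_zero, mul_assoc, mul_inv_rev, inv_inv, mul_inv_cancel, inv_mul_cancel, mul_inv_cancel_left, inv_mul_cancel_left, one_mul, mul_one, inv_one]
      _ = 1 := by rw [S3]; simp
  rw [mul_inv_eq_one] at V2
  subst V2
  have P : (x4) ^ 5 = 1 := by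
    calc (x4) ^ 5 = 1 * ((((x4 * x4) * x4)⁻¹ * (x4 * x4))⁻¹ * x4 * (((x4 * x4) * x4)⁻¹ * 1)⁻¹) * 1⁻¹ := by simp only [pow_succ, pow_zero, mul_assoc, mul_inv_rev, inv_inv, mul_inv_cancel, inv_mul_cancel, mul_inv_cancel_left, inv_mul_cancel_left, one_mul, mul_one, inv_one]
      _ = 1 := by rw [S2]; simp
  have Q : (x4) = 1 := htf _ 5 (by norm_num) P
  exact D.n04 Q.symm

theorem leaf115 {x0 x1 x2 x3 x4 : G} (h0 : x0 = 1) (D : Dist x0 x1 x2 x3 x4)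
    (R0 : x0⁻¹ * x4 = x3⁻¹ * x2) (R1 : x3⁻¹ * x4 = x0⁻¹ * x2) : False := by
  have S0 : x0⁻¹ * x4 * (x3⁻¹ * x2)⁻¹ = 1 := mul_inv_eq_one.2 R0
  have S1 : x3⁻¹ * x4 * (x0⁻¹ * x2)⁻¹ = 1 := mul_inv_eq_one.2 R1
  clear R0 R1
  subst h0
  have V0 : x2 * ((x3 * x4))⁻¹ = 1 := by
    calc x2 * ((x3 * x4))⁻¹ = (x3) * (1⁻¹ * x4 * (x3⁻¹ * x2)⁻¹)⁻¹ * (x3)⁻¹ := by simp only [pow_succ, pow_zero, mul_assoc, mul_inv_rev, inv_inv, mul_inv_cancel, inv_mul_cancel, mul_inv_cancel_left, inv_mul_cancel_left, one_mul, mul_one, inv_one]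
      _ = 1 := by rw [S0]; simp
  rw [mul_inv_eq_one] at V0
  subst V0
  have P : (x3⁻¹) ^ 2 = 1 := by
    calc (x3⁻¹) ^ 2 = 1 * (x3⁻¹ * x4 * (1⁻¹ * (x3 * x4))⁻¹) * 1⁻¹ := by simp only [pow_succ, pow_zero, mul_assoc, mul_inv_rev, inv_inv, mul_inv_cancel, inv_mul_cancel, mul_inv_cancel_left, inv_mul_cancel_left, one_mul, mul_one, inv_one]
      _ = 1 := by rw [S1]; simp
  have Q : (x3⁻¹) = 1 := htf _ 2 (by norm_num) P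
  exact D.n03 (inv_eq_one.1 Q).symm

theorem leaf116 {x0 x1 x2 x3 x4 : G} (h0 : x0 = 1) (D : Dist x0 x1 x2 x3 x4)
    (R0 : x0⁻¹ * x1 = x2⁻¹ * x3) (R1 : x0⁻¹ * x4 = x3⁻¹ * x2) (R2 : x1⁻¹ * x4 = x2⁻¹ * x0) (R3 : x3⁻¹ * x4 = x1⁻¹ * x2) : False := by
  have S0 : x0⁻¹ * x1 * (x2⁻¹ * x3)⁻¹ = 1 := mul_inv_eq_one.2 R0
  have S1 : x0⁻¹ * x4 * (x3⁻¹ * x2)⁻¹ = 1 := mul_inv_eq_one.2 R1
  have S2 : x1⁻¹ * x4 * (x2⁻¹ * x0)⁻¹ = 1 := mul_inv_eq_one.2 R2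
  have S3 : x3⁻¹ * x4 * (x1⁻¹ * x2)⁻¹ = 1 := mul_inv_eq_one.2 R3
  clear R0 R1 R2 R3
  subst h0
  have V0 : x1 * ((x2⁻¹ * x3))⁻¹ = 1 := by
    calc x1 * ((x2⁻¹ * x3))⁻¹ = 1 * (1⁻¹ * x1 * (x2⁻¹ * x3)⁻¹) * 1⁻¹ := by simp only [pow_succ, pow_zero, mul_assoc, mul_inv_rev, inv_inv, mul_inv_cancel, inv_mul_cancel, mul_inv_cancel_left, inv_mul_cancel_left, one_mul, mul_one, inv_one]
      _ = 1 := by rw [S0]; simp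
  rw [mul_inv_eq_one] at V0
  subst V0
  have V1 : x2 * ((x3 * x4))⁻¹ = 1 := by
    calc x2 * ((x3 * x4))⁻¹ = (x3) * (1⁻¹ * x4 * (x3⁻¹ * x2)⁻¹)⁻¹ * (x3)⁻¹ := by simp only [pow_succ, pow_zero, mul_assoc, mul_inv_rev, inv_inv, mul_inv_cancel, inv_mul_cancel, mul_inv_cancel_left, inv_mul_cancel_left, one_mul, mul_one, inv_one]
      _ = 1 := by rw [S1]; simp
  rw [mul_inv_eq_one] at V1
  subst V1
  have V2 : x4 * ((x3⁻¹ * x3⁻¹))⁻¹ = 1 := by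
    calc x4 * ((x3⁻¹ * x3⁻¹))⁻¹ = 1 * (x3⁻¹ * x4 * (((x3 * x4)⁻¹ * x3)⁻¹ * (x3 * x4))⁻¹)⁻¹ * 1⁻¹ := by simp only [pow_succ, pow_zero, mul_assoc, mul_inv_rev, inv_inv, mul_inv_cancel, inv_mul_cancel, mul_inv_cancel_left, inv_mul_cancel_left, one_mul, mul_one, inv_one]
      _ = 1 := by rw [S3]; simp
  rw [mul_inv_eq_one] at V2
  subst V2
  have P : (x3⁻¹) ^ 5 = 1 := by
    calc (x3⁻¹) ^ 5 = 1 * (((x3 * (x3⁻¹ * x3⁻¹))⁻¹ * x3)⁻¹ * (x3⁻¹ * x3⁻¹) * ((x3 * (x3⁻¹ * x3⁻¹))⁻¹ * 1)⁻¹) * 1⁻¹ := by simp only [pow_succ, pow_zero, mul_assoc, mul_inv_rev, inv_inv, mul_inv_cancel, inv_mul_cancel, mul_inv_cancel_left, inv_mul_cancel_left, one_mul, mul_one, inv_one]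
      _ = 1 := by rw [S2]; simp
  have Q : (x3⁻¹) = 1 := htf _ 5 (by norm_num) P
  exact D.n03 (inv_eq_one.1 Q).symm

theorem leaf117 {x0 x1 x2 x3 x4 : G} (h0 : x0 = 1) (D : Dist x0 x1 x2 x3 x4)
    (R0 : x1⁻¹ * x4 = x2⁻¹ * x0) (R1 : x3⁻¹ * x4 = x2⁻¹ * x0) : False := by
  have S0 : x1⁻¹ * x4 * (x2⁻¹ * x0)⁻¹ = 1 := mul_inv_eq_one.2 R0
  have S1 : x3⁻¹ * x4 * (x2⁻¹ * x0)⁻¹ = 1 := mul_inv_eq_one.2 R1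
  clear R0 R1
  subst h0
  have V0 : x2 * ((x4⁻¹ * x1))⁻¹ = 1 := by
    calc x2 * ((x4⁻¹ * x1))⁻¹ = (x4⁻¹ * x1) * (x1⁻¹ * x4 * (x2⁻¹ * 1)⁻¹) * (x4⁻¹ * x1)⁻¹ := by simp only [pow_succ, pow_zero, mul_assoc, mul_inv_rev, inv_inv, mul_inv_cancel, inv_mul_cancel, mul_inv_cancel_left, inv_mul_cancel_left, one_mul, mul_one, inv_one]
      _ = 1 := by rw [S0]; simp
  rw [mul_inv_eq_one] at V0
  subst V0
  have P : (x3⁻¹ * x1) ^ 1 = 1 := by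
    calc (x3⁻¹ * x1) ^ 1 = 1 * (x3⁻¹ * x4 * ((x4⁻¹ * x1)⁻¹ * 1)⁻¹) * 1⁻¹ := by simp only [pow_succ, pow_zero, mul_assoc, mul_inv_rev, inv_inv, mul_inv_cancel, inv_mul_cancel, mul_inv_cancel_left, inv_mul_cancel_left, one_mul, mul_one, inv_one]
      _ = 1 := by rw [S1]; simp
  have Q : (x3⁻¹ * x1) = 1 := htf _ 1 (by norm_num) P
  exact D.n13 (inv_mul_eq_one.1 Q).symm

theorem leaf118 {x0 x1 x2 x3 x4 : G} (h0 : x0 = 1) (D : Dist x0 x1 x2 x3 x4)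
    (R0 : x0⁻¹ * x1 = x2⁻¹ * x3) (R1 : x0⁻¹ * x4 = x3⁻¹ * x2) (R2 : x1⁻¹ * x4 = x2⁻¹ * x0) (R3 : x3⁻¹ * x4 = x2⁻¹ * x1) : False := by
  have S0 : x0⁻¹ * x1 * (x2⁻¹ * x3)⁻¹ = 1 := mul_inv_eq_one.2 R0
  have S1 : x0⁻¹ * x4 * (x3⁻¹ * x2)⁻¹ = 1 := mul_inv_eq_one.2 R1
  have S2 : x1⁻¹ * x4 * (x2⁻¹ * x0)⁻¹ = 1 := mul_inv_eq_one.2 R2
  have S3 : x3⁻¹ * x4 * (x2⁻¹ * x1)⁻¹ = 1 := mul_inv_eq_one.2 R3
  clear R0 R1 R2 R3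
  subst h0
  have V0 : x1 * ((x2⁻¹ * x3))⁻¹ = 1 := by
    calc x1 * ((x2⁻¹ * x3))⁻¹ = 1 * (1⁻¹ * x1 * (x2⁻¹ * x3)⁻¹) * 1⁻¹ := by simp only [pow_succ, pow_zero, mul_assoc, mul_inv_rev, inv_inv, mul_inv_cancel, inv_mul_cancel, mul_inv_cancel_left, inv_mul_cancel_left, one_mul, mul_one, inv_one]
      _ = 1 := by rw [S0]; simp
  rw [mul_inv_eq_one] at V0
  subst V0
  have V1 : x2 * ((x3 * x4))⁻¹ = 1 := by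
    calc x2 * ((x3 * x4))⁻¹ = (x3) * (1⁻¹ * x4 * (x3⁻¹ * x2)⁻¹)⁻¹ * (x3)⁻¹ := by simp only [pow_succ, pow_zero, mul_assoc, mul_inv_rev, inv_inv, mul_inv_cancel, inv_mul_cancel, mul_inv_cancel_left, inv_mul_cancel_left, one_mul, mul_one, inv_one]
      _ = 1 := by rw [S1]; simp
  rw [mul_inv_eq_one] at V1
  subst V1
  have V2 : x3 * ((x4⁻¹ * x4⁻¹ * x4⁻¹))⁻¹ = 1 := by
    calc x3 * ((x4⁻¹ * x4⁻¹ * x4⁻¹))⁻¹ = (x4⁻¹ * x4⁻¹) * (((x3 * x4)⁻¹ * x3)⁻¹ * x4 * ((x3 * x4)⁻¹ * 1)⁻¹) * (x4⁻¹ * x4⁻¹)⁻¹ := by simp only [pow_succ, pow_zero, mul_assoc, mul_inv_rev, inv_inv, mul_inv_cancel, inv_mul_cancel, mul_inv_cancel_left, inv_mul_cancel_left, one_mul, mul_one, inv_one]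
      _ = 1 := by rw [S2]; simp
  rw [mul_inv_eq_one] at V2
  subst V2
  have P : (x4) ^ 3 = 1 := by
    calc (x4) ^ 3 = 1 * ((x4⁻¹ * x4⁻¹ * x4⁻¹)⁻¹ * x4 * (((x4⁻¹ * x4⁻¹ * x4⁻¹) * x4)⁻¹ * (((x4⁻¹ * x4⁻¹ * x4⁻¹) * x4)⁻¹ * (x4⁻¹ * x4⁻¹ * x4⁻¹)))⁻¹) * 1⁻¹ := by simp only [pow_succ, pow_zero, mul_assoc, mul_inv_rev, inv_inv, mul_inv_cancel, inv_mul_cancel, mul_inv_cancel_left, inv_mul_cancel_left, one_mul, mul_one, inv_one]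
      _ = 1 := by rw [S3]; simp
  have Q : (x4) = 1 := htf _ 3 (by norm_num) P
  exact D.n04 Q.symm

theorem leaf119 {x0 x1 x2 x3 x4 : G} (h0 : x0 = 1) (D : Dist x0 x1 x2 x3 x4)
    (R0 : x0⁻¹ * x1 = x2⁻¹ * x3) (R1 : x0⁻¹ * x4 = x3⁻¹ * x2) (R2 : x1⁻¹ * x4 = x2⁻¹ * x3) : False := by
  have S0 : x0⁻¹ * x1 * (x2⁻¹ * x3)⁻¹ = 1 := mul_inv_eq_one.2 R0
  have S1 : x0⁻¹ * x4 * (x3⁻¹ * x2)⁻¹ = 1 := mul_inv_eq_one.2 R1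
  have S2 : x1⁻¹ * x4 * (x2⁻¹ * x3)⁻¹ = 1 := mul_inv_eq_one.2 R2
  clear R0 R1 R2
  subst h0
  have V0 : x1 * ((x2⁻¹ * x3))⁻¹ = 1 := by
    calc x1 * ((x2⁻¹ * x3))⁻¹ = 1 * (1⁻¹ * x1 * (x2⁻¹ * x3)⁻¹) * 1⁻¹ := by simp only [pow_succ, pow_zero, mul_assoc, mul_inv_rev, inv_inv, mul_inv_cancel, inv_mul_cancel, mul_inv_cancel_left, inv_mul_cancel_left, one_mul, mul_one, inv_one]
      _ = 1 := by rw [S0]; simp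
  rw [mul_inv_eq_one] at V0
  subst V0
  have V1 : x2 * ((x3 * x4))⁻¹ = 1 := by
    calc x2 * ((x3 * x4))⁻¹ = (x3) * (1⁻¹ * x4 * (x3⁻¹ * x2)⁻¹)⁻¹ * (x3)⁻¹ := by simp only [pow_succ, pow_zero, mul_assoc, mul_inv_rev, inv_inv, mul_inv_cancel, inv_mul_cancel, mul_inv_cancel_left, inv_mul_cancel_left, one_mul, mul_one, inv_one]
      _ = 1 := by rw [S1]; simp
  rw [mul_inv_eq_one] at V1
  subst V1
  have P : (x4) ^ 3 = 1 := by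
    calc (x4) ^ 3 = 1 * (((x3 * x4)⁻¹ * x3)⁻¹ * x4 * ((x3 * x4)⁻¹ * x3)⁻¹) * 1⁻¹ := by simp only [pow_succ, pow_zero, mul_assoc, mul_inv_rev, inv_inv, mul_inv_cancel, inv_mul_cancel, mul_inv_cancel_left, inv_mul_cancel_left, one_mul, mul_one, inv_one]
      _ = 1 := by rw [S2]; simp
  have Q : (x4) = 1 := htf _ 3 (by norm_num) P
  exact D.n04 Q.symm

theorem leaf120 {x0 x1 x2 x3 x4 : G} (h0 : x0 = 1) (D : Dist x0 x1 x2 x3 x4)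
    (R0 : x0⁻¹ * x1 = x2⁻¹ * x3) (R1 : x0⁻¹ * x4 = x3⁻¹ * x2) (R2 : x1⁻¹ * x4 = x3⁻¹ * x0) : False := by
  have S0 : x0⁻¹ * x1 * (x2⁻¹ * x3)⁻¹ = 1 := mul_inv_eq_one.2 R0
  have S1 : x0⁻¹ * x4 * (x3⁻¹ * x2)⁻¹ = 1 := mul_inv_eq_one.2 R1
  have S2 : x1⁻¹ * x4 * (x3⁻¹ * x0)⁻¹ = 1 := mul_inv_eq_one.2 R2
  clear R0 R1 R2
  subst h0
  have V0 : x3 * ((x2 * x1))⁻¹ = 1 := by
    calc x3 * ((x2 * x1))⁻¹ = (x2) * (1⁻¹ * x1 * (x2⁻¹ * x3)⁻¹)⁻¹ * (x2)⁻¹ := by simp only [pow_succ, pow_zero, mul_assoc, mul_inv_rev, inv_inv, mul_inv_cancel, inv_mul_cancel, mul_inv_cancel_left, inv_mul_cancel_left, one_mul, mul_one, inv_one]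
      _ = 1 := by rw [S0]; simp
  rw [mul_inv_eq_one] at V0
  subst V0
  have V1 : x4 * ((x1⁻¹))⁻¹ = 1 := by
    calc x4 * ((x1⁻¹))⁻¹ = 1 * (1⁻¹ * x4 * ((x2 * x1)⁻¹ * x2)⁻¹) * 1⁻¹ := by simp only [pow_succ, pow_zero, mul_assoc, mul_inv_rev, inv_inv, mul_inv_cancel, inv_mul_cancel, mul_inv_cancel_left, inv_mul_cancel_left, one_mul, mul_one, inv_one]
      _ = 1 := by rw [S1]; simp
  rw [mul_inv_eq_one] at V1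
  subst V1
  have P : (x1⁻¹ * x2) ^ 1 = 1 := by
    calc (x1⁻¹ * x2) ^ 1 = (x1) * (x1⁻¹ * (x1⁻¹) * ((x2 * x1)⁻¹ * 1)⁻¹) * (x1)⁻¹ := by simp only [pow_succ, pow_zero, mul_assoc, mul_inv_rev, inv_inv, mul_inv_cancel, inv_mul_cancel, mul_inv_cancel_left, inv_mul_cancel_left, one_mul, mul_one, inv_one]
      _ = 1 := by rw [S2]; simp
  have Q : (x1⁻¹ * x2) = 1 := htf _ 1 (by norm_num) P
  exact D.n12 (inv_mul_eq_one.1 Q)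

theorem leaf121 {x0 x1 x2 x3 x4 : G} (h0 : x0 = 1) (D : Dist x0 x1 x2 x3 x4)
    (R0 : x0⁻¹ * x1 = x2⁻¹ * x3) (R1 : x2⁻¹ * x3 = x0⁻¹ * x4) : False := by
  have S0 : x0⁻¹ * x1 * (x2⁻¹ * x3)⁻¹ = 1 := mul_inv_eq_one.2 R0
  have S1 : x2⁻¹ * x3 * (x0⁻¹ * x4)⁻¹ = 1 := mul_inv_eq_one.2 R1
  clear R0 R1
  subst h0
  have V0 : x2 * ((x3 * x1⁻¹))⁻¹ = 1 := by
    calc x2 * ((x3 * x1⁻¹))⁻¹ = (x3 * x1⁻¹) * (1⁻¹ * x1 * (x2⁻¹ * x3)⁻¹) * (x3 * x1⁻¹)⁻¹ := by simp only [pow_succ, pow_zero, mul_assoc, mul_inv_rev, inv_inv, mul_inv_cancel, inv_mul_cancel, mul_inv_cancel_left, inv_mul_cancel_left, one_mul, mul_one, inv_one]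
      _ = 1 := by rw [S0]; simp
  rw [mul_inv_eq_one] at V0
  subst V0
  have P : (x1 * x4⁻¹) ^ 1 = 1 := by
    calc (x1 * x4⁻¹) ^ 1 = 1 * ((x3 * x1⁻¹)⁻¹ * x3 * (1⁻¹ * x4)⁻¹) * 1⁻¹ := by simp only [pow_succ, pow_zero, mul_assoc, mul_inv_rev, inv_inv, mul_inv_cancel, inv_mul_cancel, mul_inv_cancel_left, inv_mul_cancel_left, one_mul, mul_one, inv_one]
      _ = 1 := by rw [S1]; simp
  have Q : (x1 * x4⁻¹) = 1 := htf _ 1 (by norm_num) P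
  exact D.n14 (mul_inv_eq_one.1 Q)

theorem leaf122 {x0 x1 x2 x3 x4 : G} (h0 : x0 = 1) (D : Dist x0 x1 x2 x3 x4)
    (R0 : x0⁻¹ * x1 = x2⁻¹ * x3) (R1 : x2⁻¹ * x3 = x1⁻¹ * x0) : False := by
  have S0 : x0⁻¹ * x1 * (x2⁻¹ * x3)⁻¹ = 1 := mul_inv_eq_one.2 R0
  have S1 : x2⁻¹ * x3 * (x1⁻¹ * x0)⁻¹ = 1 := mul_inv_eq_one.2 R1
  clear R0 R1
  subst h0
  have V0 : x1 * ((x2⁻¹ * x3))⁻¹ = 1 := by
    calc x1 * ((x2⁻¹ * x3))⁻¹ = 1 * (1⁻¹ * x1 * (x2⁻¹ * x3)⁻¹) * 1⁻¹ := by simp only [pow_succ, pow_zero, mul_assoc, mul_inv_rev, inv_inv, mul_inv_cancel, inv_mul_cancel, mul_inv_cancel_left, inv_mul_cancel_left, one_mul, mul_one, inv_one]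
      _ = 1 := by rw [S0]; simp
  rw [mul_inv_eq_one] at V0
  subst V0
  have P : (x2⁻¹ * x3) ^ 2 = 1 := by
    calc (x2⁻¹ * x3) ^ 2 = 1 * (x2⁻¹ * x3 * ((x2⁻¹ * x3)⁻¹ * 1)⁻¹) * 1⁻¹ := by simp only [pow_succ, pow_zero, mul_assoc, mul_inv_rev, inv_inv, mul_inv_cancel, inv_mul_cancel, mul_inv_cancel_left, inv_mul_cancel_left, one_mul, mul_one, inv_one]
      _ = 1 := by rw [S1]; simp
  have Q : (x2⁻¹ * x3) = 1 := htf _ 2 (by norm_num) P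
  exact D.n23 (inv_mul_eq_one.1 Q)

theorem leaf123 {x0 x1 x2 x3 x4 : G} (h0 : x0 = 1) (D : Dist x0 x1 x2 x3 x4)
    (R0 : x0⁻¹ * x3 = x1⁻¹ * x4) (R1 : x2⁻¹ * x3 = x1⁻¹ * x4) : False := by
  have S0 : x0⁻¹ * x3 * (x1⁻¹ * x4)⁻¹ = 1 := mul_inv_eq_one.2 R0
  have S1 : x2⁻¹ * x3 * (x1⁻¹ * x4)⁻¹ = 1 := mul_inv_eq_one.2 R1
  clear R0 R1
  subst h0
  have V0 : x1 * ((x4 * x3⁻¹))⁻¹ = 1 := by
    calc x1 * ((x4 * x3⁻¹))⁻¹ = (x4 * x3⁻¹) * (1⁻¹ * x3 * (x1⁻¹ * x4)⁻¹) * (x4 * x3⁻¹)⁻¹ := by simp only [pow_succ, pow_zero, mul_assoc, mul_inv_rev, inv_inv, mul_inv_cancel, inv_mul_cancel, mul_inv_cancel_left, inv_mul_cancel_left, one_mul, mul_one, inv_one]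
      _ = 1 := by rw [S0]; simp
  rw [mul_inv_eq_one] at V0
  subst V0
  have P : (x2⁻¹) ^ 1 = 1 := by
    calc (x2⁻¹) ^ 1 = 1 * (x2⁻¹ * x3 * ((x4 * x3⁻¹)⁻¹ * x4)⁻¹) * 1⁻¹ := by simp only [pow_succ, pow_zero, mul_assoc, mul_inv_rev, inv_inv, mul_inv_cancel, inv_mul_cancel, mul_inv_cancel_left, inv_mul_cancel_left, one_mul, mul_one, inv_one]
      _ = 1 := by rw [S1]; simp
  have Q : (x2⁻¹) = 1 := htf _ 1 (by norm_num) P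
  exact D.n02 (inv_eq_one.1 Q).symm

theorem leaf124 {x0 x1 x2 x3 x4 : G} (h0 : x0 = 1) (D : Dist x0 x1 x2 x3 x4)
    (R0 : x0⁻¹ * x1 = x2⁻¹ * x3) (R1 : x0⁻¹ * x3 = x2⁻¹ * x4) (R2 : x0⁻¹ * x4 = x1⁻¹ * x2) (R3 : x2⁻¹ * x3 = x1⁻¹ * x4) : False := by
  have S0 : x0⁻¹ * x1 * (x2⁻¹ * x3)⁻¹ = 1 := mul_inv_eq_one.2 R0
  have S1 : x0⁻¹ * x3 * (x2⁻¹ * x4)⁻¹ = 1 := mul_inv_eq_one.2 R1
  have S2 : x0⁻¹ * x4 * (x1⁻¹ * x2)⁻¹ = 1 := mul_inv_eq_one.2 R2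
  have S3 : x2⁻¹ * x3 * (x1⁻¹ * x4)⁻¹ = 1 := mul_inv_eq_one.2 R3
  clear R0 R1 R2 R3
  subst h0
  have V0 : x1 * ((x2⁻¹ * x3))⁻¹ = 1 := by
    calc x1 * ((x2⁻¹ * x3))⁻¹ = 1 * (1⁻¹ * x1 * (x2⁻¹ * x3)⁻¹) * 1⁻¹ := by simp only [pow_succ, pow_zero, mul_assoc, mul_inv_rev, inv_inv, mul_inv_cancel, inv_mul_cancel, mul_inv_cancel_left, inv_mul_cancel_left, one_mul, mul_one, inv_one]
      _ = 1 := by rw [S0]; simp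
  rw [mul_inv_eq_one] at V0
  subst V0
  have V1 : x3 * ((x2⁻¹ * x4))⁻¹ = 1 := by
    calc x3 * ((x2⁻¹ * x4))⁻¹ = 1 * (1⁻¹ * x3 * (x2⁻¹ * x4)⁻¹) * 1⁻¹ := by simp only [pow_succ, pow_zero, mul_assoc, mul_inv_rev, inv_inv, mul_inv_cancel, inv_mul_cancel, mul_inv_cancel_left, inv_mul_cancel_left, one_mul, mul_one, inv_one]
      _ = 1 := by rw [S1]; simp
  rw [mul_inv_eq_one] at V1
  subst V1
  have V2 : x4 * ((x2 * x2 * x2 * x2))⁻¹ = 1 := by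
    calc x4 * ((x2 * x2 * x2 * x2))⁻¹ = (x2 * x2 * x2 * x2) * (x2⁻¹ * (x2⁻¹ * x4) * ((x2⁻¹ * (x2⁻¹ * x4))⁻¹ * x4)⁻¹) * (x2 * x2 * x2 * x2)⁻¹ := by simp only [pow_succ, pow_zero, mul_assoc, mul_inv_rev, inv_inv, mul_inv_cancel, inv_mul_cancel, mul_inv_cancel_left, inv_mul_cancel_left, one_mul, mul_one, inv_one]
      _ = 1 := by rw [S3]; simp
  rw [mul_inv_eq_one] at V2
  subst V2
  have P : (x2) ^ 5 = 1 := by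
    calc (x2) ^ 5 = 1 * (1⁻¹ * (x2 * x2 * x2 * x2) * ((x2⁻¹ * (x2⁻¹ * (x2 * x2 * x2 * x2)))⁻¹ * x2)⁻¹) * 1⁻¹ := by simp only [pow_succ, pow_zero, mul_assoc, mul_inv_rev, inv_inv, mul_inv_cancel, inv_mul_cancel, mul_inv_cancel_left, inv_mul_cancel_left, one_mul, mul_one, inv_one]
      _ = 1 := by rw [S2]; simp
  have Q : (x2) = 1 := htf _ 5 (by norm_num) P
  exact D.n02 Q.symm

theorem leaf125 {x0 x1 x2 x3 x4 : G} (h0 : x0 = 1) (D : Dist x0 x1 x2 x3 x4)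
    (R0 : x0⁻¹ * x1 = x2⁻¹ * x3) (R1 : x0⁻¹ * x3 = x4⁻¹ * x1) (R2 : x0⁻¹ * x4 = x1⁻¹ * x2) (R3 : x2⁻¹ * x3 = x1⁻¹ * x4) : False := by
  have S0 : x0⁻¹ * x1 * (x2⁻¹ * x3)⁻¹ = 1 := mul_inv_eq_one.2 R0
  have S1 : x0⁻¹ * x3 * (x4⁻¹ * x1)⁻¹ = 1 := mul_inv_eq_one.2 R1
  have S2 : x0⁻¹ * x4 * (x1⁻¹ * x2)⁻¹ = 1 := mul_inv_eq_one.2 R2
  have S3 : x2⁻¹ * x3 * (x1⁻¹ * x4)⁻¹ = 1 := mul_inv_eq_one.2 R3
  clear R0 R1 R2 R3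
  subst h0
  have V0 : x1 * ((x2⁻¹ * x3))⁻¹ = 1 := by
    calc x1 * ((x2⁻¹ * x3))⁻¹ = 1 * (1⁻¹ * x1 * (x2⁻¹ * x3)⁻¹) * 1⁻¹ := by simp only [pow_succ, pow_zero, mul_assoc, mul_inv_rev, inv_inv, mul_inv_cancel, inv_mul_cancel, mul_inv_cancel_left, inv_mul_cancel_left, one_mul, mul_one, inv_one]
      _ = 1 := by rw [S0]; simp
  rw [mul_inv_eq_one] at V0
  subst V0
  have V1 : x2 * ((x4⁻¹))⁻¹ = 1 := by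
    calc x2 * ((x4⁻¹))⁻¹ = 1 * (1⁻¹ * x3 * (x4⁻¹ * (x2⁻¹ * x3))⁻¹) * 1⁻¹ := by simp only [pow_succ, pow_zero, mul_assoc, mul_inv_rev, inv_inv, mul_inv_cancel, inv_mul_cancel, mul_inv_cancel_left, inv_mul_cancel_left, one_mul, mul_one, inv_one]
      _ = 1 := by rw [S1]; simp
  rw [mul_inv_eq_one] at V1
  subst V1
  have V2 : x4 * ((x3⁻¹ * x3⁻¹))⁻¹ = 1 := by
    calc x4 * ((x3⁻¹ * x3⁻¹))⁻¹ = 1 * ((x4⁻¹)⁻¹ * x3 * (((x4⁻¹)⁻¹ * x3)⁻¹ * x4)⁻¹) * 1⁻¹ := by simp only [pow_succ, pow_zero, mul_assoc, mul_inv_rev, inv_inv, mul_inv_cancel, inv_mul_cancel, mul_inv_cancel_left, inv_mul_cancel_left, one_mul, mul_one, inv_one]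
      _ = 1 := by rw [S3]; simp
  rw [mul_inv_eq_one] at V2
  subst V2
  have P : (x3⁻¹) ^ 5 = 1 := by
    calc (x3⁻¹) ^ 5 = 1 * (1⁻¹ * (x3⁻¹ * x3⁻¹) * ((((x3⁻¹ * x3⁻¹)⁻¹)⁻¹ * x3)⁻¹ * ((x3⁻¹ * x3⁻¹)⁻¹))⁻¹) * 1⁻¹ := by simp only [pow_succ, pow_zero, mul_assoc, mul_inv_rev, inv_inv, mul_inv_cancel, inv_mul_cancel, mul_inv_cancel_left, inv_mul_cancel_left, one_mul, mul_one, inv_one]
      _ = 1 := by rw [S2]; simp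
  have Q : (x3⁻¹) = 1 := htf _ 5 (by norm_num) P
  exact D.n03 (inv_eq_one.1 Q).symm

theorem leaf126 {x0 x1 x2 x3 x4 : G} (h0 : x0 = 1) (D : Dist x0 x1 x2 x3 x4)
    (R0 : x0⁻¹ * x1 = x2⁻¹ * x3) (R1 : x0⁻¹ * x3 = x4⁻¹ * x2) (R2 : x0⁻¹ * x4 = x1⁻¹ * x2) (R3 : x2⁻¹ * x3 = x1⁻¹ * x4) : False := by
  have S0 : x0⁻¹ * x1 * (x2⁻¹ * x3)⁻¹ = 1 := mul_inv_eq_one.2 R0
  have S1 : x0⁻¹ * x3 * (x4⁻¹ * x2)⁻¹ = 1 := mul_inv_eq_one.2 R1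
  have S2 : x0⁻¹ * x4 * (x1⁻¹ * x2)⁻¹ = 1 := mul_inv_eq_one.2 R2
  have S3 : x2⁻¹ * x3 * (x1⁻¹ * x4)⁻¹ = 1 := mul_inv_eq_one.2 R3
  clear R0 R1 R2 R3
  subst h0
  have V0 : x2 * ((x3 * x1⁻¹))⁻¹ = 1 := by
    calc x2 * ((x3 * x1⁻¹))⁻¹ = (x3 * x1⁻¹) * (1⁻¹ * x1 * (x2⁻¹ * x3)⁻¹) * (x3 * x1⁻¹)⁻¹ := by simp only [pow_succ, pow_zero, mul_assoc, mul_inv_rev, inv_inv, mul_inv_cancel, inv_mul_cancel, mul_inv_cancel_left, inv_mul_cancel_left, one_mul, mul_one, inv_one]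
      _ = 1 := by rw [S0]; simp
  rw [mul_inv_eq_one] at V0
  subst V0
  have V1 : x4 * ((x1 * x1))⁻¹ = 1 := by
    calc x4 * ((x1 * x1))⁻¹ = (x1) * ((x3 * x1⁻¹)⁻¹ * x3 * (x1⁻¹ * x4)⁻¹)⁻¹ * (x1)⁻¹ := by simp only [pow_succ, pow_zero, mul_assoc, mul_inv_rev, inv_inv, mul_inv_cancel, inv_mul_cancel, mul_inv_cancel_left, inv_mul_cancel_left, one_mul, mul_one, inv_one]
      _ = 1 := by rw [S3]; simp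
  rw [mul_inv_eq_one] at V1
  subst V1
  have V2 : x3 * ((x1 * x1 * x1 * x1))⁻¹ = 1 := by
    calc x3 * ((x1 * x1 * x1 * x1))⁻¹ = (x1) * (1⁻¹ * (x1 * x1) * (x1⁻¹ * (x3 * x1⁻¹))⁻¹)⁻¹ * (x1)⁻¹ := by simp only [pow_succ, pow_zero, mul_assoc, mul_inv_rev, inv_inv, mul_inv_cancel, inv_mul_cancel, mul_inv_cancel_left, inv_mul_cancel_left, one_mul, mul_one, inv_one]
      _ = 1 := by rw [S2]; simp
  rw [mul_inv_eq_one] at V2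
  subst V2
  have P : (x1) ^ 3 = 1 := by
    calc (x1) ^ 3 = 1 * (1⁻¹ * (x1 * x1 * x1 * x1) * ((x1 * x1)⁻¹ * ((x1 * x1 * x1 * x1) * x1⁻¹))⁻¹) * 1⁻¹ := by simp only [pow_succ, pow_zero, mul_assoc, mul_inv_rev, inv_inv, mul_inv_cancel, inv_mul_cancel, mul_inv_cancel_left, inv_mul_cancel_left, one_mul, mul_one, inv_one]
      _ = 1 := by rw [S1]; simp
  have Q : (x1) = 1 := htf _ 3 (by norm_num) P
  exact D.n01 Q.symm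

theorem leaf127 {x0 x1 x2 x3 x4 : G} (h0 : x1 = 1) (D : Dist x0 x1 x2 x3 x4)
    (R0 : x0⁻¹ * x1 = x2⁻¹ * x3) (R1 : x0⁻¹ * x4 = x1⁻¹ * x3) (R2 : x2⁻¹ * x3 = x1⁻¹ * x4) : False := by
  have S0 : x0⁻¹ * x1 * (x2⁻¹ * x3)⁻¹ = 1 := mul_inv_eq_one.2 R0
  have S1 : x0⁻¹ * x4 * (x1⁻¹ * x3)⁻¹ = 1 := mul_inv_eq_one.2 R1
  have S2 : x2⁻¹ * x3 * (x1⁻¹ * x4)⁻¹ = 1 := mul_inv_eq_one.2 R2
  clear R0 R1 R2
  subst h0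
  have V0 : x0 * ((x3⁻¹ * x2))⁻¹ = 1 := by
    calc x0 * ((x3⁻¹ * x2))⁻¹ = (x3⁻¹ * x2) * (x0⁻¹ * 1 * (x2⁻¹ * x3)⁻¹)⁻¹ * (x3⁻¹ * x2)⁻¹ := by simp only [pow_succ, pow_zero, mul_assoc, mul_inv_rev, inv_inv, mul_inv_cancel, inv_mul_cancel, mul_inv_cancel_left, inv_mul_cancel_left, one_mul, mul_one, inv_one]
      _ = 1 := by rw [S0]; simp
  rw [mul_inv_eq_one] at V0
  subst V0
  have V1 : x3 * ((x2 * x4))⁻¹ = 1 := by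
    calc x3 * ((x2 * x4))⁻¹ = (x2) * (x2⁻¹ * x3 * (1⁻¹ * x4)⁻¹) * (x2)⁻¹ := by simp only [pow_succ, pow_zero, mul_assoc, mul_inv_rev, inv_inv, mul_inv_cancel, inv_mul_cancel, mul_inv_cancel_left, inv_mul_cancel_left, one_mul, mul_one, inv_one]
      _ = 1 := by rw [S2]; simp
  rw [mul_inv_eq_one] at V1
  subst V1
  have P : (x4 * x2⁻¹) ^ 1 = 1 := by
    calc (x4 * x2⁻¹) ^ 1 = 1 * (((x2 * x4)⁻¹ * x2)⁻¹ * x4 * (1⁻¹ * (x2 * x4))⁻¹) * 1⁻¹ := by simp only [pow_succ, pow_zero, mul_assoc, mul_inv_rev, inv_inv, mul_inv_cancel, inv_mul_cancel, mul_inv_cancel_left, inv_mul_cancel_left, one_mul, mul_one, inv_one]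
      _ = 1 := by rw [S1]; simp
  have Q : (x4 * x2⁻¹) = 1 := htf _ 1 (by norm_num) P
  exact D.n24 (mul_inv_eq_one.1 Q).symm

theorem leaf128 {x0 x1 x2 x3 x4 : G} (h0 : x0 = 1) (D : Dist x0 x1 x2 x3 x4)
    (R0 : x0⁻¹ * x1 = x2⁻¹ * x3) (R1 : x0⁻¹ * x4 = x2⁻¹ * x1) (R2 : x2⁻¹ * x3 = x1⁻¹ * x4) : False := by
  have S0 : x0⁻¹ * x1 * (x2⁻¹ * x3)⁻¹ = 1 := mul_inv_eq_one.2 R0
  have S1 : x0⁻¹ * x4 * (x2⁻¹ * x1)⁻¹ = 1 := mul_inv_eq_one.2 R1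
  have S2 : x2⁻¹ * x3 * (x1⁻¹ * x4)⁻¹ = 1 := mul_inv_eq_one.2 R2
  clear R0 R1 R2
  subst h0
  have V0 : x1 * ((x2⁻¹ * x3))⁻¹ = 1 := by
    calc x1 * ((x2⁻¹ * x3))⁻¹ = 1 * (1⁻¹ * x1 * (x2⁻¹ * x3)⁻¹) * 1⁻¹ := by simp only [pow_succ, pow_zero, mul_assoc, mul_inv_rev, inv_inv, mul_inv_cancel, inv_mul_cancel, mul_inv_cancel_left, inv_mul_cancel_left, one_mul, mul_one, inv_one]
      _ = 1 := by rw [S0]; simp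
  rw [mul_inv_eq_one] at V0
  subst V0
  have V1 : x4 * ((x2⁻¹ * x2⁻¹ * x3))⁻¹ = 1 := by
    calc x4 * ((x2⁻¹ * x2⁻¹ * x3))⁻¹ = 1 * (1⁻¹ * x4 * (x2⁻¹ * (x2⁻¹ * x3))⁻¹) * 1⁻¹ := by simp only [pow_succ, pow_zero, mul_assoc, mul_inv_rev, inv_inv, mul_inv_cancel, inv_mul_cancel, mul_inv_cancel_left, inv_mul_cancel_left, one_mul, mul_one, inv_one]
      _ = 1 := by rw [S1]; simp
  rw [mul_inv_eq_one] at V1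
  subst V1
  have P : (x3) ^ 1 = 1 := by
    calc (x3) ^ 1 = 1 * (x2⁻¹ * x3 * ((x2⁻¹ * x3)⁻¹ * (x2⁻¹ * x2⁻¹ * x3))⁻¹) * 1⁻¹ := by simp only [pow_succ, pow_zero, mul_assoc, mul_inv_rev, inv_inv, mul_inv_cancel, inv_mul_cancel, mul_inv_cancel_left, inv_mul_cancel_left, one_mul, mul_one, inv_one]
      _ = 1 := by rw [S2]; simp
  have Q : (x3) = 1 := htf _ 1 (by norm_num) P
  exact D.n03 Q.symm

theorem leaf129 {x0 x1 x2 x3 x4 : G} (h0 : x0 = 1) (D : Dist x0 x1 x2 x3 x4)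
    (R0 : x0⁻¹ * x1 = x2⁻¹ * x3) (R1 : x0⁻¹ * x4 = x3⁻¹ * x1) (R2 : x2⁻¹ * x3 = x1⁻¹ * x4) (R3 : x2⁻¹ * x4 = x0⁻¹ * x3) : False := by
  have S0 : x0⁻¹ * x1 * (x2⁻¹ * x3)⁻¹ = 1 := mul_inv_eq_one.2 R0
  have S1 : x0⁻¹ * x4 * (x3⁻¹ * x1)⁻¹ = 1 := mul_inv_eq_one.2 R1
  have S2 : x2⁻¹ * x3 * (x1⁻¹ * x4)⁻¹ = 1 := mul_inv_eq_one.2 R2
  have S3 : x2⁻¹ * x4 * (x0⁻¹ * x3)⁻¹ = 1 := mul_inv_eq_one.2 R3
  clear R0 R1 R2 R3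
  subst h0
  have V0 : x1 * ((x2⁻¹ * x3))⁻¹ = 1 := by
    calc x1 * ((x2⁻¹ * x3))⁻¹ = 1 * (1⁻¹ * x1 * (x2⁻¹ * x3)⁻¹) * 1⁻¹ := by simp only [pow_succ, pow_zero, mul_assoc, mul_inv_rev, inv_inv, mul_inv_cancel, inv_mul_cancel, mul_inv_cancel_left, inv_mul_cancel_left, one_mul, mul_one, inv_one]
      _ = 1 := by rw [S0]; simp
  rw [mul_inv_eq_one] at V0
  subst V0
  have V1 : x2 * ((x4 * x3⁻¹))⁻¹ = 1 := by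
    calc x2 * ((x4 * x3⁻¹))⁻¹ = (x4 * x3⁻¹) * (x2⁻¹ * x4 * (1⁻¹ * x3)⁻¹)⁻¹ * (x4 * x3⁻¹)⁻¹ := by simp only [pow_succ, pow_zero, mul_assoc, mul_inv_rev, inv_inv, mul_inv_cancel, inv_mul_cancel, mul_inv_cancel_left, inv_mul_cancel_left, one_mul, mul_one, inv_one]
      _ = 1 := by rw [S3]; simp
  rw [mul_inv_eq_one] at V1
  subst V1
  have V2 : x3 * ((x4 * x4))⁻¹ = 1 := by
    calc x3 * ((x4 * x4))⁻¹ = (x4) * (1⁻¹ * x4 * (x3⁻¹ * ((x4 * x3⁻¹)⁻¹ * x3))⁻¹)⁻¹ * (x4)⁻¹ := by simp only [pow_succ, pow_zero, mul_assoc, mul_inv_rev, inv_inv, mul_inv_cancel, inv_mul_cancel, mul_inv_cancel_left, inv_mul_cancel_left, one_mul, mul_one, inv_one]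
      _ = 1 := by rw [S1]; simp
  rw [mul_inv_eq_one] at V2
  subst V2
  have P : (x4) ^ 5 = 1 := by
    calc (x4) ^ 5 = 1 * ((x4 * (x4 * x4)⁻¹)⁻¹ * (x4 * x4) * (((x4 * (x4 * x4)⁻¹)⁻¹ * (x4 * x4))⁻¹ * x4)⁻¹) * 1⁻¹ := by simp only [pow_succ, pow_zero, mul_assoc, mul_inv_rev, inv_inv, mul_inv_cancel, inv_mul_cancel, mul_inv_cancel_left, inv_mul_cancel_left, one_mul, mul_one, inv_one]
      _ = 1 := by rw [S2]; simp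
  have Q : (x4) = 1 := htf _ 5 (by norm_num) P
  exact D.n04 Q.symm

theorem leaf130 {x0 x1 x2 x3 x4 : G} (h0 : x0 = 1) (D : Dist x0 x1 x2 x3 x4)
    (R0 : x0⁻¹ * x1 = x2⁻¹ * x3) (R1 : x0⁻¹ * x4 = x3⁻¹ * x1) (R2 : x2⁻¹ * x3 = x1⁻¹ * x4) (R3 : x2⁻¹ * x4 = x1⁻¹ * x0) : False := by
  have S0 : x0⁻¹ * x1 * (x2⁻¹ * x3)⁻¹ = 1 := mul_inv_eq_one.2 R0
  have S1 : x0⁻¹ * x4 * (x3⁻¹ * x1)⁻¹ = 1 := mul_inv_eq_one.2 R1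
  have S2 : x2⁻¹ * x3 * (x1⁻¹ * x4)⁻¹ = 1 := mul_inv_eq_one.2 R2
  have S3 : x2⁻¹ * x4 * (x1⁻¹ * x0)⁻¹ = 1 := mul_inv_eq_one.2 R3
  clear R0 R1 R2 R3
  subst h0
  have V0 : x1 * ((x2⁻¹ * x3))⁻¹ = 1 := by
    calc x1 * ((x2⁻¹ * x3))⁻¹ = 1 * (1⁻¹ * x1 * (x2⁻¹ * x3)⁻¹) * 1⁻¹ := by simp only [pow_succ, pow_zero, mul_assoc, mul_inv_rev, inv_inv, mul_inv_cancel, inv_mul_cancel, mul_inv_cancel_left, inv_mul_cancel_left, one_mul, mul_one, inv_one]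
      _ = 1 := by rw [S0]; simp
  rw [mul_inv_eq_one] at V0
  subst V0
  have V1 : x2 * ((x3 * x4⁻¹ * x3⁻¹))⁻¹ = 1 := by
    calc x2 * ((x3 * x4⁻¹ * x3⁻¹))⁻¹ = (x3 * x4⁻¹) * (1⁻¹ * x4 * (x3⁻¹ * (x2⁻¹ * x3))⁻¹) * (x3 * x4⁻¹)⁻¹ := by simp only [pow_succ, pow_zero, mul_assoc, mul_inv_rev, inv_inv, mul_inv_cancel, inv_mul_cancel, mul_inv_cancel_left, inv_mul_cancel_left, one_mul, mul_one, inv_one]
      _ = 1 := by rw [S1]; simp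
  rw [mul_inv_eq_one] at V1
  subst V1
  have V2 : x4 * ((x3⁻¹ * x3⁻¹))⁻¹ = 1 := by
    calc x4 * ((x3⁻¹ * x3⁻¹))⁻¹ = (x3⁻¹ * x3⁻¹) * ((x3 * x4⁻¹ * x3⁻¹)⁻¹ * x3 * (((x3 * x4⁻¹ * x3⁻¹)⁻¹ * x3)⁻¹ * x4)⁻¹) * (x3⁻¹ * x3⁻¹)⁻¹ := by simp only [pow_succ, pow_zero, mul_assoc, mul_inv_rev, inv_inv, mul_inv_cancel, inv_mul_cancel, mul_inv_cancel_left, inv_mul_cancel_left, one_mul, mul_one, inv_one]
      _ = 1 := by rw [S2]; simp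
  rw [mul_inv_eq_one] at V2
  subst V2
  have P : (x3⁻¹) ^ 5 = 1 := by
    calc (x3⁻¹) ^ 5 = 1 * ((x3 * (x3⁻¹ * x3⁻¹)⁻¹ * x3⁻¹)⁻¹ * (x3⁻¹ * x3⁻¹) * (((x3 * (x3⁻¹ * x3⁻¹)⁻¹ * x3⁻¹)⁻¹ * x3)⁻¹ * 1)⁻¹) * 1⁻¹ := by simp only [pow_succ, pow_zero, mul_assoc, mul_inv_rev, inv_inv, mul_inv_cancel, inv_mul_cancel, mul_inv_cancel_left, inv_mul_cancel_left, one_mul, mul_one, inv_one]
      _ = 1 := by rw [S3]; simp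
  have Q : (x3⁻¹) = 1 := htf _ 5 (by norm_num) P
  exact D.n03 (inv_eq_one.1 Q).symm

theorem leaf131 {x0 x1 x2 x3 x4 : G} (h0 : x0 = 1) (D : Dist x0 x1 x2 x3 x4)
    (R0 : x2⁻¹ * x3 = x1⁻¹ * x4) (R1 : x2⁻¹ * x4 = x1⁻¹ * x3) : False := by
  have S0 : x2⁻¹ * x3 * (x1⁻¹ * x4)⁻¹ = 1 := mul_inv_eq_one.2 R0
  have S1 : x2⁻¹ * x4 * (x1⁻¹ * x3)⁻¹ = 1 := mul_inv_eq_one.2 R1
  clear R0 R1
  subst h0
  have V0 : x1 * ((x4 * x3⁻¹ * x2))⁻¹ = 1 := by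
    calc x1 * ((x4 * x3⁻¹ * x2))⁻¹ = (x4 * x3⁻¹ * x2) * (x2⁻¹ * x3 * (x1⁻¹ * x4)⁻¹) * (x4 * x3⁻¹ * x2)⁻¹ := by simp only [pow_succ, pow_zero, mul_assoc, mul_inv_rev, inv_inv, mul_inv_cancel, inv_mul_cancel, mul_inv_cancel_left, inv_mul_cancel_left, one_mul, mul_one, inv_one]
      _ = 1 := by rw [S0]; simp
  rw [mul_inv_eq_one] at V0
  subst V0
  have P : (x4 * x3⁻¹) ^ 2 = 1 := by
    calc (x4 * x3⁻¹) ^ 2 = (x2) * (x2⁻¹ * x4 * ((x4 * x3⁻¹ * x2)⁻¹ * x3)⁻¹) * (x2)⁻¹ := by simp only [pow_succ, pow_zero, mul_assoc, mul_inv_rev, inv_inv, mul_inv_cancel, inv_mul_cancel, mul_inv_cancel_left, inv_mul_cancel_left, one_mul, mul_one, inv_one]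
      _ = 1 := by rw [S1]; simp
  have Q : (x4 * x3⁻¹) = 1 := htf _ 2 (by norm_num) P
  exact D.n34 (mul_inv_eq_one.1 Q).symm

theorem leaf132 {x0 x1 x2 x3 x4 : G} (h0 : x0 = 1) (D : Dist x0 x1 x2 x3 x4)
    (R0 : x0⁻¹ * x1 = x2⁻¹ * x3) (R1 : x0⁻¹ * x4 = x3⁻¹ * x1) (R2 : x2⁻¹ * x3 = x1⁻¹ * x4) (R3 : x2⁻¹ * x4 = x3⁻¹ * x0) : False := by
  have S0 : x0⁻¹ * x1 * (x2⁻¹ * x3)⁻¹ = 1 := mul_inv_eq_one.2 R0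
  have S1 : x0⁻¹ * x4 * (x3⁻¹ * x1)⁻¹ = 1 := mul_inv_eq_one.2 R1
  have S2 : x2⁻¹ * x3 * (x1⁻¹ * x4)⁻¹ = 1 := mul_inv_eq_one.2 R2
  have S3 : x2⁻¹ * x4 * (x3⁻¹ * x0)⁻¹ = 1 := mul_inv_eq_one.2 R3
  clear R0 R1 R2 R3
  subst h0
  have V0 : x1 * ((x2⁻¹ * x3))⁻¹ = 1 := by
    calc x1 * ((x2⁻¹ * x3))⁻¹ = 1 * (1⁻¹ * x1 * (x2⁻¹ * x3)⁻¹) * 1⁻¹ := by simp only [pow_succ, pow_zero, mul_assoc, mul_inv_rev, inv_inv, mul_inv_cancel, inv_mul_cancel, mul_inv_cancel_left, inv_mul_cancel_left, one_mul, mul_one, inv_one]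
      _ = 1 := by rw [S0]; simp
  rw [mul_inv_eq_one] at V0
  subst V0
  have V1 : x2 * ((x3 * x4⁻¹ * x3⁻¹))⁻¹ = 1 := by
    calc x2 * ((x3 * x4⁻¹ * x3⁻¹))⁻¹ = (x3 * x4⁻¹) * (1⁻¹ * x4 * (x3⁻¹ * (x2⁻¹ * x3))⁻¹) * (x3 * x4⁻¹)⁻¹ := by simp only [pow_succ, pow_zero, mul_assoc, mul_inv_rev, inv_inv, mul_inv_cancel, inv_mul_cancel, mul_inv_cancel_left, inv_mul_cancel_left, one_mul, mul_one, inv_one]
      _ = 1 := by rw [S1]; simp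
  rw [mul_inv_eq_one] at V1
  subst V1
  have V2 : x4 * ((x3⁻¹ * x3⁻¹))⁻¹ = 1 := by
    calc x4 * ((x3⁻¹ * x3⁻¹))⁻¹ = (x3⁻¹ * x3⁻¹) * ((x3 * x4⁻¹ * x3⁻¹)⁻¹ * x3 * (((x3 * x4⁻¹ * x3⁻¹)⁻¹ * x3)⁻¹ * x4)⁻¹) * (x3⁻¹ * x3⁻¹)⁻¹ := by simp only [pow_succ, pow_zero, mul_assoc, mul_inv_rev, inv_inv, mul_inv_cancel, inv_mul_cancel, mul_inv_cancel_left, inv_mul_cancel_left, one_mul, mul_one, inv_one]
      _ = 1 := by rw [S2]; simp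
  rw [mul_inv_eq_one] at V2
  subst V2
  have P : (x3⁻¹) ^ 3 = 1 := by
    calc (x3⁻¹) ^ 3 = 1 * ((x3 * (x3⁻¹ * x3⁻¹)⁻¹ * x3⁻¹)⁻¹ * (x3⁻¹ * x3⁻¹) * (x3⁻¹ * 1)⁻¹) * 1⁻¹ := by simp only [pow_succ, pow_zero, mul_assoc, mul_inv_rev, inv_inv, mul_inv_cancel, inv_mul_cancel, mul_inv_cancel_left, inv_mul_cancel_left, one_mul, mul_one, inv_one]
      _ = 1 := by rw [S3]; simp
  have Q : (x3⁻¹) = 1 := htf _ 3 (by norm_num) P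
  exact D.n03 (inv_eq_one.1 Q).symm

theorem leaf133 {x0 x1 x2 x3 x4 : G} (h0 : x0 = 1) (D : Dist x0 x1 x2 x3 x4)
    (R0 : x0⁻¹ * x1 = x2⁻¹ * x3) (R1 : x0⁻¹ * x4 = x3⁻¹ * x2) (R2 : x2⁻¹ * x3 = x1⁻¹ * x4) : False := by
  have S0 : x0⁻¹ * x1 * (x2⁻¹ * x3)⁻¹ = 1 := mul_inv_eq_one.2 R0
  have S1 : x0⁻¹ * x4 * (x3⁻¹ * x2)⁻¹ = 1 := mul_inv_eq_one.2 R1
  have S2 : x2⁻¹ * x3 * (x1⁻¹ * x4)⁻¹ = 1 := mul_inv_eq_one.2 R2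
  clear R0 R1 R2
  subst h0
  have V0 : x1 * ((x2⁻¹ * x3))⁻¹ = 1 := by
    calc x1 * ((x2⁻¹ * x3))⁻¹ = 1 * (1⁻¹ * x1 * (x2⁻¹ * x3)⁻¹) * 1⁻¹ := by simp only [pow_succ, pow_zero, mul_assoc, mul_inv_rev, inv_inv, mul_inv_cancel, inv_mul_cancel, mul_inv_cancel_left, inv_mul_cancel_left, one_mul, mul_one, inv_one]
      _ = 1 := by rw [S0]; simp
  rw [mul_inv_eq_one] at V0
  subst V0
  have V1 : x2 * ((x3 * x4))⁻¹ = 1 := by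
    calc x2 * ((x3 * x4))⁻¹ = (x3) * (1⁻¹ * x4 * (x3⁻¹ * x2)⁻¹)⁻¹ * (x3)⁻¹ := by simp only [pow_succ, pow_zero, mul_assoc, mul_inv_rev, inv_inv, mul_inv_cancel, inv_mul_cancel, mul_inv_cancel_left, inv_mul_cancel_left, one_mul, mul_one, inv_one]
      _ = 1 := by rw [S1]; simp
  rw [mul_inv_eq_one] at V1
  subst V1
  have P : (x4⁻¹) ^ 3 = 1 := by
    calc (x4⁻¹) ^ 3 = 1 * ((x3 * x4)⁻¹ * x3 * (((x3 * x4)⁻¹ * x3)⁻¹ * x4)⁻¹) * 1⁻¹ := by simp only [pow_succ, pow_zero, mul_assoc, mul_inv_rev, inv_inv, mul_inv_cancel, inv_mul_cancel, mul_inv_cancel_left, inv_mul_cancel_left, one_mul, mul_one, inv_one]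
      _ = 1 := by rw [S2]; simp
  have Q : (x4⁻¹) = 1 := htf _ 3 (by norm_num) P
  exact D.n04 (inv_eq_one.1 Q).symm

theorem leaf134 {x0 x1 x2 x3 x4 : G} (h0 : x0 = 1) (D : Dist x0 x1 x2 x3 x4)
    (R0 : x0⁻¹ * x1 = x2⁻¹ * x3) (R1 : x1⁻¹ * x4 = x0⁻¹ * x2) (R2 : x2⁻¹ * x3 = x4⁻¹ * x0) : False := by
  have S0 : x0⁻¹ * x1 * (x2⁻¹ * x3)⁻¹ = 1 := mul_inv_eq_one.2 R0
  have S1 : x1⁻¹ * x4 * (x0⁻¹ * x2)⁻¹ = 1 := mul_inv_eq_one.2 R1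
  have S2 : x2⁻¹ * x3 * (x4⁻¹ * x0)⁻¹ = 1 := mul_inv_eq_one.2 R2
  clear R0 R1 R2
  subst h0
  have V0 : x1 * ((x2⁻¹ * x3))⁻¹ = 1 := by
    calc x1 * ((x2⁻¹ * x3))⁻¹ = 1 * (1⁻¹ * x1 * (x2⁻¹ * x3)⁻¹) * 1⁻¹ := by simp only [pow_succ, pow_zero, mul_assoc, mul_inv_rev, inv_inv, mul_inv_cancel, inv_mul_cancel, mul_inv_cancel_left, inv_mul_cancel_left, one_mul, mul_one, inv_one]
      _ = 1 := by rw [S0]; simp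
  rw [mul_inv_eq_one] at V0
  subst V0
  have V1 : x2 * ((x3 * x4))⁻¹ = 1 := by
    calc x2 * ((x3 * x4))⁻¹ = (x3 * x4) * (x2⁻¹ * x3 * (x4⁻¹ * 1)⁻¹)⁻¹ * (x3 * x4)⁻¹ := by simp only [pow_succ, pow_zero, mul_assoc, mul_inv_rev, inv_inv, mul_inv_cancel, inv_mul_cancel, mul_inv_cancel_left, inv_mul_cancel_left, one_mul, mul_one, inv_one]
      _ = 1 := by rw [S2]; simp
  rw [mul_inv_eq_one] at V1
  subst V1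
  have P : (x4 * x3⁻¹) ^ 1 = 1 := by
    calc (x4 * x3⁻¹) ^ 1 = 1 * (((x3 * x4)⁻¹ * x3)⁻¹ * x4 * (1⁻¹ * (x3 * x4))⁻¹) * 1⁻¹ := by simp only [pow_succ, pow_zero, mul_assoc, mul_inv_rev, inv_inv, mul_inv_cancel, inv_mul_cancel, mul_inv_cancel_left, inv_mul_cancel_left, one_mul, mul_one, inv_one]
      _ = 1 := by rw [S1]; simp
  have Q : (x4 * x3⁻¹) = 1 := htf _ 1 (by norm_num) P
  exact D.n34 (mul_inv_eq_one.1 Q).symm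

theorem leaf135 {x0 x1 x2 x3 x4 : G} (h0 : x0 = 1) (D : Dist x0 x1 x2 x3 x4)
    (R0 : x1⁻¹ * x2 = x0⁻¹ * x4) (R1 : x2⁻¹ * x3 = x4⁻¹ * x0) : False := by
  have S0 : x1⁻¹ * x2 * (x0⁻¹ * x4)⁻¹ = 1 := mul_inv_eq_one.2 R0
  have S1 : x2⁻¹ * x3 * (x4⁻¹ * x0)⁻¹ = 1 := mul_inv_eq_one.2 R1
  clear R0 R1
  subst h0
  have V0 : x2 * ((x1 * x4))⁻¹ = 1 := by
    calc x2 * ((x1 * x4))⁻¹ = (x1) * (x1⁻¹ * x2 * (1⁻¹ * x4)⁻¹) * (x1)⁻¹ := by simp only [pow_succ, pow_zero, mul_assoc, mul_inv_rev, inv_inv, mul_inv_cancel, inv_mul_cancel, mul_inv_cancel_left, inv_mul_cancel_left, one_mul, mul_one, inv_one]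
      _ = 1 := by rw [S0]; simp
  rw [mul_inv_eq_one] at V0
  subst V0
  have P : (x1⁻¹ * x3) ^ 1 = 1 := by
    calc (x1⁻¹ * x3) ^ 1 = (x4) * ((x1 * x4)⁻¹ * x3 * (x4⁻¹ * 1)⁻¹) * (x4)⁻¹ := by simp only [pow_succ, pow_zero, mul_assoc, mul_inv_rev, inv_inv, mul_inv_cancel, inv_mul_cancel, mul_inv_cancel_left, inv_mul_cancel_left, one_mul, mul_one, inv_one]
      _ = 1 := by rw [S1]; simp
  have Q : (x1⁻¹ * x3) = 1 := htf _ 1 (by norm_num) P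
  exact D.n13 (inv_mul_eq_one.1 Q)

theorem leaf136 {x0 x1 x2 x3 x4 : G} (h0 : x0 = 1) (D : Dist x0 x1 x2 x3 x4)
    (R0 : x0⁻¹ * x1 = x2⁻¹ * x3) (R1 : x1⁻¹ * x2 = x3⁻¹ * x4) (R2 : x1⁻¹ * x4 = x0⁻¹ * x3) (R3 : x2⁻¹ * x3 = x4⁻¹ * x0) : False := by
  have S0 : x0⁻¹ * x1 * (x2⁻¹ * x3)⁻¹ = 1 := mul_inv_eq_one.2 R0
  have S1 : x1⁻¹ * x2 * (x3⁻¹ * x4)⁻¹ = 1 := mul_inv_eq_one.2 R1
  have S2 : x1⁻¹ * x4 * (x0⁻¹ * x3)⁻¹ = 1 := mul_inv_eq_one.2 R2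
  have S3 : x2⁻¹ * x3 * (x4⁻¹ * x0)⁻¹ = 1 := mul_inv_eq_one.2 R3
  clear R0 R1 R2 R3
  subst h0
  have V0 : x1 * ((x2⁻¹ * x3))⁻¹ = 1 := by
    calc x1 * ((x2⁻¹ * x3))⁻¹ = 1 * (1⁻¹ * x1 * (x2⁻¹ * x3)⁻¹) * 1⁻¹ := by simp only [pow_succ, pow_zero, mul_assoc, mul_inv_rev, inv_inv, mul_inv_cancel, inv_mul_cancel, mul_inv_cancel_left, inv_mul_cancel_left, one_mul, mul_one, inv_one]
      _ = 1 := by rw [S0]; simp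
  rw [mul_inv_eq_one] at V0
  subst V0
  have V1 : x4 * ((x2 * x2))⁻¹ = 1 := by
    calc x4 * ((x2 * x2))⁻¹ = (x3) * ((x2⁻¹ * x3)⁻¹ * x2 * (x3⁻¹ * x4)⁻¹)⁻¹ * (x3)⁻¹ := by simp only [pow_succ, pow_zero, mul_assoc, mul_inv_rev, inv_inv, mul_inv_cancel, inv_mul_cancel, mul_inv_cancel_left, inv_mul_cancel_left, one_mul, mul_one, inv_one]
      _ = 1 := by rw [S1]; simp
  rw [mul_inv_eq_one] at V1
  subst V1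
  have V2 : x2 * ((x3⁻¹))⁻¹ = 1 := by
    calc x2 * ((x3⁻¹))⁻¹ = (x3⁻¹ * x2) * (x2⁻¹ * x3 * ((x2 * x2)⁻¹ * 1)⁻¹) * (x3⁻¹ * x2)⁻¹ := by simp only [pow_succ, pow_zero, mul_assoc, mul_inv_rev, inv_inv, mul_inv_cancel, inv_mul_cancel, mul_inv_cancel_left, inv_mul_cancel_left, one_mul, mul_one, inv_one]
      _ = 1 := by rw [S3]; simp
  rw [mul_inv_eq_one] at V2
  subst V2
  have P : (x3⁻¹) ^ 5 = 1 := by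
    calc (x3⁻¹) ^ 5 = 1 * (((x3⁻¹)⁻¹ * x3)⁻¹ * ((x3⁻¹) * (x3⁻¹)) * (1⁻¹ * x3)⁻¹) * 1⁻¹ := by simp only [pow_succ, pow_zero, mul_assoc, mul_inv_rev, inv_inv, mul_inv_cancel, inv_mul_cancel, mul_inv_cancel_left, inv_mul_cancel_left, one_mul, mul_one, inv_one]
      _ = 1 := by rw [S2]; simp
  have Q : (x3⁻¹) = 1 := htf _ 5 (by norm_num) P
  exact D.n03 (inv_eq_one.1 Q).symm

theorem leaf137 {x0 x1 x2 x3 x4 : G} (h0 : x0 = 1) (D : Dist x0 x1 x2 x3 x4)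
    (R0 : x0⁻¹ * x1 = x2⁻¹ * x3) (R1 : x1⁻¹ * x2 = x4⁻¹ * x0) (R2 : x1⁻¹ * x4 = x0⁻¹ * x3) (R3 : x2⁻¹ * x3 = x4⁻¹ * x0) : False := by
  have S0 : x0⁻¹ * x1 * (x2⁻¹ * x3)⁻¹ = 1 := mul_inv_eq_one.2 R0
  have S1 : x1⁻¹ * x2 * (x4⁻¹ * x0)⁻¹ = 1 := mul_inv_eq_one.2 R1
  have S2 : x1⁻¹ * x4 * (x0⁻¹ * x3)⁻¹ = 1 := mul_inv_eq_one.2 R2
  have S3 : x2⁻¹ * x3 * (x4⁻¹ * x0)⁻¹ = 1 := mul_inv_eq_one.2 R3
  clear R0 R1 R2 R3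
  subst h0
  have V0 : x1 * ((x2⁻¹ * x3))⁻¹ = 1 := by
    calc x1 * ((x2⁻¹ * x3))⁻¹ = 1 * (1⁻¹ * x1 * (x2⁻¹ * x3)⁻¹) * 1⁻¹ := by simp only [pow_succ, pow_zero, mul_assoc, mul_inv_rev, inv_inv, mul_inv_cancel, inv_mul_cancel, mul_inv_cancel_left, inv_mul_cancel_left, one_mul, mul_one, inv_one]
      _ = 1 := by rw [S0]; simp
  rw [mul_inv_eq_one] at V0
  subst V0
  have V1 : x2 * ((x3 * x4))⁻¹ = 1 := by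
    calc x2 * ((x3 * x4))⁻¹ = (x3 * x4) * (x2⁻¹ * x3 * (x4⁻¹ * 1)⁻¹)⁻¹ * (x3 * x4)⁻¹ := by simp only [pow_succ, pow_zero, mul_assoc, mul_inv_rev, inv_inv, mul_inv_cancel, inv_mul_cancel, mul_inv_cancel_left, inv_mul_cancel_left, one_mul, mul_one, inv_one]
      _ = 1 := by rw [S3]; simp
  rw [mul_inv_eq_one] at V1
  subst V1
  have V2 : x3 * ((x4 * x4))⁻¹ = 1 := by
    calc x3 * ((x4 * x4))⁻¹ = 1 * (((x3 * x4)⁻¹ * x3)⁻¹ * x4 * (1⁻¹ * x3)⁻¹)⁻¹ * 1⁻¹ := by simp only [pow_succ, pow_zero, mul_assoc, mul_inv_rev, inv_inv, mul_inv_cancel, inv_mul_cancel, mul_inv_cancel_left, inv_mul_cancel_left, one_mul, mul_one, inv_one]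
      _ = 1 := by rw [S2]; simp
  rw [mul_inv_eq_one] at V2
  subst V2
  have P : (x4) ^ 5 = 1 := by
    calc (x4) ^ 5 = 1 * ((((x4 * x4) * x4)⁻¹ * (x4 * x4))⁻¹ * ((x4 * x4) * x4) * (x4⁻¹ * 1)⁻¹) * 1⁻¹ := by simp only [pow_succ, pow_zero, mul_assoc, mul_inv_rev, inv_inv, mul_inv_cancel, inv_mul_cancel, mul_inv_cancel_left, inv_mul_cancel_left, one_mul, mul_one, inv_one]
      _ = 1 := by rw [S1]; simp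
  have Q : (x4) = 1 := htf _ 5 (by norm_num) P
  exact D.n04 Q.symm

theorem leaf138 {x0 x1 x2 x3 x4 : G} (h0 : x0 = 1) (D : Dist x0 x1 x2 x3 x4)
    (R0 : x0⁻¹ * x1 = x2⁻¹ * x3) (R1 : x1⁻¹ * x2 = x4⁻¹ * x3) (R2 : x1⁻¹ * x4 = x0⁻¹ * x3) (R3 : x2⁻¹ * x3 = x4⁻¹ * x0) : False := by
  have S0 : x0⁻¹ * x1 * (x2⁻¹ * x3)⁻¹ = 1 := mul_inv_eq_one.2 R0
  have S1 : x1⁻¹ * x2 * (x4⁻¹ * x3)⁻¹ = 1 := mul_inv_eq_one.2 R1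
  have S2 : x1⁻¹ * x4 * (x0⁻¹ * x3)⁻¹ = 1 := mul_inv_eq_one.2 R2
  have S3 : x2⁻¹ * x3 * (x4⁻¹ * x0)⁻¹ = 1 := mul_inv_eq_one.2 R3
  clear R0 R1 R2 R3
  subst h0
  have V0 : x1 * ((x2⁻¹ * x3))⁻¹ = 1 := by
    calc x1 * ((x2⁻¹ * x3))⁻¹ = 1 * (1⁻¹ * x1 * (x2⁻¹ * x3)⁻¹) * 1⁻¹ := by simp only [pow_succ, pow_zero, mul_assoc, mul_inv_rev, inv_inv, mul_inv_cancel, inv_mul_cancel, mul_inv_cancel_left, inv_mul_cancel_left, one_mul, mul_one, inv_one]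
      _ = 1 := by rw [S0]; simp
  rw [mul_inv_eq_one] at V0
  subst V0
  have V1 : x2 * ((x3 * x4))⁻¹ = 1 := by
    calc x2 * ((x3 * x4))⁻¹ = (x3 * x4) * (x2⁻¹ * x3 * (x4⁻¹ * 1)⁻¹)⁻¹ * (x3 * x4)⁻¹ := by simp only [pow_succ, pow_zero, mul_assoc, mul_inv_rev, inv_inv, mul_inv_cancel, inv_mul_cancel, mul_inv_cancel_left, inv_mul_cancel_left, one_mul, mul_one, inv_one]
      _ = 1 := by rw [S3]; simp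
  rw [mul_inv_eq_one] at V1
  subst V1
  have V2 : x3 * ((x4 * x4))⁻¹ = 1 := by
    calc x3 * ((x4 * x4))⁻¹ = 1 * (((x3 * x4)⁻¹ * x3)⁻¹ * x4 * (1⁻¹ * x3)⁻¹)⁻¹ * 1⁻¹ := by simp only [pow_succ, pow_zero, mul_assoc, mul_inv_rev, inv_inv, mul_inv_cancel, inv_mul_cancel, mul_inv_cancel_left, inv_mul_cancel_left, one_mul, mul_one, inv_one]
      _ = 1 := by rw [S2]; simp
  rw [mul_inv_eq_one] at V2
  subst V2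
  have P : (x4) ^ 3 = 1 := by
    calc (x4) ^ 3 = 1 * ((((x4 * x4) * x4)⁻¹ * (x4 * x4))⁻¹ * ((x4 * x4) * x4) * (x4⁻¹ * (x4 * x4))⁻¹) * 1⁻¹ := by simp only [pow_succ, pow_zero, mul_assoc, mul_inv_rev, inv_inv, mul_inv_cancel, inv_mul_cancel, mul_inv_cancel_left, inv_mul_cancel_left, one_mul, mul_one, inv_one]
      _ = 1 := by rw [S1]; simp
  have Q : (x4) = 1 := htf _ 3 (by norm_num) P
  exact D.n04 Q.symm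

theorem leaf139 {x0 x1 x2 x3 x4 : G} (h0 : x0 = 1) (D : Dist x0 x1 x2 x3 x4)
    (R0 : x0⁻¹ * x1 = x2⁻¹ * x3) (R1 : x1⁻¹ * x4 = x2⁻¹ * x0) (R2 : x2⁻¹ * x3 = x4⁻¹ * x0) (R3 : x3⁻¹ * x4 = x0⁻¹ * x1) : False := by
  have S0 : x0⁻¹ * x1 * (x2⁻¹ * x3)⁻¹ = 1 := mul_inv_eq_one.2 R0
  have S1 : x1⁻¹ * x4 * (x2⁻¹ * x0)⁻¹ = 1 := mul_inv_eq_one.2 R1
  have S2 : x2⁻¹ * x3 * (x4⁻¹ * x0)⁻¹ = 1 := mul_inv_eq_one.2 R2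
  have S3 : x3⁻¹ * x4 * (x0⁻¹ * x1)⁻¹ = 1 := mul_inv_eq_one.2 R3
  clear R0 R1 R2 R3
  subst h0
  have V0 : x1 * ((x2⁻¹ * x3))⁻¹ = 1 := by
    calc x1 * ((x2⁻¹ * x3))⁻¹ = 1 * (1⁻¹ * x1 * (x2⁻¹ * x3)⁻¹) * 1⁻¹ := by simp only [pow_succ, pow_zero, mul_assoc, mul_inv_rev, inv_inv, mul_inv_cancel, inv_mul_cancel, mul_inv_cancel_left, inv_mul_cancel_left, one_mul, mul_one, inv_one]
      _ = 1 := by rw [S0]; simp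
  rw [mul_inv_eq_one] at V0
  subst V0
  have V1 : x2 * ((x3 * x4))⁻¹ = 1 := by
    calc x2 * ((x3 * x4))⁻¹ = (x3 * x4) * (x2⁻¹ * x3 * (x4⁻¹ * 1)⁻¹)⁻¹ * (x3 * x4)⁻¹ := by simp only [pow_succ, pow_zero, mul_assoc, mul_inv_rev, inv_inv, mul_inv_cancel, inv_mul_cancel, mul_inv_cancel_left, inv_mul_cancel_left, one_mul, mul_one, inv_one]
      _ = 1 := by rw [S2]; simp
  rw [mul_inv_eq_one] at V1
  subst V1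
  have V2 : x3 * ((x4 * x4))⁻¹ = 1 := by
    calc x3 * ((x4 * x4))⁻¹ = (x4 * x4) * (x3⁻¹ * x4 * (1⁻¹ * ((x3 * x4)⁻¹ * x3))⁻¹)⁻¹ * (x4 * x4)⁻¹ := by simp only [pow_succ, pow_zero, mul_assoc, mul_inv_rev, inv_inv, mul_inv_cancel, inv_mul_cancel, mul_inv_cancel_left, inv_mul_cancel_left, one_mul, mul_one, inv_one]
      _ = 1 := by rw [S3]; simp
  rw [mul_inv_eq_one] at V2
  subst V2
  have P : (x4) ^ 5 = 1 := by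
    calc (x4) ^ 5 = 1 * ((((x4 * x4) * x4)⁻¹ * (x4 * x4))⁻¹ * x4 * (((x4 * x4) * x4)⁻¹ * 1)⁻¹) * 1⁻¹ := by simp only [pow_succ, pow_zero, mul_assoc, mul_inv_rev, inv_inv, mul_inv_cancel, inv_mul_cancel, mul_inv_cancel_left, inv_mul_cancel_left, one_mul, mul_one, inv_one]
      _ = 1 := by rw [S1]; simp
  have Q : (x4) = 1 := htf _ 5 (by norm_num) P
  exact D.n04 Q.symm

theorem leaf140 {x0 x1 x2 x3 x4 : G} (h0 : x0 = 1) (D : Dist x0 x1 x2 x3 x4)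
    (R0 : x2⁻¹ * x3 = x4⁻¹ * x0) (R1 : x3⁻¹ * x4 = x0⁻¹ * x2) : False := by
  have S0 : x2⁻¹ * x3 * (x4⁻¹ * x0)⁻¹ = 1 := mul_inv_eq_one.2 R0
  have S1 : x3⁻¹ * x4 * (x0⁻¹ * x2)⁻¹ = 1 := mul_inv_eq_one.2 R1
  clear R0 R1
  subst h0
  have V0 : x2 * ((x3 * x4))⁻¹ = 1 := by
    calc x2 * ((x3 * x4))⁻¹ = (x3 * x4) * (x2⁻¹ * x3 * (x4⁻¹ * 1)⁻¹)⁻¹ * (x3 * x4)⁻¹ := by simp only [pow_succ, pow_zero, mul_assoc, mul_inv_rev, inv_inv, mul_inv_cancel, inv_mul_cancel, mul_inv_cancel_left, inv_mul_cancel_left, one_mul, mul_one, inv_one]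
      _ = 1 := by rw [S0]; simp
  rw [mul_inv_eq_one] at V0
  subst V0
  have P : (x3⁻¹) ^ 2 = 1 := by
    calc (x3⁻¹) ^ 2 = 1 * (x3⁻¹ * x4 * (1⁻¹ * (x3 * x4))⁻¹) * 1⁻¹ := by simp only [pow_succ, pow_zero, mul_assoc, mul_inv_rev, inv_inv, mul_inv_cancel, inv_mul_cancel, mul_inv_cancel_left, inv_mul_cancel_left, one_mul, mul_one, inv_one]
      _ = 1 := by rw [S1]; simp
  have Q : (x3⁻¹) = 1 := htf _ 2 (by norm_num) P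
  exact D.n03 (inv_eq_one.1 Q).symm

theorem leaf141 {x0 x1 x2 x3 x4 : G} (h0 : x0 = 1) (D : Dist x0 x1 x2 x3 x4)
    (R0 : x0⁻¹ * x1 = x2⁻¹ * x3) (R1 : x1⁻¹ * x4 = x2⁻¹ * x0) (R2 : x2⁻¹ * x3 = x4⁻¹ * x0) (R3 : x3⁻¹ * x4 = x1⁻¹ * x2) : False := by
  have S0 : x0⁻¹ * x1 * (x2⁻¹ * x3)⁻¹ = 1 := mul_inv_eq_one.2 R0
  have S1 : x1⁻¹ * x4 * (x2⁻¹ * x0)⁻¹ = 1 := mul_inv_eq_one.2 R1
  have S2 : x2⁻¹ * x3 * (x4⁻¹ * x0)⁻¹ = 1 := mul_inv_eq_one.2 R2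
  have S3 : x3⁻¹ * x4 * (x1⁻¹ * x2)⁻¹ = 1 := mul_inv_eq_one.2 R3
  clear R0 R1 R2 R3
  subst h0
  have V0 : x1 * ((x2⁻¹ * x3))⁻¹ = 1 := by
    calc x1 * ((x2⁻¹ * x3))⁻¹ = 1 * (1⁻¹ * x1 * (x2⁻¹ * x3)⁻¹) * 1⁻¹ := by simp only [pow_succ, pow_zero, mul_assoc, mul_inv_rev, inv_inv, mul_inv_cancel, inv_mul_cancel, mul_inv_cancel_left, inv_mul_cancel_left, one_mul, mul_one, inv_one]
      _ = 1 := by rw [S0]; simp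
  rw [mul_inv_eq_one] at V0
  subst V0
  have V1 : x2 * ((x3 * x4))⁻¹ = 1 := by
    calc x2 * ((x3 * x4))⁻¹ = (x3 * x4) * (x2⁻¹ * x3 * (x4⁻¹ * 1)⁻¹)⁻¹ * (x3 * x4)⁻¹ := by simp only [pow_succ, pow_zero, mul_assoc, mul_inv_rev, inv_inv, mul_inv_cancel, inv_mul_cancel, mul_inv_cancel_left, inv_mul_cancel_left, one_mul, mul_one, inv_one]
      _ = 1 := by rw [S2]; simp
  rw [mul_inv_eq_one] at V1
  subst V1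
  have V2 : x4 * ((x3⁻¹ * x3⁻¹))⁻¹ = 1 := by
    calc x4 * ((x3⁻¹ * x3⁻¹))⁻¹ = 1 * (x3⁻¹ * x4 * (((x3 * x4)⁻¹ * x3)⁻¹ * (x3 * x4))⁻¹)⁻¹ * 1⁻¹ := by simp only [pow_succ, pow_zero, mul_assoc, mul_inv_rev, inv_inv, mul_inv_cancel, inv_mul_cancel, mul_inv_cancel_left, inv_mul_cancel_left, one_mul, mul_one, inv_one]
      _ = 1 := by rw [S3]; simp
  rw [mul_inv_eq_one] at V2
  subst V2
  have P : (x3⁻¹) ^ 5 = 1 := by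
    calc (x3⁻¹) ^ 5 = 1 * (((x3 * (x3⁻¹ * x3⁻¹))⁻¹ * x3)⁻¹ * (x3⁻¹ * x3⁻¹) * ((x3 * (x3⁻¹ * x3⁻¹))⁻¹ * 1)⁻¹) * 1⁻¹ := by simp only [pow_succ, pow_zero, mul_assoc, mul_inv_rev, inv_inv, mul_inv_cancel, inv_mul_cancel, mul_inv_cancel_left, inv_mul_cancel_left, one_mul, mul_one, inv_one]
      _ = 1 := by rw [S1]; simp
  have Q : (x3⁻¹) = 1 := htf _ 5 (by norm_num) P
  exact D.n03 (inv_eq_one.1 Q).symm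

theorem leaf142 {x0 x1 x2 x3 x4 : G} (h0 : x0 = 1) (D : Dist x0 x1 x2 x3 x4)
    (R0 : x0⁻¹ * x1 = x2⁻¹ * x3) (R1 : x1⁻¹ * x4 = x2⁻¹ * x0) (R2 : x2⁻¹ * x3 = x4⁻¹ * x0) (R3 : x3⁻¹ * x4 = x2⁻¹ * x1) : False := by
  have S0 : x0⁻¹ * x1 * (x2⁻¹ * x3)⁻¹ = 1 := mul_inv_eq_one.2 R0
  have S1 : x1⁻¹ * x4 * (x2⁻¹ * x0)⁻¹ = 1 := mul_inv_eq_one.2 R1
  have S2 : x2⁻¹ * x3 * (x4⁻¹ * x0)⁻¹ = 1 := mul_inv_eq_one.2 R2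
  have S3 : x3⁻¹ * x4 * (x2⁻¹ * x1)⁻¹ = 1 := mul_inv_eq_one.2 R3
  clear R0 R1 R2 R3
  subst h0
  have V0 : x1 * ((x2⁻¹ * x3))⁻¹ = 1 := by
    calc x1 * ((x2⁻¹ * x3))⁻¹ = 1 * (1⁻¹ * x1 * (x2⁻¹ * x3)⁻¹) * 1⁻¹ := by simp only [pow_succ, pow_zero, mul_assoc, mul_inv_rev, inv_inv, mul_inv_cancel, inv_mul_cancel, mul_inv_cancel_left, inv_mul_cancel_left, one_mul, mul_one, inv_one]
      _ = 1 := by rw [S0]; simp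
  rw [mul_inv_eq_one] at V0
  subst V0
  have V1 : x2 * ((x3 * x4))⁻¹ = 1 := by
    calc x2 * ((x3 * x4))⁻¹ = (x3 * x4) * (x2⁻¹ * x3 * (x4⁻¹ * 1)⁻¹)⁻¹ * (x3 * x4)⁻¹ := by simp only [pow_succ, pow_zero, mul_assoc, mul_inv_rev, inv_inv, mul_inv_cancel, inv_mul_cancel, mul_inv_cancel_left, inv_mul_cancel_left, one_mul, mul_one, inv_one]
      _ = 1 := by rw [S2]; simp
  rw [mul_inv_eq_one] at V1
  subst V1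
  have V2 : x3 * ((x4⁻¹ * x4⁻¹ * x4⁻¹))⁻¹ = 1 := by
    calc x3 * ((x4⁻¹ * x4⁻¹ * x4⁻¹))⁻¹ = (x4⁻¹ * x4⁻¹) * (((x3 * x4)⁻¹ * x3)⁻¹ * x4 * ((x3 * x4)⁻¹ * 1)⁻¹) * (x4⁻¹ * x4⁻¹)⁻¹ := by simp only [pow_succ, pow_zero, mul_assoc, mul_inv_rev, inv_inv, mul_inv_cancel, inv_mul_cancel, mul_inv_cancel_left, inv_mul_cancel_left, one_mul, mul_one, inv_one]
      _ = 1 := by rw [S1]; simp
  rw [mul_inv_eq_one] at V2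
  subst V2
  have P : (x4) ^ 3 = 1 := by
    calc (x4) ^ 3 = 1 * ((x4⁻¹ * x4⁻¹ * x4⁻¹)⁻¹ * x4 * (((x4⁻¹ * x4⁻¹ * x4⁻¹) * x4)⁻¹ * (((x4⁻¹ * x4⁻¹ * x4⁻¹) * x4)⁻¹ * (x4⁻¹ * x4⁻¹ * x4⁻¹)))⁻¹) * 1⁻¹ := by simp only [pow_succ, pow_zero, mul_assoc, mul_inv_rev, inv_inv, mul_inv_cancel, inv_mul_cancel, mul_inv_cancel_left, inv_mul_cancel_left, one_mul, mul_one, inv_one]
      _ = 1 := by rw [S3]; simp
  have Q : (x4) = 1 := htf _ 3 (by norm_num) P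
  exact D.n04 Q.symm

theorem leaf143 {x0 x1 x2 x3 x4 : G} (h0 : x0 = 1) (D : Dist x0 x1 x2 x3 x4)
    (R0 : x0⁻¹ * x1 = x2⁻¹ * x3) (R1 : x1⁻¹ * x4 = x2⁻¹ * x3) (R2 : x2⁻¹ * x3 = x4⁻¹ * x0) : False := by
  have S0 : x0⁻¹ * x1 * (x2⁻¹ * x3)⁻¹ = 1 := mul_inv_eq_one.2 R0
  have S1 : x1⁻¹ * x4 * (x2⁻¹ * x3)⁻¹ = 1 := mul_inv_eq_one.2 R1
  have S2 : x2⁻¹ * x3 * (x4⁻¹ * x0)⁻¹ = 1 := mul_inv_eq_one.2 R2
  clear R0 R1 R2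
  subst h0
  have V0 : x1 * ((x2⁻¹ * x3))⁻¹ = 1 := by
    calc x1 * ((x2⁻¹ * x3))⁻¹ = 1 * (1⁻¹ * x1 * (x2⁻¹ * x3)⁻¹) * 1⁻¹ := by simp only [pow_succ, pow_zero, mul_assoc, mul_inv_rev, inv_inv, mul_inv_cancel, inv_mul_cancel, mul_inv_cancel_left, inv_mul_cancel_left, one_mul, mul_one, inv_one]
      _ = 1 := by rw [S0]; simp
  rw [mul_inv_eq_one] at V0
  subst V0
  have V1 : x2 * ((x3 * x4))⁻¹ = 1 := by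
    calc x2 * ((x3 * x4))⁻¹ = (x3 * x4) * (x2⁻¹ * x3 * (x4⁻¹ * 1)⁻¹)⁻¹ * (x3 * x4)⁻¹ := by simp only [pow_succ, pow_zero, mul_assoc, mul_inv_rev, inv_inv, mul_inv_cancel, inv_mul_cancel, mul_inv_cancel_left, inv_mul_cancel_left, one_mul, mul_one, inv_one]
      _ = 1 := by rw [S2]; simp
  rw [mul_inv_eq_one] at V1
  subst V1
  have P : (x4) ^ 3 = 1 := by
    calc (x4) ^ 3 = 1 * (((x3 * x4)⁻¹ * x3)⁻¹ * x4 * ((x3 * x4)⁻¹ * x3)⁻¹) * 1⁻¹ := by simp only [pow_succ, pow_zero, mul_assoc, mul_inv_rev, inv_inv, mul_inv_cancel, inv_mul_cancel, mul_inv_cancel_left, inv_mul_cancel_left, one_mul, mul_one, inv_one]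
      _ = 1 := by rw [S1]; simp
  have Q : (x4) = 1 := htf _ 3 (by norm_num) P
  exact D.n04 Q.symm

theorem leaf144 {x0 x1 x2 x3 x4 : G} (h0 : x0 = 1) (D : Dist x0 x1 x2 x3 x4)
    (R0 : x0⁻¹ * x1 = x2⁻¹ * x3) (R1 : x1⁻¹ * x4 = x3⁻¹ * x0) (R2 : x2⁻¹ * x3 = x4⁻¹ * x0) : False := by
  have S0 : x0⁻¹ * x1 * (x2⁻¹ * x3)⁻¹ = 1 := mul_inv_eq_one.2 R0
  have S1 : x1⁻¹ * x4 * (x3⁻¹ * x0)⁻¹ = 1 := mul_inv_eq_one.2 R1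
  have S2 : x2⁻¹ * x3 * (x4⁻¹ * x0)⁻¹ = 1 := mul_inv_eq_one.2 R2
  clear R0 R1 R2
  subst h0
  have V0 : x3 * ((x2 * x1))⁻¹ = 1 := by
    calc x3 * ((x2 * x1))⁻¹ = (x2) * (1⁻¹ * x1 * (x2⁻¹ * x3)⁻¹)⁻¹ * (x2)⁻¹ := by simp only [pow_succ, pow_zero, mul_assoc, mul_inv_rev, inv_inv, mul_inv_cancel, inv_mul_cancel, mul_inv_cancel_left, inv_mul_cancel_left, one_mul, mul_one, inv_one]
      _ = 1 := by rw [S0]; simp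
  rw [mul_inv_eq_one] at V0
  subst V0
  have V1 : x4 * ((x2⁻¹))⁻¹ = 1 := by
    calc x4 * ((x2⁻¹))⁻¹ = (x1) * (x1⁻¹ * x4 * ((x2 * x1)⁻¹ * 1)⁻¹) * (x1)⁻¹ := by simp only [pow_succ, pow_zero, mul_assoc, mul_inv_rev, inv_inv, mul_inv_cancel, inv_mul_cancel, mul_inv_cancel_left, inv_mul_cancel_left, one_mul, mul_one, inv_one]
      _ = 1 := by rw [S1]; simp
  rw [mul_inv_eq_one] at V1
  subst V1
  have P : (x1 * x2⁻¹) ^ 1 = 1 := by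
    calc (x1 * x2⁻¹) ^ 1 = 1 * (x2⁻¹ * (x2 * x1) * ((x2⁻¹)⁻¹ * 1)⁻¹) * 1⁻¹ := by simp only [pow_succ, pow_zero, mul_assoc, mul_inv_rev, inv_inv, mul_inv_cancel, inv_mul_cancel, mul_inv_cancel_left, inv_mul_cancel_left, one_mul, mul_one, inv_one]
      _ = 1 := by rw [S2]; simp
  have Q : (x1 * x2⁻¹) = 1 := htf _ 1 (by norm_num) P
  exact D.n12 (mul_inv_eq_one.1 Q)

theorem leaf145 {x0 x1 x2 x3 x4 : G} (h0 : x0 = 1) (D : Dist x0 x1 x2 x3 x4)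
    (R0 : x0⁻¹ * x1 = x2⁻¹ * x3) (R1 : x2⁻¹ * x3 = x4⁻¹ * x1) : False := by
  have S0 : x0⁻¹ * x1 * (x2⁻¹ * x3)⁻¹ = 1 := mul_inv_eq_one.2 R0
  have S1 : x2⁻¹ * x3 * (x4⁻¹ * x1)⁻¹ = 1 := mul_inv_eq_one.2 R1
  clear R0 R1
  subst h0
  have V0 : x1 * ((x2⁻¹ * x3))⁻¹ = 1 := by
    calc x1 * ((x2⁻¹ * x3))⁻¹ = 1 * (1⁻¹ * x1 * (x2⁻¹ * x3)⁻¹) * 1⁻¹ := by simp only [pow_succ, pow_zero, mul_assoc, mul_inv_rev, inv_inv, mul_inv_cancel, inv_mul_cancel, mul_inv_cancel_left, inv_mul_cancel_left, one_mul, mul_one, inv_one]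
      _ = 1 := by rw [S0]; simp
  rw [mul_inv_eq_one] at V0
  subst V0
  have P : (x4) ^ 1 = 1 := by
    calc (x4) ^ 1 = 1 * (x2⁻¹ * x3 * (x4⁻¹ * (x2⁻¹ * x3))⁻¹) * 1⁻¹ := by simp only [pow_succ, pow_zero, mul_assoc, mul_inv_rev, inv_inv, mul_inv_cancel, inv_mul_cancel, mul_inv_cancel_left, inv_mul_cancel_left, one_mul, mul_one, inv_one]
      _ = 1 := by rw [S1]; simp
  have Q : (x4) = 1 := htf _ 1 (by norm_num) P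
  exact D.n04 Q.symm

end leaves

theorem opt01 {y : Fin 5 → G} (D : D5 y) :
    (y 0)⁻¹ * y 1 = (y 2)⁻¹ * y 3 ∨
    (y 0)⁻¹ * y 1 = (y 2)⁻¹ * y 4 ∨
    (y 0)⁻¹ * y 1 = (y 3)⁻¹ * y 2 ∨
    (y 0)⁻¹ * y 1 = (y 3)⁻¹ * y 4 ∨
    (y 0)⁻¹ * y 1 = (y 4)⁻¹ * y 2 ∨
    (y 0)⁻¹ * y 1 = (y 4)⁻¹ * y 3 := by
  obtain ⟨a, b, h1, h2, h3, h4, h5, h⟩ := D 0 1 (by decide)
  fin_cases a
  · exact absurd rfl h1
  · exact absurd rfl h2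
  · fin_cases b
    · exact absurd rfl h3
    · exact absurd rfl h4
    · exact absurd rfl h5
    · exact Or.inl h
    · exact Or.inr (Or.inl h)
  · fin_cases b
    · exact absurd rfl h3
    · exact absurd rfl h4
    · exact Or.inr (Or.inr (Or.inl h))
    · exact absurd rfl h5
    · exact Or.inr (Or.inr (Or.inr (Or.inl h)))
  · fin_cases b
    · exact absurd rfl h3
    · exact absurd rfl h4
    · exact Or.inr (Or.inr (Or.inr (Or.inr (Or.inl h))))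
    · exact Or.inr (Or.inr (Or.inr (Or.inr (Or.inr h))))
    · exact absurd rfl h5

theorem opt02 {y : Fin 5 → G} (D : D5 y) :
    (y 0)⁻¹ * y 2 = (y 1)⁻¹ * y 3 ∨
    (y 0)⁻¹ * y 2 = (y 1)⁻¹ * y 4 ∨
    (y 0)⁻¹ * y 2 = (y 3)⁻¹ * y 1 ∨
    (y 0)⁻¹ * y 2 = (y 3)⁻¹ * y 4 ∨
    (y 0)⁻¹ * y 2 = (y 4)⁻¹ * y 1 ∨
    (y 0)⁻¹ * y 2 = (y 4)⁻¹ * y 3 := by
  obtain ⟨a, b, h1, h2, h3, h4, h5, h⟩ := D 0 2 (by decide)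
  fin_cases a
  · exact absurd rfl h1
  · fin_cases b
    · exact absurd rfl h3
    · exact absurd rfl h5
    · exact absurd rfl h4
    · exact Or.inl h
    · exact Or.inr (Or.inl h)
  · exact absurd rfl h2
  · fin_cases b
    · exact absurd rfl h3
    · exact Or.inr (Or.inr (Or.inl h))
    · exact absurd rfl h4
    · exact absurd rfl h5
    · exact Or.inr (Or.inr (Or.inr (Or.inl h)))
  · fin_cases b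
    · exact absurd rfl h3
    · exact Or.inr (Or.inr (Or.inr (Or.inr (Or.inl h))))
    · exact absurd rfl h4
    · exact Or.inr (Or.inr (Or.inr (Or.inr (Or.inr h))))
    · exact absurd rfl h5

theorem opt03 {y : Fin 5 → G} (D : D5 y) :
    (y 0)⁻¹ * y 3 = (y 1)⁻¹ * y 2 ∨
    (y 0)⁻¹ * y 3 = (y 1)⁻¹ * y 4 ∨
    (y 0)⁻¹ * y 3 = (y 2)⁻¹ * y 1 ∨
    (y 0)⁻¹ * y 3 = (y 2)⁻¹ * y 4 ∨
    (y 0)⁻¹ * y 3 = (y 4)⁻¹ * y 1 ∨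
    (y 0)⁻¹ * y 3 = (y 4)⁻¹ * y 2 := by
  obtain ⟨a, b, h1, h2, h3, h4, h5, h⟩ := D 0 3 (by decide)
  fin_cases a
  · exact absurd rfl h1
  · fin_cases b
    · exact absurd rfl h3
    · exact absurd rfl h5
    · exact Or.inl h
    · exact absurd rfl h4
    · exact Or.inr (Or.inl h)
  · fin_cases b
    · exact absurd rfl h3
    · exact Or.inr (Or.inr (Or.inl h))
    · exact absurd rfl h5
    · exact absurd rfl h4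
    · exact Or.inr (Or.inr (Or.inr (Or.inl h)))
  · exact absurd rfl h2
  · fin_cases b
    · exact absurd rfl h3
    · exact Or.inr (Or.inr (Or.inr (Or.inr (Or.inl h))))
    · exact Or.inr (Or.inr (Or.inr (Or.inr (Or.inr h))))
    · exact absurd rfl h4
    · exact absurd rfl h5

theorem opt04 {y : Fin 5 → G} (D : D5 y) :
    (y 0)⁻¹ * y 4 = (y 1)⁻¹ * y 2 ∨
    (y 0)⁻¹ * y 4 = (y 1)⁻¹ * y 3 ∨
    (y 0)⁻¹ * y 4 = (y 2)⁻¹ * y 1 ∨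
    (y 0)⁻¹ * y 4 = (y 2)⁻¹ * y 3 ∨
    (y 0)⁻¹ * y 4 = (y 3)⁻¹ * y 1 ∨
    (y 0)⁻¹ * y 4 = (y 3)⁻¹ * y 2 := by
  obtain ⟨a, b, h1, h2, h3, h4, h5, h⟩ := D 0 4 (by decide)
  fin_cases a
  · exact absurd rfl h1
  · fin_cases b
    · exact absurd rfl h3
    · exact absurd rfl h5
    · exact Or.inl h
    · exact Or.inr (Or.inl h)
    · exact absurd rfl h4
  · fin_cases b
    · exact absurd rfl h3
    · exact Or.inr (Or.inr (Or.inl h))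
    · exact absurd rfl h5
    · exact Or.inr (Or.inr (Or.inr (Or.inl h)))
    · exact absurd rfl h4
  · fin_cases b
    · exact absurd rfl h3
    · exact Or.inr (Or.inr (Or.inr (Or.inr (Or.inl h))))
    · exact Or.inr (Or.inr (Or.inr (Or.inr (Or.inr h))))
    · exact absurd rfl h5
    · exact absurd rfl h4
  · exact absurd rfl h2

theorem opt12 {y : Fin 5 → G} (D : D5 y) :
    (y 1)⁻¹ * y 2 = (y 0)⁻¹ * y 3 ∨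
    (y 1)⁻¹ * y 2 = (y 0)⁻¹ * y 4 ∨
    (y 1)⁻¹ * y 2 = (y 3)⁻¹ * y 0 ∨
    (y 1)⁻¹ * y 2 = (y 3)⁻¹ * y 4 ∨
    (y 1)⁻¹ * y 2 = (y 4)⁻¹ * y 0 ∨
    (y 1)⁻¹ * y 2 = (y 4)⁻¹ * y 3 := by
  obtain ⟨a, b, h1, h2, h3, h4, h5, h⟩ := D 1 2 (by decide)
  fin_cases a
  · fin_cases b
    · exact absurd rfl h5
    · exact absurd rfl h3
    · exact absurd rfl h4
    · exact Or.inl h
    · exact Or.inr (Or.inl h)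
  · exact absurd rfl h1
  · exact absurd rfl h2
  · fin_cases b
    · exact Or.inr (Or.inr (Or.inl h))
    · exact absurd rfl h3
    · exact absurd rfl h4
    · exact absurd rfl h5
    · exact Or.inr (Or.inr (Or.inr (Or.inl h)))
  · fin_cases b
    · exact Or.inr (Or.inr (Or.inr (Or.inr (Or.inl h))))
    · exact absurd rfl h3
    · exact absurd rfl h4
    · exact Or.inr (Or.inr (Or.inr (Or.inr (Or.inr h))))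
    · exact absurd rfl h5

theorem opt13 {y : Fin 5 → G} (D : D5 y) :
    (y 1)⁻¹ * y 3 = (y 0)⁻¹ * y 2 ∨
    (y 1)⁻¹ * y 3 = (y 0)⁻¹ * y 4 ∨
    (y 1)⁻¹ * y 3 = (y 2)⁻¹ * y 0 ∨
    (y 1)⁻¹ * y 3 = (y 2)⁻¹ * y 4 ∨
    (y 1)⁻¹ * y 3 = (y 4)⁻¹ * y 0 ∨
    (y 1)⁻¹ * y 3 = (y 4)⁻¹ * y 2 := by
  obtain ⟨a, b, h1, h2, h3, h4, h5, h⟩ := D 1 3 (by decide)
  fin_cases a
  · fin_cases b
    · exact absurd rfl h5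
    · exact absurd rfl h3
    · exact Or.inl h
    · exact absurd rfl h4
    · exact Or.inr (Or.inl h)
  · exact absurd rfl h1
  · fin_cases b
    · exact Or.inr (Or.inr (Or.inl h))
    · exact absurd rfl h3
    · exact absurd rfl h5
    · exact absurd rfl h4
    · exact Or.inr (Or.inr (Or.inr (Or.inl h)))
  · exact absurd rfl h2
  · fin_cases b
    · exact Or.inr (Or.inr (Or.inr (Or.inr (Or.inl h))))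
    · exact absurd rfl h3
    · exact Or.inr (Or.inr (Or.inr (Or.inr (Or.inr h))))
    · exact absurd rfl h4
    · exact absurd rfl h5

theorem opt14 {y : Fin 5 → G} (D : D5 y) :
    (y 1)⁻¹ * y 4 = (y 0)⁻¹ * y 2 ∨
    (y 1)⁻¹ * y 4 = (y 0)⁻¹ * y 3 ∨
    (y 1)⁻¹ * y 4 = (y 2)⁻¹ * y 0 ∨
    (y 1)⁻¹ * y 4 = (y 2)⁻¹ * y 3 ∨
    (y 1)⁻¹ * y 4 = (y 3)⁻¹ * y 0 ∨
    (y 1)⁻¹ * y 4 = (y 3)⁻¹ * y 2 := by
  obtain ⟨a, b, h1, h2, h3, h4, h5, h⟩ := D 1 4 (by decide)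
  fin_cases a
  · fin_cases b
    · exact absurd rfl h5
    · exact absurd rfl h3
    · exact Or.inl h
    · exact Or.inr (Or.inl h)
    · exact absurd rfl h4
  · exact absurd rfl h1
  · fin_cases b
    · exact Or.inr (Or.inr (Or.inl h))
    · exact absurd rfl h3
    · exact absurd rfl h5
    · exact Or.inr (Or.inr (Or.inr (Or.inl h)))
    · exact absurd rfl h4
  · fin_cases b
    · exact Or.inr (Or.inr (Or.inr (Or.inr (Or.inl h))))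
    · exact absurd rfl h3
    · exact Or.inr (Or.inr (Or.inr (Or.inr (Or.inr h))))
    · exact absurd rfl h5
    · exact absurd rfl h4
  · exact absurd rfl h2

theorem opt23 {y : Fin 5 → G} (D : D5 y) :
    (y 2)⁻¹ * y 3 = (y 0)⁻¹ * y 1 ∨
    (y 2)⁻¹ * y 3 = (y 0)⁻¹ * y 4 ∨
    (y 2)⁻¹ * y 3 = (y 1)⁻¹ * y 0 ∨
    (y 2)⁻¹ * y 3 = (y 1)⁻¹ * y 4 ∨
    (y 2)⁻¹ * y 3 = (y 4)⁻¹ * y 0 ∨
    (y 2)⁻¹ * y 3 = (y 4)⁻¹ * y 1 := by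
  obtain ⟨a, b, h1, h2, h3, h4, h5, h⟩ := D 2 3 (by decide)
  fin_cases a
  · fin_cases b
    · exact absurd rfl h5
    · exact Or.inl h
    · exact absurd rfl h3
    · exact absurd rfl h4
    · exact Or.inr (Or.inl h)
  · fin_cases b
    · exact Or.inr (Or.inr (Or.inl h))
    · exact absurd rfl h5
    · exact absurd rfl h3
    · exact absurd rfl h4
    · exact Or.inr (Or.inr (Or.inr (Or.inl h)))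
  · exact absurd rfl h1
  · exact absurd rfl h2
  · fin_cases b
    · exact Or.inr (Or.inr (Or.inr (Or.inr (Or.inl h))))
    · exact Or.inr (Or.inr (Or.inr (Or.inr (Or.inr h))))
    · exact absurd rfl h3
    · exact absurd rfl h4
    · exact absurd rfl h5

theorem opt24 {y : Fin 5 → G} (D : D5 y) :
    (y 2)⁻¹ * y 4 = (y 0)⁻¹ * y 1 ∨
    (y 2)⁻¹ * y 4 = (y 0)⁻¹ * y 3 ∨
    (y 2)⁻¹ * y 4 = (y 1)⁻¹ * y 0 ∨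
    (y 2)⁻¹ * y 4 = (y 1)⁻¹ * y 3 ∨
    (y 2)⁻¹ * y 4 = (y 3)⁻¹ * y 0 ∨
    (y 2)⁻¹ * y 4 = (y 3)⁻¹ * y 1 := by
  obtain ⟨a, b, h1, h2, h3, h4, h5, h⟩ := D 2 4 (by decide)
  fin_cases a
  · fin_cases b
    · exact absurd rfl h5
    · exact Or.inl h
    · exact absurd rfl h3
    · exact Or.inr (Or.inl h)
    · exact absurd rfl h4
  · fin_cases b
    · exact Or.inr (Or.inr (Or.inl h))
    · exact absurd rfl h5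
    · exact absurd rfl h3
    · exact Or.inr (Or.inr (Or.inr (Or.inl h)))
    · exact absurd rfl h4
  · exact absurd rfl h1
  · fin_cases b
    · exact Or.inr (Or.inr (Or.inr (Or.inr (Or.inl h))))
    · exact Or.inr (Or.inr (Or.inr (Or.inr (Or.inr h))))
    · exact absurd rfl h3
    · exact absurd rfl h5
    · exact absurd rfl h4
  · exact absurd rfl h2

theorem opt34 {y : Fin 5 → G} (D : D5 y) :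
    (y 3)⁻¹ * y 4 = (y 0)⁻¹ * y 1 ∨
    (y 3)⁻¹ * y 4 = (y 0)⁻¹ * y 2 ∨
    (y 3)⁻¹ * y 4 = (y 1)⁻¹ * y 0 ∨
    (y 3)⁻¹ * y 4 = (y 1)⁻¹ * y 2 ∨
    (y 3)⁻¹ * y 4 = (y 2)⁻¹ * y 0 ∨
    (y 3)⁻¹ * y 4 = (y 2)⁻¹ * y 1 := by
  obtain ⟨a, b, h1, h2, h3, h4, h5, h⟩ := D 3 4 (by decide)
  fin_cases a
  · fin_cases b
    · exact absurd rfl h5
    · exact Or.inl h
    · exact Or.inr (Or.inl h)
    · exact absurd rfl h3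
    · exact absurd rfl h4
  · fin_cases b
    · exact Or.inr (Or.inr (Or.inl h))
    · exact absurd rfl h5
    · exact Or.inr (Or.inr (Or.inr (Or.inl h)))
    · exact absurd rfl h3
    · exact absurd rfl h4
  · fin_cases b
    · exact Or.inr (Or.inr (Or.inr (Or.inr (Or.inl h))))
    · exact Or.inr (Or.inr (Or.inr (Or.inr (Or.inr h))))
    · exact absurd rfl h5
    · exact absurd rfl h3
    · exact absurd rfl h4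
  · exact absurd rfl h1
  · exact absurd rfl h2

theorem tree_false (htf : ∀ g : G, ∀ n : ℕ, 0 < n → g ^ n = 1 → g = 1) {y : Fin 5 → G}
    (D0 : Dist (y 0) (y 1) (y 2) (y 3) (y 4)) (D : D5 y)
    (h01 : (y 0)⁻¹ * y 1 = (y 2)⁻¹ * y 3) : False := by
  rcases opt23 D with h23 | h23 | h23 | h23 | h23 | h23
  · rcases opt04 D with h04 | h04 | h04 | h04 | h04 | h04
    · rcases opt03 D with h03 | h03 | h03 | h03 | h03 | h03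
      · exact leaf0 htf (inv_mul_cancel (y 0)) (dist_mul D0 _) (tr h03) (tr h04)
      · rcases opt02 D with h02 | h02 | h02 | h02 | h02 | h02
        · exact leaf1 htf (inv_mul_cancel (y 0)) (dist_mul D0 _) (tr h02) (tr h03) (tr h04)
        · exact leaf2 htf (inv_mul_cancel (y 0)) (dist_mul D0 _) (tr h02) (tr h03)
        · rcases opt24 D with h24 | h24 | h24 | h24 | h24 | h24
          · exact leaf3 htf (inv_mul_cancel (y 0)) (dist_mul D0 _) (tr h01) (tr h24)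
          · exact leaf4 htf (inv_mul_cancel (y 0)) (dist_mul D0 _) (tr h03) (tr h24)
          · exact leaf5 htf (inv_mul_cancel (y 0)) (dist_mul D0 _) (tr h01) (tr h02) (tr h03) (tr h24)
          · exact leaf6 htf (inv_mul_cancel (y 0)) (dist_mul D0 _) (tr h02) (tr h24)
          · exact leaf7 htf (inv_mul_cancel (y 0)) (dist_mul D0 _) (tr h03) (tr h04) (tr h24)
          · exact leaf8 htf (inv_mul_cancel (y 0)) (dist_mul D0 _) (tr h01) (tr h02) (tr h04) (tr h24)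
        · exact leaf9 htf (inv_mul_cancel (y 0)) (dist_mul D0 _) (tr h02) (tr h03) (tr h04)
        · exact leaf10 htf (inv_mul_cancel (y 0)) (dist_mul D0 _) (tr h01) (tr h02) (tr h03) (tr h04)
        · exact leaf11 htf (inv_mul_cancel (y 0)) (dist_mul D0 _) (tr h01) (tr h02) (tr h03) (tr h04)
      · exact leaf12 htf (inv_mul_cancel (y 0)) (dist_mul D0 _) (tr h01) (tr h03)
      · rcases opt14 D with h14 | h14 | h14 | h14 | h14 | h14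
        · exact leaf13 htf (inv_mul_cancel (y 0)) (dist_mul D0 _) (tr h04) (tr h14)
        · exact leaf14 htf (inv_mul_cancel (y 0)) (dist_mul D0 _) (tr h03) (tr h14)
        · rcases opt13 D with h13 | h13 | h13 | h13 | h13 | h13
          · exact leaf15 htf (inv_mul_cancel (y 0)) (dist_mul D0 _) (tr h03) (tr h04) (tr h13) (tr h14)
          · exact leaf16 htf (inv_mul_cancel (y 0)) (dist_mul D0 _) (tr h04) (tr h13)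
          · exact leaf17 htf (inv_mul_cancel (y 0)) (dist_mul D0 _) (tr h13) (tr h14)
          · exact leaf18 htf (inv_mul_cancel (y 0)) (dist_mul D0 _) (tr h03) (tr h13)
          · exact leaf19 htf (inv_mul_cancel (y 0)) (dist_mul D0 _) (tr h01) (tr h03) (tr h04) (tr h13)
          · exact leaf20 htf (inv_mul_cancel (y 0)) (dist_mul D0 _) (tr h01) (tr h03) (tr h13)
        · exact leaf21 htf (inv_mul_cancel (y 0)) (dist_mul D0 _) (tr h01) (tr h03) (tr h04) (tr h14)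
        · exact leaf22 htf (inv_mul_cancel (y 0)) (dist_mul D0 _) (tr h01) (tr h03) (tr h04) (tr h14)
        · exact leaf23 htf (inv_mul_cancel (y 0)) (dist_mul D0 _) (tr h01) (tr h14)
      · rcases opt34 D with h34 | h34 | h34 | h34 | h34 | h34
        · exact leaf24 htf (inv_mul_cancel (y 0)) (dist_mul D0 _) (tr h01) (tr h03) (tr h04) (tr h34)
        · exact leaf25 htf (inv_mul_cancel (y 0)) (dist_mul D0 _) (tr h01) (tr h03) (tr h04) (tr h34)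
        · exact leaf26 htf (inv_mul_cancel (y 0)) (dist_mul D0 _) (tr h01) (tr h34)
        · exact leaf27 htf (inv_mul_cancel (y 0)) (dist_mul D0 _) (tr h04) (tr h34)
        · exact leaf28 htf (inv_mul_cancel (y 0)) (dist_mul D0 _) (tr h01) (tr h03) (tr h34)
        · exact leaf29 htf (inv_mul_cancel (y 0)) (dist_mul D0 _) (tr h01) (tr h03) (tr h04) (tr h34)
      · rcases opt14 D with h14 | h14 | h14 | h14 | h14 | h14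
        · exact leaf13 htf (inv_mul_cancel (y 0)) (dist_mul D0 _) (tr h04) (tr h14)
        · exact leaf30 htf (inv_mul_cancel (y 0)) (dist_mul D0 _) (tr h03) (tr h04) (tr h14)
        · exact leaf31 htf (inv_mul_cancel (y 0)) (dist_mul D0 _) (tr h01) (tr h03) (tr h04) (tr h14)
        · exact leaf32 htf (inv_mul_cancel (y 0)) (dist_mul D0 _) (tr h01) (tr h03) (tr h04) (tr h14)
        · exact leaf33 htf (inv_mul_cancel (y 0)) (dist_mul D0 _) (tr h03) (tr h14)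
        · exact leaf23 htf (inv_mul_cancel (y 0)) (dist_mul D0 _) (tr h01) (tr h14)
    · rcases opt12 D with h12 | h12 | h12 | h12 | h12 | h12
      · rcases opt24 D with h24 | h24 | h24 | h24 | h24 | h24
        · exact leaf3 htf (inv_mul_cancel (y 0)) (dist_mul D0 _) (tr h01) (tr h24)
        · exact leaf34 htf (inv_mul_cancel (y 0)) (dist_mul D0 _) (tr h01) (tr h04) (tr h24)
        · rcases opt02 D with h02 | h02 | h02 | h02 | h02 | h02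
          · exact leaf35 htf (inv_mul_cancel (y 0)) (dist_mul D0 _) (tr h02) (tr h04)
          · exact leaf36 htf (inv_mul_cancel (y 0)) (dist_mul D0 _) (tr h02) (tr h04) (tr h12)
          · exact leaf37 htf (inv_mul_cancel (y 0)) (dist_mul D0 _) (tr h02) (tr h04) (tr h24)
          · exact leaf38 htf (inv_mul_cancel (y 0)) (dist_mul D0 _) (tr h01) (tr h02) (tr h04) (tr h12)
          · exact leaf39 htf (inv_mul_cancel (y 0)) (dist_mul D0 _) (tr h02) (tr h24)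
          · exact leaf40 htf (inv_mul_cancel (y 0)) (dist_mul D0 _) (tr h01) (tr h02) (tr h24)
        · exact leaf41 htf (inv_mul_cancel (y 0)) (dist_mul D0 _) (tr h04) (tr h24)
        · exact leaf42 htf (inv_mul_cancel (y 0)) (dist_mul D0 _) (tr h12) (tr h24)
        · exact leaf43 htf (inv_mul_cancel (y 0)) (dist_mul D0 _) (tr h01) (tr h04) (tr h12) (tr h24)
      · exact leaf44 htf (inv_mul_cancel (y 0)) (dist_mul D0 _) (tr h04) (tr h12)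
      · exact leaf45 htf (inv_mul_cancel (y 0)) (dist_mul D0 _) (tr h01) (tr h12)
      · rcases opt03 D with h03 | h03 | h03 | h03 | h03 | h03
        · exact leaf46 htf (inv_mul_cancel (y 0)) (dist_mul D0 _) (tr h03) (tr h04) (tr h12)
        · exact leaf47 htf (inv_mul_cancel (y 0)) (dist_mul D0 _) (tr h03) (tr h04)
        · exact leaf12 htf (inv_mul_cancel (y 0)) (dist_mul D0 _) (tr h01) (tr h03)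
        · exact leaf48 htf (inv_mul_cancel (y 0)) (dist_mul D0 _) (tr h01) (tr h03) (tr h04)
        · exact leaf49 htf (inv_mul_cancel (y 0)) (dist_mul D0 _) (tr h01) (tr h03) (tr h12)
        · exact leaf50 htf (inv_mul_cancel (y 0)) (dist_mul D0 _) (tr h01) (tr h03) (tr h04) (tr h12)
      · exact leaf51 htf (inv_mul_cancel (y 0)) (dist_mul D0 _) (tr h01) (tr h04) (tr h12)
      · rcases opt24 D with h24 | h24 | h24 | h24 | h24 | h24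
        · exact leaf3 htf (inv_mul_cancel (y 0)) (dist_mul D0 _) (tr h01) (tr h24)
        · exact leaf34 htf (inv_mul_cancel (y 0)) (dist_mul D0 _) (tr h01) (tr h04) (tr h24)
        · exact leaf52 htf (inv_mul_cancel (y 0)) (dist_mul D0 _) (tr h01) (tr h04) (tr h12) (tr h24)
        · exact leaf41 htf (inv_mul_cancel (y 0)) (dist_mul D0 _) (tr h04) (tr h24)
        · exact leaf53 htf (inv_mul_cancel (y 0)) (dist_mul D0 _) (tr h01) (tr h04) (tr h12) (tr h24)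
        · exact leaf54 htf (inv_mul_cancel (y 0)) (dist_mul D0 _) (tr h12) (tr h24)
    · rcases opt03 D with h03 | h03 | h03 | h03 | h03 | h03
      · rcases opt34 D with h34 | h34 | h34 | h34 | h34 | h34
        · exact leaf55 htf (inv_mul_cancel (y 0)) (dist_mul D0 _) (tr h03) (tr h04) (tr h34)
        · exact leaf56 htf (inv_mul_cancel (y 0)) (dist_mul D0 _) (tr h01) (tr h03) (tr h04) (tr h34)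
        · exact leaf26 htf (inv_mul_cancel (y 0)) (dist_mul D0 _) (tr h01) (tr h34)
        · exact leaf57 htf (inv_mul_cancel (y 0)) (dist_mul D0 _) (tr h03) (tr h04) (tr h34)
        · exact leaf58 htf (inv_mul_cancel (y 0)) (dist_mul D0 _) (tr h03) (tr h04) (tr h34)
        · exact leaf59 htf (inv_mul_cancel (y 0)) (dist_mul D0 _) (tr h03) (tr h34)
      · rcases opt24 D with h24 | h24 | h24 | h24 | h24 | h24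
        · exact leaf3 htf (inv_mul_cancel (y 0)) (dist_mul D0 _) (tr h01) (tr h24)
        · exact leaf4 htf (inv_mul_cancel (y 0)) (dist_mul D0 _) (tr h03) (tr h24)
        · exact leaf60 htf (inv_mul_cancel (y 0)) (dist_mul D0 _) (tr h01) (tr h03) (tr h04) (tr h24)
        · exact leaf61 htf (inv_mul_cancel (y 0)) (dist_mul D0 _) (tr h01) (tr h03) (tr h04) (tr h24)
        · exact leaf62 htf (inv_mul_cancel (y 0)) (dist_mul D0 _) (tr h01) (tr h03) (tr h04) (tr h24)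
        · exact leaf63 htf (inv_mul_cancel (y 0)) (dist_mul D0 _) (tr h01) (tr h04) (tr h24)
      · exact leaf12 htf (inv_mul_cancel (y 0)) (dist_mul D0 _) (tr h01) (tr h03)
      · exact leaf64 htf (inv_mul_cancel (y 0)) (dist_mul D0 _) (tr h01) (tr h03) (tr h04)
      · exact leaf65 htf (inv_mul_cancel (y 0)) (dist_mul D0 _) (tr h01) (tr h03) (tr h04)
      · rcases opt12 D with h12 | h12 | h12 | h12 | h12 | h12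
        · exact leaf66 htf (inv_mul_cancel (y 0)) (dist_mul D0 _) (tr h03) (tr h12)
        · exact leaf67 htf (inv_mul_cancel (y 0)) (dist_mul D0 _) (tr h04) (tr h12)
        · exact leaf45 htf (inv_mul_cancel (y 0)) (dist_mul D0 _) (tr h01) (tr h12)
        · exact leaf68 htf (inv_mul_cancel (y 0)) (dist_mul D0 _) (tr h01) (tr h03) (tr h04) (tr h12)
        · rcases opt34 D with h34 | h34 | h34 | h34 | h34 | h34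
          · exact leaf69 htf (inv_mul_cancel (y 0)) (dist_mul D0 _) (tr h01) (tr h03) (tr h04) (tr h34)
          · rcases opt13 D with h13 | h13 | h13 | h13 | h13 | h13
            · exact leaf70 htf (inv_mul_cancel (y 0)) (dist_mul D0 _) (tr h03) (tr h04) (tr h13) (tr h34)
            · exact leaf71 htf (inv_mul_cancel (y 0)) (dist_mul D0 _) (tr h01) (tr h04) (tr h13)
            · exact leaf72 htf (inv_mul_cancel (y 0)) (dist_mul D0 _) (tr h13) (tr h34)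
            · exact leaf73 htf (inv_mul_cancel (y 0)) (dist_mul D0 _) (tr h01) (tr h03) (tr h04) (tr h13)
            · exact leaf74 htf (inv_mul_cancel (y 0)) (dist_mul D0 _) (tr h04) (tr h13)
            · exact leaf75 htf (inv_mul_cancel (y 0)) (dist_mul D0 _) (tr h03) (tr h13)
          · exact leaf26 htf (inv_mul_cancel (y 0)) (dist_mul D0 _) (tr h01) (tr h34)
          · exact leaf76 htf (inv_mul_cancel (y 0)) (dist_mul D0 _) (tr h01) (tr h03) (tr h04) (tr h34)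
          · exact leaf77 htf (inv_mul_cancel (y 0)) (dist_mul D0 _) (tr h03) (tr h34)
          · exact leaf78 htf (inv_mul_cancel (y 0)) (dist_mul D0 _) (tr h04) (tr h34)
        · exact leaf79 htf (inv_mul_cancel (y 0)) (dist_mul D0 _) (tr h04) (tr h12)
    · exact leaf80 htf (inv_mul_cancel (y 0)) (dist_mul D0 _) (tr h01) (tr h04)
    · rcases opt12 D with h12 | h12 | h12 | h12 | h12 | h12
      · rcases opt34 D with h34 | h34 | h34 | h34 | h34 | h34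
        · exact leaf81 htf (inv_mul_cancel (y 0)) (dist_mul D0 _) (tr h04) (tr h34)
        · rcases opt14 D with h14 | h14 | h14 | h14 | h14 | h14
          · exact leaf82 htf (inv_mul_cancel (y 0)) (dist_mul D0 _) (tr h14) (tr h34)
          · exact leaf83 htf (inv_mul_cancel (y 0)) (dist_mul D0 _) (tr h12) (tr h14)
          · exact leaf84 htf (inv_mul_cancel (y 0)) (dist_mul D0 _) (tr h04) (tr h14) (tr h34)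
          · exact leaf85 htf (inv_mul_cancel (y 0)) (dist_mul D0 _) (tr h01) (tr h04) (tr h12) (tr h14)
          · exact leaf86 htf (inv_mul_cancel (y 0)) (dist_mul D0 _) (tr h01) (tr h12) (tr h14) (tr h34)
          · exact leaf23 htf (inv_mul_cancel (y 0)) (dist_mul D0 _) (tr h01) (tr h14)
        · exact leaf26 htf (inv_mul_cancel (y 0)) (dist_mul D0 _) (tr h01) (tr h34)
        · exact leaf87 htf (inv_mul_cancel (y 0)) (dist_mul D0 _) (tr h01) (tr h04) (tr h12) (tr h34)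
        · exact leaf88 htf (inv_mul_cancel (y 0)) (dist_mul D0 _) (tr h01) (tr h04) (tr h12) (tr h34)
        · exact leaf89 htf (inv_mul_cancel (y 0)) (dist_mul D0 _) (tr h12) (tr h34)
      · rcases opt34 D with h34 | h34 | h34 | h34 | h34 | h34
        · exact leaf81 htf (inv_mul_cancel (y 0)) (dist_mul D0 _) (tr h04) (tr h34)
        · exact leaf90 htf (inv_mul_cancel (y 0)) (dist_mul D0 _) (tr h01) (tr h04) (tr h12) (tr h34)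
        · exact leaf26 htf (inv_mul_cancel (y 0)) (dist_mul D0 _) (tr h01) (tr h34)
        · exact leaf91 htf (inv_mul_cancel (y 0)) (dist_mul D0 _) (tr h12) (tr h34)
        · exact leaf92 htf (inv_mul_cancel (y 0)) (dist_mul D0 _) (tr h01) (tr h04) (tr h12) (tr h34)
        · exact leaf93 htf (inv_mul_cancel (y 0)) (dist_mul D0 _) (tr h01) (tr h04) (tr h12) (tr h34)
      · exact leaf45 htf (inv_mul_cancel (y 0)) (dist_mul D0 _) (tr h01) (tr h12)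
      · rcases opt02 D with h02 | h02 | h02 | h02 | h02 | h02
        · rcases opt03 D with h03 | h03 | h03 | h03 | h03 | h03
          · exact leaf94 htf (inv_mul_cancel (y 0)) (dist_mul D0 _) (tr h02) (tr h03)
          · exact leaf95 htf (inv_mul_cancel (y 0)) (dist_mul D0 _) (tr h02) (tr h03) (tr h04) (tr h12)
          · exact leaf12 htf (inv_mul_cancel (y 0)) (dist_mul D0 _) (tr h01) (tr h03)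
          · exact leaf96 htf (inv_mul_cancel (y 0)) (dist_mul D0 _) (tr h01) (tr h03) (tr h12)
          · exact leaf49 htf (inv_mul_cancel (y 0)) (dist_mul D0 _) (tr h01) (tr h03) (tr h12)
          · exact leaf97 htf (inv_mul_cancel (y 0)) (dist_mul D0 _) (tr h02) (tr h03) (tr h04)
        · exact leaf98 htf (inv_mul_cancel (y 0)) (dist_mul D0 _) (tr h01) (tr h02) (tr h12)
        · exact leaf99 htf (inv_mul_cancel (y 0)) (dist_mul D0 _) (tr h02) (tr h04)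
        · exact leaf100 htf (inv_mul_cancel (y 0)) (dist_mul D0 _) (tr h02) (tr h12)
        · exact leaf101 htf (inv_mul_cancel (y 0)) (dist_mul D0 _) (tr h01) (tr h02) (tr h04) (tr h12)
        · exact leaf102 htf (inv_mul_cancel (y 1)) (dist_mul D0 _) (tr h01) (tr h02) (tr h12)
      · exact leaf103 htf (inv_mul_cancel (y 0)) (dist_mul D0 _) (tr h04) (tr h12)
      · rcases opt24 D with h24 | h24 | h24 | h24 | h24 | h24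
        · exact leaf3 htf (inv_mul_cancel (y 0)) (dist_mul D0 _) (tr h01) (tr h24)
        · exact leaf104 htf (inv_mul_cancel (y 0)) (dist_mul D0 _) (tr h01) (tr h04) (tr h12) (tr h24)
        · exact leaf105 htf (inv_mul_cancel (y 0)) (dist_mul D0 _) (tr h01) (tr h04) (tr h12) (tr h24)
        · exact leaf106 htf (inv_mul_cancel (y 0)) (dist_mul D0 _) (tr h01) (tr h04) (tr h12) (tr h24)
        · exact leaf107 htf (inv_mul_cancel (y 0)) (dist_mul D0 _) (tr h04) (tr h12) (tr h24)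
        · exact leaf108 htf (inv_mul_cancel (y 0)) (dist_mul D0 _) (tr h04) (tr h24)
    · rcases opt14 D with h14 | h14 | h14 | h14 | h14 | h14
      · exact leaf109 htf (inv_mul_cancel (y 0)) (dist_mul D0 _) (tr h01) (tr h04) (tr h14)
      · rcases opt12 D with h12 | h12 | h12 | h12 | h12 | h12
        · exact leaf83 htf (inv_mul_cancel (y 0)) (dist_mul D0 _) (tr h12) (tr h14)
        · exact leaf110 htf (inv_mul_cancel (y 0)) (dist_mul D0 _) (tr h04) (tr h12)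
        · exact leaf45 htf (inv_mul_cancel (y 0)) (dist_mul D0 _) (tr h01) (tr h12)
        · exact leaf111 htf (inv_mul_cancel (y 0)) (dist_mul D0 _) (tr h01) (tr h04) (tr h12) (tr h14)
        · exact leaf112 htf (inv_mul_cancel (y 0)) (dist_mul D0 _) (tr h01) (tr h04) (tr h12) (tr h14)
        · exact leaf113 htf (inv_mul_cancel (y 0)) (dist_mul D0 _) (tr h01) (tr h04) (tr h12) (tr h14)
      · rcases opt34 D with h34 | h34 | h34 | h34 | h34 | h34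
        · exact leaf114 htf (inv_mul_cancel (y 0)) (dist_mul D0 _) (tr h01) (tr h04) (tr h14) (tr h34)
        · exact leaf115 htf (inv_mul_cancel (y 0)) (dist_mul D0 _) (tr h04) (tr h34)
        · exact leaf26 htf (inv_mul_cancel (y 0)) (dist_mul D0 _) (tr h01) (tr h34)
        · exact leaf116 htf (inv_mul_cancel (y 0)) (dist_mul D0 _) (tr h01) (tr h04) (tr h14) (tr h34)
        · exact leaf117 htf (inv_mul_cancel (y 0)) (dist_mul D0 _) (tr h14) (tr h34)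
        · exact leaf118 htf (inv_mul_cancel (y 0)) (dist_mul D0 _) (tr h01) (tr h04) (tr h14) (tr h34)
      · exact leaf119 htf (inv_mul_cancel (y 0)) (dist_mul D0 _) (tr h01) (tr h04) (tr h14)
      · exact leaf120 htf (inv_mul_cancel (y 0)) (dist_mul D0 _) (tr h01) (tr h04) (tr h14)
      · exact leaf23 htf (inv_mul_cancel (y 0)) (dist_mul D0 _) (tr h01) (tr h14)
  · exact leaf121 htf (inv_mul_cancel (y 0)) (dist_mul D0 _) (tr h01) (tr h23)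
  · exact leaf122 htf (inv_mul_cancel (y 0)) (dist_mul D0 _) (tr h01) (tr h23)
  · rcases opt04 D with h04 | h04 | h04 | h04 | h04 | h04
    · rcases opt03 D with h03 | h03 | h03 | h03 | h03 | h03
      · exact leaf0 htf (inv_mul_cancel (y 0)) (dist_mul D0 _) (tr h03) (tr h04)
      · exact leaf123 htf (inv_mul_cancel (y 0)) (dist_mul D0 _) (tr h03) (tr h23)
      · exact leaf12 htf (inv_mul_cancel (y 0)) (dist_mul D0 _) (tr h01) (tr h03)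
      · exact leaf124 htf (inv_mul_cancel (y 0)) (dist_mul D0 _) (tr h01) (tr h03) (tr h04) (tr h23)
      · exact leaf125 htf (inv_mul_cancel (y 0)) (dist_mul D0 _) (tr h01) (tr h03) (tr h04) (tr h23)
      · exact leaf126 htf (inv_mul_cancel (y 0)) (dist_mul D0 _) (tr h01) (tr h03) (tr h04) (tr h23)
    · exact leaf127 htf (inv_mul_cancel (y 1)) (dist_mul D0 _) (tr h01) (tr h04) (tr h23)
    · exact leaf128 htf (inv_mul_cancel (y 0)) (dist_mul D0 _) (tr h01) (tr h04) (tr h23)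
    · exact leaf80 htf (inv_mul_cancel (y 0)) (dist_mul D0 _) (tr h01) (tr h04)
    · rcases opt24 D with h24 | h24 | h24 | h24 | h24 | h24
      · exact leaf3 htf (inv_mul_cancel (y 0)) (dist_mul D0 _) (tr h01) (tr h24)
      · exact leaf129 htf (inv_mul_cancel (y 0)) (dist_mul D0 _) (tr h01) (tr h04) (tr h23) (tr h24)
      · exact leaf130 htf (inv_mul_cancel (y 0)) (dist_mul D0 _) (tr h01) (tr h04) (tr h23) (tr h24)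
      · exact leaf131 htf (inv_mul_cancel (y 0)) (dist_mul D0 _) (tr h23) (tr h24)
      · exact leaf132 htf (inv_mul_cancel (y 0)) (dist_mul D0 _) (tr h01) (tr h04) (tr h23) (tr h24)
      · exact leaf108 htf (inv_mul_cancel (y 0)) (dist_mul D0 _) (tr h04) (tr h24)
    · exact leaf133 htf (inv_mul_cancel (y 0)) (dist_mul D0 _) (tr h01) (tr h04) (tr h23)
  · rcases opt14 D with h14 | h14 | h14 | h14 | h14 | h14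
    · exact leaf134 htf (inv_mul_cancel (y 0)) (dist_mul D0 _) (tr h01) (tr h14) (tr h23)
    · rcases opt12 D with h12 | h12 | h12 | h12 | h12 | h12
      · exact leaf83 htf (inv_mul_cancel (y 0)) (dist_mul D0 _) (tr h12) (tr h14)
      · exact leaf135 htf (inv_mul_cancel (y 0)) (dist_mul D0 _) (tr h12) (tr h23)
      · exact leaf45 htf (inv_mul_cancel (y 0)) (dist_mul D0 _) (tr h01) (tr h12)
      · exact leaf136 htf (inv_mul_cancel (y 0)) (dist_mul D0 _) (tr h01) (tr h12) (tr h14) (tr h23)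
      · exact leaf137 htf (inv_mul_cancel (y 0)) (dist_mul D0 _) (tr h01) (tr h12) (tr h14) (tr h23)
      · exact leaf138 htf (inv_mul_cancel (y 0)) (dist_mul D0 _) (tr h01) (tr h12) (tr h14) (tr h23)
    · rcases opt34 D with h34 | h34 | h34 | h34 | h34 | h34
      · exact leaf139 htf (inv_mul_cancel (y 0)) (dist_mul D0 _) (tr h01) (tr h14) (tr h23) (tr h34)
      · exact leaf140 htf (inv_mul_cancel (y 0)) (dist_mul D0 _) (tr h23) (tr h34)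
      · exact leaf26 htf (inv_mul_cancel (y 0)) (dist_mul D0 _) (tr h01) (tr h34)
      · exact leaf141 htf (inv_mul_cancel (y 0)) (dist_mul D0 _) (tr h01) (tr h14) (tr h23) (tr h34)
      · exact leaf117 htf (inv_mul_cancel (y 0)) (dist_mul D0 _) (tr h14) (tr h34)
      · exact leaf142 htf (inv_mul_cancel (y 0)) (dist_mul D0 _) (tr h01) (tr h14) (tr h23) (tr h34)
    · exact leaf143 htf (inv_mul_cancel (y 0)) (dist_mul D0 _) (tr h01) (tr h14) (tr h23)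
    · exact leaf144 htf (inv_mul_cancel (y 0)) (dist_mul D0 _) (tr h01) (tr h14) (tr h23)
    · exact leaf23 htf (inv_mul_cancel (y 0)) (dist_mul D0 _) (tr h01) (tr h14)
  · exact leaf145 htf (inv_mul_cancel (y 0)) (dist_mul D0 _) (tr h01) (tr h23)

end Pool.Agent.U731.ZD
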