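import Pool.Agent.U731.ZD.Four

set_option autoImplicit false
set_option linter.unusedSectionVars false

/-! Five elements: chains. -/

namespace Pool.Agent.U731.ZD

variable {G : Type} [Group G]

/-- The quotients have several representations. -/
def H5 (g : Fin 5 → G) : Prop :=
  ∀ i j : Fin 5, i ≠ j → ∃ a b, ¬ (a = i ∧ b = j) ∧ (g a)⁻¹ * g b = (g i)⁻¹ * g j

section rel

variable (htf : ∀ g : G, ∀ n : ℕ, 0 < n → g ^ n = 1 → g = 1) {v t : G} (hv : v ≠ 1)

/-- `v ^ m * t = t * v ^ n` -/
def Rel (v t : G) (m n : ℤ) : Prop := v ^ m * t = t * v ^ n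

theorem Rel.zpow {m n : ℤ} (h : Rel v t m n) (k : ℤ) : Rel v t (m * k) (n * k) := by
  have h1 : SemiconjBy t (v ^ n) (v ^ m) := h.symm
  have h2 := (h1.zpow_right k).eq
  rw [← zpow_mul, ← zpow_mul] at h2
  exact h2.symm

include htf hv in
theorem Rel.slope {m n m' n' : ℤ} (h : Rel v t m n) (h' : Rel v t m' n') : m * n' = m' * n := by
  have h1 := h.zpow m'
  have h2 := h'.zpow m
  unfold Rel at h1 h2
  rw [mul_comm m' m, h1] at h2
  have h3 := zpow_inj_tf htf hv (mul_left_cancel h2)
  linarith

include htf hv in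
theorem Rel.zero_left {n : ℤ} (h : Rel v t 0 n) : n = 0 := by
  unfold Rel at h
  rw [zpow_zero, one_mul] at h
  exact zpow_tf htf hv (mul_eq_left.1 h.symm)

include htf hv in
theorem Rel.zero_right {m : ℤ} (h : Rel v t m 0) : m = 0 := by
  unfold Rel at h
  rw [zpow_zero, mul_one] at h
  exact zpow_tf htf hv (mul_eq_right.1 h)

/-- relations of the second kind -/
theorem rel_sq {a b : ℤ} (h : t * v ^ a * t = v ^ b) : Rel v t (a + b) (a + b) := by
  have h1 : (t * v ^ a) * (t * v ^ a) = v ^ (a + b) := by
    rw [← mul_assoc, h, ← zpow_add, add_comm]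
  have h2 : v ^ (a + b) * (t * v ^ a) = (t * v ^ a) * v ^ (a + b) := by
    rw [← h1]; simp only [mul_assoc]
  unfold Rel
  have h3 : v ^ (a + b) * t * v ^ a = t * v ^ (a + b) * v ^ a := by
    rw [mul_assoc, h2, mul_assoc, mul_assoc, ← zpow_add, ← zpow_add]
    congr 2
    ring
  exact mul_right_cancel h3

include htf in
theorem rel_sq_ne (htv : ∀ n : ℤ, t ≠ v ^ n) {a b : ℤ} (h : t * v ^ a * t = v ^ b) :
    a + b ≠ 0 := by
  intro h0
  have h1 : (t * v ^ a) * (t * v ^ a) = 1 := by
    rw [← mul_assoc, h, ← zpow_add, add_comm, h0, zpow_zero]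
  have h2 := htf (t * v ^ a) 2 (by norm_num) (by rw [pow_two, h1])
  apply htv (-a)
  rw [zpow_neg]
  exact eq_inv_of_mul_eq_one_left h2

/-- the two kinds of relations for the quotient `v ^ (-i) * t * v ^ j` -/
def F (v t : G) (i j : ℤ) : Prop :=
  (∃ e e' : ℤ, (e = 0 ∨ e = 1 ∨ e = 2) ∧ (e' = 0 ∨ e' = 2) ∧ ¬ (e = i ∧ e' = j) ∧
    Rel v t (e - i) (e' - j)) ∨
  (∃ e e' : ℤ, (e = 0 ∨ e = 2) ∧ (e' = 0 ∨ e' = 1 ∨ e' = 2) ∧ t * v ^ (j - e') * t = v ^ (i - e))

include htf hv in
theorem caseB (htv : ∀ n : ℤ, t ≠ v ^ n) (h00 : F v t 0 0) (h02 : F v t 0 2) (h20 : F v t 2 0) :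
    False := by
  rcases h02 with ⟨e, e', he, he', hne, hR⟩ | ⟨e, e', he, he', hQ⟩
  · have he2 : e' = 0 := by
      rcases he' with h | h
      · exact h
      · exfalso
        rw [h] at hR
        have := Rel.zero_right htf hv (by simpa using hR)
        exact hne ⟨this, h⟩
    rw [he2] at hR
    have he0 : e ≠ 0 := by
      intro h
      rw [h] at hR
      have := Rel.zero_left htf hv (by simpa using hR)
      omega
    rcases h00 with ⟨f, f', hf, hf', hnf, hS⟩ | ⟨f, f', hf, hf', hQ⟩
    · have h1 := Rel.slope htf hv hR hS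
      have hf2 : f' = 2 := by
        rcases hf' with h | h
        · exfalso
          rw [h] at hS
          have := Rel.zero_right htf hv (by simpa using hS)
          exact hnf ⟨this, h⟩
        · exact h
      have hf0 : f ≠ 0 := by
        intro h
        rw [h] at hS
        have := Rel.zero_left htf hv (by simpa using hS)
        omega
      rcases he with h | h | h <;> rcases hf with h' | h' | h' <;> subst h <;> subst h' <;>
        simp_all
    · have h1 := rel_sq_ne htf htv hQ
      have h2 := Rel.slope htf hv hR (rel_sq hQ)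
      have h3 : e - 0 = 0 - 2 := by
        have h4 : (0 - f' + (0 - f)) * (e - 0) = (0 - f' + (0 - f)) * (0 - 2) := by linarith
        exact mul_left_cancel₀ h1 h4
      rcases he with h | h | h <;> omega
  · have hc := rel_sq_ne htf htv hQ
    have hRc := rel_sq hQ
    have hR2 : Rel v t 2 2 := by
      have : (2 : ℤ) - e' + (0 - e) = 1 ∨ (2 : ℤ) - e' + (0 - e) = 2 ∨
          (2 : ℤ) - e' + (0 - e) = -1 ∨ (2 : ℤ) - e' + (0 - e) = -2 := by
        rcases he with h | h <;> rcases he' with h' | h' | h' <;> omega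
      rcases this with h | h | h | h <;> rw [h] at hRc
      · simpa using hRc.zpow 2
      · exact hRc
      · simpa using hRc.zpow (-2)
      · simpa using hRc.zpow (-1)
    have hR1 : e' = 1 → Rel v t 1 1 := by
      intro h1
      have : (2 : ℤ) - e' + (0 - e) = 1 ∨ (2 : ℤ) - e' + (0 - e) = -1 := by
        rcases he with h | h <;> omega
      rcases this with h | h <;> rw [h] at hRc
      · exact hRc
      · simpa using hRc.zpow (-1)
    have ht2 : t * t = v ^ (-e - 2 + e') := by
      have hcm : v ^ (2 - e') * t = t * v ^ (2 - e') := by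
        rcases he' with h | h | h
        · rw [h]; exact hR2
        · have := hR1 h
          rw [h]; exact this
        · rw [h]; simp
      rw [mul_assoc, hcm, ← mul_assoc] at hQ
      rw [eq_mul_inv_of_mul_eq hQ, ← zpow_neg, ← zpow_add]
      congr 1
      ring
    rcases h20 with ⟨f, f', hf, hf', hnf, hS⟩ | ⟨f, f', hf, hf', hQ'⟩
    · have h1 := Rel.slope htf hv hR2 hS
      rcases hf with h | h | h <;> rcases hf' with h' | h' <;> subst h <;> subst h' <;>
        simp_all
    · have hc' := rel_sq_ne htf htv hQ'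
      have hRc' := rel_sq hQ'
      have hR1' : f' = 1 → Rel v t 1 1 := by
        intro h1
        have : (0 : ℤ) - f' + (2 - f) = 1 ∨ (0 : ℤ) - f' + (2 - f) = -1 := by
          rcases hf with h | h <;> omega
        rcases this with h | h <;> rw [h] at hRc'
        · exact hRc'
        · simpa using hRc'.zpow (-1)
      have ht2' : t * t = v ^ (2 - f + f') := by
        have hcm : v ^ (0 - f') * t = t * v ^ (0 - f') := by
          rcases hf' with h | h | h
          · rw [h]; simp
          · have := (hR1' h).zpow (-1)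
            rw [h]; simpa [Rel] using this
          · rw [h]
            have := hR2.zpow (-1)
            simpa [Rel] using this
        rw [mul_assoc, hcm, ← mul_assoc] at hQ'
        rw [eq_mul_inv_of_mul_eq hQ', ← zpow_neg, ← zpow_add]
        congr 1
        ring
      rw [ht2] at ht2'
      have h1 := zpow_inj_tf htf hv ht2'
      rcases he with h | h <;> rcases he' with h' | h' | h' <;> rcases hf with k | k <;>
        rcases hf' with k' | k' | k' <;> omega

end rel

end Pool.Agent.U731.ZD
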