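import Pool.Agent.U731.ZD.FiveB

set_option autoImplicit false
set_option linter.unusedSectionVars false

/-! Five elements: there are no chains. -/

namespace Pool.Agent.U731.ZD

variable {G : Type} [Group G]

theorem all_five {i j k a b : Fin 5} (h : [i, j, k, a, b].Nodup) (p : Fin 5) :
    p = i ∨ p = j ∨ p = k ∨ p = a ∨ p = b := by
  by_contra hcon
  have h1 : ([p, i, j, k, a, b] : List (Fin 5)).Nodup := by
    rw [List.nodup_cons]
    refine ⟨?_, h⟩
    simp only [List.mem_cons, List.not_mem_nil, or_false]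
    exact hcon
  have h2 := h1.length_le_card
  simp at h2

variable (htf : ∀ g : G, ∀ n : ℕ, 0 < n → g ^ n = 1 → g = 1)

include htf in
theorem chain_shape {g : Fin 5 → G} (hg : Function.Injective g) (H : H5 g) (v : G) (hv : v ≠ 1)
    (i j k : Fin 5) (hij : i ≠ j) (hik : i ≠ k) (hjk : j ≠ k) (h1 : g j = g i * v ^ (1 : ℤ))
    (h2 : g k = g i * v ^ (2 : ℤ)) :
    ∃ a b : Fin 5, [i, j, k, a, b].Nodup ∧ g b = g a * v ^ (2 : ℤ) ∧
      ∀ n : ℤ, g a ≠ g i * v ^ n := by
  classical
  set I : Finset (Fin 5) := Finset.univ.filter fun a => ∃ e : ℤ, g a = g i * v ^ e with hI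
  have hE' : ∀ a : Fin 5, ∃ e : ℤ, a ∈ I → g a = g i * v ^ e := by
    intro a
    by_cases ha : a ∈ I
    · obtain ⟨e, he⟩ := (Finset.mem_filter.1 ha).2
      exact ⟨e, fun _ => he⟩
    · exact ⟨0, fun h => absurd h ha⟩
  choose E hE using hE'
  have hmem : ∀ a, (∃ e : ℤ, g a = g i * v ^ e) → a ∈ I := fun a ha =>
    Finset.mem_filter.2 ⟨Finset.mem_univ _, ha⟩
  have hi : i ∈ I := hmem i ⟨0, by simp⟩
  have hj : j ∈ I := hmem j ⟨1, h1⟩
  have hk : k ∈ I := hmem k ⟨2, h2⟩
  have Ei : E i = 0 := by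
    have h3 := hE i hi
    have h4 : v ^ E i = 1 := by
      have : g i * v ^ E i = g i * 1 := by rw [mul_one]; exact h3.symm
      exact mul_left_cancel this
    exact zpow_tf htf hv h4
  have Ej : E j = 1 := by
    have h3 := hE j hj
    rw [h1] at h3
    exact (zpow_inj_tf htf hv (mul_left_cancel h3)).symm
  have Ek : E k = 2 := by
    have h3 := hE k hk
    rw [h2] at h3
    exact (zpow_inj_tf htf hv (mul_left_cancel h3)).symm
  have hEinj : ∀ a ∈ I, ∀ b ∈ I, E a = E b → a = b := by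
    intro a ha b hb hab
    apply hg
    rw [hE a ha, hE b hb, hab]
  have hquot : ∀ a ∈ I, ∀ b ∈ I, (g a)⁻¹ * g b = v ^ (E b - E a) := by
    intro a ha b hb
    rw [hE a ha, hE b hb, zpow_sub]
    group
  obtain ⟨p, hp, hpm⟩ := Finset.exists_min_image I E ⟨i, hi⟩
  obtain ⟨q, hq, hqm⟩ := Finset.exists_max_image I E ⟨i, hi⟩
  have hp1 := hpm i hi
  have hq1 := hqm k hk
  have hpq : p ≠ q := by
    intro h
    subst h
    omega
  obtain ⟨a, b, hne, hab⟩ := H p q hpq
  rw [hquot p hp q hq] at hab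
  have hab' : g b = g a * v ^ (E q - E p) := by rw [← hab]; group
  have haI : a ∉ I := by
    intro ha
    have hb : b ∈ I := by
      apply hmem
      refine ⟨E a + (E q - E p), ?_⟩
      rw [zpow_add, ← mul_assoc, ← hE a ha]
      exact hab'
    rw [hquot a ha b hb] at hab
    have h3 := zpow_inj_tf htf hv hab
    have h4 := hpm a ha
    have h5 := hqm b hb
    exact hne ⟨hEinj _ ha _ hp (by omega), hEinj _ hb _ hq (by omega)⟩
  have hbI : b ∉ I := by
    intro hb
    apply haI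
    apply hmem
    refine ⟨E b - (E q - E p), ?_⟩
    rw [zpow_sub, ← mul_assoc, ← hE b hb, hab']
    group
  have hne' : a ≠ b := by
    intro h
    subst h
    have h3 : v ^ (E q - E p) = 1 := mul_eq_left.1 hab'.symm
    have := zpow_tf htf hv h3
    omega
  have hnd : [i, j, k, a, b].Nodup := by
    simp only [List.nodup_cons, List.mem_cons, List.not_mem_nil, or_false, not_or,
      List.nodup_nil, and_true, not_false_eq_true]
    refine ⟨⟨hij, hik, ?_, ?_⟩, ⟨hjk, ?_, ?_⟩, ⟨?_, ?_⟩, hne'⟩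
    · exact fun h => haI (h ▸ hi)
    · exact fun h => hbI (h ▸ hi)
    · exact fun h => haI (h ▸ hj)
    · exact fun h => hbI (h ▸ hj)
    · exact fun h => haI (h ▸ hk)
    · exact fun h => hbI (h ▸ hk)
  have hD : E q - E p = 2 := by
    have hp2 : 0 ≤ E p := by
      rcases all_five hnd p with h | h | h | h | h
      · rw [h, Ei]
      · rw [h, Ej]; norm_num
      · rw [h, Ek]; norm_num
      · exact absurd (h ▸ hp) haI
      · exact absurd (h ▸ hp) hbI
    have hq2 : E q ≤ 2 := by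
      rcases all_five hnd q with h | h | h | h | h
      · rw [h, Ei]; norm_num
      · rw [h, Ej]; norm_num
      · rw [h, Ek]
      · exact absurd (h ▸ hq) haI
      · exact absurd (h ▸ hq) hbI
    omega
  refine ⟨a, b, hnd, by rw [hab', hD], fun n hn => haI (hmem a ⟨n, hn⟩)⟩

include htf in
theorem chain_false {g : Fin 5 → G} (hg : Function.Injective g) (H : H5 g) (v : G) (hv : v ≠ 1)
    (i j k : Fin 5) (hij : i ≠ j) (hik : i ≠ k) (hjk : j ≠ k) (h1 : g j = g i * v ^ (1 : ℤ))
    (h2 : g k = g i * v ^ (2 : ℤ)) : False := by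
  obtain ⟨a, b, hnd, hb, ha⟩ := chain_shape htf hg H v hv i j k hij hik hjk h1 h2
  obtain ⟨t, ht⟩ : ∃ t, t = (g i)⁻¹ * g a := ⟨_, rfl⟩
  have hat : g a = g i * t := by rw [ht]; group
  have htv : ∀ n : ℤ, t ≠ v ^ n := by
    intro n hn
    apply ha n
    rw [hat, hn]
  have hbt : g b = g i * (t * v ^ (2 : ℤ)) := by rw [hb, hat, mul_assoc]
  -- the shape of the elements
  have hshape : ∀ m : Fin 5, (∃ e : ℤ, (e = 0 ∨ e = 1 ∨ e = 2) ∧ g m = g i * v ^ e) ∨
      (∃ e : ℤ, (e = 0 ∨ e = 2) ∧ g m = g i * (t * v ^ e)) := by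
    intro m
    rcases all_five hnd m with h | h | h | h | h
    · left; exact ⟨0, Or.inl rfl, by rw [h]; simp⟩
    · left; exact ⟨1, Or.inr (Or.inl rfl), by rw [h, h1]⟩
    · left; exact ⟨2, Or.inr (Or.inr rfl), by rw [h, h2]⟩
    · right; exact ⟨0, Or.inl rfl, by rw [h, hat]; simp⟩
    · right; exact ⟨2, Or.inr rfl, by rw [h, hbt]⟩
  have hF : ∀ (α β : Fin 5) (e0 e0' : ℤ), g α = g i * v ^ e0 → g β = g i * (t * v ^ e0') →
      F v t e0 e0' := by
    intro α β e0 e0' hα hβ
    have hαβ : α ≠ β := by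
      intro h
      subst h
      rw [hα] at hβ
      have h3 : v ^ e0 = t * v ^ e0' := mul_left_cancel hβ
      apply htv (e0 - e0')
      rw [zpow_sub, h3, mul_inv_cancel_right]
    obtain ⟨c, d, hne, hcd⟩ := H α β hαβ
    have hq : (g α)⁻¹ * g β = v ^ (-e0) * t * v ^ e0' := by
      rw [hα, hβ, zpow_neg]; group
    rw [hq] at hcd
    have hnot : ∀ n : ℤ, v ^ (-e0) * t * v ^ e0' ≠ v ^ n := by
      intro n hn
      apply htv (e0 + n - e0')
      rw [zpow_sub, zpow_add, ← hn, zpow_neg]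
      group
    rcases hshape c with ⟨e, he, hc⟩ | ⟨e, he, hc⟩ <;> rcases hshape d with ⟨e', he', hd⟩ | ⟨e', he', hd⟩
    · exfalso
      apply hnot (-e + e')
      rw [← hcd, hc, hd, zpow_add, zpow_neg]
      group
    · left
      refine ⟨e, e', he, he', ?_, ?_⟩
      · rintro ⟨h3, h4⟩
        apply hne
        constructor
        · apply hg; rw [hc, hα, h3]
        · apply hg; rw [hd, hβ, h4]
      · have h3 : v ^ (-e) * t * v ^ e' = v ^ (-e0) * t * v ^ e0' := by
          rw [← hcd, hc, hd, zpow_neg]; group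
        unfold Rel
        have h4 : v ^ e * (v ^ (-e0) * t * v ^ e0') * v ^ (-e0') = t * v ^ e' * v ^ (-e0') := by
          rw [← h3, zpow_neg v e]; group
        have h5 : v ^ e * (v ^ (-e0) * t * v ^ e0') * v ^ (-e0') = v ^ (e - e0) * t := by
          rw [sub_eq_add_neg, zpow_add, zpow_neg v e0']; group
        rw [← h5, h4, mul_assoc, ← zpow_add, sub_eq_add_neg]
    · right
      refine ⟨e, e', he, he', ?_⟩
      have h3 : v ^ (-e) * t⁻¹ * v ^ e' = v ^ (-e0) * t * v ^ e0' := by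
        rw [← hcd, hc, hd, zpow_neg]; group
      have h4 : v ^ e0 * (v ^ (-e0) * t * v ^ e0') * v ^ (-e') * t
          = t * v ^ (e0' - e') * t := by
        rw [sub_eq_add_neg, zpow_add, zpow_neg v e0]; group
      rw [← h4, ← h3, zpow_neg v e', zpow_neg v e, zpow_sub]
      have h5 : v ^ e0 * ((v ^ e)⁻¹ * t⁻¹ * v ^ e') * (v ^ e')⁻¹ * t = v ^ e0 * (v ^ e)⁻¹ := by
        group
      exact h5
    · exfalso
      apply hnot (-e + e')
      rw [← hcd, hc, hd, zpow_add, zpow_neg]
      group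
  exact caseB htf hv htv
    (hF i a 0 0 (by simp) (by rw [hat]; simp))
    (hF i b 0 2 (by simp) hbt)
    (hF k a 2 0 h2 (by rw [hat]; simp))

include htf in
/-- The partners are disjoint. -/
theorem H5_disj {g : Fin 5 → G} (hg : Function.Injective g) (H : H5 g) (i j : Fin 5)
    (hij : i ≠ j) : ∃ a b : Fin 5, a ≠ i ∧ a ≠ j ∧ b ≠ i ∧ b ≠ j ∧ a ≠ b ∧
      (g i)⁻¹ * g j = (g a)⁻¹ * g b := by
  obtain ⟨a, b, hne, hab⟩ := H i j hij
  have hv : (g i)⁻¹ * g j ≠ 1 := by
    rw [Ne, inv_mul_eq_one]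
    exact fun h => hij (hg h)
  have hab1 : a ≠ b := by
    intro h
    rw [h, inv_mul_cancel] at hab
    exact hv hab.symm
  have h1 : a ≠ i := by
    intro h
    rw [h] at hab
    exact hne ⟨h, hg (mul_left_cancel hab)⟩
  have h2 : b ≠ j := by
    intro h
    rw [h] at hab
    exact hne ⟨hg (inv_injective (mul_right_cancel hab)), h⟩
  have hzz : ∀ x : G, x ^ (2 : ℤ) = x * x := fun x => zpow_two x
  have h3 : a ≠ j := by
    intro h
    rw [h] at hab
    have hb : g b = g i * ((g i)⁻¹ * g j) ^ (2 : ℤ) := by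
      rw [hzz]
      have : g b = g j * ((g i)⁻¹ * g j) := by rw [← hab]; group
      rw [this]; group
    have hbi : i ≠ b := by
      intro h4
      rw [← h4] at hb
      have h5 : ((g i)⁻¹ * g j) ^ (2 : ℤ) = 1 := mul_eq_left.1 hb.symm
      have := zpow_tf htf hv h5
      omega
    exact chain_false htf hg H _ hv i j b hij hbi h2.symm (by group) hb
  have h4 : b ≠ i := by
    intro h
    rw [h] at hab
    have hi' : g i = g a * ((g i)⁻¹ * g j) ^ (1 : ℤ) := by
      rw [zpow_one, ← hab]; group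
    have hj' : g j = g a * ((g i)⁻¹ * g j) ^ (2 : ℤ) := by
      rw [hzz, ← mul_assoc, ← hab]
      have : g a * ((g a)⁻¹ * g i) = g i := by group
      rw [this, hab]
      group
    exact chain_false htf hg H _ hv a i j h1 h3 hij hi' hj'
  exact ⟨a, b, h1, h3, h4, h2, hab1, hab.symm⟩

end Pool.Agent.U731.ZD
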