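import Pool.Agent.U731.ZD.Rank

set_option autoImplicit false
set_option linter.unusedSectionVars false

/-! Four-term elements. -/

namespace Pool.Agent.U731.ZD

open Finset ComplexConjugate

variable {G : Type} [Group G]

section

variable (htf : ∀ g : G, ∀ n : ℕ, 0 < n → g ^ n = 1 → g = 1)

include htf in
theorem zpow_inj_tf {x : G} (hx : x ≠ 1) {m n : ℤ} (h : x ^ m = x ^ n) : m = n := by
  have h1 : x ^ (m - n) = 1 := by rw [zpow_sub, h, mul_inv_cancel]
  have := zpow_tf htf hx h1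
  omega

include htf in
theorem four_cosets {g : Fin 4 → G} {A : Fin 4 → ℂ} {C : ℝ} (h : NB g A C)
    (hA : ∀ i, 1 ≤ ‖A i‖) (y : G) (hy : y = (g 0)⁻¹ * g 1) (hy1 : y ≠ 1)
    (h02 : ∀ n : ℤ, (g 0)⁻¹ * g 2 ≠ y ^ n) (h03 : ∀ n : ℤ, (g 0)⁻¹ * g 3 ≠ y ^ n)
    (h23 : ∀ n : ℤ, (g 2)⁻¹ * g 3 ≠ y ^ n) : 6 ≤ C := by
  obtain ⟨z, hz, hz'⟩ := exists_phase (A 0) (A 1)
  have hz0 : z ≠ 0 := by rintro rfl; simp at hz
  let P : (Fin 1 → ℤ) → G := fun n => y ^ (-n 0)
  let χ : (Fin 1 → ℤ) → ℂ := fun n => z ^ n 0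
  have hP : ∀ m n, P (m + n) = P m * P n := by
    intro m n
    change y ^ (-(m 0 + n 0)) = y ^ (-m 0) * y ^ (-n 0)
    rw [neg_add, zpow_add]
  have hP1 : P 0 = 1 := by simp [P]
  have hχ : ∀ m n, χ (m + n) = χ m * χ n := by
    intro m n
    change z ^ (m 0 + n 0) = z ^ m 0 * z ^ n 0
    rw [zpow_add₀ hz0]
  have hχ1 : ∀ n, ‖χ n‖ = 1 := by
    intro n
    change ‖z ^ n 0‖ = 1
    rw [norm_zpow, hz, one_zpow]
  have hinj : ∀ n n', P n = P n' → n = n' := by
    intro n n' hn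
    have := zpow_inj_tf htf hy1 hn
    funext i
    fin_cases i
    change n 0 = n' 0
    omega
  have hy' : ∀ (k k' : Unit) n n', (fun _ : Unit => (1 : G)) k * P n
      = (fun _ : Unit => (1 : G)) k' * P n' → k = k' ∧ n = n' := by
    intro k k' n n' hn
    exact ⟨rfl, hinj _ _ (by simpa using hn)⟩
  have hcos : ∀ (p q : G) (n n' : Fin 1 → ℤ), p * P n = q * P n' →
      ∃ k : ℤ, p⁻¹ * q = y ^ k := by
    intro p q n n' hpq
    refine ⟨-n 0 + n' 0, ?_⟩
    have h1 : p * y ^ (-n 0) = q * y ^ (-n' 0) := hpq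
    have h2 : q = p * y ^ (-n 0) * (y ^ (-n' 0))⁻¹ := by rw [h1]; group
    rw [h2, zpow_add]
    group
  have hsym : ∀ (p q : G), (∀ n : ℤ, p⁻¹ * q ≠ y ^ n) → ∀ n : ℤ, q⁻¹ * p ≠ y ^ n := by
    intro p q hpq n hn
    apply hpq (-n)
    rw [zpow_neg, ← hn]
    group
  let e : Fin 3 → G := ![g 0, g 2, g 3]
  have he : ∀ l l' n n', e l * P n = e l' * P n' → l = l' ∧ n = n' := by
    intro l l' n n' hll
    have hl : l = l' := by
      obtain ⟨k, hk⟩ := hcos _ _ _ _ hll
      by_contra hne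
      fin_cases l <;> fin_cases l' <;>
        first
        | exact hne rfl
        | exact h02 k hk
        | exact h03 k hk
        | exact h23 k hk
        | exact hsym _ _ h02 k hk
        | exact hsym _ _ h03 k hk
        | exact hsym _ _ h23 k hk
    subst hl
    exact ⟨rfl, hinj _ _ (mul_left_cancel hll)⟩
  have h1 := boxPsi P χ (fun _ : Unit => (1 : G)) (fun _ => 1) h hP hP1 hχ hχ1 hy' e he
  set Ψ := Psi P χ (fun _ : Unit => (1 : G)) (fun _ => 1) with hΨ
  have pz : ∀ x : G, (∀ n : ℤ, x ≠ y ^ n) → Ψ x = 0 := by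
    intro x hx
    refine Psi_zero P χ _ _ x fun k n => ?_
    simp only [one_mul]
    exact hx _
  have p1 : Ψ 1 = 1 := by
    have := Psi_apply P χ (fun _ : Unit => (1 : G)) (fun _ => 1) hy' () 0
    rw [hP1] at this
    simpa [χ] using this
  have py : Ψ ((g 1)⁻¹ * g 0) = z := by
    have e1 : (g 1)⁻¹ * g 0 = y⁻¹ := by rw [hy]; group
    have := Psi_apply P χ (fun _ : Unit => (1 : G)) (fun _ => 1) hy' () ![1]
    have hPe : P ![1] = y⁻¹ := by simp [P]
    rw [hPe] at this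
    rw [e1]
    simpa [χ] using this
  have p12 : ∀ q : G, (∀ n : ℤ, (g 0)⁻¹ * q ≠ y ^ n) → Ψ ((g 1)⁻¹ * q) = 0 := by
    intro q hq
    apply pz
    intro n hn
    apply hq (1 + n)
    rw [zpow_add, ← hn, zpow_one, hy]
    group
  have v0 : ∑ a, A a * Ψ ((g a)⁻¹ * e 0) = A 0 + A 1 * z := by
    change ∑ a, A a * Ψ ((g a)⁻¹ * g 0) = _
    rw [Fin.sum_univ_four, inv_mul_cancel, p1, py, pz _ (hsym _ _ h02), pz _ (hsym _ _ h03)]
    ring
  have v1 : ∑ a, A a * Ψ ((g a)⁻¹ * e 1) = A 2 := by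
    change ∑ a, A a * Ψ ((g a)⁻¹ * g 2) = _
    rw [Fin.sum_univ_four, inv_mul_cancel, p1, pz _ h02, p12 _ h02, pz _ (hsym _ _ h23)]
    ring
  have v2 : ∑ a, A a * Ψ ((g a)⁻¹ * e 2) = A 3 := by
    change ∑ a, A a * Ψ ((g a)⁻¹ * g 3) = _
    rw [Fin.sum_univ_four, inv_mul_cancel, p1, pz _ h03, p12 _ h03, pz _ h23]
    ring
  rw [Fin.sum_univ_three, v0, v1, v2, hz'] at h1
  simp only [Finset.univ_unique, Finset.sum_singleton, norm_one, one_pow, mul_one] at h1
  have a0 := hA 0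
  have a1 := hA 1
  have a2 := hA 2
  have a3 := hA 3
  nlinarith

/-- The combinatorial condition on four elements. -/
def H4 (g : Fin 4 → G) : Prop :=
  ∀ i j k l : Fin 4, i ≠ j → i ≠ k → i ≠ l → j ≠ k → j ≠ l → k ≠ l →
    ∃ n : ℤ, (g i)⁻¹ * g k = ((g i)⁻¹ * g j) ^ n ∨ (g i)⁻¹ * g l = ((g i)⁻¹ * g j) ^ n ∨
      (g k)⁻¹ * g l = ((g i)⁻¹ * g j) ^ n

include htf in
theorem no_three {g : Fin 4 → G} (hg : Function.Injective g) (H : H4 g) (x : G) (hx : x ≠ 1)
    (i j k : Fin 4) (hij : i ≠ j) (hik : i ≠ k) (hjk : j ≠ k) (m n : ℤ)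
    (hm : g j = g i * x ^ m) (hn : g k = g i * x ^ n) : False := by
  classical
  set I : Finset (Fin 4) := Finset.univ.filter fun a => ∃ e : ℤ, g a = g i * x ^ e with hI
  have hE' : ∀ a : Fin 4, ∃ e : ℤ, a ∈ I → g a = g i * x ^ e := by
    intro a
    by_cases ha : a ∈ I
    · obtain ⟨e, he⟩ := (Finset.mem_filter.1 ha).2
      exact ⟨e, fun _ => he⟩
    · exact ⟨0, fun h => absurd h ha⟩
  choose E hE using hE'
  have hmem : ∀ a, (∃ e : ℤ, g a = g i * x ^ e) → a ∈ I := fun a ha =>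
    Finset.mem_filter.2 ⟨Finset.mem_univ _, ha⟩
  have hi : i ∈ I := hmem i ⟨0, by simp⟩
  have hj : j ∈ I := hmem j ⟨m, hm⟩
  have hk : k ∈ I := hmem k ⟨n, hn⟩
  have hEinj : ∀ a ∈ I, ∀ b ∈ I, E a = E b → a = b := by
    intro a ha b hb hab
    apply hg
    rw [hE a ha, hE b hb, hab]
  have hquot : ∀ a ∈ I, ∀ b ∈ I, (g a)⁻¹ * g b = x ^ (E b - E a) := by
    intro a ha b hb
    rw [hE a ha, hE b hb, zpow_sub]
    group
  obtain ⟨p, hp, hpm⟩ := Finset.exists_min_image I E ⟨i, hi⟩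
  obtain ⟨q, hq, hqm⟩ := Finset.exists_max_image I E ⟨i, hi⟩
  have hpq : p ≠ q := by
    intro h
    subst h
    apply hij
    have h1 := hpm i hi
    have h2 := hqm i hi
    have h3 := hpm j hj
    have h4 := hqm j hj
    exact hEinj _ hi _ hj (by omega)
  obtain ⟨r, s, hpr, hps, hqr, hqs, hrs⟩ : ∃ r s : Fin 4, p ≠ r ∧ p ≠ s ∧ q ≠ r ∧ q ≠ s ∧ r ≠ s := by
    clear hpm hqm hp hq hmem hi hj hk hEinj hquot hE
    revert p q
    decide
  have hall : ∀ a : Fin 4, a = p ∨ a = q ∨ a = r ∨ a = s := by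
    clear hpm hqm hp hq hmem hi hj hk hEinj hquot hE
    revert p q r s
    decide
  have hor : r ∈ I ∨ s ∈ I := by
    by_contra hcon
    rw [not_or] at hcon
    have hlt : ∀ a ∈ I, a = p ∨ a = q := by
      intro a ha
      rcases hall a with h | h | h | h
      · exact Or.inl h
      · exact Or.inr h
      · exact absurd (h ▸ ha) hcon.1
      · exact absurd (h ▸ ha) hcon.2
    rcases hlt i hi with h1 | h1 <;> rcases hlt j hj with h2 | h2 <;>
      rcases hlt k hk with h3 | h3 <;> first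
      | exact hij (h1.trans h2.symm)
      | exact hik (h1.trans h3.symm)
      | exact hjk (h2.trans h3.symm)
  have hD : E p < E q := by
    rcases lt_or_eq_of_le (hpm q hq) with h | h
    · exact h
    · exact absurd (hEinj _ hp _ hq h) hpq
  have hstr : ∀ a ∈ I, p ≠ a → q ≠ a → E p < E a ∧ E a < E q := by
    intro a ha h1 h2
    refine ⟨lt_of_le_of_ne (hpm a ha) fun h => h1 (hEinj _ hp _ ha h),
      lt_of_le_of_ne (hqm a ha) fun h => h2 (hEinj _ ha _ hq h).symm⟩
  have hmult : ∀ d n : ℤ, d = (E q - E p) * n → |d| < E q - E p → d = 0 := by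
    intro d n hd hlt
    have hn0 : n = 0 := by
      by_contra hn0
      have h1 : 1 ≤ |n| := Int.one_le_abs hn0
      rw [hd, abs_mul, abs_of_pos (by omega : 0 < E q - E p)] at hlt
      nlinarith
    rw [hd, hn0, mul_zero]
  obtain ⟨w, hw⟩ := H p q r s hpq hpr hps hqr hqs hrs
  rw [hquot p hp q hq, ← zpow_mul] at hw
  have hstep : ∀ a : Fin 4, p ≠ a → q ≠ a → (g p)⁻¹ * g a = x ^ ((E q - E p) * w) → False := by
    intro a h1 h2 h3
    have ha : a ∈ I := by
      apply hmem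
      refine ⟨E p + (E q - E p) * w, ?_⟩
      rw [zpow_add, ← mul_assoc, ← hE p hp, ← h3]
      group
    rw [hquot p hp a ha] at h3
    have h4 := zpow_inj_tf htf hx h3
    have h5 := hstr a ha h1 h2
    have h6 := hmult _ _ h4 (by rw [abs_of_pos (by omega)]; omega)
    omega
  rcases hw with hw | hw | hw
  · exact hstep r hpr hqr hw
  · exact hstep s hps hqs hw
  · have hiff : r ∈ I ∧ s ∈ I := by
      rcases hor with h | h
      · refine ⟨h, hmem s ⟨E r + (E q - E p) * w, ?_⟩⟩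
        rw [zpow_add, ← mul_assoc, ← hE r h, ← hw]
        group
      · refine ⟨hmem r ⟨E s - (E q - E p) * w, ?_⟩, h⟩
        rw [zpow_sub, ← mul_assoc, ← hE s h, ← hw]
        group
    rw [hquot r hiff.1 s hiff.2] at hw
    have h4 := zpow_inj_tf htf hx hw
    have h5 := hstr r hiff.1 hpr hqr
    have h6 := hstr s hiff.2 hps hqs
    have h7 := hmult _ _ h4 (by rw [abs_lt]; constructor <;> omega)
    exact hrs (hEinj _ hiff.1 _ hiff.2 (by omega))

include htf in
theorem H4_false {g : Fin 4 → G} (hg : Function.Injective g) (H : H4 g) : False := by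
  have hne : ∀ i j : Fin 4, i ≠ j → (g i)⁻¹ * g j ≠ 1 := by
    intro i j hij h
    rw [inv_mul_eq_one] at h
    exact hij (hg h)
  have key : ∀ i j k l : Fin 4, i ≠ j → i ≠ k → i ≠ l → j ≠ k → j ≠ l → k ≠ l →
      ∃ n : ℤ, (g k)⁻¹ * g l = ((g i)⁻¹ * g j) ^ n := by
    intro i j k l hij hik hil hjk hjl hkl
    obtain ⟨n, hn⟩ := H i j k l hij hik hil hjk hjl hkl
    rcases hn with hn | hn | hn
    · refine absurd (no_three htf hg H ((g i)⁻¹ * g j) (hne i j hij) i j k hij hik hjk 1 n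
        (by group) ?_) id
      rw [← hn]; group
    · refine absurd (no_three htf hg H ((g i)⁻¹ * g j) (hne i j hij) i j l hij hil hjl 1 n
        (by group) ?_) id
      rw [← hn]; group
    · exact ⟨n, hn⟩
  have key2 : ∀ i j k l : Fin 4, i ≠ j → i ≠ k → i ≠ l → j ≠ k → j ≠ l → k ≠ l →
      (g k)⁻¹ * g l = (g i)⁻¹ * g j ∨ (g k)⁻¹ * g l = ((g i)⁻¹ * g j)⁻¹ := by
    intro i j k l hij hik hil hjk hjl hkl
    obtain ⟨n, hn⟩ := key i j k l hij hik hil hjk hjl hkl
    obtain ⟨m, hm⟩ := key k l i j hkl hik.symm hjk.symm hil.symm hjl.symm hij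
    rw [hn, ← zpow_mul] at hm
    have h1 : (1 : ℤ) = n * m := zpow_inj_tf htf (hne i j hij) (by rw [zpow_one]; exact hm)
    rcases Int.eq_one_or_neg_one_of_mul_eq_one h1.symm with h2 | h2
    · left; rw [hn, h2, zpow_one]
    · right; rw [hn, h2, zpow_neg, zpow_one]
  obtain ⟨a, ha⟩ : ∃ a, a = (g 0)⁻¹ * g 1 := ⟨_, rfl⟩
  obtain ⟨b, hb⟩ : ∃ b, b = (g 0)⁻¹ * g 2 := ⟨_, rfl⟩
  obtain ⟨c, hc⟩ : ∃ c, c = (g 0)⁻¹ * g 3 := ⟨_, rfl⟩
  have e1 : (g 2)⁻¹ * g 3 = b⁻¹ * c := by rw [hb, hc]; group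
  have e2 : (g 1)⁻¹ * g 3 = a⁻¹ * c := by rw [ha, hc]; group
  have e3 : (g 1)⁻¹ * g 2 = a⁻¹ * b := by rw [ha, hb]; group
  have r1 := key2 0 1 2 3 (by decide) (by decide) (by decide) (by decide) (by decide) (by decide)
  have r2 := key2 0 2 1 3 (by decide) (by decide) (by decide) (by decide) (by decide) (by decide)
  have r3 := key2 0 3 1 2 (by decide) (by decide) (by decide) (by decide) (by decide) (by decide)
  rw [e1, ← ha] at r1
  rw [e2, ← hb] at r2
  rw [e3, ← hc] at r3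
  have ha1 : a ≠ 1 := by rw [ha]; exact hne 0 1 (by decide)
  have hb1 : b ≠ 1 := by rw [hb]; exact hne 0 2 (by decide)
  have hc1 : c ≠ 1 := by rw [hc]; exact hne 0 3 (by decide)
  have hab : a ≠ b := by
    intro h
    have := hne 1 2 (by decide)
    rw [e3, h, inv_mul_cancel] at this
    exact this rfl
  have sq : ∀ x : G, x * x = 1 → x = 1 := fun x hx => htf x 2 (by norm_num) (by rw [pow_two, hx])
  -- c = b a or c = b a⁻¹
  have s1 : c = b * a ∨ c = b * a⁻¹ := by
    rcases r1 with h | h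
    · left; rw [← h]; group
    · right; rw [← h]; group
  have s2 : c = a * b ∨ c = a * b⁻¹ := by
    rcases r2 with h | h
    · left; rw [← h]; group
    · right; rw [← h]; group
  have s3 : c = a⁻¹ * b ∨ c = b⁻¹ * a := by
    rcases r3 with h | h
    · left; exact h.symm
    · right; rw [← inv_inv c, ← h]; group
  rcases s1 with s1 | s1 <;> rcases s2 with s2 | s2 <;> rcases s3 with s3 | s3
  · -- ab = a⁻¹ b
    apply ha1
    apply sq
    have h : a * b = a⁻¹ * b := by rw [← s2, s3]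
    have h' := mul_right_cancel h
    nth_rewrite 1 [h']
    group
  · -- ba = b⁻¹ a
    apply hb1
    apply sq
    have h : b * a = b⁻¹ * a := by rw [← s1, s3]
    have h' := mul_right_cancel h
    nth_rewrite 1 [h']
    group
  · -- ba = ab⁻¹ = a⁻¹ b
    have h1 : a * b⁻¹ = a⁻¹ * b := by rw [← s2, s3]
    have h2 : a * a = b * b := by
      have : a * (a * b⁻¹) * b = a * (a⁻¹ * b) * b := by rw [h1]
      have e : a * (a * b⁻¹) * b = a * a := by group
      have e' : a * (a⁻¹ * b) * b = b * b := by group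
      rw [← e, this, e']
    have h3 : b * a = a * b⁻¹ := by rw [← s1, s2]
    -- a⁻¹ b a = b⁻¹
    have h4 : a⁻¹ * b * a = b⁻¹ := by rw [mul_assoc, h3]; group
    have h5 : a⁻¹ * (b * b) * a = b⁻¹ * b⁻¹ := by
      have : a⁻¹ * (b * b) * a = (a⁻¹ * b * a) * (a⁻¹ * b * a) := by group
      rw [this, h4]
    rw [← h2] at h5
    have h6 : a⁻¹ * (a * a) * a = a * a := by group
    rw [h6, h2] at h5
    apply hb1
    refine htf b 4 (by norm_num) ?_
    have h7 : b ^ 4 = (b * b) * (b * b) := by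
      simp only [pow_succ, pow_zero, one_mul, mul_assoc]
    rw [h7]
    nth_rewrite 1 [h5]
    group
  · apply hb1
    apply sq
    have h : b * a = b⁻¹ * a := by rw [← s1, s3]
    have h' := mul_right_cancel h
    nth_rewrite 1 [h']
    group
  · apply ha1
    apply sq
    have h : a * b = a⁻¹ * b := by rw [← s2, s3]
    have h' := mul_right_cancel h
    nth_rewrite 1 [h']
    group
  · -- c = b a⁻¹ = a b = b⁻¹ a
    have h1 : b * a⁻¹ = a * b := by rw [← s1, s2]
    have h2 : b⁻¹ * a = a * b := by rw [← s3, s2]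
    -- b = a b a, a = b a b
    have h3 : b = a * b * a := by rw [← h1]; group
    have h4 : a = b * (a * b) := by rw [← h2]; group
    -- a^2 = b^2
    have h5 : a * a = b * b := by
      have e1 : (a * b) * (a * b) = (a * b) * (b⁻¹ * a) := by rw [h2]
      have e2 : (a * b) * (a * b) = (b * a⁻¹) * (a * b) := by rw [h1]
      have e3 : (a * b) * (b⁻¹ * a) = a * a := by group
      have e4 : (b * a⁻¹) * (a * b) = b * b := by group
      rw [← e3, ← e1, e2, e4]
    -- a b = b a⁻¹ ; b = a b a → a⁻¹ b = b a ; b a = a⁻¹ b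
    have h6 : a⁻¹ * b = b * a := by nth_rewrite 1 [h3]; group
    -- conjugation by a of b b
    have h7 : b⁻¹ * a * b = a⁻¹ := by
      rw [mul_assoc, ← h1]; group
    have h8 : b⁻¹ * (a * a) * b = a⁻¹ * a⁻¹ := by
      have : b⁻¹ * (a * a) * b = (b⁻¹ * a * b) * (b⁻¹ * a * b) := by group
      rw [this, h7]
    rw [h5] at h8
    have h9 : b⁻¹ * (b * b) * b = b * b := by group
    rw [h9, ← h5] at h8
    apply ha1
    refine htf a 4 (by norm_num) ?_
    have h10 : a ^ 4 = (a * a) * (a * a) := by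
      simp only [pow_succ, pow_zero, one_mul, mul_assoc]
    rw [h10]
    nth_rewrite 1 [h8]
    group
  all_goals
    have h1 : a * b = b * a := by
      rcases (by first | exact Or.inl (s3.symm.trans s1) | exact Or.inr (s3.symm.trans s2) :
          a⁻¹ * b = b * a⁻¹ ∨ b⁻¹ * a = a * b⁻¹) with h | h
      · have : a * (a⁻¹ * b) * a = a * (b * a⁻¹) * a := by rw [h]
        have e : a * (a⁻¹ * b) * a = b * a := by group
        have e' : a * (b * a⁻¹) * a = a * b := by group
        rw [← e', ← this, e]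
      · have : b * (b⁻¹ * a) * b = b * (a * b⁻¹) * b := by rw [h]
        have e : b * (b⁻¹ * a) * b = a * b := by group
        have e' : b * (a * b⁻¹) * b = b * a := by group
        rw [← e, this, e']
    have h2 : b * a⁻¹ = a * b⁻¹ := by rw [← s1, s2]
    have hcm : Commute a b := h1
    have h3 : (b * a⁻¹) * (b * a⁻¹) = 1 := by
      nth_rewrite 1 [h2]
      group
    have h4 := sq _ h3
    rw [mul_inv_eq_one] at h4
    exact hab h4.symm

/-- **Four-term elements have norm at least `√6`.** -/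
theorem four {g : Fin 4 → G} {A : Fin 4 → ℂ} {C : ℝ}
    (htf : ∀ g : G, ∀ n : ℕ, 0 < n → g ^ n = 1 → g = 1) (h : NB g A C)
    (hg : Function.Injective g) (hA : ∀ i, 1 ≤ ‖A i‖) : 6 ≤ C := by
  by_contra hC
  rw [not_le] at hC
  apply H4_false htf hg
  intro i j k l hij hik hil hjk hjl hkl
  by_contra hcon
  push Not at hcon
  have hinj : Function.Injective (![i, j, k, l] : Fin 4 → Fin 4) := by
    intro a b hab
    fin_cases a <;> fin_cases b <;> first
      | rfl
      | exact absurd hab hij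
      | exact absurd hab hik
      | exact absurd hab hil
      | exact absurd hab hjk
      | exact absurd hab hjl
      | exact absurd hab hkl
      | exact absurd hab.symm hij
      | exact absurd hab.symm hik
      | exact absurd hab.symm hil
      | exact absurd hab.symm hjk
      | exact absurd hab.symm hjl
      | exact absurd hab.symm hkl
  let σ : Fin 4 ≃ Fin 4 := Equiv.ofBijective _ (Finite.injective_iff_bijective.1 hinj)
  have h1 := h.perm σ
  have := four_cosets htf h1 (fun i => hA _) ((g i)⁻¹ * g j) rfl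
    (by rw [Ne, inv_mul_eq_one]; exact fun h => hij (hg h)) (fun n => (hcon n).1)
    (fun n => (hcon n).2.1) (fun n => (hcon n).2.2)
  linarith

end

end Pool.Agent.U731.ZD
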