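import Pool.Agent.U731.ZD.Basic

set_option autoImplicit false
set_option linter.unusedSectionVars false

/-! Three-term elements: the free abelian group of rank two and the Klein bottle group. -/

namespace Pool.Agent.U731.ZD

open Finset ComplexConjugate

variable {G : Type} [Group G]

theorem phase1 (u : ℂ) : ∃ e : ℂ, ‖e‖ = 1 ∧ u = ‖u‖ * e := by
  by_cases hu : u = 0
  · exact ⟨1, by simp, by simp [hu]⟩
  · have hu' : (‖u‖ : ℂ) ≠ 0 := by exact_mod_cast norm_ne_zero_iff.2 hu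
    refine ⟨u / ‖u‖, ?_, by field_simp⟩
    rw [norm_div, Complex.norm_real, norm_norm, div_self (norm_ne_zero_iff.2 hu)]

theorem nsq_add (x y z : ℂ) (hz : ‖z‖ = 1) :
    ‖x + y * z‖ ^ 2 = ‖x‖ ^ 2 + ‖y‖ ^ 2 + 2 * (x * conj y * conj z).re := by
  have hy : ‖y * z‖ ^ 2 = ‖y‖ ^ 2 := by rw [norm_mul, hz, mul_one]
  have e : x * conj y * conj z = x * conj (y * z) := by rw [map_mul, mul_assoc]
  rw [← hy, e, ← Complex.normSq_eq_norm_sq, ← Complex.normSq_eq_norm_sq,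
    ← Complex.normSq_eq_norm_sq, Complex.normSq_add]

theorem real_ineq (e Q R S c d ρ s C K : ℝ) (he : 1 ≤ e) (hρ : 1 ≤ ρ) (hs : 2 * ρ ≤ s)
    (hc : 0 ≤ c) (hcd : c ^ 2 + d ^ 2 = ρ ^ 2) (hQ : Q = s + c + Real.sqrt 3 * d)
    (hR : R = s + c - Real.sqrt 3 * d) (hS0 : 0 ≤ S) (hS : S ^ 2 = Q * R)
    (hK : K = e * (Q + R + 2 * S))
    (h1 : (e + Q) ^ 2 + K ≤ C * (e + Q)) (h2 : (e + R) ^ 2 + K ≤ C * (e + R)) : 6 ≤ C := by
  have h3 : Real.sqrt 3 ^ 2 = 3 := Real.sq_sqrt (by norm_num)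
  have hcρ : c ≤ ρ := by
    by_contra hcon
    rw [not_le] at hcon
    have : ρ ^ 2 < c ^ 2 := by nlinarith
    nlinarith [sq_nonneg d]
  have hQR0 : Q * R = (s + c) ^ 2 - Real.sqrt 3 ^ 2 * d ^ 2 := by rw [hQ, hR]; ring
  rw [h3] at hQR0
  have hd : d ^ 2 = ρ ^ 2 - c ^ 2 := by linarith
  have g1 : 0 ≤ (s - 2 * ρ) * (s + 2 * ρ + 2 * c) := mul_nonneg (by linarith) (by linarith)
  have hS2 : (ρ + 2 * c) ^ 2 ≤ S ^ 2 := by
    rw [hS, hQR0, hd]
    linarith
  have hS1 : ρ + 2 * c ≤ S := by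
    by_contra hcon
    rw [not_le] at hcon
    have : S ^ 2 < (ρ + 2 * c) ^ 2 := by nlinarith
    linarith
  have hQR : (Q - R) ^ 2 = 4 * (Real.sqrt 3 ^ 2 * d ^ 2) := by rw [hQ, hR]; ring
  rw [h3] at hQR
  have hA : 4 * ρ + 2 * c ≤ Q + R := by rw [hQ, hR]; linarith
  obtain ⟨A, hAd⟩ : ∃ A, A = Q + R := ⟨_, rfl⟩
  rw [← hAd] at hA hK
  have hsum : (A ^ 2 + 12 * d ^ 2) / 2 = Q ^ 2 + R ^ 2 := by
    have : (12 : ℝ) * d ^ 2 = (Q - R) ^ 2 := by rw [hQR]; ring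
    rw [this, hAd]; ring
  have f1 : 0 ≤ (A - (4 * ρ + 2 * c)) * ((A + (4 * ρ + 2 * c)) / 2 - 2) :=
    mul_nonneg (by linarith) (by linarith)
  have f2 : 0 ≤ (e - 1) * (2 * (e + 1) + 4 * A + 4 * S - 12) :=
    mul_nonneg (by linarith) (by linarith)
  have f3 : 0 ≤ c * (2 * ρ - c) := mul_nonneg hc (by linarith)
  have f4 : 0 ≤ (ρ - 1) * (14 * ρ + 10) := mul_nonneg (by linarith) (by linarith)
  have hkey : 6 * (2 * e + A) ≤ 2 * e ^ 2 + 2 * e * A + (A ^ 2 + 12 * d ^ 2) / 2 + 2 * K := by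
    rw [hK, hd]
    linarith
  have htot : 2 * e ^ 2 + 2 * e * A + (A ^ 2 + 12 * d ^ 2) / 2 + 2 * K ≤ C * (2 * e + A) := by
    rw [hsum, hAd]; linarith
  have hpos : 0 < 2 * e + A := by linarith
  by_contra hcon
  rw [not_le] at hcon
  have := mul_lt_mul_of_pos_right hcon hpos
  linarith

/-- The estimate for the Klein bottle group. -/
theorem klein_ineq (A0 A1 A2 : ℂ) (C : ℝ) (h0 : 1 ≤ ‖A0‖) (h1 : 1 ≤ ‖A1‖) (h2 : 1 ≤ ‖A2‖)
    (H : ∀ z w v0 v1 : ℂ, ‖z‖ = 1 → ‖w‖ = 1 →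
      ‖A0 * v0 + w * v1 * (A1 + A2 * z)‖ ^ 2 + ‖A0 * v1 + v0 * (A1 + A2 * conj z)‖ ^ 2
        ≤ C * (‖v0‖ ^ 2 + ‖v1‖ ^ 2)) : 6 ≤ C := by
  set u : ℂ := A1 * conj A2 with hu
  obtain ⟨σ, hσ, hσu⟩ : ∃ σ : ℝ, σ ^ 2 = 1 ∧ σ * u.re = |u.re| := by
    rcases abs_cases u.re with h | h
    · exact ⟨1, by norm_num, by rw [h.1, one_mul]⟩
    · exact ⟨-1, by norm_num, by rw [h.1]; ring⟩
  have h3 : Real.sqrt 3 ^ 2 = 3 := Real.sq_sqrt (by norm_num)
  set z : ℂ := ⟨σ / 2, Real.sqrt 3 / 2⟩ with hz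
  have hz1 : ‖z‖ = 1 := by
    have h4 : ‖z‖ ^ 2 = 1 := by
      rw [← Complex.normSq_eq_norm_sq, Complex.normSq_apply, hz]
      simp only
      nlinarith
    nlinarith [norm_nonneg z]
  have hcz1 : ‖conj z‖ = 1 := by rw [RCLike.norm_conj, hz1]
  set q : ℂ := A1 + A2 * z with hq
  set r : ℂ := A1 + A2 * conj z with hr
  have hQ : ‖q‖ ^ 2 = (‖A1‖ ^ 2 + ‖A2‖ ^ 2) + |u.re| + Real.sqrt 3 * u.im := by
    rw [hq, nsq_add _ _ _ hz1, ← hu, Complex.mul_re, ← hσu, hz]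
    simp only [Complex.conj_re, Complex.conj_im]
    ring
  have hR : ‖r‖ ^ 2 = (‖A1‖ ^ 2 + ‖A2‖ ^ 2) + |u.re| - Real.sqrt 3 * u.im := by
    rw [hr, nsq_add _ _ _ hcz1, ← hu, Complex.mul_re, ← hσu, hz]
    simp only [Complex.conj_re, Complex.conj_im]
    ring
  obtain ⟨e1, he1, he1'⟩ := phase1 (r * conj A0)
  obtain ⟨e2, he2, he2'⟩ := phase1 (A0 * conj q)
  set w : ℂ := conj e1 * e2 with hw
  have hw1 : ‖w‖ = 1 := by rw [hw, norm_mul, RCLike.norm_conj, he1, he2, mul_one]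
  have hee1 : e1 * conj e1 = 1 := by
    rw [Complex.mul_conj, Complex.normSq_eq_norm_sq, he1]; simp
  have hee2 : e2 * conj e2 = 1 := by
    rw [Complex.mul_conj, Complex.normSq_eq_norm_sq, he2]; simp
  have hww : w * conj w = 1 := by
    rw [Complex.mul_conj, Complex.normSq_eq_norm_sq, hw1]; simp
  have hoff : A0 * conj (w * q) + conj A0 * r = ((‖A0‖ * (‖r‖ + ‖q‖) : ℝ) : ℂ) * e1 := by
    have e3 : A0 * conj (w * q) + conj A0 * r = conj w * (A0 * conj q) + r * conj A0 := by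
      rw [map_mul]; ring
    rw [e3, he1', he2', hw, map_mul, Complex.conj_conj, norm_mul, norm_mul, RCLike.norm_conj,
      RCLike.norm_conj]
    push_cast
    linear_combination ((‖A0‖ : ℂ) * ‖q‖ * e1) * hee2
  have hoffn : ‖A0 * conj (w * q) + conj A0 * r‖ = ‖A0‖ * (‖r‖ + ‖q‖) := by
    rw [hoff, norm_mul, he1, mul_one, Complex.norm_real, Real.norm_of_nonneg (by positivity)]
  have cc : ∀ x : ℂ, x * conj x = ((‖x‖ ^ 2 : ℝ) : ℂ) := fun x => by
    rw [Complex.mul_conj, Complex.normSq_eq_norm_sq]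
  have H1 := H z w (conj A0) (conj (w * q)) hz1 hw1
  have H2 := H z w (conj r) (conj A0) hz1 hw1
  have t1 : A0 * conj A0 + w * conj (w * q) * (A1 + A2 * z)
      = ((‖A0‖ ^ 2 + ‖q‖ ^ 2 : ℝ) : ℂ) := by
    rw [← hq, map_mul, cc]
    push_cast
    have := cc q
    push_cast at this
    linear_combination (q * conj q) * hww + this
  have t2 : A0 * conj A0 + conj r * (A1 + A2 * conj z) = ((‖A0‖ ^ 2 + ‖r‖ ^ 2 : ℝ) : ℂ) := by
    rw [← hr, cc]
    push_cast
    have := cc r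
    push_cast at this
    linear_combination this
  have t3 : ‖A0 * conj r + w * conj A0 * (A1 + A2 * z)‖ = ‖A0‖ * (‖r‖ + ‖q‖) := by
    rw [← hoffn, ← RCLike.norm_conj (A0 * conj r + w * conj A0 * (A1 + A2 * z)), ← hq]
    congr 1
    simp only [map_add, map_mul, Complex.conj_conj]
    ring
  rw [t1, hoffn, Complex.norm_real, Real.norm_of_nonneg (by positivity), RCLike.norm_conj,
    RCLike.norm_conj, norm_mul, hw1, one_mul] at H1
  rw [t3, t2, Complex.norm_real, Real.norm_of_nonneg (by positivity), RCLike.norm_conj,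
    RCLike.norm_conj] at H2
  have hun : ‖u‖ = ‖A1‖ * ‖A2‖ := by rw [hu, norm_mul, RCLike.norm_conj]
  refine real_ineq (‖A0‖ ^ 2) (‖q‖ ^ 2) (‖r‖ ^ 2) (‖q‖ * ‖r‖) |u.re| u.im (‖A1‖ * ‖A2‖)
    (‖A1‖ ^ 2 + ‖A2‖ ^ 2) C ((‖A0‖ * (‖r‖ + ‖q‖)) ^ 2) (by nlinarith) (by nlinarith)
    (by nlinarith [mul_self_nonneg (‖A1‖ - ‖A2‖)]) (abs_nonneg _) ?_ hQ hR (by positivity)
    (by ring) (by ring) (by linarith) (by linarith)
  rw [sq_abs, ← hun, ← Complex.normSq_eq_norm_sq, Complex.normSq_apply]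
  ring

section groups

variable (htf : ∀ g : G, ∀ n : ℕ, 0 < n → g ^ n = 1 → g = 1)

include htf in
theorem zpow_tf {g : G} (hg : g ≠ 1) {n : ℤ} (h : g ^ n = 1) : n = 0 := by
  by_contra hn
  apply hg
  rcases lt_or_gt_of_ne hn with h1 | h1
  · refine htf g (-n).toNat (by omega) ?_
    rw [← zpow_natCast, Int.toNat_of_nonneg (by omega), zpow_neg, h, inv_one]
  · refine htf g n.toNat (by omega) ?_
    rw [← zpow_natCast, Int.toNat_of_nonneg (by omega), h]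

/-- The estimate for free abelian groups of rank two. -/
theorem rank_two {a b : G} {A : Fin 3 → ℂ} {C : ℝ} (h : NB ![1, a, b] A C)
    (hA : ∀ i, 1 ≤ ‖A i‖) (hab : a * b = b * a)
    (hind : ∀ i j : ℤ, a ^ i * b ^ j = 1 → i = 0 ∧ j = 0) : 9 ≤ C := by
  have hc : Commute a b := hab
  obtain ⟨z, hz, hz'⟩ := exists_phase (A 0) (A 1)
  obtain ⟨w, hw, hw'⟩ := exists_phase (A 0 + A 1 * z) (A 2)
  have hz0 : z ≠ 0 := by rintro rfl; simp at hz
  have hw0 : w ≠ 0 := by rintro rfl; simp at hw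
  let P : (Fin 2 → ℤ) → G := fun n => a ^ (-n 0) * b ^ (-n 1)
  let χ : (Fin 2 → ℤ) → ℂ := fun n => z ^ n 0 * w ^ n 1
  have hP : ∀ m n, P (m + n) = P m * P n := by
    intro m n
    have e1 : Commute (b ^ (-m 1)) (a ^ (-n 0)) := (hc.symm.zpow_left _).zpow_right _
    change a ^ (-(m 0 + n 0)) * b ^ (-(m 1 + n 1)) = _
    rw [neg_add, neg_add, zpow_add, zpow_add]
    change _ = (a ^ (-m 0) * b ^ (-m 1)) * (a ^ (-n 0) * b ^ (-n 1))
    rw [mul_assoc, mul_assoc, ← mul_assoc (b ^ (-m 1)), e1.eq]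
    simp only [mul_assoc]
  have hP1 : P 0 = 1 := by simp [P]
  have hχ : ∀ m n, χ (m + n) = χ m * χ n := by
    intro m n
    change z ^ (m 0 + n 0) * w ^ (m 1 + n 1) = (z ^ m 0 * w ^ m 1) * (z ^ n 0 * w ^ n 1)
    rw [zpow_add₀ hz0, zpow_add₀ hw0]
    ring
  have hχ1 : ∀ n, ‖χ n‖ = 1 := by
    intro n
    change ‖z ^ n 0 * w ^ n 1‖ = 1
    rw [norm_mul, norm_zpow, norm_zpow, hz, hw, one_zpow, one_zpow, one_mul]
  have hinj : ∀ n n', P n = P n' → n = n' := by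
    intro n n' hn
    have h1 : P (n - n') = 1 := by
      have : P (n - n') * P n' = P n' := by rw [← hP, sub_add_cancel, hn]
      exact mul_eq_right.1 this
    have h2 := hind _ _ h1
    funext i
    have h3 : n 0 - n' 0 = 0 := by have := h2.1; simp only [Pi.sub_apply] at this; omega
    have h4 : n 1 - n' 1 = 0 := by have := h2.2; simp only [Pi.sub_apply] at this; omega
    fin_cases i
    · change n 0 = n' 0; omega
    · change n 1 = n' 1; omega
  have hy : ∀ (k k' : Unit) n n', (fun _ : Unit => (1 : G)) k * P n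
      = (fun _ : Unit => (1 : G)) k' * P n' → k = k' ∧ n = n' := by
    intro k k' n n' hn
    exact ⟨rfl, hinj _ _ (by simpa using hn)⟩
  have h1 := boxPsi P χ (fun _ : Unit => (1 : G)) (fun _ => 1) h hP hP1 hχ hχ1 hy
    (fun _ : Unit => (1 : G)) hy
  have e0 : Psi P χ (fun _ : Unit => (1 : G)) (fun _ => 1) 1 = 1 := by
    have := Psi_apply P χ (fun _ : Unit => (1 : G)) (fun _ => 1) hy () 0
    rw [hP1] at this
    simpa [χ] using this
  have e1 : Psi P χ (fun _ : Unit => (1 : G)) (fun _ => 1) a⁻¹ = z := by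
    have := Psi_apply P χ (fun _ : Unit => (1 : G)) (fun _ => 1) hy () ![1, 0]
    simpa [χ, P] using this
  have e2 : Psi P χ (fun _ : Unit => (1 : G)) (fun _ => 1) b⁻¹ = w := by
    have := Psi_apply P χ (fun _ : Unit => (1 : G)) (fun _ => 1) hy () ![0, 1]
    simpa [χ, P] using this
  simp only [Finset.univ_unique, Finset.sum_singleton, norm_one, one_pow, mul_one,
    Fin.sum_univ_three, Matrix.cons_val_zero, Matrix.cons_val_one, Matrix.cons_val,
    inv_one] at h1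
  rw [e0, e1, e2, mul_one, hw', hz'] at h1
  have a0 := hA 0
  have a1 := hA 1
  have a2 := hA 2
  nlinarith

include htf in
/-- The estimate for the Klein bottle group. -/
theorem klein {a b : G} {A : Fin 3 → ℂ} {C : ℝ} (h : NB ![1, a, b] A C)
    (hA : ∀ i, 1 ≤ ‖A i‖) (hab : a ≠ b) (hrel : a * a = b * b) : 6 ≤ C := by
  have ha1 : a ≠ 1 := by
    intro h1
    rw [h1, one_mul] at hrel
    apply hab
    rw [h1]
    exact (htf b 2 (by norm_num) (by rw [pow_two, ← hrel])).symm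
  set t : G := a * b⁻¹ with ht
  have ht1 : t ≠ 1 := by rw [ht, Ne, mul_inv_eq_one]; exact hab
  have hb : b = t⁻¹ * a := by rw [ht]; group
  have hta : t * a = a * t⁻¹ := by
    have h1 : a * t⁻¹ = a * b * a⁻¹ := by rw [ht]; group
    have h2 : t * a = a * b⁻¹ * a := rfl
    rw [h1, h2]
    have h3 : b⁻¹ * (b * b) = b := by group
    rw [← hrel] at h3
    calc a * b⁻¹ * a = a * (b⁻¹ * (a * a)) * a⁻¹ := by group
      _ = a * b * a⁻¹ := by rw [h3]
  have htn : ∀ i : ℤ, t ^ i * a = a * t ^ (-i) := by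
    intro i
    have h1 : SemiconjBy a t⁻¹ t := by
      change a * t⁻¹ = t * a
      exact hta.symm
    have h2 := h1.zpow_right i
    rw [inv_zpow', ] at h2
    exact h2.eq.symm
  have hcomm : Commute t (a * a) := by
    change t * (a * a) = a * a * t
    rw [← mul_assoc, hta, mul_assoc]
    have h1 : t⁻¹ * a = a * t := by
      have := htn (-1)
      simpa using this
    rw [h1, mul_assoc]
  have hind : ∀ i m : ℤ, t ^ i * a ^ m = 1 → i = 0 ∧ m = 0 := by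
    intro i m him
    have h1 : a ^ m = t ^ (-i) := by
      rw [zpow_neg]; exact (eq_inv_of_mul_eq_one_right him)
    have h2 : t ^ (-i) * a = a * t ^ (-i) := by rw [← h1]; exact (Commute.self_zpow a m).symm
    rw [htn, neg_neg] at h2
    have h3 : t ^ i = t ^ (-i) := mul_left_cancel h2
    have h4 : t ^ (i + i) = 1 := by rw [zpow_add]; nth_rewrite 1 [h3]; rw [← zpow_add]; simp
    have h5 := zpow_tf htf ht1 h4
    have h6 : i = 0 := by omega
    refine ⟨h6, ?_⟩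
    rw [h6, zpow_zero, one_mul] at him
    exact zpow_tf htf ha1 him
  refine klein_ineq (A 0) (A 1) (A 2) C (hA 0) (hA 1) (hA 2) ?_
  intro z w v0 v1 hz hw
  have hz0 : z ≠ 0 := by rintro rfl; simp at hz
  have hw0 : w ≠ 0 := by rintro rfl; simp at hw
  let P : (Fin 2 → ℤ) → G := fun n => t ^ n 0 * (a * a) ^ (-n 1)
  let χ : (Fin 2 → ℤ) → ℂ := fun n => z ^ n 0 * w ^ n 1
  have hP : ∀ m n, P (m + n) = P m * P n := by
    intro m n
    have e1 : Commute ((a * a) ^ (-m 1)) (t ^ (n 0)) := (hcomm.symm.zpow_left _).zpow_right _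
    change t ^ (m 0 + n 0) * (a * a) ^ (-(m 1 + n 1)) = _
    rw [neg_add, zpow_add, zpow_add]
    change _ = (t ^ (m 0) * (a * a) ^ (-m 1)) * (t ^ (n 0) * (a * a) ^ (-n 1))
    rw [mul_assoc, mul_assoc, ← mul_assoc ((a * a) ^ (-m 1)), e1.eq]
    simp only [mul_assoc]
  have hP1 : P 0 = 1 := by simp [P]
  have hχ : ∀ m n, χ (m + n) = χ m * χ n := by
    intro m n
    change z ^ (m 0 + n 0) * w ^ (m 1 + n 1) = (z ^ m 0 * w ^ m 1) * (z ^ n 0 * w ^ n 1)
    rw [zpow_add₀ hz0, zpow_add₀ hw0]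
    ring
  have hχ1 : ∀ n, ‖χ n‖ = 1 := by
    intro n
    change ‖z ^ n 0 * w ^ n 1‖ = 1
    rw [norm_mul, norm_zpow, norm_zpow, hz, hw, one_zpow, one_zpow, one_mul]
  have haa : ∀ n : ℤ, (a * a) ^ n = a ^ (2 * n) := by
    intro n
    rw [zpow_mul]
    congr 1
    exact (zpow_two a).symm
  have hy : ∀ (k k' : Fin 2) n n', (![1, a] : Fin 2 → G) k * P n
      = (![1, a] : Fin 2 → G) k' * P n' → k = k' ∧ n = n' := by
    have hval : ∀ (k : Fin 2) (n : Fin 2 → ℤ), (![1, a] : Fin 2 → G) k * P n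
        = t ^ ((if k = 0 then 1 else -1) * n 0) * a ^ ((k : ℕ) - 2 * n 1 : ℤ) := by
      intro k n
      fin_cases k
      · simp only [P, haa, Fin.zero_eta, Matrix.cons_val_zero, one_mul, if_true]
        congr 2
        simp
      · simp only [P, haa, Fin.mk_one, Matrix.cons_val_one, Matrix.cons_val_fin_one]
        rw [if_neg (by simp), ← mul_assoc]
        have h1 : a * t ^ n 0 = t ^ (-1 * n 0) * a := by rw [htn]; congr 2; ring
        rw [h1, mul_assoc, ← zpow_one_add]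
        congr 2
        simp
        ring
    intro k k' n n' hn
    rw [hval, hval] at hn
    have h1 : t ^ (-((if k' = 0 then 1 else -1) * n' 0) + (if k = 0 then 1 else -1) * n 0)
        * a ^ (((k : ℕ) - 2 * n 1 : ℤ) - ((k' : ℕ) - 2 * n' 1 : ℤ)) = 1 := by
      rw [zpow_add, zpow_sub, mul_assoc, ← mul_assoc (t ^ ((if k = 0 then 1 else -1) * n 0)), hn]
      rw [mul_assoc, mul_inv_cancel, mul_one, zpow_neg, inv_mul_cancel]
    obtain ⟨h2, h3⟩ := hind _ _ h1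
    have hk : k = k' := by
      ext
      have := k.2
      have := k'.2
      omega
    subst hk
    refine ⟨rfl, ?_⟩
    have h4 : n 1 = n' 1 := by omega
    have h5 : n 0 = n' 0 := by
      split_ifs at h2 <;> omega
    funext i
    fin_cases i
    · exact h5
    · exact h4
  have h1 := boxPsi P χ (![1, a] : Fin 2 → G) (![v0, v1] : Fin 2 → ℂ) h hP hP1 hχ hχ1 hy
    (![1, a] : Fin 2 → G) hy
  have key : ∀ (k : Fin 2) (n : Fin 2 → ℤ) (x : G), x = (![1, a] : Fin 2 → G) k * P n →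
      Psi P χ (![1, a] : Fin 2 → G) (![v0, v1] : Fin 2 → ℂ) x
        = (![v0, v1] : Fin 2 → ℂ) k * χ n := by
    rintro k n x rfl
    exact Psi_apply P χ _ _ hy k n
  have p00 := key 0 0 1 (by simp [P])
  have p10 := key 1 ![0, 1] a⁻¹ (by simp [P])
  have hbi : b⁻¹ = a * (t * (a * a)⁻¹) := by
    rw [hcomm.inv_right.eq, ht]
    group
  have p20 := key 1 ![1, 1] b⁻¹ (by
    rw [hbi]
    simp [P])
  have p01 := key 1 0 a (by simp [P])
  have hba : b⁻¹ * a = t⁻¹ := by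
    have h6 : b⁻¹ = a⁻¹ * t := by rw [ht]; group
    rw [h6, mul_assoc, hta, inv_mul_cancel_left]
  have p21 := key 0 ![-1, 0] (b⁻¹ * a) (by
    rw [hba]
    simp [P])
  simp only [Fin.sum_univ_two, Fin.sum_univ_three, Matrix.cons_val_zero, Matrix.cons_val_one,
    Matrix.cons_val, inv_one, one_mul, mul_one, inv_mul_cancel] at h1
  rw [p00, p10, p20, p01, p21] at h1
  simp [χ] at h1
  have hzc : z⁻¹ = conj z := by
    rw [inv_eq_of_mul_eq_one_right]
    rw [Complex.mul_conj, Complex.normSq_eq_norm_sq, hz]; simp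
  rw [hzc] at h1
  refine le_trans (le_of_eq ?_) h1
  congr 3 <;> ring

end groups

end Pool.Agent.U731.ZD
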