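import Pool.Agent.U731.ZD.Ball
import Pool.Agent.U731.ZD.Rank

set_option autoImplicit false
set_option linter.unusedSectionVars false
set_option linter.unusedVariables false

/-! Short relations: two coinciding points of the ball of radius three. -/

namespace Pool.Agent.U731.ZD

variable {G : Type} [Group G] {a b : G}

theorem comOf {X Y : G} {n : ℕ} (h : X ^ n * Y⁻¹ = 1) : Commute X Y := by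
  rw [mul_inv_eq_one] at h
  rw [← h]
  exact Commute.self_pow X n

theorem comOf1 {X Y : G} {n : ℕ} (h : X⁻¹ ^ n * Y⁻¹ = 1) : Commute X Y := by
  rw [mul_inv_eq_one] at h
  rw [← h]
  exact (Commute.refl X).inv_right.pow_right n

theorem commOf (h : a * b * a⁻¹ * b⁻¹ = 1) : a * b = b * a := by
  rw [mul_inv_eq_one, mul_inv_eq_iff_eq_mul] at h
  exact h

theorem com_a_b (h : Commute a b) : a * b = b * a := h.eq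

theorem com_b_a (h : Commute b a) : a * b = b * a := h.symm.eq

theorem com_a_c (h : Commute a (a * b⁻¹)) : a * b = b * a := by
  have h1 : Commute a ((a * b⁻¹)⁻¹ * a) := h.inv_right.mul_right (Commute.refl a)
  have h2 : (a * b⁻¹)⁻¹ * a = b := by group
  rw [h2] at h1
  exact h1.eq

theorem com_c_a (h : Commute (a * b⁻¹) a) : a * b = b * a := com_a_c h.symm

theorem com_b_c (h : Commute b (a * b⁻¹)) : a * b = b * a := by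
  have h1 : Commute b ((a * b⁻¹) * b) := h.mul_right (Commute.refl b)
  have h2 : (a * b⁻¹) * b = a := by group
  rw [h2] at h1
  exact h1.symm.eq

theorem com_c_b (h : Commute (a * b⁻¹) b) : a * b = b * a := com_b_c h.symm

theorem com_a_d (h : Commute a (a⁻¹ * b)) : a * b = b * a := by
  have h1 : Commute a (a * (a⁻¹ * b)) := (Commute.refl a).mul_right h
  have h2 : a * (a⁻¹ * b) = b := by group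
  rw [h2] at h1
  exact h1.eq

theorem com_d_a (h : Commute (a⁻¹ * b) a) : a * b = b * a := com_a_d h.symm

theorem com_b_d (h : Commute b (a⁻¹ * b)) : a * b = b * a := by
  have h1 : Commute b (b * (a⁻¹ * b)⁻¹) := (Commute.refl b).mul_right h.inv_right
  have h2 : b * (a⁻¹ * b)⁻¹ = a := by group
  rw [h2] at h1
  exact h1.symm.eq

theorem com_d_b (h : Commute (a⁻¹ * b) b) : a * b = b * a := com_b_d h.symm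

theorem tor (htf : ∀ g : G, ∀ n : ℕ, 0 < n → g ^ n = 1 → g = 1) {X : G} (hX : X ≠ 1) (n : ℕ)
    (hn : 0 < n) (h : X ^ n = 1) : False := hX (htf X n hn h)

theorem hx_0_1 (htf : ∀ g : G, ∀ n : ℕ, 0 < n → g ^ n = 1 → g = 1) (ha : a ≠ 1)
    (hb : b ≠ 1) (hab1 : a * b⁻¹ ≠ 1) (hab2 : a⁻¹ * b ≠ 1) (hc : ¬ a * b = b * a)
    (k1 : ¬ a * a = b * b) (k2 : ¬ a⁻¹ * a⁻¹ = (b * a⁻¹) * (b * a⁻¹))
    (k3 : ¬ b⁻¹ * b⁻¹ = (a * b⁻¹) * (a * b⁻¹)) :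
    1 ≠ a := by
  intro h
  exact hc (com_b_c (comOf1 (n := 1) (
    calc (b)⁻¹ ^ 1 * ((a * b⁻¹))⁻¹ = 1 * (1 * a⁻¹) * 1⁻¹ := by simp only [pow_succ, pow_zero, mul_assoc, mul_inv_rev, inv_inv, mul_inv_cancel, inv_mul_cancel, mul_inv_cancel_left, inv_mul_cancel_left, one_mul, mul_one, inv_one]
    _ = 1 := by rw [mul_inv_eq_one.2 h]; simp)))

theorem hx_0_2 (htf : ∀ g : G, ∀ n : ℕ, 0 < n → g ^ n = 1 → g = 1) (ha : a ≠ 1)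
    (hb : b ≠ 1) (hab1 : a * b⁻¹ ≠ 1) (hab2 : a⁻¹ * b ≠ 1) (hc : ¬ a * b = b * a)
    (k1 : ¬ a * a = b * b) (k2 : ¬ a⁻¹ * a⁻¹ = (b * a⁻¹) * (b * a⁻¹))
    (k3 : ¬ b⁻¹ * b⁻¹ = (a * b⁻¹) * (a * b⁻¹)) :
    1 ≠ b := by
  intro h
  exact hc (com_d_a (comOf1 (n := 1) (
    calc ((a⁻¹ * b))⁻¹ ^ 1 * (a)⁻¹ = 1 * (1 * b⁻¹) * 1⁻¹ := by simp only [pow_succ, pow_zero, mul_assoc, mul_inv_rev, inv_inv, mul_inv_cancel, inv_mul_cancel, mul_inv_cancel_left, inv_mul_cancel_left, one_mul, mul_one, inv_one]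
    _ = 1 := by rw [mul_inv_eq_one.2 h]; simp)))

theorem hx_0_3 (htf : ∀ g : G, ∀ n : ℕ, 0 < n → g ^ n = 1 → g = 1) (ha : a ≠ 1)
    (hb : b ≠ 1) (hab1 : a * b⁻¹ ≠ 1) (hab2 : a⁻¹ * b ≠ 1) (hc : ¬ a * b = b * a)
    (k1 : ¬ a * a = b * b) (k2 : ¬ a⁻¹ * a⁻¹ = (b * a⁻¹) * (b * a⁻¹))
    (k3 : ¬ b⁻¹ * b⁻¹ = (a * b⁻¹) * (a * b⁻¹)) :
    1 ≠ (a * a) := by
  intro h
  exact tor htf ha 2 (by norm_num) (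
    calc a ^ 2 = 1 * ((1 * (a * a)⁻¹))⁻¹ * 1⁻¹ := by simp only [pow_succ, pow_zero, mul_assoc, mul_inv_rev, inv_inv, mul_inv_cancel, inv_mul_cancel, mul_inv_cancel_left, inv_mul_cancel_left, one_mul, mul_one, inv_one]
    _ = 1 := by rw [mul_inv_eq_one.2 h]; simp)

theorem hx_0_4 (htf : ∀ g : G, ∀ n : ℕ, 0 < n → g ^ n = 1 → g = 1) (ha : a ≠ 1)
    (hb : b ≠ 1) (hab1 : a * b⁻¹ ≠ 1) (hab2 : a⁻¹ * b ≠ 1) (hc : ¬ a * b = b * a)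
    (k1 : ¬ a * a = b * b) (k2 : ¬ a⁻¹ * a⁻¹ = (b * a⁻¹) * (b * a⁻¹))
    (k3 : ¬ b⁻¹ * b⁻¹ = (a * b⁻¹) * (a * b⁻¹)) :
    1 ≠ (b * a) := by
  intro h
  exact hc (com_a_b (comOf1 (n := 1) (
    calc (a)⁻¹ ^ 1 * (b)⁻¹ = 1 * (1 * (b * a)⁻¹) * 1⁻¹ := by simp only [pow_succ, pow_zero, mul_assoc, mul_inv_rev, inv_inv, mul_inv_cancel, inv_mul_cancel, mul_inv_cancel_left, inv_mul_cancel_left, one_mul, mul_one, inv_one]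
    _ = 1 := by rw [mul_inv_eq_one.2 h]; simp)))

theorem hx_0_5 (htf : ∀ g : G, ∀ n : ℕ, 0 < n → g ^ n = 1 → g = 1) (ha : a ≠ 1)
    (hb : b ≠ 1) (hab1 : a * b⁻¹ ≠ 1) (hab2 : a⁻¹ * b ≠ 1) (hc : ¬ a * b = b * a)
    (k1 : ¬ a * a = b * b) (k2 : ¬ a⁻¹ * a⁻¹ = (b * a⁻¹) * (b * a⁻¹))
    (k3 : ¬ b⁻¹ * b⁻¹ = (a * b⁻¹) * (a * b⁻¹)) :
    1 ≠ (a * b) := by
  intro h
  exact hc (com_b_a (comOf1 (n := 1) (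
    calc (b)⁻¹ ^ 1 * (a)⁻¹ = 1 * (1 * (a * b)⁻¹) * 1⁻¹ := by simp only [pow_succ, pow_zero, mul_assoc, mul_inv_rev, inv_inv, mul_inv_cancel, inv_mul_cancel, mul_inv_cancel_left, inv_mul_cancel_left, one_mul, mul_one, inv_one]
    _ = 1 := by rw [mul_inv_eq_one.2 h]; simp)))

theorem hx_0_6 (htf : ∀ g : G, ∀ n : ℕ, 0 < n → g ^ n = 1 → g = 1) (ha : a ≠ 1)
    (hb : b ≠ 1) (hab1 : a * b⁻¹ ≠ 1) (hab2 : a⁻¹ * b ≠ 1) (hc : ¬ a * b = b * a)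
    (k1 : ¬ a * a = b * b) (k2 : ¬ a⁻¹ * a⁻¹ = (b * a⁻¹) * (b * a⁻¹))
    (k3 : ¬ b⁻¹ * b⁻¹ = (a * b⁻¹) * (a * b⁻¹)) :
    1 ≠ (b * b) := by
  intro h
  exact tor htf hb 2 (by norm_num) (
    calc b ^ 2 = 1 * ((1 * (b * b)⁻¹))⁻¹ * 1⁻¹ := by simp only [pow_succ, pow_zero, mul_assoc, mul_inv_rev, inv_inv, mul_inv_cancel, inv_mul_cancel, mul_inv_cancel_left, inv_mul_cancel_left, one_mul, mul_one, inv_one]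
    _ = 1 := by rw [mul_inv_eq_one.2 h]; simp)

theorem hx_0_7 (htf : ∀ g : G, ∀ n : ℕ, 0 < n → g ^ n = 1 → g = 1) (ha : a ≠ 1)
    (hb : b ≠ 1) (hab1 : a * b⁻¹ ≠ 1) (hab2 : a⁻¹ * b ≠ 1) (hc : ¬ a * b = b * a)
    (k1 : ¬ a * a = b * b) (k2 : ¬ a⁻¹ * a⁻¹ = (b * a⁻¹) * (b * a⁻¹))
    (k3 : ¬ b⁻¹ * b⁻¹ = (a * b⁻¹) * (a * b⁻¹)) :
    1 ≠ a⁻¹ := by
  intro h
  exact tor htf ha 1 (by norm_num) (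
    calc a ^ 1 = 1 * (1 * a⁻¹⁻¹) * 1⁻¹ := by simp only [pow_succ, pow_zero, mul_assoc, mul_inv_rev, inv_inv, mul_inv_cancel, inv_mul_cancel, mul_inv_cancel_left, inv_mul_cancel_left, one_mul, mul_one, inv_one]
    _ = 1 := by rw [mul_inv_eq_one.2 h]; simp)

theorem hx_0_8 (htf : ∀ g : G, ∀ n : ℕ, 0 < n → g ^ n = 1 → g = 1) (ha : a ≠ 1)
    (hb : b ≠ 1) (hab1 : a * b⁻¹ ≠ 1) (hab2 : a⁻¹ * b ≠ 1) (hc : ¬ a * b = b * a)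
    (k1 : ¬ a * a = b * b) (k2 : ¬ a⁻¹ * a⁻¹ = (b * a⁻¹) * (b * a⁻¹))
    (k3 : ¬ b⁻¹ * b⁻¹ = (a * b⁻¹) * (a * b⁻¹)) :
    1 ≠ (b * a⁻¹) := by
  intro h
  exact tor htf hab1 1 (by norm_num) (
    calc (a * b⁻¹) ^ 1 = 1 * (1 * (b * a⁻¹)⁻¹) * 1⁻¹ := by simp only [pow_succ, pow_zero, mul_assoc, mul_inv_rev, inv_inv, mul_inv_cancel, inv_mul_cancel, mul_inv_cancel_left, inv_mul_cancel_left, one_mul, mul_one, inv_one]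
    _ = 1 := by rw [mul_inv_eq_one.2 h]; simp)

theorem hx_0_9 (htf : ∀ g : G, ∀ n : ℕ, 0 < n → g ^ n = 1 → g = 1) (ha : a ≠ 1)
    (hb : b ≠ 1) (hab1 : a * b⁻¹ ≠ 1) (hab2 : a⁻¹ * b ≠ 1) (hc : ¬ a * b = b * a)
    (k1 : ¬ a * a = b * b) (k2 : ¬ a⁻¹ * a⁻¹ = (b * a⁻¹) * (b * a⁻¹))
    (k3 : ¬ b⁻¹ * b⁻¹ = (a * b⁻¹) * (a * b⁻¹)) :
    1 ≠ (a⁻¹ * b) := by
  intro h
  exact tor htf hab2 1 (by norm_num) (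
    calc (a⁻¹ * b) ^ 1 = 1 * ((1 * (a⁻¹ * b)⁻¹))⁻¹ * 1⁻¹ := by simp only [pow_succ, pow_zero, mul_assoc, mul_inv_rev, inv_inv, mul_inv_cancel, inv_mul_cancel, mul_inv_cancel_left, inv_mul_cancel_left, one_mul, mul_one, inv_one]
    _ = 1 := by rw [mul_inv_eq_one.2 h]; simp)

theorem hx_0_10 (htf : ∀ g : G, ∀ n : ℕ, 0 < n → g ^ n = 1 → g = 1) (ha : a ≠ 1)
    (hb : b ≠ 1) (hab1 : a * b⁻¹ ≠ 1) (hab2 : a⁻¹ * b ≠ 1) (hc : ¬ a * b = b * a)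
    (k1 : ¬ a * a = b * b) (k2 : ¬ a⁻¹ * a⁻¹ = (b * a⁻¹) * (b * a⁻¹))
    (k3 : ¬ b⁻¹ * b⁻¹ = (a * b⁻¹) * (a * b⁻¹)) :
    1 ≠ (b * a⁻¹ * b) := by
  intro h
  exact hc (com_d_a (comOf1 (n := 2) (
    calc ((a⁻¹ * b))⁻¹ ^ 2 * (a)⁻¹ = 1 * (1 * (b * a⁻¹ * b)⁻¹) * 1⁻¹ := by simp only [pow_succ, pow_zero, mul_assoc, mul_inv_rev, inv_inv, mul_inv_cancel, inv_mul_cancel, mul_inv_cancel_left, inv_mul_cancel_left, one_mul, mul_one, inv_one]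
    _ = 1 := by rw [mul_inv_eq_one.2 h]; simp)))

theorem hx_0_11 (htf : ∀ g : G, ∀ n : ℕ, 0 < n → g ^ n = 1 → g = 1) (ha : a ≠ 1)
    (hb : b ≠ 1) (hab1 : a * b⁻¹ ≠ 1) (hab2 : a⁻¹ * b ≠ 1) (hc : ¬ a * b = b * a)
    (k1 : ¬ a * a = b * b) (k2 : ¬ a⁻¹ * a⁻¹ = (b * a⁻¹) * (b * a⁻¹))
    (k3 : ¬ b⁻¹ * b⁻¹ = (a * b⁻¹) * (a * b⁻¹)) :
    1 ≠ b⁻¹ := by
  intro h
  exact tor htf hb 1 (by norm_num) (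
    calc b ^ 1 = 1 * (1 * b⁻¹⁻¹) * 1⁻¹ := by simp only [pow_succ, pow_zero, mul_assoc, mul_inv_rev, inv_inv, mul_inv_cancel, inv_mul_cancel, mul_inv_cancel_left, inv_mul_cancel_left, one_mul, mul_one, inv_one]
    _ = 1 := by rw [mul_inv_eq_one.2 h]; simp)

theorem hx_0_12 (htf : ∀ g : G, ∀ n : ℕ, 0 < n → g ^ n = 1 → g = 1) (ha : a ≠ 1)
    (hb : b ≠ 1) (hab1 : a * b⁻¹ ≠ 1) (hab2 : a⁻¹ * b ≠ 1) (hc : ¬ a * b = b * a)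
    (k1 : ¬ a * a = b * b) (k2 : ¬ a⁻¹ * a⁻¹ = (b * a⁻¹) * (b * a⁻¹))
    (k3 : ¬ b⁻¹ * b⁻¹ = (a * b⁻¹) * (a * b⁻¹)) :
    1 ≠ (a * b⁻¹) := by
  intro h
  exact hc (com_b_a (comOf (n := 1) (
    calc b ^ 1 * (a)⁻¹ = 1 * (1 * (a * b⁻¹)⁻¹) * 1⁻¹ := by simp only [pow_succ, pow_zero, mul_assoc, mul_inv_rev, inv_inv, mul_inv_cancel, inv_mul_cancel, mul_inv_cancel_left, inv_mul_cancel_left, one_mul, mul_one, inv_one]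
    _ = 1 := by rw [mul_inv_eq_one.2 h]; simp)))

theorem hx_0_13 (htf : ∀ g : G, ∀ n : ℕ, 0 < n → g ^ n = 1 → g = 1) (ha : a ≠ 1)
    (hb : b ≠ 1) (hab1 : a * b⁻¹ ≠ 1) (hab2 : a⁻¹ * b ≠ 1) (hc : ¬ a * b = b * a)
    (k1 : ¬ a * a = b * b) (k2 : ¬ a⁻¹ * a⁻¹ = (b * a⁻¹) * (b * a⁻¹))
    (k3 : ¬ b⁻¹ * b⁻¹ = (a * b⁻¹) * (a * b⁻¹)) :
    1 ≠ (b⁻¹ * a) := by
  intro h
  exact tor htf hab2 1 (by norm_num) (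
    calc (a⁻¹ * b) ^ 1 = 1 * (1 * (b⁻¹ * a)⁻¹) * 1⁻¹ := by simp only [pow_succ, pow_zero, mul_assoc, mul_inv_rev, inv_inv, mul_inv_cancel, inv_mul_cancel, mul_inv_cancel_left, inv_mul_cancel_left, one_mul, mul_one, inv_one]
    _ = 1 := by rw [mul_inv_eq_one.2 h]; simp)

theorem hx_0_14 (htf : ∀ g : G, ∀ n : ℕ, 0 < n → g ^ n = 1 → g = 1) (ha : a ≠ 1)
    (hb : b ≠ 1) (hab1 : a * b⁻¹ ≠ 1) (hab2 : a⁻¹ * b ≠ 1) (hc : ¬ a * b = b * a)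
    (k1 : ¬ a * a = b * b) (k2 : ¬ a⁻¹ * a⁻¹ = (b * a⁻¹) * (b * a⁻¹))
    (k3 : ¬ b⁻¹ * b⁻¹ = (a * b⁻¹) * (a * b⁻¹)) :
    1 ≠ (a * b⁻¹ * a) := by
  intro h
  exact hc (com_a_c (comOf1 (n := 1) (
    calc (a)⁻¹ ^ 1 * ((a * b⁻¹))⁻¹ = 1 * (1 * (a * b⁻¹ * a)⁻¹) * 1⁻¹ := by simp only [pow_succ, pow_zero, mul_assoc, mul_inv_rev, inv_inv, mul_inv_cancel, inv_mul_cancel, mul_inv_cancel_left, inv_mul_cancel_left, one_mul, mul_one, inv_one]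
    _ = 1 := by rw [mul_inv_eq_one.2 h]; simp)))

theorem hx_1_2 (htf : ∀ g : G, ∀ n : ℕ, 0 < n → g ^ n = 1 → g = 1) (ha : a ≠ 1)
    (hb : b ≠ 1) (hab1 : a * b⁻¹ ≠ 1) (hab2 : a⁻¹ * b ≠ 1) (hc : ¬ a * b = b * a)
    (k1 : ¬ a * a = b * b) (k2 : ¬ a⁻¹ * a⁻¹ = (b * a⁻¹) * (b * a⁻¹))
    (k3 : ¬ b⁻¹ * b⁻¹ = (a * b⁻¹) * (a * b⁻¹)) :
    a ≠ b := by
  intro h
  exact tor htf hab1 1 (by norm_num) (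
    calc (a * b⁻¹) ^ 1 = 1 * (a * b⁻¹) * 1⁻¹ := by simp only [pow_succ, pow_zero, mul_assoc, mul_inv_rev, inv_inv, mul_inv_cancel, inv_mul_cancel, mul_inv_cancel_left, inv_mul_cancel_left, one_mul, mul_one, inv_one]
    _ = 1 := by rw [mul_inv_eq_one.2 h]; simp)

theorem hx_1_3 (htf : ∀ g : G, ∀ n : ℕ, 0 < n → g ^ n = 1 → g = 1) (ha : a ≠ 1)
    (hb : b ≠ 1) (hab1 : a * b⁻¹ ≠ 1) (hab2 : a⁻¹ * b ≠ 1) (hc : ¬ a * b = b * a)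
    (k1 : ¬ a * a = b * b) (k2 : ¬ a⁻¹ * a⁻¹ = (b * a⁻¹) * (b * a⁻¹))
    (k3 : ¬ b⁻¹ * b⁻¹ = (a * b⁻¹) * (a * b⁻¹)) :
    a ≠ (a * a) := by
  intro h
  exact hc (com_b_c (comOf1 (n := 1) (
    calc (b)⁻¹ ^ 1 * ((a * b⁻¹))⁻¹ = 1 * (a * (a * a)⁻¹) * 1⁻¹ := by simp only [pow_succ, pow_zero, mul_assoc, mul_inv_rev, inv_inv, mul_inv_cancel, inv_mul_cancel, mul_inv_cancel_left, inv_mul_cancel_left, one_mul, mul_one, inv_one]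
    _ = 1 := by rw [mul_inv_eq_one.2 h]; simp)))

theorem hx_1_4 (htf : ∀ g : G, ∀ n : ℕ, 0 < n → g ^ n = 1 → g = 1) (ha : a ≠ 1)
    (hb : b ≠ 1) (hab1 : a * b⁻¹ ≠ 1) (hab2 : a⁻¹ * b ≠ 1) (hc : ¬ a * b = b * a)
    (k1 : ¬ a * a = b * b) (k2 : ¬ a⁻¹ * a⁻¹ = (b * a⁻¹) * (b * a⁻¹))
    (k3 : ¬ b⁻¹ * b⁻¹ = (a * b⁻¹) * (a * b⁻¹)) :
    a ≠ (b * a) := by
  intro h
  exact hc (com_d_a (comOf1 (n := 1) (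
    calc ((a⁻¹ * b))⁻¹ ^ 1 * (a)⁻¹ = 1 * (a * (b * a)⁻¹) * 1⁻¹ := by simp only [pow_succ, pow_zero, mul_assoc, mul_inv_rev, inv_inv, mul_inv_cancel, inv_mul_cancel, mul_inv_cancel_left, inv_mul_cancel_left, one_mul, mul_one, inv_one]
    _ = 1 := by rw [mul_inv_eq_one.2 h]; simp)))

theorem hx_1_5 (htf : ∀ g : G, ∀ n : ℕ, 0 < n → g ^ n = 1 → g = 1) (ha : a ≠ 1)
    (hb : b ≠ 1) (hab1 : a * b⁻¹ ≠ 1) (hab2 : a⁻¹ * b ≠ 1) (hc : ¬ a * b = b * a)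
    (k1 : ¬ a * a = b * b) (k2 : ¬ a⁻¹ * a⁻¹ = (b * a⁻¹) * (b * a⁻¹))
    (k3 : ¬ b⁻¹ * b⁻¹ = (a * b⁻¹) * (a * b⁻¹)) :
    a ≠ (a * b) := by
  intro h
  exact hc (com_c_a (comOf (n := 1) (
    calc (a * b⁻¹) ^ 1 * (a)⁻¹ = 1 * (a * (a * b)⁻¹) * 1⁻¹ := by simp only [pow_succ, pow_zero, mul_assoc, mul_inv_rev, inv_inv, mul_inv_cancel, inv_mul_cancel, mul_inv_cancel_left, inv_mul_cancel_left, one_mul, mul_one, inv_one]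
    _ = 1 := by rw [mul_inv_eq_one.2 h]; simp)))

theorem hx_1_6 (htf : ∀ g : G, ∀ n : ℕ, 0 < n → g ^ n = 1 → g = 1) (ha : a ≠ 1)
    (hb : b ≠ 1) (hab1 : a * b⁻¹ ≠ 1) (hab2 : a⁻¹ * b ≠ 1) (hc : ¬ a * b = b * a)
    (k1 : ¬ a * a = b * b) (k2 : ¬ a⁻¹ * a⁻¹ = (b * a⁻¹) * (b * a⁻¹))
    (k3 : ¬ b⁻¹ * b⁻¹ = (a * b⁻¹) * (a * b⁻¹)) :
    a ≠ (b * b) := by
  intro h
  exact hc (com_c_b (comOf (n := 1) (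
    calc (a * b⁻¹) ^ 1 * (b)⁻¹ = 1 * (a * (b * b)⁻¹) * 1⁻¹ := by simp only [pow_succ, pow_zero, mul_assoc, mul_inv_rev, inv_inv, mul_inv_cancel, inv_mul_cancel, mul_inv_cancel_left, inv_mul_cancel_left, one_mul, mul_one, inv_one]
    _ = 1 := by rw [mul_inv_eq_one.2 h]; simp)))

theorem hx_1_7 (htf : ∀ g : G, ∀ n : ℕ, 0 < n → g ^ n = 1 → g = 1) (ha : a ≠ 1)
    (hb : b ≠ 1) (hab1 : a * b⁻¹ ≠ 1) (hab2 : a⁻¹ * b ≠ 1) (hc : ¬ a * b = b * a)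
    (k1 : ¬ a * a = b * b) (k2 : ¬ a⁻¹ * a⁻¹ = (b * a⁻¹) * (b * a⁻¹))
    (k3 : ¬ b⁻¹ * b⁻¹ = (a * b⁻¹) * (a * b⁻¹)) :
    a ≠ a⁻¹ := by
  intro h
  exact tor htf ha 2 (by norm_num) (
    calc a ^ 2 = 1 * (a * a⁻¹⁻¹) * 1⁻¹ := by simp only [pow_succ, pow_zero, mul_assoc, mul_inv_rev, inv_inv, mul_inv_cancel, inv_mul_cancel, mul_inv_cancel_left, inv_mul_cancel_left, one_mul, mul_one, inv_one]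
    _ = 1 := by rw [mul_inv_eq_one.2 h]; simp)

theorem hx_1_8 (htf : ∀ g : G, ∀ n : ℕ, 0 < n → g ^ n = 1 → g = 1) (ha : a ≠ 1)
    (hb : b ≠ 1) (hab1 : a * b⁻¹ ≠ 1) (hab2 : a⁻¹ * b ≠ 1) (hc : ¬ a * b = b * a)
    (k1 : ¬ a * a = b * b) (k2 : ¬ a⁻¹ * a⁻¹ = (b * a⁻¹) * (b * a⁻¹))
    (k3 : ¬ b⁻¹ * b⁻¹ = (a * b⁻¹) * (a * b⁻¹)) :
    a ≠ (b * a⁻¹) := by
  intro h
  exact hc (com_a_b (comOf (n := 2) (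
    calc a ^ 2 * (b)⁻¹ = 1 * (a * (b * a⁻¹)⁻¹) * 1⁻¹ := by simp only [pow_succ, pow_zero, mul_assoc, mul_inv_rev, inv_inv, mul_inv_cancel, inv_mul_cancel, mul_inv_cancel_left, inv_mul_cancel_left, one_mul, mul_one, inv_one]
    _ = 1 := by rw [mul_inv_eq_one.2 h]; simp)))

theorem hx_1_9 (htf : ∀ g : G, ∀ n : ℕ, 0 < n → g ^ n = 1 → g = 1) (ha : a ≠ 1)
    (hb : b ≠ 1) (hab1 : a * b⁻¹ ≠ 1) (hab2 : a⁻¹ * b ≠ 1) (hc : ¬ a * b = b * a)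
    (k1 : ¬ a * a = b * b) (k2 : ¬ a⁻¹ * a⁻¹ = (b * a⁻¹) * (b * a⁻¹))
    (k3 : ¬ b⁻¹ * b⁻¹ = (a * b⁻¹) * (a * b⁻¹)) :
    a ≠ (a⁻¹ * b) := by
  intro h
  exact hc (com_a_d (comOf (n := 1) (
    calc a ^ 1 * ((a⁻¹ * b))⁻¹ = 1 * (a * (a⁻¹ * b)⁻¹) * 1⁻¹ := by simp only [pow_succ, pow_zero, mul_assoc, mul_inv_rev, inv_inv, mul_inv_cancel, inv_mul_cancel, mul_inv_cancel_left, inv_mul_cancel_left, one_mul, mul_one, inv_one]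
    _ = 1 := by rw [mul_inv_eq_one.2 h]; simp)))

theorem hx_1_10 (htf : ∀ g : G, ∀ n : ℕ, 0 < n → g ^ n = 1 → g = 1) (ha : a ≠ 1)
    (hb : b ≠ 1) (hab1 : a * b⁻¹ ≠ 1) (hab2 : a⁻¹ * b ≠ 1) (hc : ¬ a * b = b * a)
    (k1 : ¬ a * a = b * b) (k2 : ¬ a⁻¹ * a⁻¹ = (b * a⁻¹) * (b * a⁻¹))
    (k3 : ¬ b⁻¹ * b⁻¹ = (a * b⁻¹) * (a * b⁻¹)) :
    a ≠ (b * a⁻¹ * b) := by
  intro h
  exact tor htf hab1 2 (by norm_num) (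
    calc (a * b⁻¹) ^ 2 = 1 * (a * (b * a⁻¹ * b)⁻¹) * 1⁻¹ := by simp only [pow_succ, pow_zero, mul_assoc, mul_inv_rev, inv_inv, mul_inv_cancel, inv_mul_cancel, mul_inv_cancel_left, inv_mul_cancel_left, one_mul, mul_one, inv_one]
    _ = 1 := by rw [mul_inv_eq_one.2 h]; simp)

theorem hx_1_11 (htf : ∀ g : G, ∀ n : ℕ, 0 < n → g ^ n = 1 → g = 1) (ha : a ≠ 1)
    (hb : b ≠ 1) (hab1 : a * b⁻¹ ≠ 1) (hab2 : a⁻¹ * b ≠ 1) (hc : ¬ a * b = b * a)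
    (k1 : ¬ a * a = b * b) (k2 : ¬ a⁻¹ * a⁻¹ = (b * a⁻¹) * (b * a⁻¹))
    (k3 : ¬ b⁻¹ * b⁻¹ = (a * b⁻¹) * (a * b⁻¹)) :
    a ≠ b⁻¹ := by
  intro h
  exact hc (com_b_a (comOf1 (n := 1) (
    calc (b)⁻¹ ^ 1 * (a)⁻¹ = 1 * ((a * b⁻¹⁻¹))⁻¹ * 1⁻¹ := by simp only [pow_succ, pow_zero, mul_assoc, mul_inv_rev, inv_inv, mul_inv_cancel, inv_mul_cancel, mul_inv_cancel_left, inv_mul_cancel_left, one_mul, mul_one, inv_one]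
    _ = 1 := by rw [mul_inv_eq_one.2 h]; simp)))

theorem hx_1_12 (htf : ∀ g : G, ∀ n : ℕ, 0 < n → g ^ n = 1 → g = 1) (ha : a ≠ 1)
    (hb : b ≠ 1) (hab1 : a * b⁻¹ ≠ 1) (hab2 : a⁻¹ * b ≠ 1) (hc : ¬ a * b = b * a)
    (k1 : ¬ a * a = b * b) (k2 : ¬ a⁻¹ * a⁻¹ = (b * a⁻¹) * (b * a⁻¹))
    (k3 : ¬ b⁻¹ * b⁻¹ = (a * b⁻¹) * (a * b⁻¹)) :
    a ≠ (a * b⁻¹) := by
  intro h
  exact hc (com_a_c (comOf (n := 1) (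
    calc a ^ 1 * ((a * b⁻¹))⁻¹ = 1 * (a * (a * b⁻¹)⁻¹) * 1⁻¹ := by simp only [pow_succ, pow_zero, mul_assoc, mul_inv_rev, inv_inv, mul_inv_cancel, inv_mul_cancel, mul_inv_cancel_left, inv_mul_cancel_left, one_mul, mul_one, inv_one]
    _ = 1 := by rw [mul_inv_eq_one.2 h]; simp)))

theorem hx_1_13 (htf : ∀ g : G, ∀ n : ℕ, 0 < n → g ^ n = 1 → g = 1) (ha : a ≠ 1)
    (hb : b ≠ 1) (hab1 : a * b⁻¹ ≠ 1) (hab2 : a⁻¹ * b ≠ 1) (hc : ¬ a * b = b * a)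
    (k1 : ¬ a * a = b * b) (k2 : ¬ a⁻¹ * a⁻¹ = (b * a⁻¹) * (b * a⁻¹))
    (k3 : ¬ b⁻¹ * b⁻¹ = (a * b⁻¹) * (a * b⁻¹)) :
    a ≠ (b⁻¹ * a) := by
  intro h
  exact tor htf hb 1 (by norm_num) (
    calc b ^ 1 = 1 * (a * (b⁻¹ * a)⁻¹) * 1⁻¹ := by simp only [pow_succ, pow_zero, mul_assoc, mul_inv_rev, inv_inv, mul_inv_cancel, inv_mul_cancel, mul_inv_cancel_left, inv_mul_cancel_left, one_mul, mul_one, inv_one]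
    _ = 1 := by rw [mul_inv_eq_one.2 h]; simp)

theorem hx_1_14 (htf : ∀ g : G, ∀ n : ℕ, 0 < n → g ^ n = 1 → g = 1) (ha : a ≠ 1)
    (hb : b ≠ 1) (hab1 : a * b⁻¹ ≠ 1) (hab2 : a⁻¹ * b ≠ 1) (hc : ¬ a * b = b * a)
    (k1 : ¬ a * a = b * b) (k2 : ¬ a⁻¹ * a⁻¹ = (b * a⁻¹) * (b * a⁻¹))
    (k3 : ¬ b⁻¹ * b⁻¹ = (a * b⁻¹) * (a * b⁻¹)) :
    a ≠ (a * b⁻¹ * a) := by
  intro h
  exact hc (com_b_a (comOf (n := 1) (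
    calc b ^ 1 * (a)⁻¹ = 1 * (a * (a * b⁻¹ * a)⁻¹) * 1⁻¹ := by simp only [pow_succ, pow_zero, mul_assoc, mul_inv_rev, inv_inv, mul_inv_cancel, inv_mul_cancel, mul_inv_cancel_left, inv_mul_cancel_left, one_mul, mul_one, inv_one]
    _ = 1 := by rw [mul_inv_eq_one.2 h]; simp)))

theorem hx_2_3 (htf : ∀ g : G, ∀ n : ℕ, 0 < n → g ^ n = 1 → g = 1) (ha : a ≠ 1)
    (hb : b ≠ 1) (hab1 : a * b⁻¹ ≠ 1) (hab2 : a⁻¹ * b ≠ 1) (hc : ¬ a * b = b * a)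
    (k1 : ¬ a * a = b * b) (k2 : ¬ a⁻¹ * a⁻¹ = (b * a⁻¹) * (b * a⁻¹))
    (k3 : ¬ b⁻¹ * b⁻¹ = (a * b⁻¹) * (a * b⁻¹)) :
    b ≠ (a * a) := by
  intro h
  exact hc (com_c_a (comOf1 (n := 1) (
    calc ((a * b⁻¹))⁻¹ ^ 1 * (a)⁻¹ = 1 * (b * (a * a)⁻¹) * 1⁻¹ := by simp only [pow_succ, pow_zero, mul_assoc, mul_inv_rev, inv_inv, mul_inv_cancel, inv_mul_cancel, mul_inv_cancel_left, inv_mul_cancel_left, one_mul, mul_one, inv_one]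
    _ = 1 := by rw [mul_inv_eq_one.2 h]; simp)))

theorem hx_2_4 (htf : ∀ g : G, ∀ n : ℕ, 0 < n → g ^ n = 1 → g = 1) (ha : a ≠ 1)
    (hb : b ≠ 1) (hab1 : a * b⁻¹ ≠ 1) (hab2 : a⁻¹ * b ≠ 1) (hc : ¬ a * b = b * a)
    (k1 : ¬ a * a = b * b) (k2 : ¬ a⁻¹ * a⁻¹ = (b * a⁻¹) * (b * a⁻¹))
    (k3 : ¬ b⁻¹ * b⁻¹ = (a * b⁻¹) * (a * b⁻¹)) :
    b ≠ (b * a) := by
  intro h
  exact hc (com_c_b (comOf1 (n := 1) (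
    calc ((a * b⁻¹))⁻¹ ^ 1 * (b)⁻¹ = 1 * (b * (b * a)⁻¹) * 1⁻¹ := by simp only [pow_succ, pow_zero, mul_assoc, mul_inv_rev, inv_inv, mul_inv_cancel, inv_mul_cancel, mul_inv_cancel_left, inv_mul_cancel_left, one_mul, mul_one, inv_one]
    _ = 1 := by rw [mul_inv_eq_one.2 h]; simp)))

theorem hx_2_5 (htf : ∀ g : G, ∀ n : ℕ, 0 < n → g ^ n = 1 → g = 1) (ha : a ≠ 1)
    (hb : b ≠ 1) (hab1 : a * b⁻¹ ≠ 1) (hab2 : a⁻¹ * b ≠ 1) (hc : ¬ a * b = b * a)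
    (k1 : ¬ a * a = b * b) (k2 : ¬ a⁻¹ * a⁻¹ = (b * a⁻¹) * (b * a⁻¹))
    (k3 : ¬ b⁻¹ * b⁻¹ = (a * b⁻¹) * (a * b⁻¹)) :
    b ≠ (a * b) := by
  intro h
  exact hc (com_b_c (comOf1 (n := 1) (
    calc (b)⁻¹ ^ 1 * ((a * b⁻¹))⁻¹ = 1 * (b * (a * b)⁻¹) * 1⁻¹ := by simp only [pow_succ, pow_zero, mul_assoc, mul_inv_rev, inv_inv, mul_inv_cancel, inv_mul_cancel, mul_inv_cancel_left, inv_mul_cancel_left, one_mul, mul_one, inv_one]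
    _ = 1 := by rw [mul_inv_eq_one.2 h]; simp)))

theorem hx_2_6 (htf : ∀ g : G, ∀ n : ℕ, 0 < n → g ^ n = 1 → g = 1) (ha : a ≠ 1)
    (hb : b ≠ 1) (hab1 : a * b⁻¹ ≠ 1) (hab2 : a⁻¹ * b ≠ 1) (hc : ¬ a * b = b * a)
    (k1 : ¬ a * a = b * b) (k2 : ¬ a⁻¹ * a⁻¹ = (b * a⁻¹) * (b * a⁻¹))
    (k3 : ¬ b⁻¹ * b⁻¹ = (a * b⁻¹) * (a * b⁻¹)) :
    b ≠ (b * b) := by
  intro h
  exact hc (com_d_a (comOf1 (n := 1) (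
    calc ((a⁻¹ * b))⁻¹ ^ 1 * (a)⁻¹ = 1 * (b * (b * b)⁻¹) * 1⁻¹ := by simp only [pow_succ, pow_zero, mul_assoc, mul_inv_rev, inv_inv, mul_inv_cancel, inv_mul_cancel, mul_inv_cancel_left, inv_mul_cancel_left, one_mul, mul_one, inv_one]
    _ = 1 := by rw [mul_inv_eq_one.2 h]; simp)))

theorem hx_2_7 (htf : ∀ g : G, ∀ n : ℕ, 0 < n → g ^ n = 1 → g = 1) (ha : a ≠ 1)
    (hb : b ≠ 1) (hab1 : a * b⁻¹ ≠ 1) (hab2 : a⁻¹ * b ≠ 1) (hc : ¬ a * b = b * a)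
    (k1 : ¬ a * a = b * b) (k2 : ¬ a⁻¹ * a⁻¹ = (b * a⁻¹) * (b * a⁻¹))
    (k3 : ¬ b⁻¹ * b⁻¹ = (a * b⁻¹) * (a * b⁻¹)) :
    b ≠ a⁻¹ := by
  intro h
  exact hc (com_b_d (comOf (n := 2) (
    calc b ^ 2 * ((a⁻¹ * b))⁻¹ = 1 * (b * a⁻¹⁻¹) * 1⁻¹ := by simp only [pow_succ, pow_zero, mul_assoc, mul_inv_rev, inv_inv, mul_inv_cancel, inv_mul_cancel, mul_inv_cancel_left, inv_mul_cancel_left, one_mul, mul_one, inv_one]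
    _ = 1 := by rw [mul_inv_eq_one.2 h]; simp)))

theorem hx_2_8 (htf : ∀ g : G, ∀ n : ℕ, 0 < n → g ^ n = 1 → g = 1) (ha : a ≠ 1)
    (hb : b ≠ 1) (hab1 : a * b⁻¹ ≠ 1) (hab2 : a⁻¹ * b ≠ 1) (hc : ¬ a * b = b * a)
    (k1 : ¬ a * a = b * b) (k2 : ¬ a⁻¹ * a⁻¹ = (b * a⁻¹) * (b * a⁻¹))
    (k3 : ¬ b⁻¹ * b⁻¹ = (a * b⁻¹) * (a * b⁻¹)) :
    b ≠ (b * a⁻¹) := by
  intro h
  exact hc (com_c_b (comOf1 (n := 1) (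
    calc ((a * b⁻¹))⁻¹ ^ 1 * (b)⁻¹ = 1 * ((b * (b * a⁻¹)⁻¹))⁻¹ * 1⁻¹ := by simp only [pow_succ, pow_zero, mul_assoc, mul_inv_rev, inv_inv, mul_inv_cancel, inv_mul_cancel, mul_inv_cancel_left, inv_mul_cancel_left, one_mul, mul_one, inv_one]
    _ = 1 := by rw [mul_inv_eq_one.2 h]; simp)))

theorem hx_2_9 (htf : ∀ g : G, ∀ n : ℕ, 0 < n → g ^ n = 1 → g = 1) (ha : a ≠ 1)
    (hb : b ≠ 1) (hab1 : a * b⁻¹ ≠ 1) (hab2 : a⁻¹ * b ≠ 1) (hc : ¬ a * b = b * a)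
    (k1 : ¬ a * a = b * b) (k2 : ¬ a⁻¹ * a⁻¹ = (b * a⁻¹) * (b * a⁻¹))
    (k3 : ¬ b⁻¹ * b⁻¹ = (a * b⁻¹) * (a * b⁻¹)) :
    b ≠ (a⁻¹ * b) := by
  intro h
  exact tor htf ha 1 (by norm_num) (
    calc a ^ 1 = 1 * (b * (a⁻¹ * b)⁻¹) * 1⁻¹ := by simp only [pow_succ, pow_zero, mul_assoc, mul_inv_rev, inv_inv, mul_inv_cancel, inv_mul_cancel, mul_inv_cancel_left, inv_mul_cancel_left, one_mul, mul_one, inv_one]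
    _ = 1 := by rw [mul_inv_eq_one.2 h]; simp)

theorem hx_2_10 (htf : ∀ g : G, ∀ n : ℕ, 0 < n → g ^ n = 1 → g = 1) (ha : a ≠ 1)
    (hb : b ≠ 1) (hab1 : a * b⁻¹ ≠ 1) (hab2 : a⁻¹ * b ≠ 1) (hc : ¬ a * b = b * a)
    (k1 : ¬ a * a = b * b) (k2 : ¬ a⁻¹ * a⁻¹ = (b * a⁻¹) * (b * a⁻¹))
    (k3 : ¬ b⁻¹ * b⁻¹ = (a * b⁻¹) * (a * b⁻¹)) :
    b ≠ (b * a⁻¹ * b) := by
  intro h
  exact tor htf hab1 1 (by norm_num) (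
    calc (a * b⁻¹) ^ 1 = 1 * (b * (b * a⁻¹ * b)⁻¹) * 1⁻¹ := by simp only [pow_succ, pow_zero, mul_assoc, mul_inv_rev, inv_inv, mul_inv_cancel, inv_mul_cancel, mul_inv_cancel_left, inv_mul_cancel_left, one_mul, mul_one, inv_one]
    _ = 1 := by rw [mul_inv_eq_one.2 h]; simp)

theorem hx_2_11 (htf : ∀ g : G, ∀ n : ℕ, 0 < n → g ^ n = 1 → g = 1) (ha : a ≠ 1)
    (hb : b ≠ 1) (hab1 : a * b⁻¹ ≠ 1) (hab2 : a⁻¹ * b ≠ 1) (hc : ¬ a * b = b * a)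
    (k1 : ¬ a * a = b * b) (k2 : ¬ a⁻¹ * a⁻¹ = (b * a⁻¹) * (b * a⁻¹))
    (k3 : ¬ b⁻¹ * b⁻¹ = (a * b⁻¹) * (a * b⁻¹)) :
    b ≠ b⁻¹ := by
  intro h
  exact tor htf hb 2 (by norm_num) (
    calc b ^ 2 = 1 * (b * b⁻¹⁻¹) * 1⁻¹ := by simp only [pow_succ, pow_zero, mul_assoc, mul_inv_rev, inv_inv, mul_inv_cancel, inv_mul_cancel, mul_inv_cancel_left, inv_mul_cancel_left, one_mul, mul_one, inv_one]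
    _ = 1 := by rw [mul_inv_eq_one.2 h]; simp)

theorem hx_2_12 (htf : ∀ g : G, ∀ n : ℕ, 0 < n → g ^ n = 1 → g = 1) (ha : a ≠ 1)
    (hb : b ≠ 1) (hab1 : a * b⁻¹ ≠ 1) (hab2 : a⁻¹ * b ≠ 1) (hc : ¬ a * b = b * a)
    (k1 : ¬ a * a = b * b) (k2 : ¬ a⁻¹ * a⁻¹ = (b * a⁻¹) * (b * a⁻¹))
    (k3 : ¬ b⁻¹ * b⁻¹ = (a * b⁻¹) * (a * b⁻¹)) :
    b ≠ (a * b⁻¹) := by
  intro h
  exact hc (com_b_a (comOf (n := 2) (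
    calc b ^ 2 * (a)⁻¹ = 1 * (b * (a * b⁻¹)⁻¹) * 1⁻¹ := by simp only [pow_succ, pow_zero, mul_assoc, mul_inv_rev, inv_inv, mul_inv_cancel, inv_mul_cancel, mul_inv_cancel_left, inv_mul_cancel_left, one_mul, mul_one, inv_one]
    _ = 1 := by rw [mul_inv_eq_one.2 h]; simp)))

theorem hx_2_13 (htf : ∀ g : G, ∀ n : ℕ, 0 < n → g ^ n = 1 → g = 1) (ha : a ≠ 1)
    (hb : b ≠ 1) (hab1 : a * b⁻¹ ≠ 1) (hab2 : a⁻¹ * b ≠ 1) (hc : ¬ a * b = b * a)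
    (k1 : ¬ a * a = b * b) (k2 : ¬ a⁻¹ * a⁻¹ = (b * a⁻¹) * (b * a⁻¹))
    (k3 : ¬ b⁻¹ * b⁻¹ = (a * b⁻¹) * (a * b⁻¹)) :
    b ≠ (b⁻¹ * a) := by
  intro h
  exact hc (com_d_a (comOf1 (n := 2) (
    calc ((a⁻¹ * b))⁻¹ ^ 2 * (a)⁻¹ = 1 * ((b * (b⁻¹ * a)⁻¹))⁻¹ * 1⁻¹ := by simp only [pow_succ, pow_zero, mul_assoc, mul_inv_rev, inv_inv, mul_inv_cancel, inv_mul_cancel, mul_inv_cancel_left, inv_mul_cancel_left, one_mul, mul_one, inv_one]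
    _ = 1 := by rw [mul_inv_eq_one.2 h]; simp)))

theorem hx_2_14 (htf : ∀ g : G, ∀ n : ℕ, 0 < n → g ^ n = 1 → g = 1) (ha : a ≠ 1)
    (hb : b ≠ 1) (hab1 : a * b⁻¹ ≠ 1) (hab2 : a⁻¹ * b ≠ 1) (hc : ¬ a * b = b * a)
    (k1 : ¬ a * a = b * b) (k2 : ¬ a⁻¹ * a⁻¹ = (b * a⁻¹) * (b * a⁻¹))
    (k3 : ¬ b⁻¹ * b⁻¹ = (a * b⁻¹) * (a * b⁻¹)) :
    b ≠ (a * b⁻¹ * a) := by
  intro h
  exact tor htf hab1 2 (by norm_num) (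
    calc (a * b⁻¹) ^ 2 = 1 * ((b * (a * b⁻¹ * a)⁻¹))⁻¹ * 1⁻¹ := by simp only [pow_succ, pow_zero, mul_assoc, mul_inv_rev, inv_inv, mul_inv_cancel, inv_mul_cancel, mul_inv_cancel_left, inv_mul_cancel_left, one_mul, mul_one, inv_one]
    _ = 1 := by rw [mul_inv_eq_one.2 h]; simp)

theorem hx_3_4 (htf : ∀ g : G, ∀ n : ℕ, 0 < n → g ^ n = 1 → g = 1) (ha : a ≠ 1)
    (hb : b ≠ 1) (hab1 : a * b⁻¹ ≠ 1) (hab2 : a⁻¹ * b ≠ 1) (hc : ¬ a * b = b * a)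
    (k1 : ¬ a * a = b * b) (k2 : ¬ a⁻¹ * a⁻¹ = (b * a⁻¹) * (b * a⁻¹))
    (k3 : ¬ b⁻¹ * b⁻¹ = (a * b⁻¹) * (a * b⁻¹)) :
    (a * a) ≠ (b * a) := by
  intro h
  exact tor htf hab1 1 (by norm_num) (
    calc (a * b⁻¹) ^ 1 = 1 * ((a * a) * (b * a)⁻¹) * 1⁻¹ := by simp only [pow_succ, pow_zero, mul_assoc, mul_inv_rev, inv_inv, mul_inv_cancel, inv_mul_cancel, mul_inv_cancel_left, inv_mul_cancel_left, one_mul, mul_one, inv_one]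
    _ = 1 := by rw [mul_inv_eq_one.2 h]; simp)

theorem hx_3_5 (htf : ∀ g : G, ∀ n : ℕ, 0 < n → g ^ n = 1 → g = 1) (ha : a ≠ 1)
    (hb : b ≠ 1) (hab1 : a * b⁻¹ ≠ 1) (hab2 : a⁻¹ * b ≠ 1) (hc : ¬ a * b = b * a)
    (k1 : ¬ a * a = b * b) (k2 : ¬ a⁻¹ * a⁻¹ = (b * a⁻¹) * (b * a⁻¹))
    (k3 : ¬ b⁻¹ * b⁻¹ = (a * b⁻¹) * (a * b⁻¹)) :
    (a * a) ≠ (a * b) := by
  intro h
  exact tor htf hab1 1 (by norm_num) (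
    calc (a * b⁻¹) ^ 1 = (a⁻¹) * ((a * a) * (a * b)⁻¹) * (a⁻¹)⁻¹ := by simp only [pow_succ, pow_zero, mul_assoc, mul_inv_rev, inv_inv, mul_inv_cancel, inv_mul_cancel, mul_inv_cancel_left, inv_mul_cancel_left, one_mul, mul_one, inv_one]
    _ = 1 := by rw [mul_inv_eq_one.2 h]; simp)

theorem hx_3_6 (htf : ∀ g : G, ∀ n : ℕ, 0 < n → g ^ n = 1 → g = 1) (ha : a ≠ 1)
    (hb : b ≠ 1) (hab1 : a * b⁻¹ ≠ 1) (hab2 : a⁻¹ * b ≠ 1) (hc : ¬ a * b = b * a)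
    (k1 : ¬ a * a = b * b) (k2 : ¬ a⁻¹ * a⁻¹ = (b * a⁻¹) * (b * a⁻¹))
    (k3 : ¬ b⁻¹ * b⁻¹ = (a * b⁻¹) * (a * b⁻¹)) :
    (a * a) ≠ (b * b) := by
  intro h
  exact k1 (mul_inv_eq_one.1 (
    calc (a * a) * (b * b)⁻¹ = 1 * ((a * a) * (b * b)⁻¹) * 1⁻¹ := by simp only [pow_succ, pow_zero, mul_assoc, mul_inv_rev, inv_inv, mul_inv_cancel, inv_mul_cancel, mul_inv_cancel_left, inv_mul_cancel_left, one_mul, mul_one, inv_one]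
    _ = 1 := by rw [mul_inv_eq_one.2 h]; simp))

theorem hx_3_7 (htf : ∀ g : G, ∀ n : ℕ, 0 < n → g ^ n = 1 → g = 1) (ha : a ≠ 1)
    (hb : b ≠ 1) (hab1 : a * b⁻¹ ≠ 1) (hab2 : a⁻¹ * b ≠ 1) (hc : ¬ a * b = b * a)
    (k1 : ¬ a * a = b * b) (k2 : ¬ a⁻¹ * a⁻¹ = (b * a⁻¹) * (b * a⁻¹))
    (k3 : ¬ b⁻¹ * b⁻¹ = (a * b⁻¹) * (a * b⁻¹)) :
    (a * a) ≠ a⁻¹ := by
  intro h
  exact tor htf ha 3 (by norm_num) (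
    calc a ^ 3 = 1 * ((a * a) * a⁻¹⁻¹) * 1⁻¹ := by simp only [pow_succ, pow_zero, mul_assoc, mul_inv_rev, inv_inv, mul_inv_cancel, inv_mul_cancel, mul_inv_cancel_left, inv_mul_cancel_left, one_mul, mul_one, inv_one]
    _ = 1 := by rw [mul_inv_eq_one.2 h]; simp)

theorem hx_3_8 (htf : ∀ g : G, ∀ n : ℕ, 0 < n → g ^ n = 1 → g = 1) (ha : a ≠ 1)
    (hb : b ≠ 1) (hab1 : a * b⁻¹ ≠ 1) (hab2 : a⁻¹ * b ≠ 1) (hc : ¬ a * b = b * a)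
    (k1 : ¬ a * a = b * b) (k2 : ¬ a⁻¹ * a⁻¹ = (b * a⁻¹) * (b * a⁻¹))
    (k3 : ¬ b⁻¹ * b⁻¹ = (a * b⁻¹) * (a * b⁻¹)) :
    (a * a) ≠ (b * a⁻¹) := by
  intro h
  exact hc (com_a_b (comOf (n := 3) (
    calc a ^ 3 * (b)⁻¹ = 1 * ((a * a) * (b * a⁻¹)⁻¹) * 1⁻¹ := by simp only [pow_succ, pow_zero, mul_assoc, mul_inv_rev, inv_inv, mul_inv_cancel, inv_mul_cancel, mul_inv_cancel_left, inv_mul_cancel_left, one_mul, mul_one, inv_one]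
    _ = 1 := by rw [mul_inv_eq_one.2 h]; simp)))

theorem hx_3_9 (htf : ∀ g : G, ∀ n : ℕ, 0 < n → g ^ n = 1 → g = 1) (ha : a ≠ 1)
    (hb : b ≠ 1) (hab1 : a * b⁻¹ ≠ 1) (hab2 : a⁻¹ * b ≠ 1) (hc : ¬ a * b = b * a)
    (k1 : ¬ a * a = b * b) (k2 : ¬ a⁻¹ * a⁻¹ = (b * a⁻¹) * (b * a⁻¹))
    (k3 : ¬ b⁻¹ * b⁻¹ = (a * b⁻¹) * (a * b⁻¹)) :
    (a * a) ≠ (a⁻¹ * b) := by
  intro h
  exact hc (com_a_d (comOf (n := 2) (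
    calc a ^ 2 * ((a⁻¹ * b))⁻¹ = 1 * ((a * a) * (a⁻¹ * b)⁻¹) * 1⁻¹ := by simp only [pow_succ, pow_zero, mul_assoc, mul_inv_rev, inv_inv, mul_inv_cancel, inv_mul_cancel, mul_inv_cancel_left, inv_mul_cancel_left, one_mul, mul_one, inv_one]
    _ = 1 := by rw [mul_inv_eq_one.2 h]; simp)))

theorem hx_3_10 (htf : ∀ g : G, ∀ n : ℕ, 0 < n → g ^ n = 1 → g = 1) (ha : a ≠ 1)
    (hb : b ≠ 1) (hab1 : a * b⁻¹ ≠ 1) (hab2 : a⁻¹ * b ≠ 1) (hc : ¬ a * b = b * a)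
    (k1 : ¬ a * a = b * b) (k2 : ¬ a⁻¹ * a⁻¹ = (b * a⁻¹) * (b * a⁻¹))
    (k3 : ¬ b⁻¹ * b⁻¹ = (a * b⁻¹) * (a * b⁻¹)) :
    (a * a) ≠ (b * a⁻¹ * b) := by
  intro h
  exact hc (com_c_a (comOf1 (n := 2) (
    calc ((a * b⁻¹))⁻¹ ^ 2 * (a)⁻¹ = 1 * (((a * a) * (b * a⁻¹ * b)⁻¹))⁻¹ * 1⁻¹ := by simp only [pow_succ, pow_zero, mul_assoc, mul_inv_rev, inv_inv, mul_inv_cancel, inv_mul_cancel, mul_inv_cancel_left, inv_mul_cancel_left, one_mul, mul_one, inv_one]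
    _ = 1 := by rw [mul_inv_eq_one.2 h]; simp)))

theorem hx_3_11 (htf : ∀ g : G, ∀ n : ℕ, 0 < n → g ^ n = 1 → g = 1) (ha : a ≠ 1)
    (hb : b ≠ 1) (hab1 : a * b⁻¹ ≠ 1) (hab2 : a⁻¹ * b ≠ 1) (hc : ¬ a * b = b * a)
    (k1 : ¬ a * a = b * b) (k2 : ¬ a⁻¹ * a⁻¹ = (b * a⁻¹) * (b * a⁻¹))
    (k3 : ¬ b⁻¹ * b⁻¹ = (a * b⁻¹) * (a * b⁻¹)) :
    (a * a) ≠ b⁻¹ := by
  intro h
  exact hc (com_a_c (comOf (n := 3) (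
    calc a ^ 3 * ((a * b⁻¹))⁻¹ = (a) * ((a * a) * b⁻¹⁻¹) * (a)⁻¹ := by simp only [pow_succ, pow_zero, mul_assoc, mul_inv_rev, inv_inv, mul_inv_cancel, inv_mul_cancel, mul_inv_cancel_left, inv_mul_cancel_left, one_mul, mul_one, inv_one]
    _ = 1 := by rw [mul_inv_eq_one.2 h]; simp)))

theorem hx_3_12 (htf : ∀ g : G, ∀ n : ℕ, 0 < n → g ^ n = 1 → g = 1) (ha : a ≠ 1)
    (hb : b ≠ 1) (hab1 : a * b⁻¹ ≠ 1) (hab2 : a⁻¹ * b ≠ 1) (hc : ¬ a * b = b * a)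
    (k1 : ¬ a * a = b * b) (k2 : ¬ a⁻¹ * a⁻¹ = (b * a⁻¹) * (b * a⁻¹))
    (k3 : ¬ b⁻¹ * b⁻¹ = (a * b⁻¹) * (a * b⁻¹)) :
    (a * a) ≠ (a * b⁻¹) := by
  intro h
  exact hc (com_a_c (comOf (n := 2) (
    calc a ^ 2 * ((a * b⁻¹))⁻¹ = 1 * ((a * a) * (a * b⁻¹)⁻¹) * 1⁻¹ := by simp only [pow_succ, pow_zero, mul_assoc, mul_inv_rev, inv_inv, mul_inv_cancel, inv_mul_cancel, mul_inv_cancel_left, inv_mul_cancel_left, one_mul, mul_one, inv_one]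
    _ = 1 := by rw [mul_inv_eq_one.2 h]; simp)))

theorem hx_3_13 (htf : ∀ g : G, ∀ n : ℕ, 0 < n → g ^ n = 1 → g = 1) (ha : a ≠ 1)
    (hb : b ≠ 1) (hab1 : a * b⁻¹ ≠ 1) (hab2 : a⁻¹ * b ≠ 1) (hc : ¬ a * b = b * a)
    (k1 : ¬ a * a = b * b) (k2 : ¬ a⁻¹ * a⁻¹ = (b * a⁻¹) * (b * a⁻¹))
    (k3 : ¬ b⁻¹ * b⁻¹ = (a * b⁻¹) * (a * b⁻¹)) :
    (a * a) ≠ (b⁻¹ * a) := by
  intro h
  exact hc (com_b_a (comOf1 (n := 1) (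
    calc (b)⁻¹ ^ 1 * (a)⁻¹ = 1 * (((a * a) * (b⁻¹ * a)⁻¹))⁻¹ * 1⁻¹ := by simp only [pow_succ, pow_zero, mul_assoc, mul_inv_rev, inv_inv, mul_inv_cancel, inv_mul_cancel, mul_inv_cancel_left, inv_mul_cancel_left, one_mul, mul_one, inv_one]
    _ = 1 := by rw [mul_inv_eq_one.2 h]; simp)))

theorem hx_3_14 (htf : ∀ g : G, ∀ n : ℕ, 0 < n → g ^ n = 1 → g = 1) (ha : a ≠ 1)
    (hb : b ≠ 1) (hab1 : a * b⁻¹ ≠ 1) (hab2 : a⁻¹ * b ≠ 1) (hc : ¬ a * b = b * a)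
    (k1 : ¬ a * a = b * b) (k2 : ¬ a⁻¹ * a⁻¹ = (b * a⁻¹) * (b * a⁻¹))
    (k3 : ¬ b⁻¹ * b⁻¹ = (a * b⁻¹) * (a * b⁻¹)) :
    (a * a) ≠ (a * b⁻¹ * a) := by
  intro h
  exact hc (com_a_c (comOf (n := 1) (
    calc a ^ 1 * ((a * b⁻¹))⁻¹ = 1 * ((a * a) * (a * b⁻¹ * a)⁻¹) * 1⁻¹ := by simp only [pow_succ, pow_zero, mul_assoc, mul_inv_rev, inv_inv, mul_inv_cancel, inv_mul_cancel, mul_inv_cancel_left, inv_mul_cancel_left, one_mul, mul_one, inv_one]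
    _ = 1 := by rw [mul_inv_eq_one.2 h]; simp)))

theorem hx_4_5 (htf : ∀ g : G, ∀ n : ℕ, 0 < n → g ^ n = 1 → g = 1) (ha : a ≠ 1)
    (hb : b ≠ 1) (hab1 : a * b⁻¹ ≠ 1) (hab2 : a⁻¹ * b ≠ 1) (hc : ¬ a * b = b * a)
    (k1 : ¬ a * a = b * b) (k2 : ¬ a⁻¹ * a⁻¹ = (b * a⁻¹) * (b * a⁻¹))
    (k3 : ¬ b⁻¹ * b⁻¹ = (a * b⁻¹) * (a * b⁻¹)) :
    (b * a) ≠ (a * b) := by
  intro h
  exact hc (commOf (
    calc a * b * a⁻¹ * b⁻¹ = 1 * (((b * a) * (a * b)⁻¹))⁻¹ * 1⁻¹ := by simp only [pow_succ, pow_zero, mul_assoc, mul_inv_rev, inv_inv, mul_inv_cancel, inv_mul_cancel, mul_inv_cancel_left, inv_mul_cancel_left, one_mul, mul_one, inv_one]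
    _ = 1 := by rw [mul_inv_eq_one.2 h]; simp))

theorem hx_4_6 (htf : ∀ g : G, ∀ n : ℕ, 0 < n → g ^ n = 1 → g = 1) (ha : a ≠ 1)
    (hb : b ≠ 1) (hab1 : a * b⁻¹ ≠ 1) (hab2 : a⁻¹ * b ≠ 1) (hc : ¬ a * b = b * a)
    (k1 : ¬ a * a = b * b) (k2 : ¬ a⁻¹ * a⁻¹ = (b * a⁻¹) * (b * a⁻¹))
    (k3 : ¬ b⁻¹ * b⁻¹ = (a * b⁻¹) * (a * b⁻¹)) :
    (b * a) ≠ (b * b) := by
  intro h
  exact tor htf hab1 1 (by norm_num) (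
    calc (a * b⁻¹) ^ 1 = (b⁻¹) * ((b * a) * (b * b)⁻¹) * (b⁻¹)⁻¹ := by simp only [pow_succ, pow_zero, mul_assoc, mul_inv_rev, inv_inv, mul_inv_cancel, inv_mul_cancel, mul_inv_cancel_left, inv_mul_cancel_left, one_mul, mul_one, inv_one]
    _ = 1 := by rw [mul_inv_eq_one.2 h]; simp)

theorem hx_4_7 (htf : ∀ g : G, ∀ n : ℕ, 0 < n → g ^ n = 1 → g = 1) (ha : a ≠ 1)
    (hb : b ≠ 1) (hab1 : a * b⁻¹ ≠ 1) (hab2 : a⁻¹ * b ≠ 1) (hc : ¬ a * b = b * a)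
    (k1 : ¬ a * a = b * b) (k2 : ¬ a⁻¹ * a⁻¹ = (b * a⁻¹) * (b * a⁻¹))
    (k3 : ¬ b⁻¹ * b⁻¹ = (a * b⁻¹) * (a * b⁻¹)) :
    (b * a) ≠ a⁻¹ := by
  intro h
  exact hc (com_a_b (comOf1 (n := 2) (
    calc (a)⁻¹ ^ 2 * (b)⁻¹ = 1 * (((b * a) * a⁻¹⁻¹))⁻¹ * 1⁻¹ := by simp only [pow_succ, pow_zero, mul_assoc, mul_inv_rev, inv_inv, mul_inv_cancel, inv_mul_cancel, mul_inv_cancel_left, inv_mul_cancel_left, one_mul, mul_one, inv_one]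
    _ = 1 := by rw [mul_inv_eq_one.2 h]; simp)))

theorem hx_4_8 (htf : ∀ g : G, ∀ n : ℕ, 0 < n → g ^ n = 1 → g = 1) (ha : a ≠ 1)
    (hb : b ≠ 1) (hab1 : a * b⁻¹ ≠ 1) (hab2 : a⁻¹ * b ≠ 1) (hc : ¬ a * b = b * a)
    (k1 : ¬ a * a = b * b) (k2 : ¬ a⁻¹ * a⁻¹ = (b * a⁻¹) * (b * a⁻¹))
    (k3 : ¬ b⁻¹ * b⁻¹ = (a * b⁻¹) * (a * b⁻¹)) :
    (b * a) ≠ (b * a⁻¹) := by
  intro h
  exact tor htf ha 2 (by norm_num) (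
    calc a ^ 2 = (b⁻¹) * ((b * a) * (b * a⁻¹)⁻¹) * (b⁻¹)⁻¹ := by simp only [pow_succ, pow_zero, mul_assoc, mul_inv_rev, inv_inv, mul_inv_cancel, inv_mul_cancel, mul_inv_cancel_left, inv_mul_cancel_left, one_mul, mul_one, inv_one]
    _ = 1 := by rw [mul_inv_eq_one.2 h]; simp)

theorem hx_4_9 (htf : ∀ g : G, ∀ n : ℕ, 0 < n → g ^ n = 1 → g = 1) (ha : a ≠ 1)
    (hb : b ≠ 1) (hab1 : a * b⁻¹ ≠ 1) (hab2 : a⁻¹ * b ≠ 1) (hc : ¬ a * b = b * a)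
    (k1 : ¬ a * a = b * b) (k2 : ¬ a⁻¹ * a⁻¹ = (b * a⁻¹) * (b * a⁻¹))
    (k3 : ¬ b⁻¹ * b⁻¹ = (a * b⁻¹) * (a * b⁻¹)) :
    (b * a) ≠ (a⁻¹ * b) := by
  intro h
  exact k3 (mul_inv_eq_one.1 (
    calc (b⁻¹ * b⁻¹) * ((a * b⁻¹) * (a * b⁻¹))⁻¹ = (b⁻¹) * (((b * a) * (a⁻¹ * b)⁻¹))⁻¹ * (b⁻¹)⁻¹ := by simp only [pow_succ, pow_zero, mul_assoc, mul_inv_rev, inv_inv, mul_inv_cancel, inv_mul_cancel, mul_inv_cancel_left, inv_mul_cancel_left, one_mul, mul_one, inv_one]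
    _ = 1 := by rw [mul_inv_eq_one.2 h]; simp))

theorem hx_4_10 (htf : ∀ g : G, ∀ n : ℕ, 0 < n → g ^ n = 1 → g = 1) (ha : a ≠ 1)
    (hb : b ≠ 1) (hab1 : a * b⁻¹ ≠ 1) (hab2 : a⁻¹ * b ≠ 1) (hc : ¬ a * b = b * a)
    (k1 : ¬ a * a = b * b) (k2 : ¬ a⁻¹ * a⁻¹ = (b * a⁻¹) * (b * a⁻¹))
    (k3 : ¬ b⁻¹ * b⁻¹ = (a * b⁻¹) * (a * b⁻¹)) :
    (b * a) ≠ (b * a⁻¹ * b) := by
  intro h
  exact hc (com_c_b (comOf1 (n := 2) (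
    calc ((a * b⁻¹))⁻¹ ^ 2 * (b)⁻¹ = 1 * (((b * a) * (b * a⁻¹ * b)⁻¹))⁻¹ * 1⁻¹ := by simp only [pow_succ, pow_zero, mul_assoc, mul_inv_rev, inv_inv, mul_inv_cancel, inv_mul_cancel, mul_inv_cancel_left, inv_mul_cancel_left, one_mul, mul_one, inv_one]
    _ = 1 := by rw [mul_inv_eq_one.2 h]; simp)))

theorem hx_4_11 (htf : ∀ g : G, ∀ n : ℕ, 0 < n → g ^ n = 1 → g = 1) (ha : a ≠ 1)
    (hb : b ≠ 1) (hab1 : a * b⁻¹ ≠ 1) (hab2 : a⁻¹ * b ≠ 1) (hc : ¬ a * b = b * a)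
    (k1 : ¬ a * a = b * b) (k2 : ¬ a⁻¹ * a⁻¹ = (b * a⁻¹) * (b * a⁻¹))
    (k3 : ¬ b⁻¹ * b⁻¹ = (a * b⁻¹) * (a * b⁻¹)) :
    (b * a) ≠ b⁻¹ := by
  intro h
  exact hc (com_b_d (comOf (n := 3) (
    calc b ^ 3 * ((a⁻¹ * b))⁻¹ = (b) * ((b * a) * b⁻¹⁻¹) * (b)⁻¹ := by simp only [pow_succ, pow_zero, mul_assoc, mul_inv_rev, inv_inv, mul_inv_cancel, inv_mul_cancel, mul_inv_cancel_left, inv_mul_cancel_left, one_mul, mul_one, inv_one]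
    _ = 1 := by rw [mul_inv_eq_one.2 h]; simp)))

theorem hx_4_12 (htf : ∀ g : G, ∀ n : ℕ, 0 < n → g ^ n = 1 → g = 1) (ha : a ≠ 1)
    (hb : b ≠ 1) (hab1 : a * b⁻¹ ≠ 1) (hab2 : a⁻¹ * b ≠ 1) (hc : ¬ a * b = b * a)
    (k1 : ¬ a * a = b * b) (k2 : ¬ a⁻¹ * a⁻¹ = (b * a⁻¹) * (b * a⁻¹))
    (k3 : ¬ b⁻¹ * b⁻¹ = (a * b⁻¹) * (a * b⁻¹)) :
    (b * a) ≠ (a * b⁻¹) := by
  intro h
  exact k2 (mul_inv_eq_one.1 (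
    calc (a⁻¹ * a⁻¹) * ((b * a⁻¹) * (b * a⁻¹))⁻¹ = (a⁻¹ * b⁻¹) * (((b * a) * (a * b⁻¹)⁻¹))⁻¹ * (a⁻¹ * b⁻¹)⁻¹ := by simp only [pow_succ, pow_zero, mul_assoc, mul_inv_rev, inv_inv, mul_inv_cancel, inv_mul_cancel, mul_inv_cancel_left, inv_mul_cancel_left, one_mul, mul_one, inv_one]
    _ = 1 := by rw [mul_inv_eq_one.2 h]; simp))

theorem hx_4_13 (htf : ∀ g : G, ∀ n : ℕ, 0 < n → g ^ n = 1 → g = 1) (ha : a ≠ 1)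
    (hb : b ≠ 1) (hab1 : a * b⁻¹ ≠ 1) (hab2 : a⁻¹ * b ≠ 1) (hc : ¬ a * b = b * a)
    (k1 : ¬ a * a = b * b) (k2 : ¬ a⁻¹ * a⁻¹ = (b * a⁻¹) * (b * a⁻¹))
    (k3 : ¬ b⁻¹ * b⁻¹ = (a * b⁻¹) * (a * b⁻¹)) :
    (b * a) ≠ (b⁻¹ * a) := by
  intro h
  exact tor htf hb 2 (by norm_num) (
    calc b ^ 2 = 1 * ((b * a) * (b⁻¹ * a)⁻¹) * 1⁻¹ := by simp only [pow_succ, pow_zero, mul_assoc, mul_inv_rev, inv_inv, mul_inv_cancel, inv_mul_cancel, mul_inv_cancel_left, inv_mul_cancel_left, one_mul, mul_one, inv_one]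
    _ = 1 := by rw [mul_inv_eq_one.2 h]; simp)

theorem hx_4_14 (htf : ∀ g : G, ∀ n : ℕ, 0 < n → g ^ n = 1 → g = 1) (ha : a ≠ 1)
    (hb : b ≠ 1) (hab1 : a * b⁻¹ ≠ 1) (hab2 : a⁻¹ * b ≠ 1) (hc : ¬ a * b = b * a)
    (k1 : ¬ a * a = b * b) (k2 : ¬ a⁻¹ * a⁻¹ = (b * a⁻¹) * (b * a⁻¹))
    (k3 : ¬ b⁻¹ * b⁻¹ = (a * b⁻¹) * (a * b⁻¹)) :
    (b * a) ≠ (a * b⁻¹ * a) := by
  intro h
  exact hc (com_b_a (comOf (n := 2) (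
    calc b ^ 2 * (a)⁻¹ = 1 * ((b * a) * (a * b⁻¹ * a)⁻¹) * 1⁻¹ := by simp only [pow_succ, pow_zero, mul_assoc, mul_inv_rev, inv_inv, mul_inv_cancel, inv_mul_cancel, mul_inv_cancel_left, inv_mul_cancel_left, one_mul, mul_one, inv_one]
    _ = 1 := by rw [mul_inv_eq_one.2 h]; simp)))

theorem hx_5_6 (htf : ∀ g : G, ∀ n : ℕ, 0 < n → g ^ n = 1 → g = 1) (ha : a ≠ 1)
    (hb : b ≠ 1) (hab1 : a * b⁻¹ ≠ 1) (hab2 : a⁻¹ * b ≠ 1) (hc : ¬ a * b = b * a)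
    (k1 : ¬ a * a = b * b) (k2 : ¬ a⁻¹ * a⁻¹ = (b * a⁻¹) * (b * a⁻¹))
    (k3 : ¬ b⁻¹ * b⁻¹ = (a * b⁻¹) * (a * b⁻¹)) :
    (a * b) ≠ (b * b) := by
  intro h
  exact tor htf hab1 1 (by norm_num) (
    calc (a * b⁻¹) ^ 1 = 1 * ((a * b) * (b * b)⁻¹) * 1⁻¹ := by simp only [pow_succ, pow_zero, mul_assoc, mul_inv_rev, inv_inv, mul_inv_cancel, inv_mul_cancel, mul_inv_cancel_left, inv_mul_cancel_left, one_mul, mul_one, inv_one]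
    _ = 1 := by rw [mul_inv_eq_one.2 h]; simp)

theorem hx_5_7 (htf : ∀ g : G, ∀ n : ℕ, 0 < n → g ^ n = 1 → g = 1) (ha : a ≠ 1)
    (hb : b ≠ 1) (hab1 : a * b⁻¹ ≠ 1) (hab2 : a⁻¹ * b ≠ 1) (hc : ¬ a * b = b * a)
    (k1 : ¬ a * a = b * b) (k2 : ¬ a⁻¹ * a⁻¹ = (b * a⁻¹) * (b * a⁻¹))
    (k3 : ¬ b⁻¹ * b⁻¹ = (a * b⁻¹) * (a * b⁻¹)) :
    (a * b) ≠ a⁻¹ := by
  intro h
  exact hc (com_a_b (comOf1 (n := 2) (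
    calc (a)⁻¹ ^ 2 * (b)⁻¹ = (a⁻¹) * (((a * b) * a⁻¹⁻¹))⁻¹ * (a⁻¹)⁻¹ := by simp only [pow_succ, pow_zero, mul_assoc, mul_inv_rev, inv_inv, mul_inv_cancel, inv_mul_cancel, mul_inv_cancel_left, inv_mul_cancel_left, one_mul, mul_one, inv_one]
    _ = 1 := by rw [mul_inv_eq_one.2 h]; simp)))

theorem hx_5_8 (htf : ∀ g : G, ∀ n : ℕ, 0 < n → g ^ n = 1 → g = 1) (ha : a ≠ 1)
    (hb : b ≠ 1) (hab1 : a * b⁻¹ ≠ 1) (hab2 : a⁻¹ * b ≠ 1) (hc : ¬ a * b = b * a)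
    (k1 : ¬ a * a = b * b) (k2 : ¬ a⁻¹ * a⁻¹ = (b * a⁻¹) * (b * a⁻¹))
    (k3 : ¬ b⁻¹ * b⁻¹ = (a * b⁻¹) * (a * b⁻¹)) :
    (a * b) ≠ (b * a⁻¹) := by
  intro h
  exact k3 (mul_inv_eq_one.1 (
    calc (b⁻¹ * b⁻¹) * ((a * b⁻¹) * (a * b⁻¹))⁻¹ = (a * b⁻¹) * (((a * b) * (b * a⁻¹)⁻¹))⁻¹ * (a * b⁻¹)⁻¹ := by simp only [pow_succ, pow_zero, mul_assoc, mul_inv_rev, inv_inv, mul_inv_cancel, inv_mul_cancel, mul_inv_cancel_left, inv_mul_cancel_left, one_mul, mul_one, inv_one]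
    _ = 1 := by rw [mul_inv_eq_one.2 h]; simp))

theorem hx_5_9 (htf : ∀ g : G, ∀ n : ℕ, 0 < n → g ^ n = 1 → g = 1) (ha : a ≠ 1)
    (hb : b ≠ 1) (hab1 : a * b⁻¹ ≠ 1) (hab2 : a⁻¹ * b ≠ 1) (hc : ¬ a * b = b * a)
    (k1 : ¬ a * a = b * b) (k2 : ¬ a⁻¹ * a⁻¹ = (b * a⁻¹) * (b * a⁻¹))
    (k3 : ¬ b⁻¹ * b⁻¹ = (a * b⁻¹) * (a * b⁻¹)) :
    (a * b) ≠ (a⁻¹ * b) := by
  intro h
  exact tor htf ha 2 (by norm_num) (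
    calc a ^ 2 = 1 * ((a * b) * (a⁻¹ * b)⁻¹) * 1⁻¹ := by simp only [pow_succ, pow_zero, mul_assoc, mul_inv_rev, inv_inv, mul_inv_cancel, inv_mul_cancel, mul_inv_cancel_left, inv_mul_cancel_left, one_mul, mul_one, inv_one]
    _ = 1 := by rw [mul_inv_eq_one.2 h]; simp)

theorem hx_5_10 (htf : ∀ g : G, ∀ n : ℕ, 0 < n → g ^ n = 1 → g = 1) (ha : a ≠ 1)
    (hb : b ≠ 1) (hab1 : a * b⁻¹ ≠ 1) (hab2 : a⁻¹ * b ≠ 1) (hc : ¬ a * b = b * a)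
    (k1 : ¬ a * a = b * b) (k2 : ¬ a⁻¹ * a⁻¹ = (b * a⁻¹) * (b * a⁻¹))
    (k3 : ¬ b⁻¹ * b⁻¹ = (a * b⁻¹) * (a * b⁻¹)) :
    (a * b) ≠ (b * a⁻¹ * b) := by
  intro h
  exact hc (com_a_b (comOf (n := 2) (
    calc a ^ 2 * (b)⁻¹ = 1 * ((a * b) * (b * a⁻¹ * b)⁻¹) * 1⁻¹ := by simp only [pow_succ, pow_zero, mul_assoc, mul_inv_rev, inv_inv, mul_inv_cancel, inv_mul_cancel, mul_inv_cancel_left, inv_mul_cancel_left, one_mul, mul_one, inv_one]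
    _ = 1 := by rw [mul_inv_eq_one.2 h]; simp)))

theorem hx_5_11 (htf : ∀ g : G, ∀ n : ℕ, 0 < n → g ^ n = 1 → g = 1) (ha : a ≠ 1)
    (hb : b ≠ 1) (hab1 : a * b⁻¹ ≠ 1) (hab2 : a⁻¹ * b ≠ 1) (hc : ¬ a * b = b * a)
    (k1 : ¬ a * a = b * b) (k2 : ¬ a⁻¹ * a⁻¹ = (b * a⁻¹) * (b * a⁻¹))
    (k3 : ¬ b⁻¹ * b⁻¹ = (a * b⁻¹) * (a * b⁻¹)) :
    (a * b) ≠ b⁻¹ := by
  intro h
  exact hc (com_b_a (comOf1 (n := 2) (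
    calc (b)⁻¹ ^ 2 * (a)⁻¹ = 1 * (((a * b) * b⁻¹⁻¹))⁻¹ * 1⁻¹ := by simp only [pow_succ, pow_zero, mul_assoc, mul_inv_rev, inv_inv, mul_inv_cancel, inv_mul_cancel, mul_inv_cancel_left, inv_mul_cancel_left, one_mul, mul_one, inv_one]
    _ = 1 := by rw [mul_inv_eq_one.2 h]; simp)))

theorem hx_5_12 (htf : ∀ g : G, ∀ n : ℕ, 0 < n → g ^ n = 1 → g = 1) (ha : a ≠ 1)
    (hb : b ≠ 1) (hab1 : a * b⁻¹ ≠ 1) (hab2 : a⁻¹ * b ≠ 1) (hc : ¬ a * b = b * a)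
    (k1 : ¬ a * a = b * b) (k2 : ¬ a⁻¹ * a⁻¹ = (b * a⁻¹) * (b * a⁻¹))
    (k3 : ¬ b⁻¹ * b⁻¹ = (a * b⁻¹) * (a * b⁻¹)) :
    (a * b) ≠ (a * b⁻¹) := by
  intro h
  exact tor htf hb 2 (by norm_num) (
    calc b ^ 2 = (a⁻¹) * ((a * b) * (a * b⁻¹)⁻¹) * (a⁻¹)⁻¹ := by simp only [pow_succ, pow_zero, mul_assoc, mul_inv_rev, inv_inv, mul_inv_cancel, inv_mul_cancel, mul_inv_cancel_left, inv_mul_cancel_left, one_mul, mul_one, inv_one]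
    _ = 1 := by rw [mul_inv_eq_one.2 h]; simp)

theorem hx_5_13 (htf : ∀ g : G, ∀ n : ℕ, 0 < n → g ^ n = 1 → g = 1) (ha : a ≠ 1)
    (hb : b ≠ 1) (hab1 : a * b⁻¹ ≠ 1) (hab2 : a⁻¹ * b ≠ 1) (hc : ¬ a * b = b * a)
    (k1 : ¬ a * a = b * b) (k2 : ¬ a⁻¹ * a⁻¹ = (b * a⁻¹) * (b * a⁻¹))
    (k3 : ¬ b⁻¹ * b⁻¹ = (a * b⁻¹) * (a * b⁻¹)) :
    (a * b) ≠ (b⁻¹ * a) := by
  intro h
  exact k2 (mul_inv_eq_one.1 (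
    calc (a⁻¹ * a⁻¹) * ((b * a⁻¹) * (b * a⁻¹))⁻¹ = (a⁻¹) * (((a * b) * (b⁻¹ * a)⁻¹))⁻¹ * (a⁻¹)⁻¹ := by simp only [pow_succ, pow_zero, mul_assoc, mul_inv_rev, inv_inv, mul_inv_cancel, inv_mul_cancel, mul_inv_cancel_left, inv_mul_cancel_left, one_mul, mul_one, inv_one]
    _ = 1 := by rw [mul_inv_eq_one.2 h]; simp))

theorem hx_5_14 (htf : ∀ g : G, ∀ n : ℕ, 0 < n → g ^ n = 1 → g = 1) (ha : a ≠ 1)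
    (hb : b ≠ 1) (hab1 : a * b⁻¹ ≠ 1) (hab2 : a⁻¹ * b ≠ 1) (hc : ¬ a * b = b * a)
    (k1 : ¬ a * a = b * b) (k2 : ¬ a⁻¹ * a⁻¹ = (b * a⁻¹) * (b * a⁻¹))
    (k3 : ¬ b⁻¹ * b⁻¹ = (a * b⁻¹) * (a * b⁻¹)) :
    (a * b) ≠ (a * b⁻¹ * a) := by
  intro h
  exact hc (com_c_a (comOf (n := 2) (
    calc (a * b⁻¹) ^ 2 * (a)⁻¹ = 1 * (((a * b) * (a * b⁻¹ * a)⁻¹))⁻¹ * 1⁻¹ := by simp only [pow_succ, pow_zero, mul_assoc, mul_inv_rev, inv_inv, mul_inv_cancel, inv_mul_cancel, mul_inv_cancel_left, inv_mul_cancel_left, one_mul, mul_one, inv_one]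
    _ = 1 := by rw [mul_inv_eq_one.2 h]; simp)))

theorem hx_6_7 (htf : ∀ g : G, ∀ n : ℕ, 0 < n → g ^ n = 1 → g = 1) (ha : a ≠ 1)
    (hb : b ≠ 1) (hab1 : a * b⁻¹ ≠ 1) (hab2 : a⁻¹ * b ≠ 1) (hc : ¬ a * b = b * a)
    (k1 : ¬ a * a = b * b) (k2 : ¬ a⁻¹ * a⁻¹ = (b * a⁻¹) * (b * a⁻¹))
    (k3 : ¬ b⁻¹ * b⁻¹ = (a * b⁻¹) * (a * b⁻¹)) :
    (b * b) ≠ a⁻¹ := by
  intro h
  exact hc (com_b_d (comOf (n := 3) (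
    calc b ^ 3 * ((a⁻¹ * b))⁻¹ = 1 * ((b * b) * a⁻¹⁻¹) * 1⁻¹ := by simp only [pow_succ, pow_zero, mul_assoc, mul_inv_rev, inv_inv, mul_inv_cancel, inv_mul_cancel, mul_inv_cancel_left, inv_mul_cancel_left, one_mul, mul_one, inv_one]
    _ = 1 := by rw [mul_inv_eq_one.2 h]; simp)))

theorem hx_6_8 (htf : ∀ g : G, ∀ n : ℕ, 0 < n → g ^ n = 1 → g = 1) (ha : a ≠ 1)
    (hb : b ≠ 1) (hab1 : a * b⁻¹ ≠ 1) (hab2 : a⁻¹ * b ≠ 1) (hc : ¬ a * b = b * a)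
    (k1 : ¬ a * a = b * b) (k2 : ¬ a⁻¹ * a⁻¹ = (b * a⁻¹) * (b * a⁻¹))
    (k3 : ¬ b⁻¹ * b⁻¹ = (a * b⁻¹) * (a * b⁻¹)) :
    (b * b) ≠ (b * a⁻¹) := by
  intro h
  exact hc (com_b_d (comOf (n := 2) (
    calc b ^ 2 * ((a⁻¹ * b))⁻¹ = (b⁻¹) * ((b * b) * (b * a⁻¹)⁻¹) * (b⁻¹)⁻¹ := by simp only [pow_succ, pow_zero, mul_assoc, mul_inv_rev, inv_inv, mul_inv_cancel, inv_mul_cancel, mul_inv_cancel_left, inv_mul_cancel_left, one_mul, mul_one, inv_one]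
    _ = 1 := by rw [mul_inv_eq_one.2 h]; simp)))

theorem hx_6_9 (htf : ∀ g : G, ∀ n : ℕ, 0 < n → g ^ n = 1 → g = 1) (ha : a ≠ 1)
    (hb : b ≠ 1) (hab1 : a * b⁻¹ ≠ 1) (hab2 : a⁻¹ * b ≠ 1) (hc : ¬ a * b = b * a)
    (k1 : ¬ a * a = b * b) (k2 : ¬ a⁻¹ * a⁻¹ = (b * a⁻¹) * (b * a⁻¹))
    (k3 : ¬ b⁻¹ * b⁻¹ = (a * b⁻¹) * (a * b⁻¹)) :
    (b * b) ≠ (a⁻¹ * b) := by
  intro h
  exact hc (com_b_d (comOf (n := 2) (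
    calc b ^ 2 * ((a⁻¹ * b))⁻¹ = 1 * ((b * b) * (a⁻¹ * b)⁻¹) * 1⁻¹ := by simp only [pow_succ, pow_zero, mul_assoc, mul_inv_rev, inv_inv, mul_inv_cancel, inv_mul_cancel, mul_inv_cancel_left, inv_mul_cancel_left, one_mul, mul_one, inv_one]
    _ = 1 := by rw [mul_inv_eq_one.2 h]; simp)))

theorem hx_6_10 (htf : ∀ g : G, ∀ n : ℕ, 0 < n → g ^ n = 1 → g = 1) (ha : a ≠ 1)
    (hb : b ≠ 1) (hab1 : a * b⁻¹ ≠ 1) (hab2 : a⁻¹ * b ≠ 1) (hc : ¬ a * b = b * a)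
    (k1 : ¬ a * a = b * b) (k2 : ¬ a⁻¹ * a⁻¹ = (b * a⁻¹) * (b * a⁻¹))
    (k3 : ¬ b⁻¹ * b⁻¹ = (a * b⁻¹) * (a * b⁻¹)) :
    (b * b) ≠ (b * a⁻¹ * b) := by
  intro h
  exact hc (com_c_b (comOf1 (n := 1) (
    calc ((a * b⁻¹))⁻¹ ^ 1 * (b)⁻¹ = 1 * (((b * b) * (b * a⁻¹ * b)⁻¹))⁻¹ * 1⁻¹ := by simp only [pow_succ, pow_zero, mul_assoc, mul_inv_rev, inv_inv, mul_inv_cancel, inv_mul_cancel, mul_inv_cancel_left, inv_mul_cancel_left, one_mul, mul_one, inv_one]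
    _ = 1 := by rw [mul_inv_eq_one.2 h]; simp)))

theorem hx_6_11 (htf : ∀ g : G, ∀ n : ℕ, 0 < n → g ^ n = 1 → g = 1) (ha : a ≠ 1)
    (hb : b ≠ 1) (hab1 : a * b⁻¹ ≠ 1) (hab2 : a⁻¹ * b ≠ 1) (hc : ¬ a * b = b * a)
    (k1 : ¬ a * a = b * b) (k2 : ¬ a⁻¹ * a⁻¹ = (b * a⁻¹) * (b * a⁻¹))
    (k3 : ¬ b⁻¹ * b⁻¹ = (a * b⁻¹) * (a * b⁻¹)) :
    (b * b) ≠ b⁻¹ := by
  intro h
  exact tor htf hb 3 (by norm_num) (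
    calc b ^ 3 = 1 * ((b * b) * b⁻¹⁻¹) * 1⁻¹ := by simp only [pow_succ, pow_zero, mul_assoc, mul_inv_rev, inv_inv, mul_inv_cancel, inv_mul_cancel, mul_inv_cancel_left, inv_mul_cancel_left, one_mul, mul_one, inv_one]
    _ = 1 := by rw [mul_inv_eq_one.2 h]; simp)

theorem hx_6_12 (htf : ∀ g : G, ∀ n : ℕ, 0 < n → g ^ n = 1 → g = 1) (ha : a ≠ 1)
    (hb : b ≠ 1) (hab1 : a * b⁻¹ ≠ 1) (hab2 : a⁻¹ * b ≠ 1) (hc : ¬ a * b = b * a)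
    (k1 : ¬ a * a = b * b) (k2 : ¬ a⁻¹ * a⁻¹ = (b * a⁻¹) * (b * a⁻¹))
    (k3 : ¬ b⁻¹ * b⁻¹ = (a * b⁻¹) * (a * b⁻¹)) :
    (b * b) ≠ (a * b⁻¹) := by
  intro h
  exact hc (com_b_a (comOf (n := 3) (
    calc b ^ 3 * (a)⁻¹ = 1 * ((b * b) * (a * b⁻¹)⁻¹) * 1⁻¹ := by simp only [pow_succ, pow_zero, mul_assoc, mul_inv_rev, inv_inv, mul_inv_cancel, inv_mul_cancel, mul_inv_cancel_left, inv_mul_cancel_left, one_mul, mul_one, inv_one]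
    _ = 1 := by rw [mul_inv_eq_one.2 h]; simp)))

theorem hx_6_13 (htf : ∀ g : G, ∀ n : ℕ, 0 < n → g ^ n = 1 → g = 1) (ha : a ≠ 1)
    (hb : b ≠ 1) (hab1 : a * b⁻¹ ≠ 1) (hab2 : a⁻¹ * b ≠ 1) (hc : ¬ a * b = b * a)
    (k1 : ¬ a * a = b * b) (k2 : ¬ a⁻¹ * a⁻¹ = (b * a⁻¹) * (b * a⁻¹))
    (k3 : ¬ b⁻¹ * b⁻¹ = (a * b⁻¹) * (a * b⁻¹)) :
    (b * b) ≠ (b⁻¹ * a) := by
  intro h
  exact hc (com_b_a (comOf (n := 3) (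
    calc b ^ 3 * (a)⁻¹ = (b) * ((b * b) * (b⁻¹ * a)⁻¹) * (b)⁻¹ := by simp only [pow_succ, pow_zero, mul_assoc, mul_inv_rev, inv_inv, mul_inv_cancel, inv_mul_cancel, mul_inv_cancel_left, inv_mul_cancel_left, one_mul, mul_one, inv_one]
    _ = 1 := by rw [mul_inv_eq_one.2 h]; simp)))

theorem hx_6_14 (htf : ∀ g : G, ∀ n : ℕ, 0 < n → g ^ n = 1 → g = 1) (ha : a ≠ 1)
    (hb : b ≠ 1) (hab1 : a * b⁻¹ ≠ 1) (hab2 : a⁻¹ * b ≠ 1) (hc : ¬ a * b = b * a)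
    (k1 : ¬ a * a = b * b) (k2 : ¬ a⁻¹ * a⁻¹ = (b * a⁻¹) * (b * a⁻¹))
    (k3 : ¬ b⁻¹ * b⁻¹ = (a * b⁻¹) * (a * b⁻¹)) :
    (b * b) ≠ (a * b⁻¹ * a) := by
  intro h
  exact hc (com_c_b (comOf (n := 2) (
    calc (a * b⁻¹) ^ 2 * (b)⁻¹ = 1 * (((b * b) * (a * b⁻¹ * a)⁻¹))⁻¹ * 1⁻¹ := by simp only [pow_succ, pow_zero, mul_assoc, mul_inv_rev, inv_inv, mul_inv_cancel, inv_mul_cancel, mul_inv_cancel_left, inv_mul_cancel_left, one_mul, mul_one, inv_one]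
    _ = 1 := by rw [mul_inv_eq_one.2 h]; simp)))

theorem hx_7_8 (htf : ∀ g : G, ∀ n : ℕ, 0 < n → g ^ n = 1 → g = 1) (ha : a ≠ 1)
    (hb : b ≠ 1) (hab1 : a * b⁻¹ ≠ 1) (hab2 : a⁻¹ * b ≠ 1) (hc : ¬ a * b = b * a)
    (k1 : ¬ a * a = b * b) (k2 : ¬ a⁻¹ * a⁻¹ = (b * a⁻¹) * (b * a⁻¹))
    (k3 : ¬ b⁻¹ * b⁻¹ = (a * b⁻¹) * (a * b⁻¹)) :
    a⁻¹ ≠ (b * a⁻¹) := by
  intro h
  exact hc (com_d_a (comOf1 (n := 1) (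
    calc ((a⁻¹ * b))⁻¹ ^ 1 * (a)⁻¹ = 1 * (a⁻¹ * (b * a⁻¹)⁻¹) * 1⁻¹ := by simp only [pow_succ, pow_zero, mul_assoc, mul_inv_rev, inv_inv, mul_inv_cancel, inv_mul_cancel, mul_inv_cancel_left, inv_mul_cancel_left, one_mul, mul_one, inv_one]
    _ = 1 := by rw [mul_inv_eq_one.2 h]; simp)))

theorem hx_7_9 (htf : ∀ g : G, ∀ n : ℕ, 0 < n → g ^ n = 1 → g = 1) (ha : a ≠ 1)
    (hb : b ≠ 1) (hab1 : a * b⁻¹ ≠ 1) (hab2 : a⁻¹ * b ≠ 1) (hc : ¬ a * b = b * a)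
    (k1 : ¬ a * a = b * b) (k2 : ¬ a⁻¹ * a⁻¹ = (b * a⁻¹) * (b * a⁻¹))
    (k3 : ¬ b⁻¹ * b⁻¹ = (a * b⁻¹) * (a * b⁻¹)) :
    a⁻¹ ≠ (a⁻¹ * b) := by
  intro h
  exact hc (com_a_d (comOf1 (n := 1) (
    calc (a)⁻¹ ^ 1 * ((a⁻¹ * b))⁻¹ = 1 * (a⁻¹ * (a⁻¹ * b)⁻¹) * 1⁻¹ := by simp only [pow_succ, pow_zero, mul_assoc, mul_inv_rev, inv_inv, mul_inv_cancel, inv_mul_cancel, mul_inv_cancel_left, inv_mul_cancel_left, one_mul, mul_one, inv_one]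
    _ = 1 := by rw [mul_inv_eq_one.2 h]; simp)))

theorem hx_7_10 (htf : ∀ g : G, ∀ n : ℕ, 0 < n → g ^ n = 1 → g = 1) (ha : a ≠ 1)
    (hb : b ≠ 1) (hab1 : a * b⁻¹ ≠ 1) (hab2 : a⁻¹ * b ≠ 1) (hc : ¬ a * b = b * a)
    (k1 : ¬ a * a = b * b) (k2 : ¬ a⁻¹ * a⁻¹ = (b * a⁻¹) * (b * a⁻¹))
    (k3 : ¬ b⁻¹ * b⁻¹ = (a * b⁻¹) * (a * b⁻¹)) :
    a⁻¹ ≠ (b * a⁻¹ * b) := by
  intro h
  exact k2 (mul_inv_eq_one.1 (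
    calc (a⁻¹ * a⁻¹) * ((b * a⁻¹) * (b * a⁻¹))⁻¹ = 1 * (a⁻¹ * (b * a⁻¹ * b)⁻¹) * 1⁻¹ := by simp only [pow_succ, pow_zero, mul_assoc, mul_inv_rev, inv_inv, mul_inv_cancel, inv_mul_cancel, mul_inv_cancel_left, inv_mul_cancel_left, one_mul, mul_one, inv_one]
    _ = 1 := by rw [mul_inv_eq_one.2 h]; simp))

theorem hx_7_11 (htf : ∀ g : G, ∀ n : ℕ, 0 < n → g ^ n = 1 → g = 1) (ha : a ≠ 1)
    (hb : b ≠ 1) (hab1 : a * b⁻¹ ≠ 1) (hab2 : a⁻¹ * b ≠ 1) (hc : ¬ a * b = b * a)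
    (k1 : ¬ a * a = b * b) (k2 : ¬ a⁻¹ * a⁻¹ = (b * a⁻¹) * (b * a⁻¹))
    (k3 : ¬ b⁻¹ * b⁻¹ = (a * b⁻¹) * (a * b⁻¹)) :
    a⁻¹ ≠ b⁻¹ := by
  intro h
  exact tor htf hab2 1 (by norm_num) (
    calc (a⁻¹ * b) ^ 1 = 1 * (a⁻¹ * b⁻¹⁻¹) * 1⁻¹ := by simp only [pow_succ, pow_zero, mul_assoc, mul_inv_rev, inv_inv, mul_inv_cancel, inv_mul_cancel, mul_inv_cancel_left, inv_mul_cancel_left, one_mul, mul_one, inv_one]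
    _ = 1 := by rw [mul_inv_eq_one.2 h]; simp)

theorem hx_7_12 (htf : ∀ g : G, ∀ n : ℕ, 0 < n → g ^ n = 1 → g = 1) (ha : a ≠ 1)
    (hb : b ≠ 1) (hab1 : a * b⁻¹ ≠ 1) (hab2 : a⁻¹ * b ≠ 1) (hc : ¬ a * b = b * a)
    (k1 : ¬ a * a = b * b) (k2 : ¬ a⁻¹ * a⁻¹ = (b * a⁻¹) * (b * a⁻¹))
    (k3 : ¬ b⁻¹ * b⁻¹ = (a * b⁻¹) * (a * b⁻¹)) :
    a⁻¹ ≠ (a * b⁻¹) := by
  intro h
  exact hc (com_a_c (comOf1 (n := 1) (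
    calc (a)⁻¹ ^ 1 * ((a * b⁻¹))⁻¹ = 1 * (a⁻¹ * (a * b⁻¹)⁻¹) * 1⁻¹ := by simp only [pow_succ, pow_zero, mul_assoc, mul_inv_rev, inv_inv, mul_inv_cancel, inv_mul_cancel, mul_inv_cancel_left, inv_mul_cancel_left, one_mul, mul_one, inv_one]
    _ = 1 := by rw [mul_inv_eq_one.2 h]; simp)))

theorem hx_7_13 (htf : ∀ g : G, ∀ n : ℕ, 0 < n → g ^ n = 1 → g = 1) (ha : a ≠ 1)
    (hb : b ≠ 1) (hab1 : a * b⁻¹ ≠ 1) (hab2 : a⁻¹ * b ≠ 1) (hc : ¬ a * b = b * a)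
    (k1 : ¬ a * a = b * b) (k2 : ¬ a⁻¹ * a⁻¹ = (b * a⁻¹) * (b * a⁻¹))
    (k3 : ¬ b⁻¹ * b⁻¹ = (a * b⁻¹) * (a * b⁻¹)) :
    a⁻¹ ≠ (b⁻¹ * a) := by
  intro h
  exact hc (com_a_c (comOf1 (n := 1) (
    calc (a)⁻¹ ^ 1 * ((a * b⁻¹))⁻¹ = (a) * (a⁻¹ * (b⁻¹ * a)⁻¹) * (a)⁻¹ := by simp only [pow_succ, pow_zero, mul_assoc, mul_inv_rev, inv_inv, mul_inv_cancel, inv_mul_cancel, mul_inv_cancel_left, inv_mul_cancel_left, one_mul, mul_one, inv_one]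
    _ = 1 := by rw [mul_inv_eq_one.2 h]; simp)))

theorem hx_7_14 (htf : ∀ g : G, ∀ n : ℕ, 0 < n → g ^ n = 1 → g = 1) (ha : a ≠ 1)
    (hb : b ≠ 1) (hab1 : a * b⁻¹ ≠ 1) (hab2 : a⁻¹ * b ≠ 1) (hc : ¬ a * b = b * a)
    (k1 : ¬ a * a = b * b) (k2 : ¬ a⁻¹ * a⁻¹ = (b * a⁻¹) * (b * a⁻¹))
    (k3 : ¬ b⁻¹ * b⁻¹ = (a * b⁻¹) * (a * b⁻¹)) :
    a⁻¹ ≠ (a * b⁻¹ * a) := by
  intro h
  exact hc (com_a_c (comOf1 (n := 2) (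
    calc (a)⁻¹ ^ 2 * ((a * b⁻¹))⁻¹ = 1 * (a⁻¹ * (a * b⁻¹ * a)⁻¹) * 1⁻¹ := by simp only [pow_succ, pow_zero, mul_assoc, mul_inv_rev, inv_inv, mul_inv_cancel, inv_mul_cancel, mul_inv_cancel_left, inv_mul_cancel_left, one_mul, mul_one, inv_one]
    _ = 1 := by rw [mul_inv_eq_one.2 h]; simp)))

theorem hx_8_9 (htf : ∀ g : G, ∀ n : ℕ, 0 < n → g ^ n = 1 → g = 1) (ha : a ≠ 1)
    (hb : b ≠ 1) (hab1 : a * b⁻¹ ≠ 1) (hab2 : a⁻¹ * b ≠ 1) (hc : ¬ a * b = b * a)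
    (k1 : ¬ a * a = b * b) (k2 : ¬ a⁻¹ * a⁻¹ = (b * a⁻¹) * (b * a⁻¹))
    (k3 : ¬ b⁻¹ * b⁻¹ = (a * b⁻¹) * (a * b⁻¹)) :
    (b * a⁻¹) ≠ (a⁻¹ * b) := by
  intro h
  exact hc (commOf (
    calc a * b * a⁻¹ * b⁻¹ = (a) * ((b * a⁻¹) * (a⁻¹ * b)⁻¹) * (a)⁻¹ := by simp only [pow_succ, pow_zero, mul_assoc, mul_inv_rev, inv_inv, mul_inv_cancel, inv_mul_cancel, mul_inv_cancel_left, inv_mul_cancel_left, one_mul, mul_one, inv_one]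
    _ = 1 := by rw [mul_inv_eq_one.2 h]; simp))

theorem hx_8_10 (htf : ∀ g : G, ∀ n : ℕ, 0 < n → g ^ n = 1 → g = 1) (ha : a ≠ 1)
    (hb : b ≠ 1) (hab1 : a * b⁻¹ ≠ 1) (hab2 : a⁻¹ * b ≠ 1) (hc : ¬ a * b = b * a)
    (k1 : ¬ a * a = b * b) (k2 : ¬ a⁻¹ * a⁻¹ = (b * a⁻¹) * (b * a⁻¹))
    (k3 : ¬ b⁻¹ * b⁻¹ = (a * b⁻¹) * (a * b⁻¹)) :
    (b * a⁻¹) ≠ (b * a⁻¹ * b) := by
  intro h
  exact hc (com_a_d (comOf1 (n := 1) (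
    calc (a)⁻¹ ^ 1 * ((a⁻¹ * b))⁻¹ = (b⁻¹) * ((b * a⁻¹) * (b * a⁻¹ * b)⁻¹) * (b⁻¹)⁻¹ := by simp only [pow_succ, pow_zero, mul_assoc, mul_inv_rev, inv_inv, mul_inv_cancel, inv_mul_cancel, mul_inv_cancel_left, inv_mul_cancel_left, one_mul, mul_one, inv_one]
    _ = 1 := by rw [mul_inv_eq_one.2 h]; simp)))

theorem hx_8_11 (htf : ∀ g : G, ∀ n : ℕ, 0 < n → g ^ n = 1 → g = 1) (ha : a ≠ 1)
    (hb : b ≠ 1) (hab1 : a * b⁻¹ ≠ 1) (hab2 : a⁻¹ * b ≠ 1) (hc : ¬ a * b = b * a)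
    (k1 : ¬ a * a = b * b) (k2 : ¬ a⁻¹ * a⁻¹ = (b * a⁻¹) * (b * a⁻¹))
    (k3 : ¬ b⁻¹ * b⁻¹ = (a * b⁻¹) * (a * b⁻¹)) :
    (b * a⁻¹) ≠ b⁻¹ := by
  intro h
  exact hc (com_d_a (comOf1 (n := 2) (
    calc ((a⁻¹ * b))⁻¹ ^ 2 * (a)⁻¹ = 1 * (((b * a⁻¹) * b⁻¹⁻¹))⁻¹ * 1⁻¹ := by simp only [pow_succ, pow_zero, mul_assoc, mul_inv_rev, inv_inv, mul_inv_cancel, inv_mul_cancel, mul_inv_cancel_left, inv_mul_cancel_left, one_mul, mul_one, inv_one]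
    _ = 1 := by rw [mul_inv_eq_one.2 h]; simp)))

theorem hx_8_12 (htf : ∀ g : G, ∀ n : ℕ, 0 < n → g ^ n = 1 → g = 1) (ha : a ≠ 1)
    (hb : b ≠ 1) (hab1 : a * b⁻¹ ≠ 1) (hab2 : a⁻¹ * b ≠ 1) (hc : ¬ a * b = b * a)
    (k1 : ¬ a * a = b * b) (k2 : ¬ a⁻¹ * a⁻¹ = (b * a⁻¹) * (b * a⁻¹))
    (k3 : ¬ b⁻¹ * b⁻¹ = (a * b⁻¹) * (a * b⁻¹)) :
    (b * a⁻¹) ≠ (a * b⁻¹) := by
  intro h
  exact tor htf hab1 2 (by norm_num) (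
    calc (a * b⁻¹) ^ 2 = 1 * (((b * a⁻¹) * (a * b⁻¹)⁻¹))⁻¹ * 1⁻¹ := by simp only [pow_succ, pow_zero, mul_assoc, mul_inv_rev, inv_inv, mul_inv_cancel, inv_mul_cancel, mul_inv_cancel_left, inv_mul_cancel_left, one_mul, mul_one, inv_one]
    _ = 1 := by rw [mul_inv_eq_one.2 h]; simp)

theorem hx_8_13 (htf : ∀ g : G, ∀ n : ℕ, 0 < n → g ^ n = 1 → g = 1) (ha : a ≠ 1)
    (hb : b ≠ 1) (hab1 : a * b⁻¹ ≠ 1) (hab2 : a⁻¹ * b ≠ 1) (hc : ¬ a * b = b * a)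
    (k1 : ¬ a * a = b * b) (k2 : ¬ a⁻¹ * a⁻¹ = (b * a⁻¹) * (b * a⁻¹))
    (k3 : ¬ b⁻¹ * b⁻¹ = (a * b⁻¹) * (a * b⁻¹)) :
    (b * a⁻¹) ≠ (b⁻¹ * a) := by
  intro h
  exact k1 (mul_inv_eq_one.1 (
    calc (a * a) * (b * b)⁻¹ = (b) * (((b * a⁻¹) * (b⁻¹ * a)⁻¹))⁻¹ * (b)⁻¹ := by simp only [pow_succ, pow_zero, mul_assoc, mul_inv_rev, inv_inv, mul_inv_cancel, inv_mul_cancel, mul_inv_cancel_left, inv_mul_cancel_left, one_mul, mul_one, inv_one]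
    _ = 1 := by rw [mul_inv_eq_one.2 h]; simp))

theorem hx_8_14 (htf : ∀ g : G, ∀ n : ℕ, 0 < n → g ^ n = 1 → g = 1) (ha : a ≠ 1)
    (hb : b ≠ 1) (hab1 : a * b⁻¹ ≠ 1) (hab2 : a⁻¹ * b ≠ 1) (hc : ¬ a * b = b * a)
    (k1 : ¬ a * a = b * b) (k2 : ¬ a⁻¹ * a⁻¹ = (b * a⁻¹) * (b * a⁻¹))
    (k3 : ¬ b⁻¹ * b⁻¹ = (a * b⁻¹) * (a * b⁻¹)) :
    (b * a⁻¹) ≠ (a * b⁻¹ * a) := by
  intro h
  exact hc (com_d_a (comOf (n := 2) (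
    calc (a⁻¹ * b) ^ 2 * (a)⁻¹ = (a * b⁻¹) * ((b * a⁻¹) * (a * b⁻¹ * a)⁻¹) * (a * b⁻¹)⁻¹ := by simp only [pow_succ, pow_zero, mul_assoc, mul_inv_rev, inv_inv, mul_inv_cancel, inv_mul_cancel, mul_inv_cancel_left, inv_mul_cancel_left, one_mul, mul_one, inv_one]
    _ = 1 := by rw [mul_inv_eq_one.2 h]; simp)))

theorem hx_9_10 (htf : ∀ g : G, ∀ n : ℕ, 0 < n → g ^ n = 1 → g = 1) (ha : a ≠ 1)
    (hb : b ≠ 1) (hab1 : a * b⁻¹ ≠ 1) (hab2 : a⁻¹ * b ≠ 1) (hc : ¬ a * b = b * a)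
    (k1 : ¬ a * a = b * b) (k2 : ¬ a⁻¹ * a⁻¹ = (b * a⁻¹) * (b * a⁻¹))
    (k3 : ¬ b⁻¹ * b⁻¹ = (a * b⁻¹) * (a * b⁻¹)) :
    (a⁻¹ * b) ≠ (b * a⁻¹ * b) := by
  intro h
  exact hc (com_d_a (comOf1 (n := 1) (
    calc ((a⁻¹ * b))⁻¹ ^ 1 * (a)⁻¹ = 1 * ((a⁻¹ * b) * (b * a⁻¹ * b)⁻¹) * 1⁻¹ := by simp only [pow_succ, pow_zero, mul_assoc, mul_inv_rev, inv_inv, mul_inv_cancel, inv_mul_cancel, mul_inv_cancel_left, inv_mul_cancel_left, one_mul, mul_one, inv_one]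
    _ = 1 := by rw [mul_inv_eq_one.2 h]; simp)))

theorem hx_9_11 (htf : ∀ g : G, ∀ n : ℕ, 0 < n → g ^ n = 1 → g = 1) (ha : a ≠ 1)
    (hb : b ≠ 1) (hab1 : a * b⁻¹ ≠ 1) (hab2 : a⁻¹ * b ≠ 1) (hc : ¬ a * b = b * a)
    (k1 : ¬ a * a = b * b) (k2 : ¬ a⁻¹ * a⁻¹ = (b * a⁻¹) * (b * a⁻¹))
    (k3 : ¬ b⁻¹ * b⁻¹ = (a * b⁻¹) * (a * b⁻¹)) :
    (a⁻¹ * b) ≠ b⁻¹ := by
  intro h
  exact hc (com_b_d (comOf1 (n := 1) (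
    calc (b)⁻¹ ^ 1 * ((a⁻¹ * b))⁻¹ = 1 * (((a⁻¹ * b) * b⁻¹⁻¹))⁻¹ * 1⁻¹ := by simp only [pow_succ, pow_zero, mul_assoc, mul_inv_rev, inv_inv, mul_inv_cancel, inv_mul_cancel, mul_inv_cancel_left, inv_mul_cancel_left, one_mul, mul_one, inv_one]
    _ = 1 := by rw [mul_inv_eq_one.2 h]; simp)))

theorem hx_9_12 (htf : ∀ g : G, ∀ n : ℕ, 0 < n → g ^ n = 1 → g = 1) (ha : a ≠ 1)
    (hb : b ≠ 1) (hab1 : a * b⁻¹ ≠ 1) (hab2 : a⁻¹ * b ≠ 1) (hc : ¬ a * b = b * a)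
    (k1 : ¬ a * a = b * b) (k2 : ¬ a⁻¹ * a⁻¹ = (b * a⁻¹) * (b * a⁻¹))
    (k3 : ¬ b⁻¹ * b⁻¹ = (a * b⁻¹) * (a * b⁻¹)) :
    (a⁻¹ * b) ≠ (a * b⁻¹) := by
  intro h
  exact k1 (mul_inv_eq_one.1 (
    calc (a * a) * (b * b)⁻¹ = (a) * (((a⁻¹ * b) * (a * b⁻¹)⁻¹))⁻¹ * (a)⁻¹ := by simp only [pow_succ, pow_zero, mul_assoc, mul_inv_rev, inv_inv, mul_inv_cancel, inv_mul_cancel, mul_inv_cancel_left, inv_mul_cancel_left, one_mul, mul_one, inv_one]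
    _ = 1 := by rw [mul_inv_eq_one.2 h]; simp))

theorem hx_9_13 (htf : ∀ g : G, ∀ n : ℕ, 0 < n → g ^ n = 1 → g = 1) (ha : a ≠ 1)
    (hb : b ≠ 1) (hab1 : a * b⁻¹ ≠ 1) (hab2 : a⁻¹ * b ≠ 1) (hc : ¬ a * b = b * a)
    (k1 : ¬ a * a = b * b) (k2 : ¬ a⁻¹ * a⁻¹ = (b * a⁻¹) * (b * a⁻¹))
    (k3 : ¬ b⁻¹ * b⁻¹ = (a * b⁻¹) * (a * b⁻¹)) :
    (a⁻¹ * b) ≠ (b⁻¹ * a) := by
  intro h
  exact tor htf hab2 2 (by norm_num) (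
    calc (a⁻¹ * b) ^ 2 = 1 * ((a⁻¹ * b) * (b⁻¹ * a)⁻¹) * 1⁻¹ := by simp only [pow_succ, pow_zero, mul_assoc, mul_inv_rev, inv_inv, mul_inv_cancel, inv_mul_cancel, mul_inv_cancel_left, inv_mul_cancel_left, one_mul, mul_one, inv_one]
    _ = 1 := by rw [mul_inv_eq_one.2 h]; simp)

theorem hx_9_14 (htf : ∀ g : G, ∀ n : ℕ, 0 < n → g ^ n = 1 → g = 1) (ha : a ≠ 1)
    (hb : b ≠ 1) (hab1 : a * b⁻¹ ≠ 1) (hab2 : a⁻¹ * b ≠ 1) (hc : ¬ a * b = b * a)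
    (k1 : ¬ a * a = b * b) (k2 : ¬ a⁻¹ * a⁻¹ = (b * a⁻¹) * (b * a⁻¹))
    (k3 : ¬ b⁻¹ * b⁻¹ = (a * b⁻¹) * (a * b⁻¹)) :
    (a⁻¹ * b) ≠ (a * b⁻¹ * a) := by
  intro h
  exact hc (com_d_a (comOf (n := 2) (
    calc (a⁻¹ * b) ^ 2 * (a)⁻¹ = 1 * ((a⁻¹ * b) * (a * b⁻¹ * a)⁻¹) * 1⁻¹ := by simp only [pow_succ, pow_zero, mul_assoc, mul_inv_rev, inv_inv, mul_inv_cancel, inv_mul_cancel, mul_inv_cancel_left, inv_mul_cancel_left, one_mul, mul_one, inv_one]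
    _ = 1 := by rw [mul_inv_eq_one.2 h]; simp)))

theorem hx_10_11 (htf : ∀ g : G, ∀ n : ℕ, 0 < n → g ^ n = 1 → g = 1) (ha : a ≠ 1)
    (hb : b ≠ 1) (hab1 : a * b⁻¹ ≠ 1) (hab2 : a⁻¹ * b ≠ 1) (hc : ¬ a * b = b * a)
    (k1 : ¬ a * a = b * b) (k2 : ¬ a⁻¹ * a⁻¹ = (b * a⁻¹) * (b * a⁻¹))
    (k3 : ¬ b⁻¹ * b⁻¹ = (a * b⁻¹) * (a * b⁻¹)) :
    (b * a⁻¹ * b) ≠ b⁻¹ := by
  intro h
  exact hc (com_b_d (comOf1 (n := 2) (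
    calc (b)⁻¹ ^ 2 * ((a⁻¹ * b))⁻¹ = (b⁻¹) * (((b * a⁻¹ * b) * b⁻¹⁻¹))⁻¹ * (b⁻¹)⁻¹ := by simp only [pow_succ, pow_zero, mul_assoc, mul_inv_rev, inv_inv, mul_inv_cancel, inv_mul_cancel, mul_inv_cancel_left, inv_mul_cancel_left, one_mul, mul_one, inv_one]
    _ = 1 := by rw [mul_inv_eq_one.2 h]; simp)))

theorem hx_10_12 (htf : ∀ g : G, ∀ n : ℕ, 0 < n → g ^ n = 1 → g = 1) (ha : a ≠ 1)
    (hb : b ≠ 1) (hab1 : a * b⁻¹ ≠ 1) (hab2 : a⁻¹ * b ≠ 1) (hc : ¬ a * b = b * a)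
    (k1 : ¬ a * a = b * b) (k2 : ¬ a⁻¹ * a⁻¹ = (b * a⁻¹) * (b * a⁻¹))
    (k3 : ¬ b⁻¹ * b⁻¹ = (a * b⁻¹) * (a * b⁻¹)) :
    (b * a⁻¹ * b) ≠ (a * b⁻¹) := by
  intro h
  exact hc (com_c_b (comOf (n := 2) (
    calc (a * b⁻¹) ^ 2 * (b)⁻¹ = (a * b⁻¹) * (((b * a⁻¹ * b) * (a * b⁻¹)⁻¹))⁻¹ * (a * b⁻¹)⁻¹ := by simp only [pow_succ, pow_zero, mul_assoc, mul_inv_rev, inv_inv, mul_inv_cancel, inv_mul_cancel, mul_inv_cancel_left, inv_mul_cancel_left, one_mul, mul_one, inv_one]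
    _ = 1 := by rw [mul_inv_eq_one.2 h]; simp)))

theorem hx_10_13 (htf : ∀ g : G, ∀ n : ℕ, 0 < n → g ^ n = 1 → g = 1) (ha : a ≠ 1)
    (hb : b ≠ 1) (hab1 : a * b⁻¹ ≠ 1) (hab2 : a⁻¹ * b ≠ 1) (hc : ¬ a * b = b * a)
    (k1 : ¬ a * a = b * b) (k2 : ¬ a⁻¹ * a⁻¹ = (b * a⁻¹) * (b * a⁻¹))
    (k3 : ¬ b⁻¹ * b⁻¹ = (a * b⁻¹) * (a * b⁻¹)) :
    (b * a⁻¹ * b) ≠ (b⁻¹ * a) := by
  intro h
  exact hc (com_d_a (comOf1 (n := 3) (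
    calc ((a⁻¹ * b))⁻¹ ^ 3 * (a)⁻¹ = 1 * (((b * a⁻¹ * b) * (b⁻¹ * a)⁻¹))⁻¹ * 1⁻¹ := by simp only [pow_succ, pow_zero, mul_assoc, mul_inv_rev, inv_inv, mul_inv_cancel, inv_mul_cancel, mul_inv_cancel_left, inv_mul_cancel_left, one_mul, mul_one, inv_one]
    _ = 1 := by rw [mul_inv_eq_one.2 h]; simp)))

theorem hx_10_14 (htf : ∀ g : G, ∀ n : ℕ, 0 < n → g ^ n = 1 → g = 1) (ha : a ≠ 1)
    (hb : b ≠ 1) (hab1 : a * b⁻¹ ≠ 1) (hab2 : a⁻¹ * b ≠ 1) (hc : ¬ a * b = b * a)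
    (k1 : ¬ a * a = b * b) (k2 : ¬ a⁻¹ * a⁻¹ = (b * a⁻¹) * (b * a⁻¹))
    (k3 : ¬ b⁻¹ * b⁻¹ = (a * b⁻¹) * (a * b⁻¹)) :
    (b * a⁻¹ * b) ≠ (a * b⁻¹ * a) := by
  intro h
  exact tor htf hab1 3 (by norm_num) (
    calc (a * b⁻¹) ^ 3 = 1 * (((b * a⁻¹ * b) * (a * b⁻¹ * a)⁻¹))⁻¹ * 1⁻¹ := by simp only [pow_succ, pow_zero, mul_assoc, mul_inv_rev, inv_inv, mul_inv_cancel, inv_mul_cancel, mul_inv_cancel_left, inv_mul_cancel_left, one_mul, mul_one, inv_one]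
    _ = 1 := by rw [mul_inv_eq_one.2 h]; simp)

theorem hx_11_12 (htf : ∀ g : G, ∀ n : ℕ, 0 < n → g ^ n = 1 → g = 1) (ha : a ≠ 1)
    (hb : b ≠ 1) (hab1 : a * b⁻¹ ≠ 1) (hab2 : a⁻¹ * b ≠ 1) (hc : ¬ a * b = b * a)
    (k1 : ¬ a * a = b * b) (k2 : ¬ a⁻¹ * a⁻¹ = (b * a⁻¹) * (b * a⁻¹))
    (k3 : ¬ b⁻¹ * b⁻¹ = (a * b⁻¹) * (a * b⁻¹)) :
    b⁻¹ ≠ (a * b⁻¹) := by
  intro h
  exact hc (com_b_c (comOf1 (n := 1) (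
    calc (b)⁻¹ ^ 1 * ((a * b⁻¹))⁻¹ = 1 * (b⁻¹ * (a * b⁻¹)⁻¹) * 1⁻¹ := by simp only [pow_succ, pow_zero, mul_assoc, mul_inv_rev, inv_inv, mul_inv_cancel, inv_mul_cancel, mul_inv_cancel_left, inv_mul_cancel_left, one_mul, mul_one, inv_one]
    _ = 1 := by rw [mul_inv_eq_one.2 h]; simp)))

theorem hx_11_13 (htf : ∀ g : G, ∀ n : ℕ, 0 < n → g ^ n = 1 → g = 1) (ha : a ≠ 1)
    (hb : b ≠ 1) (hab1 : a * b⁻¹ ≠ 1) (hab2 : a⁻¹ * b ≠ 1) (hc : ¬ a * b = b * a)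
    (k1 : ¬ a * a = b * b) (k2 : ¬ a⁻¹ * a⁻¹ = (b * a⁻¹) * (b * a⁻¹))
    (k3 : ¬ b⁻¹ * b⁻¹ = (a * b⁻¹) * (a * b⁻¹)) :
    b⁻¹ ≠ (b⁻¹ * a) := by
  intro h
  exact hc (com_b_c (comOf1 (n := 1) (
    calc (b)⁻¹ ^ 1 * ((a * b⁻¹))⁻¹ = (b) * (b⁻¹ * (b⁻¹ * a)⁻¹) * (b)⁻¹ := by simp only [pow_succ, pow_zero, mul_assoc, mul_inv_rev, inv_inv, mul_inv_cancel, inv_mul_cancel, mul_inv_cancel_left, inv_mul_cancel_left, one_mul, mul_one, inv_one]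
    _ = 1 := by rw [mul_inv_eq_one.2 h]; simp)))

theorem hx_11_14 (htf : ∀ g : G, ∀ n : ℕ, 0 < n → g ^ n = 1 → g = 1) (ha : a ≠ 1)
    (hb : b ≠ 1) (hab1 : a * b⁻¹ ≠ 1) (hab2 : a⁻¹ * b ≠ 1) (hc : ¬ a * b = b * a)
    (k1 : ¬ a * a = b * b) (k2 : ¬ a⁻¹ * a⁻¹ = (b * a⁻¹) * (b * a⁻¹))
    (k3 : ¬ b⁻¹ * b⁻¹ = (a * b⁻¹) * (a * b⁻¹)) :
    b⁻¹ ≠ (a * b⁻¹ * a) := by
  intro h
  exact k3 (mul_inv_eq_one.1 (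
    calc (b⁻¹ * b⁻¹) * ((a * b⁻¹) * (a * b⁻¹))⁻¹ = 1 * (b⁻¹ * (a * b⁻¹ * a)⁻¹) * 1⁻¹ := by simp only [pow_succ, pow_zero, mul_assoc, mul_inv_rev, inv_inv, mul_inv_cancel, inv_mul_cancel, mul_inv_cancel_left, inv_mul_cancel_left, one_mul, mul_one, inv_one]
    _ = 1 := by rw [mul_inv_eq_one.2 h]; simp))

theorem hx_12_13 (htf : ∀ g : G, ∀ n : ℕ, 0 < n → g ^ n = 1 → g = 1) (ha : a ≠ 1)
    (hb : b ≠ 1) (hab1 : a * b⁻¹ ≠ 1) (hab2 : a⁻¹ * b ≠ 1) (hc : ¬ a * b = b * a)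
    (k1 : ¬ a * a = b * b) (k2 : ¬ a⁻¹ * a⁻¹ = (b * a⁻¹) * (b * a⁻¹))
    (k3 : ¬ b⁻¹ * b⁻¹ = (a * b⁻¹) * (a * b⁻¹)) :
    (a * b⁻¹) ≠ (b⁻¹ * a) := by
  intro h
  exact hc (commOf (
    calc a * b * a⁻¹ * b⁻¹ = (b) * (((a * b⁻¹) * (b⁻¹ * a)⁻¹))⁻¹ * (b)⁻¹ := by simp only [pow_succ, pow_zero, mul_assoc, mul_inv_rev, inv_inv, mul_inv_cancel, inv_mul_cancel, mul_inv_cancel_left, inv_mul_cancel_left, one_mul, mul_one, inv_one]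
    _ = 1 := by rw [mul_inv_eq_one.2 h]; simp))

theorem hx_12_14 (htf : ∀ g : G, ∀ n : ℕ, 0 < n → g ^ n = 1 → g = 1) (ha : a ≠ 1)
    (hb : b ≠ 1) (hab1 : a * b⁻¹ ≠ 1) (hab2 : a⁻¹ * b ≠ 1) (hc : ¬ a * b = b * a)
    (k1 : ¬ a * a = b * b) (k2 : ¬ a⁻¹ * a⁻¹ = (b * a⁻¹) * (b * a⁻¹))
    (k3 : ¬ b⁻¹ * b⁻¹ = (a * b⁻¹) * (a * b⁻¹)) :
    (a * b⁻¹) ≠ (a * b⁻¹ * a) := by
  intro h
  exact hc (com_b_c (comOf1 (n := 1) (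
    calc (b)⁻¹ ^ 1 * ((a * b⁻¹))⁻¹ = (b * a⁻¹) * ((a * b⁻¹) * (a * b⁻¹ * a)⁻¹) * (b * a⁻¹)⁻¹ := by simp only [pow_succ, pow_zero, mul_assoc, mul_inv_rev, inv_inv, mul_inv_cancel, inv_mul_cancel, mul_inv_cancel_left, inv_mul_cancel_left, one_mul, mul_one, inv_one]
    _ = 1 := by rw [mul_inv_eq_one.2 h]; simp)))

theorem hx_13_14 (htf : ∀ g : G, ∀ n : ℕ, 0 < n → g ^ n = 1 → g = 1) (ha : a ≠ 1)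
    (hb : b ≠ 1) (hab1 : a * b⁻¹ ≠ 1) (hab2 : a⁻¹ * b ≠ 1) (hc : ¬ a * b = b * a)
    (k1 : ¬ a * a = b * b) (k2 : ¬ a⁻¹ * a⁻¹ = (b * a⁻¹) * (b * a⁻¹))
    (k3 : ¬ b⁻¹ * b⁻¹ = (a * b⁻¹) * (a * b⁻¹)) :
    (b⁻¹ * a) ≠ (a * b⁻¹ * a) := by
  intro h
  exact hc (com_b_c (comOf1 (n := 1) (
    calc (b)⁻¹ ^ 1 * ((a * b⁻¹))⁻¹ = 1 * ((b⁻¹ * a) * (a * b⁻¹ * a)⁻¹) * 1⁻¹ := by simp only [pow_succ, pow_zero, mul_assoc, mul_inv_rev, inv_inv, mul_inv_cancel, inv_mul_cancel, mul_inv_cancel_left, inv_mul_cancel_left, one_mul, mul_one, inv_one]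
    _ = 1 := by rw [mul_inv_eq_one.2 h]; simp)))

theorem row_0 (htf : ∀ g : G, ∀ n : ℕ, 0 < n → g ^ n = 1 → g = 1) (ha : a ≠ 1)
    (hb : b ≠ 1) (hab1 : a * b⁻¹ ≠ 1) (hab2 : a⁻¹ * b ≠ 1) (hc : ¬ a * b = b * a)
    (k1 : ¬ a * a = b * b) (k2 : ¬ a⁻¹ * a⁻¹ = (b * a⁻¹) * (b * a⁻¹))
    (k3 : ¬ b⁻¹ * b⁻¹ = (a * b⁻¹) * (a * b⁻¹))
    (j : Fin 15) (hij : (0 : Fin 15) < j) : h15 a b 0 ≠ h15 a b j := by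
  fin_cases j
  · exact absurd hij (by decide)
  · exact hx_0_1 htf ha hb hab1 hab2 hc k1 k2 k3
  · exact hx_0_2 htf ha hb hab1 hab2 hc k1 k2 k3
  · exact hx_0_3 htf ha hb hab1 hab2 hc k1 k2 k3
  · exact hx_0_4 htf ha hb hab1 hab2 hc k1 k2 k3
  · exact hx_0_5 htf ha hb hab1 hab2 hc k1 k2 k3
  · exact hx_0_6 htf ha hb hab1 hab2 hc k1 k2 k3
  · exact hx_0_7 htf ha hb hab1 hab2 hc k1 k2 k3
  · exact hx_0_8 htf ha hb hab1 hab2 hc k1 k2 k3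
  · exact hx_0_9 htf ha hb hab1 hab2 hc k1 k2 k3
  · exact hx_0_10 htf ha hb hab1 hab2 hc k1 k2 k3
  · exact hx_0_11 htf ha hb hab1 hab2 hc k1 k2 k3
  · exact hx_0_12 htf ha hb hab1 hab2 hc k1 k2 k3
  · exact hx_0_13 htf ha hb hab1 hab2 hc k1 k2 k3
  · exact hx_0_14 htf ha hb hab1 hab2 hc k1 k2 k3

theorem row_1 (htf : ∀ g : G, ∀ n : ℕ, 0 < n → g ^ n = 1 → g = 1) (ha : a ≠ 1)
    (hb : b ≠ 1) (hab1 : a * b⁻¹ ≠ 1) (hab2 : a⁻¹ * b ≠ 1) (hc : ¬ a * b = b * a)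
    (k1 : ¬ a * a = b * b) (k2 : ¬ a⁻¹ * a⁻¹ = (b * a⁻¹) * (b * a⁻¹))
    (k3 : ¬ b⁻¹ * b⁻¹ = (a * b⁻¹) * (a * b⁻¹))
    (j : Fin 15) (hij : (1 : Fin 15) < j) : h15 a b 1 ≠ h15 a b j := by
  fin_cases j
  · exact absurd hij (by decide)
  · exact absurd hij (by decide)
  · exact hx_1_2 htf ha hb hab1 hab2 hc k1 k2 k3
  · exact hx_1_3 htf ha hb hab1 hab2 hc k1 k2 k3
  · exact hx_1_4 htf ha hb hab1 hab2 hc k1 k2 k3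
  · exact hx_1_5 htf ha hb hab1 hab2 hc k1 k2 k3
  · exact hx_1_6 htf ha hb hab1 hab2 hc k1 k2 k3
  · exact hx_1_7 htf ha hb hab1 hab2 hc k1 k2 k3
  · exact hx_1_8 htf ha hb hab1 hab2 hc k1 k2 k3
  · exact hx_1_9 htf ha hb hab1 hab2 hc k1 k2 k3
  · exact hx_1_10 htf ha hb hab1 hab2 hc k1 k2 k3
  · exact hx_1_11 htf ha hb hab1 hab2 hc k1 k2 k3
  · exact hx_1_12 htf ha hb hab1 hab2 hc k1 k2 k3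
  · exact hx_1_13 htf ha hb hab1 hab2 hc k1 k2 k3
  · exact hx_1_14 htf ha hb hab1 hab2 hc k1 k2 k3

theorem row_2 (htf : ∀ g : G, ∀ n : ℕ, 0 < n → g ^ n = 1 → g = 1) (ha : a ≠ 1)
    (hb : b ≠ 1) (hab1 : a * b⁻¹ ≠ 1) (hab2 : a⁻¹ * b ≠ 1) (hc : ¬ a * b = b * a)
    (k1 : ¬ a * a = b * b) (k2 : ¬ a⁻¹ * a⁻¹ = (b * a⁻¹) * (b * a⁻¹))
    (k3 : ¬ b⁻¹ * b⁻¹ = (a * b⁻¹) * (a * b⁻¹))
    (j : Fin 15) (hij : (2 : Fin 15) < j) : h15 a b 2 ≠ h15 a b j := by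
  fin_cases j
  · exact absurd hij (by decide)
  · exact absurd hij (by decide)
  · exact absurd hij (by decide)
  · exact hx_2_3 htf ha hb hab1 hab2 hc k1 k2 k3
  · exact hx_2_4 htf ha hb hab1 hab2 hc k1 k2 k3
  · exact hx_2_5 htf ha hb hab1 hab2 hc k1 k2 k3
  · exact hx_2_6 htf ha hb hab1 hab2 hc k1 k2 k3
  · exact hx_2_7 htf ha hb hab1 hab2 hc k1 k2 k3
  · exact hx_2_8 htf ha hb hab1 hab2 hc k1 k2 k3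
  · exact hx_2_9 htf ha hb hab1 hab2 hc k1 k2 k3
  · exact hx_2_10 htf ha hb hab1 hab2 hc k1 k2 k3
  · exact hx_2_11 htf ha hb hab1 hab2 hc k1 k2 k3
  · exact hx_2_12 htf ha hb hab1 hab2 hc k1 k2 k3
  · exact hx_2_13 htf ha hb hab1 hab2 hc k1 k2 k3
  · exact hx_2_14 htf ha hb hab1 hab2 hc k1 k2 k3

theorem row_3 (htf : ∀ g : G, ∀ n : ℕ, 0 < n → g ^ n = 1 → g = 1) (ha : a ≠ 1)
    (hb : b ≠ 1) (hab1 : a * b⁻¹ ≠ 1) (hab2 : a⁻¹ * b ≠ 1) (hc : ¬ a * b = b * a)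
    (k1 : ¬ a * a = b * b) (k2 : ¬ a⁻¹ * a⁻¹ = (b * a⁻¹) * (b * a⁻¹))
    (k3 : ¬ b⁻¹ * b⁻¹ = (a * b⁻¹) * (a * b⁻¹))
    (j : Fin 15) (hij : (3 : Fin 15) < j) : h15 a b 3 ≠ h15 a b j := by
  fin_cases j
  · exact absurd hij (by decide)
  · exact absurd hij (by decide)
  · exact absurd hij (by decide)
  · exact absurd hij (by decide)
  · exact hx_3_4 htf ha hb hab1 hab2 hc k1 k2 k3
  · exact hx_3_5 htf ha hb hab1 hab2 hc k1 k2 k3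
  · exact hx_3_6 htf ha hb hab1 hab2 hc k1 k2 k3
  · exact hx_3_7 htf ha hb hab1 hab2 hc k1 k2 k3
  · exact hx_3_8 htf ha hb hab1 hab2 hc k1 k2 k3
  · exact hx_3_9 htf ha hb hab1 hab2 hc k1 k2 k3
  · exact hx_3_10 htf ha hb hab1 hab2 hc k1 k2 k3
  · exact hx_3_11 htf ha hb hab1 hab2 hc k1 k2 k3
  · exact hx_3_12 htf ha hb hab1 hab2 hc k1 k2 k3
  · exact hx_3_13 htf ha hb hab1 hab2 hc k1 k2 k3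
  · exact hx_3_14 htf ha hb hab1 hab2 hc k1 k2 k3

theorem row_4 (htf : ∀ g : G, ∀ n : ℕ, 0 < n → g ^ n = 1 → g = 1) (ha : a ≠ 1)
    (hb : b ≠ 1) (hab1 : a * b⁻¹ ≠ 1) (hab2 : a⁻¹ * b ≠ 1) (hc : ¬ a * b = b * a)
    (k1 : ¬ a * a = b * b) (k2 : ¬ a⁻¹ * a⁻¹ = (b * a⁻¹) * (b * a⁻¹))
    (k3 : ¬ b⁻¹ * b⁻¹ = (a * b⁻¹) * (a * b⁻¹))
    (j : Fin 15) (hij : (4 : Fin 15) < j) : h15 a b 4 ≠ h15 a b j := by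
  fin_cases j
  · exact absurd hij (by decide)
  · exact absurd hij (by decide)
  · exact absurd hij (by decide)
  · exact absurd hij (by decide)
  · exact absurd hij (by decide)
  · exact hx_4_5 htf ha hb hab1 hab2 hc k1 k2 k3
  · exact hx_4_6 htf ha hb hab1 hab2 hc k1 k2 k3
  · exact hx_4_7 htf ha hb hab1 hab2 hc k1 k2 k3
  · exact hx_4_8 htf ha hb hab1 hab2 hc k1 k2 k3
  · exact hx_4_9 htf ha hb hab1 hab2 hc k1 k2 k3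
  · exact hx_4_10 htf ha hb hab1 hab2 hc k1 k2 k3
  · exact hx_4_11 htf ha hb hab1 hab2 hc k1 k2 k3
  · exact hx_4_12 htf ha hb hab1 hab2 hc k1 k2 k3
  · exact hx_4_13 htf ha hb hab1 hab2 hc k1 k2 k3
  · exact hx_4_14 htf ha hb hab1 hab2 hc k1 k2 k3

theorem row_5 (htf : ∀ g : G, ∀ n : ℕ, 0 < n → g ^ n = 1 → g = 1) (ha : a ≠ 1)
    (hb : b ≠ 1) (hab1 : a * b⁻¹ ≠ 1) (hab2 : a⁻¹ * b ≠ 1) (hc : ¬ a * b = b * a)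
    (k1 : ¬ a * a = b * b) (k2 : ¬ a⁻¹ * a⁻¹ = (b * a⁻¹) * (b * a⁻¹))
    (k3 : ¬ b⁻¹ * b⁻¹ = (a * b⁻¹) * (a * b⁻¹))
    (j : Fin 15) (hij : (5 : Fin 15) < j) : h15 a b 5 ≠ h15 a b j := by
  fin_cases j
  · exact absurd hij (by decide)
  · exact absurd hij (by decide)
  · exact absurd hij (by decide)
  · exact absurd hij (by decide)
  · exact absurd hij (by decide)
  · exact absurd hij (by decide)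
  · exact hx_5_6 htf ha hb hab1 hab2 hc k1 k2 k3
  · exact hx_5_7 htf ha hb hab1 hab2 hc k1 k2 k3
  · exact hx_5_8 htf ha hb hab1 hab2 hc k1 k2 k3
  · exact hx_5_9 htf ha hb hab1 hab2 hc k1 k2 k3
  · exact hx_5_10 htf ha hb hab1 hab2 hc k1 k2 k3
  · exact hx_5_11 htf ha hb hab1 hab2 hc k1 k2 k3
  · exact hx_5_12 htf ha hb hab1 hab2 hc k1 k2 k3
  · exact hx_5_13 htf ha hb hab1 hab2 hc k1 k2 k3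
  · exact hx_5_14 htf ha hb hab1 hab2 hc k1 k2 k3

theorem row_6 (htf : ∀ g : G, ∀ n : ℕ, 0 < n → g ^ n = 1 → g = 1) (ha : a ≠ 1)
    (hb : b ≠ 1) (hab1 : a * b⁻¹ ≠ 1) (hab2 : a⁻¹ * b ≠ 1) (hc : ¬ a * b = b * a)
    (k1 : ¬ a * a = b * b) (k2 : ¬ a⁻¹ * a⁻¹ = (b * a⁻¹) * (b * a⁻¹))
    (k3 : ¬ b⁻¹ * b⁻¹ = (a * b⁻¹) * (a * b⁻¹))
    (j : Fin 15) (hij : (6 : Fin 15) < j) : h15 a b 6 ≠ h15 a b j := by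
  fin_cases j
  · exact absurd hij (by decide)
  · exact absurd hij (by decide)
  · exact absurd hij (by decide)
  · exact absurd hij (by decide)
  · exact absurd hij (by decide)
  · exact absurd hij (by decide)
  · exact absurd hij (by decide)
  · exact hx_6_7 htf ha hb hab1 hab2 hc k1 k2 k3
  · exact hx_6_8 htf ha hb hab1 hab2 hc k1 k2 k3
  · exact hx_6_9 htf ha hb hab1 hab2 hc k1 k2 k3
  · exact hx_6_10 htf ha hb hab1 hab2 hc k1 k2 k3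
  · exact hx_6_11 htf ha hb hab1 hab2 hc k1 k2 k3
  · exact hx_6_12 htf ha hb hab1 hab2 hc k1 k2 k3
  · exact hx_6_13 htf ha hb hab1 hab2 hc k1 k2 k3
  · exact hx_6_14 htf ha hb hab1 hab2 hc k1 k2 k3

theorem row_7 (htf : ∀ g : G, ∀ n : ℕ, 0 < n → g ^ n = 1 → g = 1) (ha : a ≠ 1)
    (hb : b ≠ 1) (hab1 : a * b⁻¹ ≠ 1) (hab2 : a⁻¹ * b ≠ 1) (hc : ¬ a * b = b * a)
    (k1 : ¬ a * a = b * b) (k2 : ¬ a⁻¹ * a⁻¹ = (b * a⁻¹) * (b * a⁻¹))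
    (k3 : ¬ b⁻¹ * b⁻¹ = (a * b⁻¹) * (a * b⁻¹))
    (j : Fin 15) (hij : (7 : Fin 15) < j) : h15 a b 7 ≠ h15 a b j := by
  fin_cases j
  · exact absurd hij (by decide)
  · exact absurd hij (by decide)
  · exact absurd hij (by decide)
  · exact absurd hij (by decide)
  · exact absurd hij (by decide)
  · exact absurd hij (by decide)
  · exact absurd hij (by decide)
  · exact absurd hij (by decide)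
  · exact hx_7_8 htf ha hb hab1 hab2 hc k1 k2 k3
  · exact hx_7_9 htf ha hb hab1 hab2 hc k1 k2 k3
  · exact hx_7_10 htf ha hb hab1 hab2 hc k1 k2 k3
  · exact hx_7_11 htf ha hb hab1 hab2 hc k1 k2 k3
  · exact hx_7_12 htf ha hb hab1 hab2 hc k1 k2 k3
  · exact hx_7_13 htf ha hb hab1 hab2 hc k1 k2 k3
  · exact hx_7_14 htf ha hb hab1 hab2 hc k1 k2 k3

theorem row_8 (htf : ∀ g : G, ∀ n : ℕ, 0 < n → g ^ n = 1 → g = 1) (ha : a ≠ 1)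
    (hb : b ≠ 1) (hab1 : a * b⁻¹ ≠ 1) (hab2 : a⁻¹ * b ≠ 1) (hc : ¬ a * b = b * a)
    (k1 : ¬ a * a = b * b) (k2 : ¬ a⁻¹ * a⁻¹ = (b * a⁻¹) * (b * a⁻¹))
    (k3 : ¬ b⁻¹ * b⁻¹ = (a * b⁻¹) * (a * b⁻¹))
    (j : Fin 15) (hij : (8 : Fin 15) < j) : h15 a b 8 ≠ h15 a b j := by
  fin_cases j
  · exact absurd hij (by decide)
  · exact absurd hij (by decide)
  · exact absurd hij (by decide)
  · exact absurd hij (by decide)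
  · exact absurd hij (by decide)
  · exact absurd hij (by decide)
  · exact absurd hij (by decide)
  · exact absurd hij (by decide)
  · exact absurd hij (by decide)
  · exact hx_8_9 htf ha hb hab1 hab2 hc k1 k2 k3
  · exact hx_8_10 htf ha hb hab1 hab2 hc k1 k2 k3
  · exact hx_8_11 htf ha hb hab1 hab2 hc k1 k2 k3
  · exact hx_8_12 htf ha hb hab1 hab2 hc k1 k2 k3
  · exact hx_8_13 htf ha hb hab1 hab2 hc k1 k2 k3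
  · exact hx_8_14 htf ha hb hab1 hab2 hc k1 k2 k3

theorem row_9 (htf : ∀ g : G, ∀ n : ℕ, 0 < n → g ^ n = 1 → g = 1) (ha : a ≠ 1)
    (hb : b ≠ 1) (hab1 : a * b⁻¹ ≠ 1) (hab2 : a⁻¹ * b ≠ 1) (hc : ¬ a * b = b * a)
    (k1 : ¬ a * a = b * b) (k2 : ¬ a⁻¹ * a⁻¹ = (b * a⁻¹) * (b * a⁻¹))
    (k3 : ¬ b⁻¹ * b⁻¹ = (a * b⁻¹) * (a * b⁻¹))
    (j : Fin 15) (hij : (9 : Fin 15) < j) : h15 a b 9 ≠ h15 a b j := by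
  fin_cases j
  · exact absurd hij (by decide)
  · exact absurd hij (by decide)
  · exact absurd hij (by decide)
  · exact absurd hij (by decide)
  · exact absurd hij (by decide)
  · exact absurd hij (by decide)
  · exact absurd hij (by decide)
  · exact absurd hij (by decide)
  · exact absurd hij (by decide)
  · exact absurd hij (by decide)
  · exact hx_9_10 htf ha hb hab1 hab2 hc k1 k2 k3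
  · exact hx_9_11 htf ha hb hab1 hab2 hc k1 k2 k3
  · exact hx_9_12 htf ha hb hab1 hab2 hc k1 k2 k3
  · exact hx_9_13 htf ha hb hab1 hab2 hc k1 k2 k3
  · exact hx_9_14 htf ha hb hab1 hab2 hc k1 k2 k3

theorem row_10 (htf : ∀ g : G, ∀ n : ℕ, 0 < n → g ^ n = 1 → g = 1) (ha : a ≠ 1)
    (hb : b ≠ 1) (hab1 : a * b⁻¹ ≠ 1) (hab2 : a⁻¹ * b ≠ 1) (hc : ¬ a * b = b * a)
    (k1 : ¬ a * a = b * b) (k2 : ¬ a⁻¹ * a⁻¹ = (b * a⁻¹) * (b * a⁻¹))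
    (k3 : ¬ b⁻¹ * b⁻¹ = (a * b⁻¹) * (a * b⁻¹))
    (j : Fin 15) (hij : (10 : Fin 15) < j) : h15 a b 10 ≠ h15 a b j := by
  fin_cases j
  · exact absurd hij (by decide)
  · exact absurd hij (by decide)
  · exact absurd hij (by decide)
  · exact absurd hij (by decide)
  · exact absurd hij (by decide)
  · exact absurd hij (by decide)
  · exact absurd hij (by decide)
  · exact absurd hij (by decide)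
  · exact absurd hij (by decide)
  · exact absurd hij (by decide)
  · exact absurd hij (by decide)
  · exact hx_10_11 htf ha hb hab1 hab2 hc k1 k2 k3
  · exact hx_10_12 htf ha hb hab1 hab2 hc k1 k2 k3
  · exact hx_10_13 htf ha hb hab1 hab2 hc k1 k2 k3
  · exact hx_10_14 htf ha hb hab1 hab2 hc k1 k2 k3

theorem row_11 (htf : ∀ g : G, ∀ n : ℕ, 0 < n → g ^ n = 1 → g = 1) (ha : a ≠ 1)
    (hb : b ≠ 1) (hab1 : a * b⁻¹ ≠ 1) (hab2 : a⁻¹ * b ≠ 1) (hc : ¬ a * b = b * a)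
    (k1 : ¬ a * a = b * b) (k2 : ¬ a⁻¹ * a⁻¹ = (b * a⁻¹) * (b * a⁻¹))
    (k3 : ¬ b⁻¹ * b⁻¹ = (a * b⁻¹) * (a * b⁻¹))
    (j : Fin 15) (hij : (11 : Fin 15) < j) : h15 a b 11 ≠ h15 a b j := by
  fin_cases j
  · exact absurd hij (by decide)
  · exact absurd hij (by decide)
  · exact absurd hij (by decide)
  · exact absurd hij (by decide)
  · exact absurd hij (by decide)
  · exact absurd hij (by decide)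
  · exact absurd hij (by decide)
  · exact absurd hij (by decide)
  · exact absurd hij (by decide)
  · exact absurd hij (by decide)
  · exact absurd hij (by decide)
  · exact absurd hij (by decide)
  · exact hx_11_12 htf ha hb hab1 hab2 hc k1 k2 k3
  · exact hx_11_13 htf ha hb hab1 hab2 hc k1 k2 k3
  · exact hx_11_14 htf ha hb hab1 hab2 hc k1 k2 k3

theorem row_12 (htf : ∀ g : G, ∀ n : ℕ, 0 < n → g ^ n = 1 → g = 1) (ha : a ≠ 1)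
    (hb : b ≠ 1) (hab1 : a * b⁻¹ ≠ 1) (hab2 : a⁻¹ * b ≠ 1) (hc : ¬ a * b = b * a)
    (k1 : ¬ a * a = b * b) (k2 : ¬ a⁻¹ * a⁻¹ = (b * a⁻¹) * (b * a⁻¹))
    (k3 : ¬ b⁻¹ * b⁻¹ = (a * b⁻¹) * (a * b⁻¹))
    (j : Fin 15) (hij : (12 : Fin 15) < j) : h15 a b 12 ≠ h15 a b j := by
  fin_cases j
  · exact absurd hij (by decide)
  · exact absurd hij (by decide)
  · exact absurd hij (by decide)
  · exact absurd hij (by decide)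
  · exact absurd hij (by decide)
  · exact absurd hij (by decide)
  · exact absurd hij (by decide)
  · exact absurd hij (by decide)
  · exact absurd hij (by decide)
  · exact absurd hij (by decide)
  · exact absurd hij (by decide)
  · exact absurd hij (by decide)
  · exact absurd hij (by decide)
  · exact hx_12_13 htf ha hb hab1 hab2 hc k1 k2 k3
  · exact hx_12_14 htf ha hb hab1 hab2 hc k1 k2 k3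

theorem row_13 (htf : ∀ g : G, ∀ n : ℕ, 0 < n → g ^ n = 1 → g = 1) (ha : a ≠ 1)
    (hb : b ≠ 1) (hab1 : a * b⁻¹ ≠ 1) (hab2 : a⁻¹ * b ≠ 1) (hc : ¬ a * b = b * a)
    (k1 : ¬ a * a = b * b) (k2 : ¬ a⁻¹ * a⁻¹ = (b * a⁻¹) * (b * a⁻¹))
    (k3 : ¬ b⁻¹ * b⁻¹ = (a * b⁻¹) * (a * b⁻¹))
    (j : Fin 15) (hij : (13 : Fin 15) < j) : h15 a b 13 ≠ h15 a b j := by
  fin_cases j
  · exact absurd hij (by decide)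
  · exact absurd hij (by decide)
  · exact absurd hij (by decide)
  · exact absurd hij (by decide)
  · exact absurd hij (by decide)
  · exact absurd hij (by decide)
  · exact absurd hij (by decide)
  · exact absurd hij (by decide)
  · exact absurd hij (by decide)
  · exact absurd hij (by decide)
  · exact absurd hij (by decide)
  · exact absurd hij (by decide)
  · exact absurd hij (by decide)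
  · exact absurd hij (by decide)
  · exact hx_13_14 htf ha hb hab1 hab2 hc k1 k2 k3

theorem row_14 (htf : ∀ g : G, ∀ n : ℕ, 0 < n → g ^ n = 1 → g = 1) (ha : a ≠ 1)
    (hb : b ≠ 1) (hab1 : a * b⁻¹ ≠ 1) (hab2 : a⁻¹ * b ≠ 1) (hc : ¬ a * b = b * a)
    (k1 : ¬ a * a = b * b) (k2 : ¬ a⁻¹ * a⁻¹ = (b * a⁻¹) * (b * a⁻¹))
    (k3 : ¬ b⁻¹ * b⁻¹ = (a * b⁻¹) * (a * b⁻¹))
    (j : Fin 15) (hij : (14 : Fin 15) < j) : h15 a b 14 ≠ h15 a b j := by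
  fin_cases j
  · exact absurd hij (by decide)
  · exact absurd hij (by decide)
  · exact absurd hij (by decide)
  · exact absurd hij (by decide)
  · exact absurd hij (by decide)
  · exact absurd hij (by decide)
  · exact absurd hij (by decide)
  · exact absurd hij (by decide)
  · exact absurd hij (by decide)
  · exact absurd hij (by decide)
  · exact absurd hij (by decide)
  · exact absurd hij (by decide)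
  · exact absurd hij (by decide)
  · exact absurd hij (by decide)
  · exact absurd hij (by decide)

theorem h15_inj (htf : ∀ g : G, ∀ n : ℕ, 0 < n → g ^ n = 1 → g = 1) (ha : a ≠ 1)
    (hb : b ≠ 1) (hab1 : a * b⁻¹ ≠ 1) (hab2 : a⁻¹ * b ≠ 1) (hc : ¬ a * b = b * a)
    (k1 : ¬ a * a = b * b) (k2 : ¬ a⁻¹ * a⁻¹ = (b * a⁻¹) * (b * a⁻¹))
    (k3 : ¬ b⁻¹ * b⁻¹ = (a * b⁻¹) * (a * b⁻¹)) : Function.Injective (h15 a b) := by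
  have key : ∀ i j : Fin 15, i < j → h15 a b i ≠ h15 a b j := by
    intro i j hij
    fin_cases i
    · exact row_0 htf ha hb hab1 hab2 hc k1 k2 k3 j hij
    · exact row_1 htf ha hb hab1 hab2 hc k1 k2 k3 j hij
    · exact row_2 htf ha hb hab1 hab2 hc k1 k2 k3 j hij
    · exact row_3 htf ha hb hab1 hab2 hc k1 k2 k3 j hij
    · exact row_4 htf ha hb hab1 hab2 hc k1 k2 k3 j hij
    · exact row_5 htf ha hb hab1 hab2 hc k1 k2 k3 j hij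
    · exact row_6 htf ha hb hab1 hab2 hc k1 k2 k3 j hij
    · exact row_7 htf ha hb hab1 hab2 hc k1 k2 k3 j hij
    · exact row_8 htf ha hb hab1 hab2 hc k1 k2 k3 j hij
    · exact row_9 htf ha hb hab1 hab2 hc k1 k2 k3 j hij
    · exact row_10 htf ha hb hab1 hab2 hc k1 k2 k3 j hij
    · exact row_11 htf ha hb hab1 hab2 hc k1 k2 k3 j hij
    · exact row_12 htf ha hb hab1 hab2 hc k1 k2 k3 j hij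
    · exact row_13 htf ha hb hab1 hab2 hc k1 k2 k3 j hij
    · exact row_14 htf ha hb hab1 hab2 hc k1 k2 k3 j hij
  intro i j hij
  rcases lt_trichotomy i j with h | h | h
  · exact absurd hij (key i j h)
  · exact h
  · exact absurd hij.symm (key j i h)

end Pool.Agent.U731.ZD
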