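import Mathlib

set_option autoImplicit false
set_option linter.unusedSectionVars false

/-! Polynomials in an element of infinite order are injective on `ℓ²`. -/

namespace Pool.Agent.U731.ZD

open Finset Polynomial

variable {G : Type} [Group G]

/-- left translation by `x` -/
def Tr (x : G) : Module.End ℂ (G → ℂ) where
  toFun f g := f (x⁻¹ * g)
  map_add' _ _ := rfl
  map_smul' _ _ := rfl

@[simp] theorem Tr_apply (x : G) (f : G → ℂ) (g : G) : Tr x f g = f (x⁻¹ * g) := rfl

theorem Tr_pow (x : G) (n : ℕ) (f : G → ℂ) (g : G) : (Tr x ^ n) f g = f ((x ^ n)⁻¹ * g) := by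
  induction n generalizing f g with
  | zero => simp
  | succ n ih =>
    rw [pow_succ, Module.End.mul_apply, ih, Tr_apply, pow_succ, mul_inv_rev, mul_assoc]

/-- a function which is not summable along a sequence of distinct points is not in `ℓ²` -/
theorem no_seq {f : G → ℂ} (hf : Memℓp f 2) (s : ℕ → G) (hs : Function.Injective s)
    {c : ℝ} (hc : 0 < c) (h : ∀ n, c ≤ ‖f (s n)‖) : False := by
  have h1 : Summable fun g => ‖f g‖ ^ (2 : ENNReal).toReal :=
    (memℓp_gen_iff (by norm_num)).1 hf
  have h2 := (h1.comp_injective hs).tendsto_atTop_zero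
  have h3 : ∀ n, c ^ (2 : ENNReal).toReal ≤ ((fun g => ‖f g‖ ^ (2 : ENNReal).toReal) ∘ s) n :=
    fun n => Real.rpow_le_rpow hc.le (h n) (by norm_num)
  have h4 := ge_of_tendsto' h2 h3
  have h5 : 0 < c ^ (2 : ENNReal).toReal := Real.rpow_pos_of_pos hc _
  linarith

/-- translation by an element of infinite order has no eigenvectors in `ℓ²` -/
theorem no_eig {x : G} (hx : ∀ n : ℕ, 0 < n → x ^ n ≠ 1) {f : G → ℂ} (hf : Memℓp f 2) {z : ℂ}
    (h : Tr x f = z • f) : f = 0 := by
  funext g
  by_contra hg
  have hg' : f g ≠ 0 := hg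
  have hinj : Function.Injective fun n : ℕ => x ^ n := by
    intro m n hmn
    simp only at hmn
    rcases lt_trichotomy m n with h1 | h1 | h1
    · exfalso
      apply hx (n - m) (by omega)
      have : x ^ n = x ^ (n - m) * x ^ m := by rw [← pow_add]; congr 1; omega
      rw [this] at hmn
      exact mul_eq_right.1 hmn.symm
    · exact h1
    · exfalso
      apply hx (m - n) (by omega)
      have : x ^ m = x ^ (m - n) * x ^ n := by rw [← pow_add]; congr 1; omega
      rw [this] at hmn
      exact mul_eq_right.1 hmn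
  have e : ∀ y, f (x⁻¹ * y) = z * f y := fun y => by
    have := congrFun h y
    simpa using this
  rcases le_total 1 ‖z‖ with hz | hz
  · -- the values grow along `x^{-n} g`
    have h1 : ∀ n : ℕ, f ((x ^ n)⁻¹ * g) = z ^ n * f g := by
      intro n
      induction n with
      | zero => simp
      | succ n ih => 
        rw [pow_succ x, mul_inv_rev, mul_assoc, e, ih, pow_succ]; ring
    refine no_seq hf (fun n => (x ^ n)⁻¹ * g) ?_ (norm_pos_iff.2 hg') ?_
    · intro m n hmn
      simp only [mul_left_inj, inv_inj] at hmn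
      exact hinj hmn
    · intro n
      rw [h1, norm_mul, norm_pow]
      have := one_le_pow₀ hz (n := n)
      nlinarith [norm_nonneg (f g)]
  · have h1 : ∀ n : ℕ, f g = z ^ n * f (x ^ n * g) := by
      intro n
      induction n with
      | zero => simp
      | succ n ih =>
        rw [ih]
        have h2 : x ^ n * g = x⁻¹ * (x ^ (n + 1) * g) := by
          rw [pow_succ', mul_assoc, inv_mul_cancel_left]
        rw [h2, e, pow_succ z]; ring
    refine no_seq hf (fun n => x ^ n * g) ?_ (norm_pos_iff.2 hg') ?_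
    · intro m n hmn
      simp only [mul_left_inj] at hmn
      exact hinj hmn
    · intro n
      have h2 := congrArg norm (h1 n)
      rw [norm_mul, norm_pow] at h2
      have h3 := pow_le_one₀ (norm_nonneg z) hz (n := n)
      rw [h2]
      nlinarith [norm_nonneg (f (x ^ n * g))]

theorem mem_Tr {x : G} {f : G → ℂ} (hf : Memℓp f 2) : Memℓp (Tr x f) 2 := by
  have h1 : Summable fun g => ‖f g‖ ^ (2 : ENNReal).toReal :=
    (memℓp_gen_iff (by norm_num)).1 hf
  exact (memℓp_gen_iff (by norm_num)).2 (h1.comp_injective (mul_right_injective x⁻¹))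

theorem poly_inj {x : G} (hx : ∀ n : ℕ, 0 < n → x ^ n ≠ 1) (N : ℕ) :
    ∀ (P : ℂ[X]) (f : G → ℂ), P.natDegree = N → P ≠ 0 → Memℓp f 2 → aeval (Tr x) P f = 0 →
      f = 0 := by
  induction N with
  | zero =>
    intro P f hP hP0 _ h
    rw [Polynomial.eq_C_of_natDegree_eq_zero hP, aeval_C] at h
    rw [Module.algebraMap_end_apply] at h
    rcases smul_eq_zero.1 h with h1 | h1
    · exfalso; apply hP0
      rw [Polynomial.eq_C_of_natDegree_eq_zero hP, h1, C_0]
    · exact h1
  | succ N ih =>
    intro P f hP hP0 hf h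
    have hd : P.degree ≠ 0 := by
      rw [Polynomial.degree_eq_natDegree hP0, hP]
      exact_mod_cast Nat.succ_ne_zero N
    obtain ⟨z, hz⟩ := IsAlgClosed.exists_root P hd
    obtain ⟨Q, hQ⟩ := Polynomial.dvd_iff_isRoot.2 hz
    have hQ0 : Q ≠ 0 := by rintro rfl; apply hP0; rw [hQ, mul_zero]
    have hQd : Q.natDegree = N := by
      have := congrArg natDegree hQ
      rw [Polynomial.natDegree_mul (X_sub_C_ne_zero z) hQ0, natDegree_X_sub_C, hP] at this
      omega
    have h1 : aeval (Tr x) Q ((Tr x - algebraMap ℂ _ z) f) = 0 := by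
      rw [hQ, mul_comm, map_mul, Module.End.mul_apply] at h
      simpa using h
    have hf1 : Memℓp ((Tr x - algebraMap ℂ (Module.End ℂ (G → ℂ)) z) f) 2 := by
      rw [LinearMap.sub_apply, Module.algebraMap_end_apply]
      exact (mem_Tr hf).sub (hf.const_smul z)
    have h2 := ih Q _ hQd hQ0 hf1 h1
    rw [LinearMap.sub_apply, Module.algebraMap_end_apply, sub_eq_zero] at h2
    exact no_eig hx hf h2

end Pool.Agent.U731.ZD
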