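import Pool.Agent.U731.ZD.Five
import Pool.Agent.U731.ZD.Poly

set_option autoImplicit false
set_option linter.unusedSectionVars false

/-! Elements of the group algebra with support in a coset of a cyclic group; reduction to `small`. -/

namespace Pool.Agent.U731.ZD

open Finset Polynomial

variable {G : Type} [Group G]

/-- elements with support in a coset of a cyclic group are regular -/
theorem cyc_reg (htf : ∀ g : G, ∀ n : ℕ, 0 < n → g ^ n = 1 → g = 1) (α : G →₀ ℂ) (hα : α ≠ 0)
    {p x : G} (hc : ∀ g ∈ α.support, ∃ n : ℤ, g = x ^ n * p) {f : G → ℂ} (hf : Memℓp f 2)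
    (h : ∀ g, ∑ k ∈ α.support, α k * f (k⁻¹ * g) = 0) : f = 0 := by
  classical
  by_cases hx : x = 1
  · subst hx
    have h1 : ∀ g ∈ α.support, g = p := by
      intro g hg
      obtain ⟨n, hn⟩ := hc g hg
      simpa using hn
    obtain ⟨q, hq⟩ := Finsupp.support_nonempty_iff.2 hα
    have h2 : α.support = {p} := by
      ext g
      rw [mem_singleton]
      refine ⟨h1 g, ?_⟩
      rintro rfl
      rw [h1 q hq] at hq
      exact hq
    funext y
    have h3 := h (p * y)
    rw [h2, sum_singleton, inv_mul_cancel_left] at h3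
    have h4 : α p ≠ 0 := Finsupp.mem_support_iff.1 (by rw [h2]; exact mem_singleton_self p)
    exact (mul_eq_zero.1 h3).resolve_left h4
  · have hx' : ∀ n : ℕ, 0 < n → x ^ n ≠ 1 := fun n hn h => hx (htf x n hn h)
    choose! e he using hc
    obtain ⟨N, hN⟩ : ∃ N : ℕ, ∀ g ∈ α.support, 0 ≤ e g + N := by
      refine ⟨∑ g ∈ α.support, (e g).natAbs, fun g hg => ?_⟩
      have h1 : (e g).natAbs ≤ ∑ g ∈ α.support, (e g).natAbs :=
        single_le_sum (f := fun g => (e g).natAbs) (fun _ _ => Nat.zero_le _) hg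
      omega
    have hinj : ∀ g ∈ α.support, ∀ k ∈ α.support, (e g + N).toNat = (e k + N).toNat → g = k := by
      intro g hg k hk h
      have h1 := hN g hg
      have h2 := hN k hk
      have h3 : e g = e k := by omega
      rw [he g hg, he k hk, h3]
    set P : ℂ[X] := ∑ g ∈ α.support, Polynomial.monomial (e g + N).toNat (α g) with hP
    have hP0 : P ≠ 0 := by
      obtain ⟨q, hq⟩ := Finsupp.support_nonempty_iff.2 hα
      intro h0
      have h1 : P.coeff (e q + N).toNat = α q := by
        rw [hP, Polynomial.finsetSum_coeff, sum_eq_single q]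
        · rw [Polynomial.coeff_monomial, if_pos rfl]
        · intro g hg hgq
          rw [Polynomial.coeff_monomial, if_neg]
          intro h
          exact hgq (hinj g hg q hq h)
        · intro h; exact absurd hq h
      rw [h0, Polynomial.coeff_zero] at h1
      exact Finsupp.mem_support_iff.1 hq h1.symm
    have hmem : Memℓp (fun y => f (p⁻¹ * y)) 2 := by
      have h1 : Summable fun g => ‖f g‖ ^ (2 : ENNReal).toReal :=
        (memℓp_gen_iff (by norm_num)).1 hf
      exact (memℓp_gen_iff (by norm_num)).2 (h1.comp_injective (mul_right_injective p⁻¹))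
    have hz : aeval (Tr x) P (fun y => f (p⁻¹ * y)) = 0 := by
      funext y
      rw [hP, map_sum, LinearMap.sum_apply, Finset.sum_apply]
      have h1 := h ((x ^ N)⁻¹ * y)
      rw [Pi.zero_apply, ← h1]
      refine sum_congr rfl fun g hg => ?_
      rw [Polynomial.aeval_monomial, Module.End.mul_apply, Module.algebraMap_end_apply,
        Pi.smul_apply, Tr_pow, smul_eq_mul]
      congr 2
      have h2 : x ^ (e g + N).toNat = g * p⁻¹ * x ^ N := by
        have h3 : x ^ (e g + N).toNat = x ^ (e g + N) := by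
          conv_rhs => rw [← Int.toNat_of_nonneg (hN g hg)]
          rw [zpow_natCast]
        have h4 : g * p⁻¹ = x ^ (e g) := by
          conv_lhs => rw [he g hg]
          rw [mul_inv_cancel_right]
        rw [h3, h4, zpow_add, zpow_natCast]
      rw [h2]
      have h5 : x ^ N * (g * p⁻¹) = (g * p⁻¹) * x ^ N := by
        have h4 : g * p⁻¹ = x ^ (e g) := by
          conv_lhs => rw [he g hg]
          rw [mul_inv_cancel_right]
        rw [h4, ← zpow_natCast, ← zpow_add, ← zpow_add, add_comm]
      rw [← h5]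
      group
    have h0 := poly_inj hx' _ P _ rfl hP0 hmem hz
    funext y
    have := congrFun h0 (p * y)
    simpa using this

/-- the reduction to `small` -/
theorem main (htf : ∀ g : G, ∀ n : ℕ, 0 < n → g ^ n = 1 → g = 1) (α : G →₀ ℂ)
    {m c : ℝ} (hm : 0 < m) (hA : ∀ g ∈ α.support, m ≤ ‖α g‖)
    (h : ∀ (f : lp (fun _ : G => ℂ) 2) (U : Finset G),
      ∑ g ∈ U, ‖∑ k ∈ α.support, α k * f (k⁻¹ * g)‖ ^ 2 ≤ (c * ‖f‖) ^ 2)
    (hc : c ^ 2 < 6 * m ^ 2) :
    α.support.card ≤ 3 ∧ ∃ p x : G, ∀ g ∈ α.support, ∃ n : ℤ, g = x ^ n * p := by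
  classical
  set e := α.support.equivFin.symm with he
  have hNB : NB (fun i : Fin α.support.card => (e i : G)) (fun i => α (e i) / m)
      (c ^ 2 / m ^ 2) := by
    intro T f hf U
    have hs : Summable fun g => ‖f g‖ ^ (2 : ENNReal).toReal := by
      apply summable_of_ne_finset_zero (s := T)
      intro b hb
      rw [hf b hb]
      simp
    have hmem : Memℓp f 2 := memℓp_gen hs
    have h1 := h ⟨f, hmem⟩ U
    have h2 : ‖(⟨f, hmem⟩ : lp (fun _ : G => ℂ) 2)‖ ^ 2 = ∑ x ∈ T, ‖f x‖ ^ 2 := by
      have h3 := lp.norm_rpow_eq_tsum (p := 2) (by norm_num) (⟨f, hmem⟩ : lp (fun _ : G => ℂ) 2)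
      rw [tsum_eq_sum (s := T) (by
        intro b hb
        change ‖f b‖ ^ _ = 0
        rw [hf b hb]
        simp)] at h3
      simpa using h3
    rw [mul_pow, h2] at h1
    have h4 : ∀ x, ‖cv (fun i : Fin α.support.card => (e i : G)) (fun i => α (e i) / m) f x‖ ^ 2
        = ‖∑ k ∈ α.support, α k * f (k⁻¹ * x)‖ ^ 2 / m ^ 2 := by
      intro x
      have h5 : cv (fun i : Fin α.support.card => (e i : G)) (fun i => α (e i) / m) f x
          = (∑ k ∈ α.support, α k * f (k⁻¹ * x)) / m := by
        unfold cv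
        rw [← Finset.sum_coe_sort α.support, Finset.sum_div,
          ← Equiv.sum_comp e (fun k : α.support => α k * f ((k : G)⁻¹ * x) / m)]
        refine sum_congr rfl fun i _ => ?_
        ring
      rw [h5, norm_div, div_pow]
      congr 2
      rw [Complex.norm_real, Real.norm_eq_abs, abs_of_pos hm]
    simp only [h4]
    rw [← Finset.sum_div, div_mul_eq_mul_div]
    exact div_le_div_of_nonneg_right h1 (by positivity)
  have hinj : Function.Injective (fun i : Fin α.support.card => (e i : G)) :=
    Subtype.val_injective.comp e.injective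
  have hA' : ∀ i, 1 ≤ ‖α (e i : G) / m‖ := by
    intro i
    rw [norm_div, Complex.norm_real, Real.norm_eq_abs, abs_of_pos hm, le_div_iff₀ hm, one_mul]
    exact hA _ (e i).2
  have h6 : c ^ 2 / m ^ 2 < 6 := by
    rw [div_lt_iff₀ (by positivity)]
    exact hc
  obtain ⟨h7, p, x, h8⟩ := small htf hNB hinj hA' h6
  refine ⟨h7, p, x, fun g hg => ?_⟩
  obtain ⟨n, hn⟩ := h8 (e.symm ⟨g, hg⟩)
  refine ⟨n, ?_⟩
  rw [← hn]
  simp

end Pool.Agent.U731.ZD
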