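import Pool.Agent.TH6.PF.SBar

set_option autoImplicit false
set_option linter.unusedSectionVars false
set_option maxHeartbeats 4000000

/-! The element `1 + a + i b` of the group algebra of the Klein bottle group has norm at most `√6`. -/

namespace Pool.Agent.U731.ZD

open TH6.PF ComplexConjugate

theorem sos {R : Type} [Ring R] (t t' a a' J : R) (h1 : t * t' = 1) (h2 : t' * t = 1)
    (h3 : a * a' = 1) (h4 : a' * a = 1) (h5 : a * t = t' * a)
    (hJ : J * J = -1) (ja : a * J = J * a) (ja' : a' * J = J * a') (jt : t * J = J * t)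
    (jt' : t' * J = J * t') :
    24 * (3 - (a + a' + J * (t' * a) - J * (a' * t) + J * (a' * (t' * a)) - J * (a' * t * a)))
      = 4 * ((3 - (a + a' + J * (t' * a) - J * (a' * t) + J * (a' * (t' * a)) - J * (a' * t * a)))
          * (3 - (a + a' + J * (t' * a) - J * (a' * t) + J * (a' * (t' * a)) - J * (a' * t * a))))
        + (2 * (t + t') - J * (a * a - a' * a')) * (2 * (t + t') - J * (a * a - a' * a'))
        + (a * a + a' * a') * (a * a + a' * a') := by
  have h6 : a * t' = t * a := by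
    calc a * t' = t * (t' * a) * t' := by rw [← mul_assoc, h1, one_mul]
      _ = t * (a * t) * t' := by rw [h5]
      _ = t * a * (t * t') := by simp only [mul_assoc]
      _ = t * a := by rw [h1, mul_one]
  have h7 : a' * t = t' * a' := by
    calc a' * t = a' * t * (a * a') := by rw [h3, mul_one]
      _ = a' * (t * a) * a' := by simp only [mul_assoc]
      _ = a' * (a * t') * a' := by rw [h6]
      _ = (a' * a) * t' * a' := by simp only [mul_assoc]
      _ = t' * a' := by rw [h4, one_mul]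
  have h8 : a' * t' = t * a' := by
    calc a' * t' = a' * t' * (a * a') := by rw [h3, mul_one]
      _ = a' * (t' * a) * a' := by simp only [mul_assoc]
      _ = a' * (a * t) * a' := by rw [h5]
      _ = (a' * a) * t * a' := by simp only [mul_assoc]
      _ = t * a' := by rw [h4, one_mul]
  have k1 : ∀ x, t * (t' * x) = x := fun x => by rw [← mul_assoc, h1, one_mul]
  have k2 : ∀ x, t' * (t * x) = x := fun x => by rw [← mul_assoc, h2, one_mul]
  have k3 : ∀ x, a * (a' * x) = x := fun x => by rw [← mul_assoc, h3, one_mul]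
  have k4 : ∀ x, a' * (a * x) = x := fun x => by rw [← mul_assoc, h4, one_mul]
  have k5 : ∀ x, a * (t * x) = t' * (a * x) := fun x => by rw [← mul_assoc, h5, mul_assoc]
  have k6 : ∀ x, a * (t' * x) = t * (a * x) := fun x => by rw [← mul_assoc, h6, mul_assoc]
  have k7 : ∀ x, a' * (t * x) = t' * (a' * x) := fun x => by rw [← mul_assoc, h7, mul_assoc]
  have k8 : ∀ x, a' * (t' * x) = t * (a' * x) := fun x => by rw [← mul_assoc, h8, mul_assoc]
  have l1 : ∀ x, a * (J * x) = J * (a * x) := fun x => by rw [← mul_assoc, ja, mul_assoc]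
  have l2 : ∀ x, a' * (J * x) = J * (a' * x) := fun x => by rw [← mul_assoc, ja', mul_assoc]
  have l3 : ∀ x, t * (J * x) = J * (t * x) := fun x => by rw [← mul_assoc, jt, mul_assoc]
  have l4 : ∀ x, t' * (J * x) = J * (t' * x) := fun x => by rw [← mul_assoc, jt', mul_assoc]
  have l5 : ∀ x, J * (J * x) = -x := fun x => by rw [← mul_assoc, hJ, neg_one_mul]
  obtain ⟨E, hE⟩ : ∃ E, E = a + a' + J * (t' * a) - J * (a' * t) + J * (a' * (t' * a))
    - J * (a' * t * a) := ⟨_, rfl⟩
  obtain ⟨τ, hτ⟩ : ∃ τ, τ = t + t' := ⟨_, rfl⟩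
  obtain ⟨δ, hδ⟩ : ∃ δ, δ = J * (a * a - a' * a') := ⟨_, rfl⟩
  obtain ⟨W, hW⟩ : ∃ W, W = a * a + a' * a' := ⟨_, rfl⟩
  rw [← hE, ← hτ, ← hδ, ← hW]
  have c1 : E * E = (1 + 1 + 1 + 1 + 1 + 1 + 1 + 1) - τ * τ + τ * δ := by
    rw [hE, hτ, hδ]
    simp only [mul_add, add_mul, mul_sub, sub_mul, mul_assoc, h1, h2, h3, h4, h5, h6, h7, h8, k1,
      k2, k3, k4, k5, k6, k7, k8, l1, l2, l3, l4, l5, ja, ja', jt, jt', hJ, mul_one, one_mul]
    abel
  have c2 : δ * τ = τ * δ := by
    rw [hτ, hδ]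
    simp only [mul_add, add_mul, mul_sub, sub_mul, mul_assoc, h1, h2, h3, h4, h5, h6, h7, h8, k1,
      k2, k3, k4, k5, k6, k7, k8, l1, l2, l3, l4, l5, ja, ja', jt, jt', hJ, mul_one, one_mul]
    try abel
  have c3 : W * W = (1 + 1 + 1 + 1) - δ * δ := by
    rw [hW, hδ]
    simp only [mul_add, add_mul, mul_sub, sub_mul, mul_assoc, h1, h2, h3, h4, h5, h6, h7, h8, k1,
      k2, k3, k4, k5, k6, k7, k8, l1, l2, l3, l4, l5, ja, ja', jt, jt', hJ, mul_one, one_mul]
    abel
  have e1 : (3 - E) * (3 - E) = 9 - 6 * E + E * E := by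
    have h1 : (9 : R) = 3 * 3 := by norm_num
    have h2 : (6 : R) = 3 + 3 := by norm_num
    have hc : E * 3 = 3 * E := (Nat.cast_commute 3 E).symm.eq
    rw [h1, h2]
    simp only [mul_sub, sub_mul, add_mul, hc]
    abel
  have e2 : (2 * τ - δ) * (2 * τ - δ) = 4 * (τ * τ) - 2 * (τ * δ) - 2 * (δ * τ) + δ * δ := by
    noncomm_ring
  rw [e1, e2, c1, c2, c3]
  have h4 : (4 : R) = 2 + 2 := by norm_num
  have h1 : (24 : R) * 3 = 4 * 9 + 4 * (1 + 1 + 1 + 1 + 1 + 1 + 1 + 1) + (1 + 1 + 1 + 1) := by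
    norm_num
  have h2 : (24 : R) = 4 * 6 := by norm_num
  rw [mul_sub, h1, h2]
  simp only [mul_add, mul_sub, mul_assoc]
  have h5 : ∀ x : R, 4 * x = 2 * x + 2 * x := fun x => by rw [h4, add_mul]
  simp only [h5 (τ * δ)]
  abel

section norm

variable {G : Type} [Group G]

/-- the sum of the squares of the absolute values of the coefficients -/
noncomputable def N2 (x : MonoidAlgebra ℂ G) : ℝ := ∑ g ∈ x.coeff.support, ‖x.coeff g‖ ^ 2

theorem N2_nonneg (x : MonoidAlgebra ℂ G) : 0 ≤ N2 x := Finset.sum_nonneg fun _ _ => by positivity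

theorem coeff_sbar_mul (x y : MonoidAlgebra ℂ G) :
    (sbar 1 x * y).coeff 1 = ∑ g ∈ y.coeff.support, conj (x.coeff g) * y.coeff g := by
  classical
  rw [MonoidAlgebra.coeff_mul]
  simp only [Finsupp.sum]
  rw [Finset.sum_comm]
  refine Finset.sum_congr rfl fun g _ => ?_
  have h1 : ∀ m, (if m * g = 1 then (sbar 1 x).coeff m * y.coeff g else 0)
      = if m = g⁻¹ then conj (x.coeff g) * y.coeff g else 0 := by
    intro m
    by_cases hm : m = g⁻¹
    · rw [if_pos hm, if_pos (by rw [hm]; simp), hm, coeff_sbar]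
      simp
    · rw [if_neg hm, if_neg (fun h => hm (eq_inv_of_mul_eq_one_left h))]
  rw [Finset.sum_congr rfl fun m _ => h1 m, Finset.sum_ite_eq']
  split_ifs with h
  · rfl
  · have h2 : (sbar 1 x).coeff g⁻¹ = 0 := Finsupp.notMem_support_iff.1 h
    rw [coeff_sbar] at h2
    simp at h2
    rw [h2]; simp

theorem N2_eq (x : MonoidAlgebra ℂ G) : ((sbar 1 x * x).coeff 1) = (N2 x : ℂ) := by
  rw [coeff_sbar_mul, N2]
  push_cast
  refine Finset.sum_congr rfl fun g _ => ?_
  rw [mul_comm, Complex.mul_conj, Complex.normSq_eq_norm_sq]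
  push_cast
  rfl

theorem N2_sq {s F : MonoidAlgebra ℂ G} (hs : sbar 1 s = s) :
    (sbar 1 F * (s * s * F)).coeff 1 = (N2 (s * F) : ℂ) := by
  rw [← N2_eq, sbar_mul, hs]
  simp only [mul_assoc]

theorem natc (n : ℕ) (z : MonoidAlgebra ℂ G) :
    ((n : MonoidAlgebra ℂ G) * z).coeff 1 = n * z.coeff 1 := by
  induction n with
  | zero => simp
  | succ n ih =>
    rw [Nat.cast_succ, add_mul, one_mul, MonoidAlgebra.coeff_add, Finsupp.add_apply, ih,
      Nat.cast_succ]
    ring

/-- The bound for the Klein bottle group. -/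
theorem klein_bound {x y : G} (hxy : x * x = y * y) (F : MonoidAlgebra ℂ G) :
    N2 ((1 + MonoidAlgebra.single x 1 + MonoidAlgebra.single y Complex.I) * F) ≤ 6 * N2 F := by
  set a : MonoidAlgebra ℂ G := MonoidAlgebra.single x 1 with ha
  set a' : MonoidAlgebra ℂ G := MonoidAlgebra.single x⁻¹ 1 with ha'
  set t : MonoidAlgebra ℂ G := MonoidAlgebra.single (x * y⁻¹) 1 with ht
  set t' : MonoidAlgebra ℂ G := MonoidAlgebra.single (y * x⁻¹) 1 with ht'
  set J : MonoidAlgebra ℂ G := MonoidAlgebra.single 1 Complex.I with hJ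
  have sa : sbar 1 a = a' := by rw [ha, ha', sbar_single]; simp
  have sa' : sbar 1 a' = a := by rw [ha, ha', sbar_single]; simp
  have st : sbar 1 t = t' := by rw [ht, ht', sbar_single]; simp
  have st' : sbar 1 t' = t := by rw [ht, ht', sbar_single]; simp
  have sJ : sbar 1 J = -J := by
    rw [hJ, sbar_single]
    simp
  have h1 : t * t' = 1 := by
    rw [ht, ht', MonoidAlgebra.single_mul_single, MonoidAlgebra.one_def]
    congr 1
    · group
    · simp
  have h2 : t' * t = 1 := by
    rw [ht, ht', MonoidAlgebra.single_mul_single, MonoidAlgebra.one_def]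
    congr 1
    · group
    · simp
  have h3 : a * a' = 1 := by
    rw [ha, ha', MonoidAlgebra.single_mul_single, MonoidAlgebra.one_def]
    congr 1
    · group
    · simp
  have h4 : a' * a = 1 := by
    rw [ha, ha', MonoidAlgebra.single_mul_single, MonoidAlgebra.one_def]
    congr 1
    · group
    · simp
  have h5 : a * t = t' * a := by
    rw [ha, ht, ht', MonoidAlgebra.single_mul_single, MonoidAlgebra.single_mul_single]
    congr 1
    rw [← mul_assoc, hxy]
    group
  have hJJ : J * J = -1 := by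
    rw [hJ, MonoidAlgebra.single_mul_single, MonoidAlgebra.one_def, Complex.I_mul_I, one_mul,
      MonoidAlgebra.single_neg]
  have jc : ∀ g : G, MonoidAlgebra.single g 1 * J = J * MonoidAlgebra.single g 1 := by
    intro g
    rw [hJ, MonoidAlgebra.single_mul_single, MonoidAlgebra.single_mul_single]
    simp
  have hb : MonoidAlgebra.single y Complex.I = J * (t' * a) := by
    rw [hJ, ht', ha, MonoidAlgebra.single_mul_single, MonoidAlgebra.single_mul_single]
    congr 1
    · group
    · simp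
  set α : MonoidAlgebra ℂ G := 1 + a + J * (t' * a) with hα
  have hs := sos t t' a a' J h1 h2 h3 h4 h5 hJJ (jc _) (jc _) (jc _) (jc _)
  have sα : sbar 1 α = 1 + a' - J * (a' * t) := by
    rw [hα, sbar_add, sbar_add, sbar_one, sa, sbar_mul, sbar_mul, sa, st', sJ, mul_neg,
      ← sub_eq_add_neg]
    congr 1
    rw [mul_assoc, jc, ← mul_assoc, jc, mul_assoc]
  set s1 := 3 - (a + a' + J * (t' * a) - J * (a' * t) + J * (a' * (t' * a)) - J * (a' * t * a))
    with hs1
  have k1 : sbar 1 α * α = 6 - s1 := by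
    have e3 : (6 : MonoidAlgebra ℂ G) - s1 = 3 + (a + a' + J * (t' * a) - J * (a' * t)
        + J * (a' * (t' * a)) - J * (a' * t * a)) := by
      rw [hs1]
      have : (6 : MonoidAlgebra ℂ G) = 3 + 3 := by norm_num
      rw [this]; abel
    have l : ∀ x, a' * (J * x) = J * (a' * x) := fun x => by
      rw [← mul_assoc, jc, mul_assoc]
    have l' : ∀ x, t * (J * x) = J * (t * x) := fun x => by
      rw [← mul_assoc, jc, mul_assoc]
    have l5 : ∀ x, J * (J * x) = -x := fun x => by rw [← mul_assoc, hJJ, neg_one_mul]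
    have k1 : ∀ x, t * (t' * x) = x := fun x => by rw [← mul_assoc, h1, one_mul]
    have h33 : (3 : MonoidAlgebra ℂ G) = 1 + 1 + 1 := by norm_num
    rw [e3, sα, hα, h33]
    simp only [mul_add, add_mul, mul_sub, sub_mul, mul_assoc, one_mul, mul_one, l, l', hJJ, k1, h4]
    abel
  have c1 : sbar 1 s1 = s1 := by
    have h6 : s1 = 6 - sbar 1 α * α := by rw [k1]; abel
    have h66 : (6 : MonoidAlgebra ℂ G) = 1 + 1 + 1 + 1 + 1 + 1 := by norm_num
    rw [h6, sbar_sub, sbar_mul, sbar_sbar, h66]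
    simp only [sbar_add, sbar_one]
  set s2 := 2 * (t + t') - J * (a * a - a' * a') with hs2
  have c2 : sbar 1 s2 = s2 := by
    have h22 : (2 : MonoidAlgebra ℂ G) = 1 + 1 := by norm_num
    rw [hs2, h22]
    simp only [add_mul, one_mul, sbar_sub, sbar_add, sbar_mul, st, st', sa, sa', sJ]
    have : (a' * a' - a * a) * -J = J * (a * a - a' * a') := by
      rw [mul_neg, ← neg_mul, neg_sub, sub_mul, mul_sub, mul_assoc, mul_assoc, jc, jc,
        ← mul_assoc, ← mul_assoc, jc, jc, mul_assoc, mul_assoc]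
    rw [this]
    abel
  set s3 := a * a + a' * a' with hs3
  have c3 : sbar 1 s3 = s3 := by
    rw [hs3]
    simp only [sbar_add, sbar_mul, sa, sa']
    abel
  rw [hb, ← hα]
  have q : (sbar 1 F * ((24 * s1) * F)).coeff 1
      = ((4 * N2 (s1 * F) + N2 (s2 * F) + N2 (s3 * F) : ℝ) : ℂ) := by
    rw [hs]
    have e : sbar 1 F * ((4 * (s1 * s1) + s2 * s2 + s3 * s3) * F)
        = 4 * (sbar 1 F * (s1 * s1 * F)) + sbar 1 F * (s2 * s2 * F)
          + sbar 1 F * (s3 * s3 * F) := by
      have h44 : (4 : MonoidAlgebra ℂ G) = 1 + 1 + 1 + 1 := by norm_num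
      rw [h44]
      simp only [add_mul, mul_add, one_mul]
    have h4c : ∀ z : MonoidAlgebra ℂ G, (4 * z).coeff 1 = 4 * z.coeff 1 := by
      intro z
      have h44 : (4 : MonoidAlgebra ℂ G) = 1 + 1 + 1 + 1 := by norm_num
      rw [h44]
      simp only [add_mul, one_mul, MonoidAlgebra.coeff_add, Finsupp.add_apply]
      ring
    rw [e]
    simp only [MonoidAlgebra.coeff_add, Finsupp.add_apply, h4c, N2_sq c1, N2_sq c2, N2_sq c3]
    push_cast
    ring
  have q2 : (sbar 1 F * ((24 * s1) * F)).coeff 1 = ((24 * (6 * N2 F - N2 (α * F)) : ℝ) : ℂ) := by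
    have h6 : s1 = 6 - sbar 1 α * α := by rw [k1]; abel
    have e : sbar 1 F * ((24 * s1) * F)
        = 24 * (6 * (sbar 1 F * F) - sbar 1 (α * F) * (α * F)) := by
      rw [h6, sbar_mul]
      have e1 : sbar 1 F * (24 * (6 - sbar 1 α * α) * F)
          = 24 * (sbar 1 F * ((6 - sbar 1 α * α) * F)) := by
        have k : sbar 1 F * 24 = 24 * sbar 1 F := (Nat.cast_commute 24 (sbar 1 F)).symm.eq
        rw [mul_assoc, ← mul_assoc, k]
        simp only [mul_assoc]
      have k : sbar 1 F * 6 = 6 * sbar 1 F := (Nat.cast_commute 6 (sbar 1 F)).symm.eq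
      rw [e1, sub_mul, mul_sub, ← mul_assoc (sbar 1 F) 6, k]
      simp only [mul_assoc]
    have n24 : ∀ z : MonoidAlgebra ℂ G, (24 * z).coeff 1 = 24 * z.coeff 1 := fun z => by
      simpa using natc 24 z
    have n6 : ∀ z : MonoidAlgebra ℂ G, (6 * z).coeff 1 = 6 * z.coeff 1 := fun z => by
      simpa using natc 6 z
    rw [e, n24, MonoidAlgebra.coeff_sub, Finsupp.sub_apply, n6, N2_eq, N2_eq]
    push_cast
    ring
  rw [q] at q2
  have q3 : 4 * N2 (s1 * F) + N2 (s2 * F) + N2 (s3 * F) = 24 * (6 * N2 F - N2 (α * F)) := by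
    exact_mod_cast q2
  have := N2_nonneg (s1 * F)
  have := N2_nonneg (s2 * F)
  have := N2_nonneg (s3 * F)
  linarith

end norm

end Pool.Agent.U731.ZD
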